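import Pool.Agent.T9h33.Hole

/-!
The vertex separation number of a neighbourhood of a path.
-/

set_option autoImplicit false

namespace Pool.Agent.T9h33.Sep

open Pool.Agent.W840.CT (Pt)
open Pool.Agent.T9h33.Ca
open scoped Classical

/-- the points at distance at most `k` from the path -/
def nb (N k : ℕ) (ω : Fin (N + 1) → ℤ × ℤ) : Set (ℤ × ℤ) := {y | ∃ i, d1 (ω i) y ≤ k}

/-- the first time at distance at most `k` -/
noncomputable def ft (N k : ℕ) (ω : Fin (N + 1) → ℤ × ℤ) (y : ℤ × ℤ) : ℕ :=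
  if h : ∃ i : ℕ, ∃ hi : i < N + 1, d1 (ω ⟨i, hi⟩) y ≤ k then Nat.find h else 0

theorem ft_spec {N k : ℕ} {ω : Fin (N + 1) → ℤ × ℤ} {y : ℤ × ℤ} (hy : y ∈ nb N k ω) :
    ∃ hi : ft N k ω y < N + 1, d1 (ω ⟨ft N k ω y, hi⟩) y ≤ k := by
  have h : ∃ i : ℕ, ∃ hi : i < N + 1, d1 (ω ⟨i, hi⟩) y ≤ k := by
    obtain ⟨i, hi⟩ := hy
    exact ⟨i.1, i.2, hi⟩
  unfold ft
  rw [dif_pos h]
  exact Nat.find_spec h

/-- index in the box -/
def ix (k : ℕ) (e y : ℤ × ℤ) : ℕ :=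
  (y.1 - e.1 + k).toNat * (2 * k + 1) + (y.2 - e.2 + k).toNat

theorem ix_lt {k : ℕ} {e y : ℤ × ℤ} (h : d1 e y ≤ k) : ix k e y < (2 * k + 1) ^ 2 := by
  unfold d1 at h
  have h2 := abs_nonneg (e.1 - y.1)
  have h3 := abs_nonneg (e.2 - y.2)
  have h4 : |e.1 - y.1| ≤ k := by omega
  have h5 : |e.2 - y.2| ≤ k := by omega
  rw [abs_le] at h4 h5
  unfold ix
  have h6 : (y.1 - e.1 + k).toNat ≤ 2 * k := by omega
  have h7 : (y.2 - e.2 + k).toNat ≤ 2 * k := by omega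
  nlinarith

theorem ix_inj {k : ℕ} {e y y' : ℤ × ℤ} (h : d1 e y ≤ k) (h' : d1 e y' ≤ k)
    (hi : ix k e y = ix k e y') : y = y' := by
  unfold d1 at h h'
  have h2 := abs_nonneg (e.1 - y.1)
  have h3 := abs_nonneg (e.2 - y.2)
  have h4 : |e.1 - y.1| ≤ k := by omega
  have h5 : |e.2 - y.2| ≤ k := by omega
  have g2 := abs_nonneg (e.1 - y'.1)
  have g3 := abs_nonneg (e.2 - y'.2)
  have g4 : |e.1 - y'.1| ≤ k := by omega
  have g5 : |e.2 - y'.2| ≤ k := by omega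
  rw [abs_le] at h4 h5 g4 g5
  unfold ix at hi
  have a1 : (y.2 - e.2 + k).toNat < 2 * k + 1 := by omega
  have a2 : (y'.2 - e.2 + k).toNat < 2 * k + 1 := by omega
  obtain ⟨u, hu⟩ : ∃ u, u = (y.1 - e.1 + k).toNat := ⟨_, rfl⟩
  obtain ⟨v, hv⟩ : ∃ v, v = (y.2 - e.2 + k).toNat := ⟨_, rfl⟩
  obtain ⟨u', hu'⟩ : ∃ u', u' = (y'.1 - e.1 + k).toNat := ⟨_, rfl⟩
  obtain ⟨v', hv'⟩ : ∃ v', v' = (y'.2 - e.2 + k).toNat := ⟨_, rfl⟩
  rw [← hu, ← hv, ← hu', ← hv'] at hi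
  rw [← hv] at a1
  rw [← hv'] at a2
  have e1 : u = u' := by
    have h8 : (u * (2 * k + 1) + v) / (2 * k + 1) = u := by
      rw [mul_comm, Nat.mul_add_div (by omega), Nat.div_eq_of_lt a1, add_zero]
    have h9 : (u' * (2 * k + 1) + v') / (2 * k + 1) = u' := by
      rw [mul_comm, Nat.mul_add_div (by omega), Nat.div_eq_of_lt a2, add_zero]
    rw [← h8, ← h9, hi]
  subst e1
  have e2 : v = v' := by omega
  subst e2
  exact Prod.ext (by omega) (by omega)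

/-- the order -/
noncomputable def tau (N k : ℕ) (ω : Fin (N + 1) → ℤ × ℤ) (y : ℤ × ℤ) : ℕ :=
  ft N k ω y * (2 * k + 1) ^ 2 + ix k (if h : ft N k ω y < N + 1 then ω ⟨_, h⟩ else 0) y

theorem tau_div {N k : ℕ} {ω : Fin (N + 1) → ℤ × ℤ} {y : ℤ × ℤ} (hy : y ∈ nb N k ω) :
    tau N k ω y / (2 * k + 1) ^ 2 = ft N k ω y := by
  obtain ⟨hi, hd⟩ := ft_spec hy
  unfold tau
  rw [dif_pos hi, mul_comm, Nat.mul_add_div (by positivity), Nat.div_eq_of_lt (ix_lt hd), add_zero]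

theorem tau_inj (N k : ℕ) (ω : Fin (N + 1) → ℤ × ℤ) : Set.InjOn (tau N k ω) (nb N k ω) := by
  intro y hy y' hy' h
  have h1 : ft N k ω y = ft N k ω y' := by
    rw [← tau_div hy, ← tau_div hy', h]
  obtain ⟨hi, hd⟩ := ft_spec hy
  obtain ⟨hi', hd'⟩ := ft_spec hy'
  unfold tau at h
  rw [dif_pos hi, dif_pos hi'] at h
  have h2 : ω ⟨ft N k ω y', hi'⟩ = ω ⟨ft N k ω y, hi⟩ := by
    congr 1
    exact Fin.ext h1.symm
  rw [h2] at h hd'
  have h3 : ft N k ω y * (2 * k + 1) ^ 2 = ft N k ω y' * (2 * k + 1) ^ 2 := by rw [h1]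
  rw [h3] at h
  exact ix_inj hd hd' (Nat.add_left_cancel h)

/-- the boundary of an initial segment of the order -/
def bd (N k : ℕ) (ω : Fin (N + 1) → ℤ × ℤ) (τ : ℤ × ℤ → ℕ) (s : ℕ) : Set (ℤ × ℤ) :=
  {y | y ∈ nb N k ω ∧ τ y ≤ s ∧ ∃ y' ∈ nb N k ω, s < τ y' ∧ d1 y y' = 1}

theorem bd_card (N k : ℕ) (ω : Fin (N + 1) → ℤ × ℤ) (s : ℕ) :
    Nat.card (bd N k ω (tau N k ω) s) ≤
      (2 * k + 1) ^ 2 * ca N (s / (2 * k + 1) ^ 2) (2 * k + 1) ω := by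
  obtain ⟨t, ht⟩ : ∃ t, t = s / (2 * k + 1) ^ 2 := ⟨_, rfl⟩
  rw [← ht]
  obtain ⟨I, hI⟩ : ∃ I : Finset (Fin (N + 1)), I = (Finset.univ : Finset (Fin (N + 1))).filter
    (fun i => i.1 ≤ t ∧ ∃ j : Fin (N + 1), t ≤ j.1 ∧ d1 (ω i) (ω j) ≤ (2 * k + 1 : ℕ)) :=
    ⟨_, rfl⟩
  have hIc : I.card = ca N t (2 * k + 1) ω := by rw [hI]; rfl
  have hsub : bd N k ω (tau N k ω) s ⊆
      ((I.biUnion (fun i => (bx (ω i) k).filter (fun y => d1 (ω i) y ≤ k)) : Finset _) :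
        Set (ℤ × ℤ)) := by
    rintro y ⟨hy, hys, y', hy', hys', hyy⟩
    obtain ⟨hi, hd⟩ := ft_spec hy
    obtain ⟨hj, hd'⟩ := ft_spec hy'
    rw [Finset.mem_coe, Finset.mem_biUnion]
    refine ⟨⟨_, hi⟩, ?_, ?_⟩
    · rw [hI, Finset.mem_filter]
      refine ⟨Finset.mem_univ _, ?_, ⟨_, hj⟩, ?_, ?_⟩
      · simp only
        rw [← tau_div hy, ht]
        exact Nat.div_le_div_right hys
      · simp only
        rw [← tau_div hy', ht]
        exact Nat.div_le_div_right hys'.le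
      · unfold d1 at hd hd' hyy ⊢
        have a1 := abs_sub_le (ω ⟨ft N k ω y, hi⟩).1 y.1 (ω ⟨ft N k ω y', hj⟩).1
        have a2 := abs_sub_le (ω ⟨ft N k ω y, hi⟩).2 y.2 (ω ⟨ft N k ω y', hj⟩).2
        have a3 := abs_sub_le y.1 y'.1 (ω ⟨ft N k ω y', hj⟩).1
        have a4 := abs_sub_le y.2 y'.2 (ω ⟨ft N k ω y', hj⟩).2
        rw [abs_sub_comm y'.1] at a3
        rw [abs_sub_comm y'.2] at a4
        push_cast
        linarith
    · rw [Finset.mem_filter]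
      refine ⟨?_, hd⟩
      rw [mem_bx]
      unfold d1 at hd
      have h2 := abs_nonneg ((ω ⟨ft N k ω y, hi⟩).1 - y.1)
      have h3 := abs_nonneg ((ω ⟨ft N k ω y, hi⟩).2 - y.2)
      rw [abs_sub_comm y.1, abs_sub_comm y.2]
      constructor <;> omega
  have h1 : Nat.card (bd N k ω (tau N k ω) s) = (bd N k ω (tau N k ω) s).ncard :=
    Nat.card_coe_set_eq _
  rw [h1]
  refine (Set.ncard_le_ncard hsub (Finset.finite_toSet _)).trans ?_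
  rw [Set.ncard_coe_finset]
  refine Finset.card_biUnion_le.trans ?_
  refine (Finset.sum_le_card_nsmul _ _ ((2 * k + 1) ^ 2) (fun i _ => ?_)).trans ?_
  · refine (Finset.card_filter_le _ _).trans ?_
    rw [bx_card]
  · rw [smul_eq_mul, hIc, mul_comm]

end Pool.Agent.T9h33.Sep
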