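import Mathlib

set_option autoImplicit false

/-!
Graphs with few triangles: an edge density bound from the number of triangles with a pendant edge.
-/

namespace Pool.Agent.T9h33.TG

open Finset

variable {V : Type*}

/-- degree -/
def dg (S : Finset V) (m : V → V → ℝ) (a : V) : ℝ := ∑ b ∈ S, m a b

/-- ordered pairs of adjacent neighbours -/
def en (S : Finset V) (m : V → V → ℝ) (a : V) : ℝ :=
  ∑ b ∈ S, ∑ c ∈ S, m a b * m a c * m b c

theorem en_le (S : Finset V) (m : V → V → ℝ) (h01 : ∀ a b, m a b = 0 ∨ m a b = 1) (a : V) :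
    en S m a ≤ dg S m a ^ 2 := by
  unfold en dg
  rw [sq, Finset.sum_mul_sum]
  refine Finset.sum_le_sum fun b _ => Finset.sum_le_sum fun c _ => ?_
  rcases h01 a b with h1 | h1 <;> rcases h01 a c with h2 | h2 <;> rcases h01 b c with h3 | h3 <;>
    rw [h1, h2, h3] <;> norm_num

theorem en_nonneg (S : Finset V) (m : V → V → ℝ) (h01 : ∀ a b, m a b = 0 ∨ m a b = 1) (a : V) :
    0 ≤ en S m a := by
  unfold en
  refine Finset.sum_nonneg fun b _ => Finset.sum_nonneg fun c _ => ?_
  rcases h01 a b with h1 | h1 <;> rcases h01 a c with h2 | h2 <;> rcases h01 b c with h3 | h3 <;>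
    rw [h1, h2, h3] <;> norm_num

theorem dg_nonneg (S : Finset V) (m : V → V → ℝ) (h01 : ∀ a b, m a b = 0 ∨ m a b = 1) (a : V) :
    0 ≤ dg S m a := by
  unfold dg
  refine Finset.sum_nonneg fun b _ => ?_
  rcases h01 a b with h1 | h1 <;> rw [h1] <;> norm_num

/-- triangles from triangles with a pendant edge -/
theorem tri_le (S : Finset V) (m : V → V → ℝ) (h01 : ∀ a b, m a b = 0 ∨ m a b = 1)
    (N l : ℝ) (hN : 0 < N) (hl : 0 < l) (hcard : (S.card : ℝ) = N) :
    ∑ a ∈ S, en S m a ≤ (∑ a ∈ S, dg S m a * en S m a) / (l * N) + l ^ 2 * N ^ 3 := by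
  have h1 : ∀ a ∈ S, en S m a ≤ dg S m a * en S m a / (l * N) + l ^ 2 * N ^ 2 := by
    intro a _
    have e0 := en_nonneg S m h01 a
    have d0 := dg_nonneg S m h01 a
    have e1 := en_le S m h01 a
    rcases le_or_gt (l * N) (dg S m a) with h | h
    · have h2 : en S m a ≤ dg S m a * en S m a / (l * N) := by
        rw [le_div_iff₀ (by positivity)]
        nlinarith
      have : 0 ≤ l ^ 2 * N ^ 2 := by positivity
      linarith
    · have h2 : dg S m a ^ 2 ≤ (l * N) ^ 2 := by
        exact pow_le_pow_left₀ d0 h.le 2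
      have h3 : 0 ≤ dg S m a * en S m a / (l * N) := by positivity
      nlinarith
  refine (Finset.sum_le_sum h1).trans (le_of_eq ?_)
  rw [Finset.sum_add_distrib, Finset.sum_const, nsmul_eq_mul, hcard, Finset.sum_div]
  ring

/-- Goodman's inequality -/
theorem goodman (S : Finset V) (m : V → V → ℝ) (h01 : ∀ a b, m a b = 0 ∨ m a b = 1)
    (hsym : ∀ a b, m a b = m b a) (N : ℝ) (hN : 0 < N) (hcard : (S.card : ℝ) = N) :
    2 * (∑ a ∈ S, dg S m a) ^ 2 / N - N * ∑ a ∈ S, dg S m a ≤ ∑ a ∈ S, en S m a := by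
  have h1 : ∀ a b, dg S m a + dg S m b - N ≤ ∑ c ∈ S, m a c * m b c := by
    intro a b
    unfold dg
    rw [← hcard, ← Finset.sum_add_distrib, Finset.card_eq_sum_ones]
    push_cast
    rw [← Finset.sum_sub_distrib]
    refine Finset.sum_le_sum fun c _ => ?_
    rcases h01 a c with h1 | h1 <;> rcases h01 b c with h2 | h2 <;> rw [h1, h2] <;> norm_num
  have h2 : ∑ a ∈ S, ∑ b ∈ S, m a b * (dg S m a + dg S m b - N) ≤ ∑ a ∈ S, en S m a := by
    refine Finset.sum_le_sum fun a _ => ?_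
    unfold en
    refine Finset.sum_le_sum fun b _ => ?_
    have h3 : ∑ c ∈ S, m a b * m a c * m b c = m a b * ∑ c ∈ S, m a c * m b c := by
      rw [Finset.mul_sum]
      exact Finset.sum_congr rfl fun c _ => by ring
    rw [h3]
    refine mul_le_mul_of_nonneg_left (h1 a b) ?_
    rcases h01 a b with h | h <;> rw [h] <;> norm_num
  refine le_trans ?_ h2
  have h3 : ∑ a ∈ S, ∑ b ∈ S, m a b * (dg S m a + dg S m b - N) =
      2 * ∑ a ∈ S, dg S m a ^ 2 - N * ∑ a ∈ S, dg S m a := by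
    have e1 : ∀ a ∈ S, ∑ b ∈ S, m a b * (dg S m a + dg S m b - N) =
        dg S m a ^ 2 + ∑ b ∈ S, m a b * dg S m b - N * dg S m a := by
      intro a _
      have : ∀ b ∈ S, m a b * (dg S m a + dg S m b - N) =
          m a b * dg S m a + m a b * dg S m b - N * m a b := fun b _ => by ring
      rw [Finset.sum_congr rfl this, Finset.sum_sub_distrib, Finset.sum_add_distrib,
        ← Finset.sum_mul, ← Finset.mul_sum]
      unfold dg
      ring
    rw [Finset.sum_congr rfl e1, Finset.sum_sub_distrib, Finset.sum_add_distrib,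
      ← Finset.mul_sum, Finset.sum_comm]
    have e2 : ∑ b ∈ S, ∑ a ∈ S, m a b * dg S m b = ∑ b ∈ S, dg S m b ^ 2 := by
      refine Finset.sum_congr rfl fun b _ => ?_
      rw [← Finset.sum_mul, sq]
      congr 1
      unfold dg
      exact Finset.sum_congr rfl fun a _ => hsym a b
    rw [e2]
    ring
  rw [h3]
  have h4 : (∑ a ∈ S, dg S m a) ^ 2 ≤ N * ∑ a ∈ S, dg S m a ^ 2 := by
    have := sq_sum_le_card_mul_sum_sq (s := S) (f := dg S m)
    rwa [hcard] at this
  have h5 : (∑ a ∈ S, dg S m a) ^ 2 / N ≤ ∑ a ∈ S, dg S m a ^ 2 := by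
    rw [div_le_iff₀ hN]
    linarith
  have h6 : 2 * (∑ a ∈ S, dg S m a) ^ 2 / N = 2 * ((∑ a ∈ S, dg S m a) ^ 2 / N) := by ring
  rw [h6]
  linarith

/-- the final inequality: with `E = p N²` edges, `T ≤ t N³` -/
theorem half_bound {p t : ℝ} (ht : 0 ≤ t) (h : 2 * p ^ 2 - p ≤ t) :
    p ≤ 1 / 2 + t := by
  by_contra hcon
  push Not at hcon
  have h1 : 0 < 2 * p - 1 - 2 * t := by linarith
  nlinarith

end Pool.Agent.T9h33.TG
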