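import Pool.Agent.T9h33.TC
import Pool.Agent.T9h33.TG

set_option autoImplicit false

/-!
Gluing two walks of `n` steps which meet only at the origin to a walk of `2 n` steps.
-/

namespace Pool.Agent.T9h33.TD

open Finset Pool.Agent.T9h33.TA Pool.Agent.T9h33.TB Pool.Agent.T9h33.TC
open Pool.Agent.Results.MP_46f0ca_pr.WindowMerging (IsSAW)
open scoped Classical

/-- the walks meet only at their starting point -/
def Meet {n : ℕ} (α β : Fin (n + 1) → ℤ × ℤ) : Prop := ∀ i j, α i = β j → i = 0 ∧ j = 0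

/-- the indicator function -/
noncomputable def mt {n : ℕ} (α β : Fin (n + 1) → ℤ × ℤ) : ℝ := if Meet α β then 1 else 0

theorem mt_01 {n : ℕ} (α β : Fin (n + 1) → ℤ × ℤ) : mt α β = 0 ∨ mt α β = 1 := by
  unfold mt
  split_ifs
  · exact Or.inr rfl
  · exact Or.inl rfl

theorem Meet.symm {n : ℕ} {α β : Fin (n + 1) → ℤ × ℤ} (h : Meet α β) : Meet β α :=
  fun i j hij => (h j i hij.symm).symm

theorem mt_symm {n : ℕ} (α β : Fin (n + 1) → ℤ × ℤ) : mt α β = mt β α := by
  unfold mt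
  have : Meet α β ↔ Meet β α := ⟨Meet.symm, Meet.symm⟩
  simp only [this]

theorem P_val {n : ℕ} (ω : Fin (n + 1) → ℤ × ℤ) (i : Fin (n + 1)) : P ω (i : ℕ) = ω i := by
  unfold P
  congr 1
  ext
  exact val_ofNat (by omega)

theorem P_zero {n : ℕ} {ω : Fin (n + 1) → ℤ × ℤ} (h : IsSAW n ω) : P ω 0 = (0, 0) := by
  have h1 := P_val ω 0
  rw [Fin.val_zero] at h1
  rw [h1]
  exact h.1

theorem saw_step {n : ℕ} {ω : Fin (n + 1) → ℤ × ℤ} (h : IsSAW n ω) {k : ℕ} (hk : k < n) :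
    |(P ω (k + 1)).1 - (P ω k).1| + |(P ω (k + 1)).2 - (P ω k).2| = 1 := by
  have h1 := h.2.1 ⟨k, hk⟩
  have e1 := P_val ω (Fin.succ ⟨k, hk⟩)
  have e2 := P_val ω (Fin.castSucc ⟨k, hk⟩)
  simp only [Fin.val_succ, Fin.val_castSucc] at e1 e2
  rw [← e1, ← e2] at h1
  exact h1

theorem saw_of {n : ℕ} {ω : Fin (n + 1) → ℤ × ℤ} (h0 : P ω 0 = (0, 0))
    (h1 : ∀ k, k < n → |(P ω (k + 1)).1 - (P ω k).1| + |(P ω (k + 1)).2 - (P ω k).2| = 1)
    (h2 : ∀ j k, j < k → k ≤ n → P ω j ≠ P ω k) : IsSAW n ω := by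
  refine ⟨?_, ?_, ?_⟩
  · have h3 := P_val ω 0
    rw [Fin.val_zero] at h3
    rw [← h3]
    exact h0
  · intro i
    have h3 := h1 i i.2
    have e1 := P_val ω i.succ
    have e2 := P_val ω i.castSucc
    simp only [Fin.val_succ, Fin.val_castSucc] at e1 e2
    rw [← e1, ← e2]
    exact h3
  · intro i j hij
    rw [← P_val ω i, ← P_val ω j] at hij
    rcases lt_trichotomy (i : ℕ) j with h | h | h
    · exact absurd hij (h2 i j h (by omega))
    · exact Fin.ext h
    · exact absurd hij.symm (h2 j i h (by omega))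

/-- the past arm -/
def A1 {n : ℕ} (ω : Fin (2 * n + 1) → ℤ × ℤ) : Fin (n + 1) → ℤ × ℤ :=
  fun i => P ω (n - i) - P ω n

/-- the future arm -/
def A2 {n : ℕ} (ω : Fin (2 * n + 1) → ℤ × ℤ) : Fin (n + 1) → ℤ × ℤ :=
  fun i => P ω (n + i) - P ω n

theorem P_A1 {n : ℕ} (ω : Fin (2 * n + 1) → ℤ × ℤ) {k : ℕ} (hk : k ≤ n) :
    P (A1 ω) k = P ω (n - k) - P ω n := by
  show A1 ω (Fin.ofNat (n + 1) k) = _
  unfold A1
  rw [val_ofNat hk]

theorem P_A2 {n : ℕ} (ω : Fin (2 * n + 1) → ℤ × ℤ) {k : ℕ} (hk : k ≤ n) :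
    P (A2 ω) k = P ω (n + k) - P ω n := by
  show A2 ω (Fin.ofNat (n + 1) k) = _
  unfold A2
  rw [val_ofNat hk]

theorem A1_saw {n : ℕ} {ω : Fin (2 * n + 1) → ℤ × ℤ} (h : IsSAW (2 * n) ω) :
    IsSAW n (A1 ω) := by
  refine saw_of ?_ ?_ ?_
  · rw [P_A1 ω (by omega), Nat.sub_zero, sub_self]
    rfl
  · intro k hk
    rw [P_A1 ω (by omega), P_A1 ω (by omega)]
    have h1 := saw_step h (k := n - (k + 1)) (by omega)
    have e1 : n - (k + 1) + 1 = n - k := by omega
    rw [e1] at h1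
    simp only [Prod.fst_sub, Prod.snd_sub, sub_sub_sub_cancel_right]
    rw [abs_sub_comm, abs_sub_comm (P ω (n - (k + 1))).2]
    exact h1
  · intro j k hjk hk he
    rw [P_A1 ω (by omega), P_A1 ω (by omega)] at he
    have h1 := sub_left_injective he
    have := P_inj h (by omega) (by omega) h1
    omega

theorem A2_saw {n : ℕ} {ω : Fin (2 * n + 1) → ℤ × ℤ} (h : IsSAW (2 * n) ω) :
    IsSAW n (A2 ω) := by
  refine saw_of ?_ ?_ ?_
  · rw [P_A2 ω (by omega), Nat.add_zero, sub_self]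
    rfl
  · intro k hk
    rw [P_A2 ω (by omega), P_A2 ω (by omega)]
    have h1 := saw_step h (k := n + k) (by omega)
    simp only [Prod.fst_sub, Prod.snd_sub, sub_sub_sub_cancel_right]
    exact h1
  · intro j k hjk hk he
    rw [P_A2 ω (by omega), P_A2 ω (by omega)] at he
    have h1 := sub_left_injective he
    have := P_inj h (by omega) (by omega) h1
    omega

theorem meet_A {n : ℕ} {ω : Fin (2 * n + 1) → ℤ × ℤ} (h : IsSAW (2 * n) ω) :
    Meet (A1 ω) (A2 ω) := by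
  intro i j hij
  have h1 := sub_left_injective hij
  have h2 := P_inj h (by omega) (by omega) h1
  constructor <;> (ext; simp only [Fin.val_zero]; omega)

/-- glue the reversal of `α` and `β` -/
def Gl {n : ℕ} (α β : Fin (n + 1) → ℤ × ℤ) : Fin (2 * n + 1) → ℤ × ℤ :=
  fun k => if (k : ℕ) ≤ n then P α (n - k) - P α n else P β (k - n) - P α n

theorem P_Gl1 {n : ℕ} (α β : Fin (n + 1) → ℤ × ℤ) {k : ℕ} (hk : k ≤ n) :
    P (Gl α β) k = P α (n - k) - P α n := by
  show Gl α β (Fin.ofNat (2 * n + 1) k) = _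
  unfold Gl
  rw [val_ofNat (by omega), if_pos hk]

theorem P_Gl2 {n : ℕ} {α β : Fin (n + 1) → ℤ × ℤ} (hα : IsSAW n α) (hβ : IsSAW n β) {k : ℕ}
    (hk : n ≤ k) (hk2 : k ≤ 2 * n) : P (Gl α β) k = P β (k - n) - P α n := by
  rcases eq_or_lt_of_le hk with h | h
  · subst h
    rw [P_Gl1 α β le_rfl, Nat.sub_self, P_zero hα, P_zero hβ]
  · show Gl α β (Fin.ofNat (2 * n + 1) k) = _
    unfold Gl
    rw [val_ofNat (by omega), if_neg (by omega)]

theorem Gl_saw {n : ℕ} {α β : Fin (n + 1) → ℤ × ℤ} (hα : IsSAW n α) (hβ : IsSAW n β)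
    (hm : Meet α β) : IsSAW (2 * n) (Gl α β) := by
  refine saw_of ?_ ?_ ?_
  · rw [P_Gl1 α β (by omega), Nat.sub_zero, sub_self]
    rfl
  · intro k hk
    rcases lt_or_ge k n with h | h
    · rw [P_Gl1 α β (by omega), P_Gl1 α β (by omega)]
      have h1 := saw_step hα (k := n - (k + 1)) (by omega)
      have e1 : n - (k + 1) + 1 = n - k := by omega
      rw [e1] at h1
      simp only [Prod.fst_sub, Prod.snd_sub, sub_sub_sub_cancel_right]
      rw [abs_sub_comm, abs_sub_comm (P α (n - (k + 1))).2]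
      exact h1
    · rw [P_Gl2 hα hβ (by omega) (by omega), P_Gl2 hα hβ (by omega) (by omega)]
      have h1 := saw_step hβ (k := k - n) (by omega)
      have e1 : k + 1 - n = k - n + 1 := by omega
      rw [e1]
      simp only [Prod.fst_sub, Prod.snd_sub, sub_sub_sub_cancel_right]
      exact h1
  · intro j k hjk hk he
    rcases le_or_gt k n with h | h
    · rw [P_Gl1 α β (by omega), P_Gl1 α β (by omega)] at he
      have h1 := sub_left_injective he
      have := P_inj hα (by omega) (by omega) h1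
      omega
    · rw [P_Gl2 hα hβ h.le hk] at he
      rcases lt_or_ge j n with h2 | h2
      · rw [P_Gl1 α β h2.le] at he
        have h1 := sub_left_injective he
        have h3 := hm (Fin.ofNat _ (n - j)) (Fin.ofNat _ (k - n)) h1
        have h4 := congrArg Fin.val h3.1
        rw [val_ofNat (by omega), Fin.val_zero] at h4
        omega
      · rw [P_Gl2 hα hβ h2 (by omega)] at he
        have h1 := sub_left_injective he
        have := P_inj hβ (by omega) (by omega) h1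
        omega

theorem A1_Gl {n : ℕ} {α β : Fin (n + 1) → ℤ × ℤ} (hα : IsSAW n α) :
    A1 (Gl α β) = α := by
  funext i
  unfold A1
  rw [P_Gl1 α β (by omega), P_Gl1 α β le_rfl, Nat.sub_self, P_zero hα]
  have e1 : n - (n - (i : ℕ)) = i := by omega
  rw [e1, P_val, sub_sub_sub_cancel_right]
  exact sub_zero _

theorem A2_Gl {n : ℕ} {α β : Fin (n + 1) → ℤ × ℤ} (hα : IsSAW n α) (hβ : IsSAW n β) :
    A2 (Gl α β) = β := by
  funext i
  unfold A2
  rw [P_Gl2 hα hβ (by omega) (by omega), P_Gl1 α β le_rfl, Nat.sub_self, P_zero hα]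
  have e1 : n + (i : ℕ) - n = i := by omega
  rw [e1, P_val, sub_sub_sub_cancel_right]
  exact sub_zero _

theorem A_inj {n : ℕ} {ω ω' : Fin (2 * n + 1) → ℤ × ℤ} (h : IsSAW (2 * n) ω)
    (h' : IsSAW (2 * n) ω') (h1 : A1 ω = A1 ω') (h2 : A2 ω = A2 ω') : ω = ω' := by
  have hn : P ω n = P ω' n := by
    have h3 := congrFun h1 (Fin.last n)
    unfold A1 at h3
    rw [Fin.val_last, Nat.sub_self, P_zero h, P_zero h'] at h3
    exact sub_right_injective h3
  funext k
  rw [← P_val ω k, ← P_val ω' k]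
  have hk := k.2
  rcases le_or_gt (k : ℕ) n with h4 | h4
  · have h3 := congrFun h1 (Fin.ofNat _ (n - k))
    unfold A1 at h3
    rw [val_ofNat (by omega), hn] at h3
    have e1 : n - (n - (k : ℕ)) = k := by omega
    rw [e1] at h3
    exact sub_left_injective h3
  · have h3 := congrFun h2 (Fin.ofNat _ (k - n))
    unfold A2 at h3
    rw [val_ofNat (by omega), hn] at h3
    have e1 : n + ((k : ℕ) - n) = k := by omega
    rw [e1] at h3
    exact sub_left_injective h3

/-- sums over pairs of walks that meet only at the origin -/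
theorem sum_glue (n : ℕ) (F : (Fin (n + 1) → ℤ × ℤ) → (Fin (n + 1) → ℤ × ℤ) → ℝ) :
    ∑ α ∈ Sn n, ∑ β ∈ Sn n, mt α β * F α β = ∑ ω ∈ Sn (2 * n), F (A1 ω) (A2 ω) := by
  have e1 : ∑ α ∈ Sn n, ∑ β ∈ Sn n, mt α β * F α β =
      ∑ p ∈ (Sn n ×ˢ Sn n).filter (fun p => Meet p.1 p.2), F p.1 p.2 := by
    rw [Finset.sum_filter, Finset.sum_product]
    refine Finset.sum_congr rfl fun α _ => Finset.sum_congr rfl fun β _ => ?_
    unfold mt
    split_ifs <;> simp
  rw [e1]
  symm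
  refine Finset.sum_bij (fun ω _ => (A1 ω, A2 ω)) ?_ ?_ ?_ ?_
  · intro ω hω
    rw [mem_Sn] at hω
    rw [Finset.mem_filter, Finset.mem_product, mem_Sn, mem_Sn]
    exact ⟨⟨A1_saw hω, A2_saw hω⟩, meet_A hω⟩
  · intro ω hω ω' hω' he
    rw [mem_Sn] at hω hω'
    exact A_inj hω hω' (congrArg Prod.fst he) (congrArg Prod.snd he)
  · intro p hp
    rw [Finset.mem_filter, Finset.mem_product, mem_Sn, mem_Sn] at hp
    refine ⟨Gl p.1 p.2, mem_Sn.mpr (Gl_saw hp.1.1 hp.1.2 hp.2), ?_⟩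
    rw [A1_Gl hp.1.1, A2_Gl hp.1.1 hp.1.2]
  · intro ω _
    rfl

theorem av_of {n : ℕ} {ω ω' : Fin (2 * n + 1) → ℤ × ℤ} (h1 : Meet (A1 ω) (A1 ω'))
    (h2 : Meet (A1 ω) (A2 ω')) : Av n ω ω' := by
  intro u v hu hv he
  rcases le_or_gt v n with h | h
  · have h3 := h1 (Fin.ofNat _ (n - u)) (Fin.ofNat _ (n - v)) (by
      unfold A1
      rw [val_ofNat (by omega), val_ofNat (by omega)]
      have e1 : n - (n - u) = u := by omega
      have e2 : n - (n - v) = v := by omega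
      rw [e1, e2]
      exact he)
    have h4 := congrArg Fin.val h3.1
    rw [val_ofNat (by omega), Fin.val_zero] at h4
    omega
  · have h3 := h2 (Fin.ofNat _ (n - u)) (Fin.ofNat _ (v - n)) (by
      unfold A1 A2
      rw [val_ofNat (by omega), val_ofNat (by omega)]
      have e1 : n - (n - u) = u := by omega
      have e2 : n + (v - n) = v := by omega
      rw [e1, e2]
      exact he)
    have h4 := congrArg Fin.val h3.1
    rw [val_ofNat (by omega), Fin.val_zero] at h4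
    omega

/-- edges -/
theorem sum_dg (n : ℕ) : ∑ α ∈ Sn n, TG.dg (Sn n) mt α = (Sn (2 * n)).card := by
  unfold TG.dg
  have h := sum_glue n (fun _ _ => 1)
  simp only [mul_one, Finset.sum_const, nsmul_eq_mul] at h
  exact h

/-- triangles with a pendant edge -/
theorem sum_dg_en (n : ℕ) : ∑ α ∈ Sn n, TG.dg (Sn n) mt α * TG.en (Sn n) mt α ≤
    ∑ ω ∈ Sn (2 * n), ∑ ω' ∈ Sn (2 * n), (if Av n ω ω' then (1 : ℝ) else 0) := by
  have e1 : ∀ α ∈ Sn n, TG.dg (Sn n) mt α * TG.en (Sn n) mt α =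
      ∑ β ∈ Sn n, mt α β * (∑ ω' ∈ Sn (2 * n), mt α (A1 ω') * mt α (A2 ω')) := by
    intro α _
    unfold TG.dg TG.en
    rw [Finset.sum_mul]
    refine Finset.sum_congr rfl fun β _ => ?_
    congr 1
    rw [← sum_glue n (fun γ δ => mt α γ * mt α δ)]
    refine Finset.sum_congr rfl fun γ _ => Finset.sum_congr rfl fun δ _ => ?_
    ring
  rw [Finset.sum_congr rfl e1,
    sum_glue n (fun α _ => ∑ ω' ∈ Sn (2 * n), mt α (A1 ω') * mt α (A2 ω'))]
  refine Finset.sum_le_sum fun ω _ => Finset.sum_le_sum fun ω' _ => ?_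
  by_cases h1 : Meet (A1 ω) (A1 ω')
  · by_cases h2 : Meet (A1 ω) (A2 ω')
    · rw [if_pos (av_of h1 h2)]
      unfold mt
      rw [if_pos h1, if_pos h2]
      norm_num
    · have : mt (A1 ω) (A2 ω') = 0 := if_neg h2
      rw [this, mul_zero]
      split_ifs <;> norm_num
  · have : mt (A1 ω) (A1 ω') = 0 := if_neg h1
    rw [this, zero_mul]
    split_ifs <;> norm_num

end Pool.Agent.T9h33.TD
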