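import Pool.Agent.W870.Pg.LCount
import Pool.Agent.T9h33.TD

set_option autoImplicit false

/-!
Two half-plane arcs with the same endpoints form a self-avoiding polygon.
-/

namespace Pool.Agent.T9h33.AR

open Finset Pool.Agent.T9h33.TA Pool.Agent.T9h33.TB Pool.Agent.T9h33.TD
open Pool.Agent.Results.MP_46f0ca_pr.WindowMerging (IsSAW)
open Pool.Agent.W870.Pg (LF mem_LF le_width)
open Pool.Agent.H924P (IsLoop width)
open scoped Classical

/-- half-plane arcs with displacement `d` -/
structure Arc (n : ℕ) (d : ℤ) (ω : Fin (n + 1) → ℤ × ℤ) : Prop where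
  saw : IsSAW n ω
  up : ∀ i, 0 ≤ (ω i).2
  last : ω (Fin.last n) = (d, 0)

/-- the two arcs, the second one reflected -/
def Fc {m m' : ℕ} (α : Fin (m + 1) → ℤ × ℤ) (β : Fin (m' + 1) → ℤ × ℤ) (j : ℕ) : ℤ × ℤ :=
  if j ≤ m then P α j else ((P β (m + m' + 1 - j)).1, -(P β (m + m' + 1 - j)).2 - 1)

variable {m m' : ℕ} {d : ℤ} {α : Fin (m + 1) → ℤ × ℤ} {β : Fin (m' + 1) → ℤ × ℤ}

theorem P_last {n : ℕ} {d : ℤ} {ω : Fin (n + 1) → ℤ × ℤ} (h : Arc n d ω) : P ω n = (d, 0) := by
  have h1 := P_val ω (Fin.last n)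
  rw [Fin.val_last] at h1
  rw [h1]
  exact h.last

theorem P_up {n : ℕ} {d : ℤ} {ω : Fin (n + 1) → ℤ × ℤ} (h : Arc n d ω) (j : ℕ) :
    0 ≤ (P ω j).2 := h.up _

theorem Fc_le (hα : Arc m d α) {j : ℕ} (hj : j ≤ m) : 0 ≤ (Fc α β j).2 := by
  unfold Fc
  rw [if_pos hj]
  exact P_up hα j

theorem Fc_gt (hβ : Arc m' d β) {j : ℕ} (hj : m < j) : (Fc α β j).2 < 0 := by
  unfold Fc
  rw [if_neg (by omega)]
  have := P_up hβ (m + m' + 1 - j)
  simp only
  omega

theorem Fc_sign (hα : Arc m d α) (hβ : Arc m' d β) (j : ℕ) : 0 ≤ (Fc α β j).2 ↔ j ≤ m := by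
  constructor
  · intro h
    by_contra hcon
    have := Fc_gt (α := α) hβ (show m < j by omega)
    omega
  · exact fun h => Fc_le hα h

theorem Fc_inj (hα : Arc m d α) (hβ : Arc m' d β) {j k : ℕ} (hj : j ≤ m + m' + 1)
    (hk : k ≤ m + m' + 1) (h : Fc α β j = Fc α β k) : j = k := by
  have h1 := Fc_sign hα hβ j
  have h2 := Fc_sign hα hβ k
  rw [h] at h1
  rcases le_or_gt j m with hjm | hjm
  · have hkm : k ≤ m := h2.mp (h1.mpr hjm)
    unfold Fc at h
    rw [if_pos hjm, if_pos hkm] at h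
    exact P_inj hα.saw hjm hkm h
  · have hkm : m < k := by
      by_contra hcon
      have := h1.mp (h2.mpr (by omega))
      omega
    unfold Fc at h
    rw [if_neg (by omega), if_neg (by omega)] at h
    have e1 := congrArg Prod.fst h
    have e2 := congrArg Prod.snd h
    simp only at e1 e2
    have e3 : P β (m + m' + 1 - j) = P β (m + m' + 1 - k) := Prod.ext e1 (by omega)
    have := P_inj hβ.saw (by omega) (by omega) e3
    omega

theorem Fc_adj (hα : Arc m d α) (hβ : Arc m' d β) {j : ℕ} (hj : j < m + m' + 1) :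
    |(Fc α β (j + 1)).1 - (Fc α β j).1| + |(Fc α β (j + 1)).2 - (Fc α β j).2| = 1 := by
  rcases lt_trichotomy j m with h | h | h
  · unfold Fc
    rw [if_pos (by omega), if_pos (by omega)]
    exact saw_step hα.saw h
  · subst h
    unfold Fc
    rw [if_neg (by omega), if_pos le_rfl]
    have e1 : j + m' + 1 - (j + 1) = m' := by omega
    rw [e1, P_last hα, P_last hβ]
    norm_num
  · unfold Fc
    rw [if_neg (by omega), if_neg (by omega)]
    have h1 := saw_step hβ.saw (k := m + m' + 1 - (j + 1)) (by omega)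
    have e1 : m + m' + 1 - (j + 1) + 1 = m + m' + 1 - j := by omega
    rw [e1] at h1
    simp only
    have e2 : -(P β (m + m' + 1 - (j + 1))).2 - 1 - (-(P β (m + m' + 1 - j)).2 - 1) =
        (P β (m + m' + 1 - j)).2 - (P β (m + m' + 1 - (j + 1))).2 := by ring
    rw [e2, abs_sub_comm]
    exact h1

theorem Fc_zero (hα : Arc m d α) : Fc α β 0 = (0, 0) := by
  unfold Fc
  rw [if_pos (by omega)]
  exact P_zero hα.saw

theorem Fc_end (hβ : Arc m' d β) : Fc α β (m + m' + 1) = (0, -1) := by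
  unfold Fc
  rw [if_neg (by omega), Nat.sub_self, P_zero hβ.saw]
  norm_num

/-- the rooted loops -/
def Lp (M : ℕ) (α : Fin (m + 1) → ℤ × ℤ) (β : Fin (m' + 1) → ℤ × ℤ) (k : ZMod M) :
    ZMod M → ℤ × ℤ := fun i => Fc α β (i + k).val - Fc α β k.val

theorem val_succ {M : ℕ} [NeZero M] (hM : 2 ≤ M) (x : ZMod M) :
    (x.val + 1 < M ∧ (x + 1).val = x.val + 1) ∨ (x.val + 1 = M ∧ (x + 1).val = 0) := by
  have h1 : (1 : ZMod M).val = 1 := by
    rw [ZMod.val_one_eq_one_mod, Nat.mod_eq_of_lt (by omega)]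
  have h2 := ZMod.val_add x 1
  rw [h1] at h2
  have h3 := ZMod.val_lt x
  rcases Nat.lt_or_ge (x.val + 1) M with h | h
  · left
    rw [Nat.mod_eq_of_lt h] at h2
    exact ⟨h, h2⟩
  · right
    have e : x.val + 1 = M := by omega
    rw [e, Nat.mod_self] at h2
    exact ⟨e, h2⟩

theorem Lp_loop {M : ℕ} [NeZero M] (hM : M = m + m' + 2) (hα : Arc m d α) (hβ : Arc m' d β)
    (k : ZMod M) : IsLoop M (Lp M α β k) := by
  have hM2 : 2 ≤ M := by omega
  refine ⟨?_, ?_, ?_⟩
  · unfold Lp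
    rw [zero_add, sub_self]
  · intro i j hij
    unfold Lp at hij
    have h1 := sub_left_injective hij
    have h2 := Fc_inj hα hβ (by have := ZMod.val_lt (i + k); omega)
      (by have := ZMod.val_lt (j + k); omega) h1
    have h3 := ZMod.val_injective M h2
    exact add_right_cancel h3
  · intro i
    unfold Lp
    simp only [Prod.fst_sub, Prod.snd_sub, sub_sub_sub_cancel_right]
    have e1 : i + 1 + k = (i + k) + 1 := by ring
    rw [e1]
    rcases val_succ hM2 (i + k) with ⟨h1, h2⟩ | ⟨h1, h2⟩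
    · rw [h2]
      exact Fc_adj hα hβ (by omega)
    · rw [h2]
      have e2 : (i + k).val = m + m' + 1 := by omega
      rw [e2, Fc_end hβ, Fc_zero hα]
      norm_num

theorem card_shift {M : ℕ} [NeZero M] (k : ZMod M) :
    ((univ : Finset (ZMod M)).filter (fun i => (i + k).val ≤ m)).card =
      ((univ : Finset (ZMod M)).filter (fun i => i.val ≤ m)).card := by
  refine Finset.card_bij (fun i _ => i + k) ?_ ?_ ?_
  · intro i hi
    rw [Finset.mem_filter] at hi ⊢
    exact ⟨Finset.mem_univ _, hi.2⟩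
  · intro i _ j _ h
    exact add_right_cancel h
  · intro j hj
    rw [Finset.mem_filter] at hj
    refine ⟨j - k, ?_, by ring⟩
    rw [Finset.mem_filter]
    refine ⟨Finset.mem_univ _, ?_⟩
    rw [sub_add_cancel]
    exact hj.2

theorem Lp_inj {M : ℕ} [NeZero M] (hM : M = m + m' + 2) {d' : ℤ}
    {α' : Fin (m + 1) → ℤ × ℤ} {β' : Fin (m' + 1) → ℤ × ℤ}
    (hα : Arc m d α) (hβ : Arc m' d β) (hα' : Arc m d' α') (hβ' : Arc m' d' β') {k k' : ZMod M}
    (h : Lp M α β k = Lp M α' β' k') : α = α' ∧ β = β' ∧ k = k' := by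
  have hM2 : 2 ≤ M := by omega
  set U := (univ : Finset (ZMod M)).filter (fun i => (i + k).val ≤ m) with hU
  set U' := (univ : Finset (ZMod M)).filter (fun i => (i + k').val ≤ m) with hU'
  have m1 : ∀ i, i ∈ U ↔ -(Fc α β k.val).2 ≤ (Lp M α β k i).2 := by
    intro i
    rw [hU, Finset.mem_filter]
    have := Fc_sign hα hβ (i + k).val
    unfold Lp
    simp only [Finset.mem_univ, true_and, Prod.snd_sub]
    rw [← this]
    constructor <;> intro h <;> linarith
  have m2 : ∀ i, i ∈ U' ↔ -(Fc α' β' k'.val).2 ≤ (Lp M α β k i).2 := by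
    intro i
    rw [hU', Finset.mem_filter, h]
    have := Fc_sign hα' hβ' (i + k').val
    unfold Lp
    simp only [Finset.mem_univ, true_and, Prod.snd_sub]
    rw [← this]
    constructor <;> intro h <;> linarith
  have hcard : U.card = U'.card := by
    rw [hU, hU', card_shift, card_shift]
  have hUU : U = U' := by
    rcases le_total (-(Fc α β k.val).2) (-(Fc α' β' k'.val).2) with hle | hle
    · refine (Finset.eq_of_subset_of_card_le (fun i hi => ?_) hcard.le).symm
      rw [m1]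
      rw [m2] at hi
      linarith
    · refine Finset.eq_of_subset_of_card_le (fun i hi => ?_) hcard.ge
      rw [m2]
      rw [m1] at hi
      linarith
  have hiff : ∀ i : ZMod M, (i + k).val ≤ m ↔ (i + k').val ≤ m := by
    intro i
    have h1 : i ∈ U ↔ i ∈ U' := by rw [hUU]
    rw [hU, hU', Finset.mem_filter, Finset.mem_filter] at h1
    simpa using h1
  have hkk : k = k' := by
    have g1 := (hiff (-k)).mp (by rw [neg_add_cancel, ZMod.val_zero]; omega)
    have g2 : ¬ (-k - 1 + k').val ≤ m := by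
      rw [← hiff]
      have e : -k - 1 + k = -1 := by ring
      rw [e]
      rcases val_succ hM2 (-1 : ZMod M) with ⟨h1, h2⟩ | ⟨h1, h2⟩
      · rw [neg_add_cancel, ZMod.val_zero] at h2
        omega
      · omega
    rcases val_succ hM2 (-k - 1 + k') with ⟨h1, h2⟩ | ⟨h1, h2⟩
    · have e : -k - 1 + k' + 1 = -k + k' := by ring
      rw [e] at h2
      omega
    · have e : -k - 1 + k' + 1 = -k + k' := by ring
      rw [e] at h2
      have h3 : -k + k' = 0 := (ZMod.val_eq_zero _).mp h2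
      have h4 : k' = k := by
        calc k' = k + (-k + k') := by ring
          _ = k := by rw [h3, add_zero]
      exact h4.symm
  subst hkk
  have h0 : Fc α β k.val = Fc α' β' k.val := by
    have h1 := congrFun h (-k)
    unfold Lp at h1
    rw [neg_add_cancel, ZMod.val_zero, Fc_zero hα, Fc_zero hα'] at h1
    exact sub_right_injective h1
  have hall : ∀ j : ℕ, j < M → Fc α β j = Fc α' β' j := by
    intro j hj
    have h1 := congrFun h ((j : ZMod M) - k)
    unfold Lp at h1
    rw [sub_add_cancel, ZMod.val_natCast, Nat.mod_eq_of_lt hj, h0] at h1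
    exact sub_left_injective h1
  refine ⟨?_, ?_, rfl⟩
  · funext i
    have h1 := hall i (by have := i.2; omega)
    unfold Fc at h1
    rw [if_pos (by have := i.2; omega), if_pos (by have := i.2; omega), P_val, P_val] at h1
    exact h1
  · funext i
    have hi := i.2
    have h1 := hall (m + m' + 1 - i) (by omega)
    unfold Fc at h1
    rw [if_neg (by omega), if_neg (by omega)] at h1
    have e : m + m' + 1 - (m + m' + 1 - (i : ℕ)) = i := by omega
    rw [e, P_val, P_val] at h1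
    have e1 := congrArg Prod.fst h1
    have e2 := congrArg Prod.snd h1
    simp only at e1 e2
    exact Prod.ext e1 (by omega)

/-- the arcs -/
noncomputable def AF (n : ℕ) (d : ℤ) : Finset (Fin (n + 1) → ℤ × ℤ) :=
  (Sn n).filter (Arc n d)

theorem mem_AF {n : ℕ} {d : ℤ} {ω : Fin (n + 1) → ℤ × ℤ} : ω ∈ AF n d ↔ Arc n d ω := by
  unfold AF
  rw [Finset.mem_filter, mem_Sn]
  exact ⟨fun h => h.2, fun h => ⟨h.saw, h⟩⟩

/-- **the arcs and the polygons** -/
theorem arcs_le (m m' : ℕ) (D : Finset ℤ) {M : ℕ} [NeZero M] (hM : M = m + m' + 2) :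
    M * ∑ d ∈ D, d.natAbs * ((AF m d).card * (AF m' d).card) ≤ ∑ f ∈ LF M, width M f := by
  set T := (D.sigma (fun d => AF m d ×ˢ AF m' d)) ×ˢ (univ : Finset (ZMod M)) with hT
  have h1 : M * ∑ d ∈ D, d.natAbs * ((AF m d).card * (AF m' d).card) =
      ∑ x ∈ T, x.1.1.natAbs := by
    rw [hT, Finset.sum_product]
    simp only [Finset.sum_const, Finset.card_univ, ZMod.card, smul_eq_mul]
    rw [← Finset.mul_sum, Finset.sum_sigma]
    congr 1
    refine Finset.sum_congr rfl fun d _ => ?_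
    simp only [Finset.sum_const, Finset.card_product, smul_eq_mul]
    ring
  rw [h1]
  have hmem : ∀ x ∈ T, Arc m x.1.1 x.1.2.1 ∧ Arc m' x.1.1 x.1.2.2 := by
    intro x hx
    rw [hT, Finset.mem_product, Finset.mem_sigma, Finset.mem_product] at hx
    exact ⟨mem_AF.mp hx.1.2.1, mem_AF.mp hx.1.2.2⟩
  have hinj : Set.InjOn (fun x : ((_ : ℤ) × ((Fin (m + 1) → ℤ × ℤ) × (Fin (m' + 1) → ℤ × ℤ))) ×
      ZMod M => Lp M x.1.2.1 x.1.2.2 x.2) (T : Set _) := by
    rintro ⟨⟨d, α, β⟩, k⟩ hx ⟨⟨d', α', β'⟩, k'⟩ hy h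
    have a1 := hmem _ hx
    have a2 := hmem _ hy
    simp only at a1 a2 h
    obtain ⟨e1, e2, e3⟩ := Lp_inj hM a1.1 a1.2 a2.1 a2.2 h
    subst e1
    subst e2
    subst e3
    have e4 := a1.1.last
    rw [a2.1.last] at e4
    have e5 := congrArg Prod.fst e4
    simp only at e5
    subst e5
    rfl
  calc ∑ x ∈ T, x.1.1.natAbs
      ≤ ∑ x ∈ T, width M (Lp M x.1.2.1 x.1.2.2 x.2) := by
        refine Finset.sum_le_sum fun x hx => ?_
        obtain ⟨a1, a2⟩ := hmem x hx
        have h2 := le_width (Lp M x.1.2.1 x.1.2.2 x.2) ((m : ZMod M) - x.2) (0 - x.2)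
        have e1 : (Lp M x.1.2.1 x.1.2.2 x.2 ((m : ZMod M) - x.2)).1 -
            (Lp M x.1.2.1 x.1.2.2 x.2 (0 - x.2)).1 = x.1.1 := by
          unfold Lp
          rw [sub_add_cancel, sub_add_cancel, ZMod.val_zero, ZMod.val_natCast,
            Nat.mod_eq_of_lt (by omega), Fc_zero a1]
          unfold Fc
          rw [if_pos le_rfl, P_last a1]
          simp
        rw [e1] at h2
        exact h2
    _ = ∑ f ∈ T.image (fun x : ((_ : ℤ) × ((Fin (m + 1) → ℤ × ℤ) × (Fin (m' + 1) → ℤ × ℤ))) ×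
          ZMod M => Lp M x.1.2.1 x.1.2.2 x.2), width M f := by
        rw [Finset.sum_image hinj]
    _ ≤ ∑ f ∈ LF M, width M f := by
        refine Finset.sum_le_sum_of_subset fun f hf => ?_
        rw [Finset.mem_image] at hf
        obtain ⟨x, hx, rfl⟩ := hf
        obtain ⟨a1, a2⟩ := hmem x hx
        exact mem_LF.mpr (Lp_loop hM a1 a2 x.2)

end Pool.Agent.T9h33.AR
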