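import Pool.Agent.T9h33.Cn2
import Pool.Agent.Y981.CT

/-!
Close approaches of the past and the future of a self-avoiding walk.
-/

set_option autoImplicit false

namespace Pool.Agent.T9h33.Ca

open Pool.Agent.W840.CT (Pt Con Nb adj adj_comm LS LS_finite SW ex ex_val pa fu pa_mem fu_mem
  split_disj split_inj TT cn interior)
open Pool.Agent.T9h33.Fr
open Pool.Agent.T9h33.Dt
open Pool.Agent.T9h33.Loc
open Pool.Agent.T9h33.Cn2
open scoped Classical

/-- distance of two points of the lattice -/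
def d1 (u v : Pt) : ℤ := |u.1 - v.1| + |u.2 - v.2|

theorem d1_comm (u v : Pt) : d1 u v = d1 v u := by
  unfold d1
  rw [abs_sub_comm u.1, abs_sub_comm u.2]

theorem d1_nonneg (u v : Pt) : 0 ≤ d1 u v := by
  unfold d1
  positivity

theorem d1_eq_zero {u v : Pt} (h : d1 u v = 0) : u = v := by
  unfold d1 at h
  have h1 := abs_nonneg (u.1 - v.1)
  have h2 := abs_nonneg (u.2 - v.2)
  have h3 : |u.1 - v.1| = 0 := by omega
  have h4 : |u.2 - v.2| = 0 := by omega
  rw [abs_eq_zero] at h3 h4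
  exact Prod.ext (by omega) (by omega)

/-- the points of `A` at distance exactly `r` from `B` -/
noncomputable def cl (A : Finset Pt) (B : List Pt) (r : ℕ) : Finset Pt :=
  A.filter (fun p => (∀ v ∈ B, (r : ℤ) ≤ d1 v p) ∧ ∃ v ∈ B, d1 v p = r)

/-- a box -/
noncomputable def bx (e : Pt) (k : ℕ) : Finset Pt :=
  Finset.Icc (e.1 - k) (e.1 + k) ×ˢ Finset.Icc (e.2 - k) (e.2 + k)

theorem bx_card (e : Pt) (k : ℕ) : (bx e k).card = (2 * k + 1) ^ 2 := by
  unfold bx
  rw [Finset.card_product, Int.card_Icc, Int.card_Icc]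
  have h1 : (e.1 + k + 1 - (e.1 - k)).toNat = 2 * k + 1 := by omega
  have h2 : (e.2 + k + 1 - (e.2 - k)).toNat = 2 * k + 1 := by omega
  rw [h1, h2, sq]

theorem mem_bx {e p : Pt} {k : ℕ} : p ∈ bx e k ↔ |p.1 - e.1| ≤ k ∧ |p.2 - e.2| ≤ k := by
  unfold bx
  rw [Finset.mem_product, Finset.mem_Icc, Finset.mem_Icc, abs_le, abs_le]
  constructor <;> rintro ⟨⟨h1, h2⟩, h3, h4⟩ <;> refine ⟨⟨?_, ?_⟩, ?_, ?_⟩ <;> omega

/-- points at distance `R + 1 ≥ 2` -/
theorem cl_le {μ W : ℝ} {R : ℕ} (h : Has μ W R) (hR : 1 ≤ R) {m : ℕ} {A : Finset Pt}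
    {B : List Pt} (hB : B ∈ LS m) :
    (cl A B (R + 1)).card ≤ (QQ h A B).card + 2 * (2 * R + 5) ^ 2 := by
  obtain ⟨b1, b2, b3, b4⟩ := hB
  have hsub : cl A B (R + 1) ⊆ QQ h A B ∪ (bx 0 (R + 2) ∪ bx (B.getLastD 0) (R + 2)) := by
    intro p hp
    unfold cl at hp
    rw [Finset.mem_filter] at hp
    obtain ⟨hpA, hmin, v, hvB, hv⟩ := hp
    by_contra hcon
    simp only [Finset.mem_union, not_or] at hcon
    obtain ⟨c1, c2, c3⟩ := hcon
    apply c1
    rw [mem_bx] at c2 c3
    have hfar : (R : ℤ) + 2 < |p.1| ∨ (R : ℤ) + 2 < |p.2| := by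
      by_contra hc
      push Not at hc
      apply c2
      simp only [Prod.fst_zero, Prod.snd_zero, sub_zero]
      push_cast
      exact hc
    unfold QQ
    rw [Finset.mem_filter]
    refine ⟨hpA, hfar, ?_⟩
    have h0 : ∀ v ∈ B, (R : ℤ) < |v.1 - p.1| + |v.2 - p.2| := by
      intro v hv
      have := hmin v hv
      unfold d1 at this
      push_cast at this
      omega
    have h1 : ∃ v ∈ B, |v.1 - p.1| + |v.2 - p.2| = (R : ℤ) + 1 := by
      refine ⟨v, hvB, ?_⟩
      unfold d1 at hv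
      push_cast at hv
      exact hv
    obtain ⟨g, b, z, hS⟩ := loc b3 b4 hR h0 h1 (by
      intro x hx hxd
      have n1 := abs_nonneg (x.1 - p.1)
      have n2 := abs_nonneg (x.2 - p.2)
      refine interior hx ?_ ?_
      · rw [b2]
        intro hx0
        simp only [Option.some.injEq] at hx0
        subst hx0
        simp only [Prod.fst_zero, Prod.snd_zero, zero_sub, abs_neg] at hxd n1 n2
        rcases hfar with hf | hf <;> omega
      · intro hx0
        apply c3
        rw [List.getLastD_eq_getLast?, hx0]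
        simp only [Option.getD_some]
        rw [abs_sub_comm p.1, abs_sub_comm p.2]
        push_cast
        constructor <;> omega)
    obtain ⟨i, hi⟩ := exists_sg b3 b4 h0 hS (has_spec h hS.1).1
    -- the key
    rcases hS.2.1 with ⟨hb0, hz⟩ | hz
    · subst hb0
      subst hz
      refine ⟨⟨(g, ⟨0, by omega⟩, true, i), ⟨by simp only; omega, fun _ => rfl⟩⟩, ?_⟩
      exact hi
    · subst hz
      refine ⟨⟨(g, ⟨b, by have := hS.1; omega⟩, false, i), ⟨hS.1, fun h => absurd h (by simp)⟩⟩, ?_⟩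
      exact hi
  have h1 := Finset.card_le_card hsub
  have h2 := Finset.card_union_le (QQ h A B) (bx 0 (R + 2) ∪ bx (B.getLastD 0) (R + 2))
  have h3 := Finset.card_union_le (bx 0 (R + 2)) (bx (B.getLastD 0) (R + 2))
  rw [bx_card, bx_card] at h3
  have e : 2 * (R + 2) + 1 = 2 * R + 5 := by ring
  rw [e] at h3
  omega

theorem cl_zero {A : Finset Pt} {B : List Pt} (hA : ∀ v ∈ B, v ∈ A → v = 0) :
    (cl A B 0).card ≤ 1 := by
  rw [Finset.card_le_one]
  have key : ∀ p ∈ cl A B 0, p = 0 := by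
    intro p hp
    unfold cl at hp
    rw [Finset.mem_filter] at hp
    obtain ⟨hpA, -, v, hvB, hv⟩ := hp
    have := d1_eq_zero (by simpa using hv)
    subst this
    exact hA v hvB hpA
  intro a ha b hb
  rw [key a ha, key b hb]

theorem cl_one {N : ℕ} {ω : Fin (N + 1) → ℤ × ℤ} {t : ℕ} (ht : t ≤ N) :
    (cl (pa ω t).toFinset (fu ω t) 1).card ≤ TT N t ω + 9 := by
  have hsub : cl (pa ω t).toFinset (fu ω t) 1 ⊆
      (((Finset.univ : Finset (Fin (N + 1) × Fin (N + 1))).filter
        (fun q => q.1.1 < t ∧ t < q.2.1 ∧ adj (ω q.1) (ω q.2))).image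
          (fun q => ex ω q.1.1 - ex ω t)) ∪ bx 0 1 := by
    intro p hp
    unfold cl at hp
    rw [Finset.mem_filter, List.mem_toFinset] at hp
    obtain ⟨hpA, -, v, hvB, hv⟩ := hp
    rw [Finset.mem_union]
    by_cases hbx : p ∈ bx 0 1
    · exact Or.inr hbx
    left
    rw [mem_bx] at hbx
    simp only [Prod.fst_zero, Prod.snd_zero, sub_zero] at hbx
    unfold pa at hpA
    unfold fu at hvB
    rw [List.mem_map] at hpA hvB
    obtain ⟨i, hi, rfl⟩ := hpA
    obtain ⟨j, hj, rfl⟩ := hvB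
    rw [List.mem_range] at hi hj
    have hadj : adj (ex ω (t - i)) (ex ω (t + j)) := by
      unfold adj
      unfold d1 at hv
      simp only [Prod.fst_sub, Prod.snd_sub, sub_sub_sub_cancel_right] at hv
      exact_mod_cast hv
    have hi0 : i ≠ 0 := by
      rintro rfl
      apply hbx
      simp
    have hj0 : j ≠ 0 := by
      rintro rfl
      apply hbx
      rw [add_zero] at hadj
      unfold adj at hadj
      have n1 := abs_nonneg ((ex ω t).1 - (ex ω (t - i)).1)
      have n2 := abs_nonneg ((ex ω t).2 - (ex ω (t - i)).2)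
      rw [Prod.fst_sub, Prod.snd_sub, abs_sub_comm, abs_sub_comm (ex ω (t - i)).2]
      push_cast
      constructor <;> omega
    rw [Finset.mem_image]
    refine ⟨(⟨t - i, by omega⟩, ⟨t + j, by omega⟩), ?_, rfl⟩
    rw [Finset.mem_filter]
    refine ⟨Finset.mem_univ _, by simp only; omega, by simp only; omega, ?_⟩
    have e1 := ex_val ω ⟨t - i, by omega⟩
    have e2 := ex_val ω ⟨t + j, by omega⟩
    simp only at e1 e2 ⊢
    rw [← e1, ← e2]
    exact hadj
  have h1 := Finset.card_le_card hsub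
  refine h1.trans ((Finset.card_union_le _ _).trans ?_)
  rw [bx_card]
  have h2 : ((((Finset.univ : Finset (Fin (N + 1) × Fin (N + 1))).filter
        (fun q => q.1.1 < t ∧ t < q.2.1 ∧ adj (ω q.1) (ω q.2))).image
          (fun q => ex ω q.1.1 - ex ω t))).card ≤ TT N t ω := by
    refine Finset.card_image_le.trans (le_of_eq ?_)
    unfold TT
    congr 1
  omega

/-- the number of points of the past up to `t` at distance at most `k` from the future from `t` -/
noncomputable def ca (N t k : ℕ) (ω : Fin (N + 1) → ℤ × ℤ) : ℕ :=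
  ((Finset.univ : Finset (Fin (N + 1))).filter
    (fun i => i.1 ≤ t ∧ ∃ j : Fin (N + 1), t ≤ j.1 ∧ d1 (ω i) (ω j) ≤ k)).card

theorem d1_step {N : ℕ} {ω : Fin (N + 1) → ℤ × ℤ} (h : SW N ω) {i j : ℕ} (hij : i ≤ j)
    (hj : j ≤ N) : d1 (ex ω i) (ex ω j) ≤ (j : ℤ) - i := by
  induction j, hij using Nat.le_induction with
  | base => unfold d1; simp
  | succ j hij ih =>
    have h1 := ih (by omega)
    have h2 := h.step (i := j) (by omega)
    unfold adj at h2
    unfold d1 at h1 ⊢
    have h3 := abs_sub_le (ex ω i).1 (ex ω j).1 (ex ω (j + 1)).1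
    have h4 := abs_sub_le (ex ω i).2 (ex ω j).2 (ex ω (j + 1)).2
    rw [abs_sub_comm (ex ω j).1] at h3
    rw [abs_sub_comm (ex ω j).2] at h4
    push_cast
    linarith

theorem ca_le {N : ℕ} {ω : Fin (N + 1) → ℤ × ℤ} (h : SW N ω) {t : ℕ} (ht : t ≤ N) (k : ℕ) :
    ca N t k ω ≤ ∑ r ∈ Finset.range (min k N + 1), (cl (pa ω t).toFinset (fu ω t) r).card := by
  refine le_trans ?_ (Finset.card_biUnion_le (s := Finset.range (min k N + 1))
    (t := fun r => cl (pa ω t).toFinset (fu ω t) r))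
  unfold ca
  refine Finset.card_le_card_of_injOn (fun i => ex ω i.1 - ex ω t) ?_ ?_
  · intro i hi
    rw [Finset.mem_coe, Finset.mem_filter] at hi
    obtain ⟨-, hit, j, hj, hd⟩ := hi
    have hj2 := j.2
    -- minimal distance
    have hne : (fu ω t).toFinset.Nonempty := by
      refine ⟨ex ω (t + 0) - ex ω t, ?_⟩
      rw [List.mem_toFinset]
      unfold fu
      rw [List.mem_map]
      exact ⟨0, List.mem_range.2 (by omega), rfl⟩
    obtain ⟨v, hv, hmin⟩ := Finset.exists_min_image (fu ω t).toFinset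
      (fun v => d1 v (ex ω i.1 - ex ω t)) hne
    obtain ⟨r, hr⟩ : ∃ r : ℕ, (r : ℤ) = d1 v (ex ω i.1 - ex ω t) :=
      ⟨(d1 v (ex ω i.1 - ex ω t)).toNat, Int.toNat_of_nonneg (d1_nonneg _ _)⟩
    have hjm : ex ω (t + (j.1 - t)) - ex ω t ∈ (fu ω t).toFinset := by
      rw [List.mem_toFinset]
      unfold fu
      rw [List.mem_map]
      exact ⟨j.1 - t, List.mem_range.2 (by omega), rfl⟩
    have h1 := hmin _ hjm
    rw [show t + (j.1 - t) = j.1 by omega, ← hr] at h1
    have h2 : d1 (ex ω j.1 - ex ω t) (ex ω i.1 - ex ω t) = d1 (ω i) (ω j) := by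
      rw [ex_val, ex_val, d1_comm]
      unfold d1
      simp only [Prod.fst_sub, Prod.snd_sub, sub_sub_sub_cancel_right]
    rw [h2] at h1
    have h3 : d1 (ω i) (ω j) ≤ N := by
      have := d1_step h (i := i.1) (j := j.1) (by omega) (by omega)
      rw [ex_val, ex_val] at this
      omega
    rw [Finset.mem_coe, Finset.mem_biUnion]
    refine ⟨r, Finset.mem_range.2 ?_, ?_⟩
    · rw [Nat.lt_succ_iff, Nat.le_min]
      constructor <;> omega
    · unfold cl
      rw [Finset.mem_filter, List.mem_toFinset]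
      refine ⟨?_, ?_, v, List.mem_toFinset.1 hv, hr.symm⟩
      · unfold pa
        rw [List.mem_map]
        exact ⟨t - i.1, List.mem_range.2 (by omega), by rw [show t - (t - i.1) = i.1 by omega]⟩
      · intro u hu
        rw [hr]
        exact hmin u (List.mem_toFinset.2 hu)
  · intro i hi j hj hij
    have := h.inj (by omega) (by omega) (sub_left_injective hij)
    exact Fin.ext this

theorem pair_le {μ W : ℝ} {R : ℕ} (h : Has μ W R) (N t J : ℕ) (ht : t ≤ N) :
    ({ω | SW N ω ∧ J ≤ (QQ h (pa ω t).toFinset (fu ω t)).card} :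
      Set (Fin (N + 1) → ℤ × ℤ)).ncard ≤ (PQ h t (N - t) J).ncard := by
  refine Set.ncard_le_ncard_of_injOn (fun ω => (pa ω t, fu ω t)) ?_ ?_ (PQ_finite _ _ _ _)
  · rintro ω ⟨h1, h2⟩
    exact ⟨pa_mem h1 ht, fu_mem h1 ht, split_disj h1 ht, h2⟩
  · rintro ω ⟨h1, -⟩ ω' ⟨h1', -⟩ h
    simp only [Prod.mk.injEq] at h
    exact split_inj h1 h1' ht h.1 h.2

theorem QQ_le {μ W : ℝ} {R : ℕ} (h : Has μ W R) {N t : ℕ} (ω : Fin (N + 1) → ℤ × ℤ) (ht : t ≤ N) :
    (QQ h (pa ω t).toFinset (fu ω t)).card ≤ N + 1 := by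
  unfold QQ
  refine (Finset.card_filter_le _ _).trans ((List.toFinset_card_le _).trans ?_)
  unfold pa
  rw [List.length_map, List.length_range]
  omega

end Pool.Agent.T9h33.Ca
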