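import Pool.Agent.T9h33.Dt

/-!
Few pairs of walks have many places for a detour at a given distance.
-/

set_option autoImplicit false

namespace Pool.Agent.T9h33.Cn2

open Pool.Agent.W840.CT (Pt Con Nb adj adj_comm LS LS_finite choose_ge)
open Pool.Agent.T9h33.Fr
open Pool.Agent.T9h33.Dt
open Pool.Agent.T9h33.Loc
open scoped Classical

/-- the lists are short -/
theorem ell_le (D : Dat) (h : D.Ls.Nonempty) : D.ell + 1 ≤ (2 * D.rho + 1) ^ 2 := by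
  obtain ⟨L, hL⟩ := h
  have h1 : (L.map (D.h 0)).Nodup := (D.nodup L hL).map (D.inj 0)
  have h2 : (L.map (D.h 0)).toFinset ⊆
      Finset.Icc (-(D.rho : ℤ)) D.rho ×ˢ Finset.Icc (-(D.rho : ℤ)) D.rho := by
    intro v hv
    rw [List.mem_toFinset, List.mem_map] at hv
    obtain ⟨u, hu, rfl⟩ := hv
    have h3 := D.near 0 u (Or.inl (D.sub L hL u hu))
    simp only [Prod.fst_zero, Prod.snd_zero, sub_zero] at h3
    rw [Finset.mem_product, Finset.mem_Icc, Finset.mem_Icc]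
    rw [abs_le, abs_le] at h3
    exact h3
  have h3 := Finset.card_le_card h2
  rw [List.toFinset_card_of_nodup h1, List.length_map, D.len L hL, Finset.card_product,
    Int.card_Icc] at h3
  have e : (D.rho + 1 - -(D.rho : ℤ)).toNat = 2 * D.rho + 1 := by omega
  rw [e] at h3
  rw [sq]
  exact h3

/-- keys -/
abbrev KeyT (R : ℕ) := (Bool × Bool × Bool) × Fin R × Bool × Fin 4

/-- valid keys -/
def okk (R : ℕ) (k : KeyT R) : Prop :=
  2 * (k.2.1 : ℕ) + 1 ≤ R ∧ (k.2.2.1 = true → (k.2.1 : ℕ) = 0)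

abbrev Key (R : ℕ) := {k : KeyT R // okk R k}

noncomputable instance (R : ℕ) : Fintype (Key R) := Fintype.ofFinite _

theorem card_key (R : ℕ) : Fintype.card (Key R) ≤ 64 * R := by
  have h1 : Fintype.card (Key R) ≤ Fintype.card (KeyT R) :=
    Fintype.card_le_of_injective _ Subtype.val_injective
  have h2 : Fintype.card (KeyT R) = 64 * R := by
    simp [Fintype.card_prod]
    ring
  omega

/-- the family of strands -/
def Has (μ W : ℝ) (R : ℕ) : Prop := ∀ b : ℕ, 2 * b + 1 ≤ R →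
  ∃ N, ∃ F : Finset (List Pt), Sd R b N F ∧ W * μ ^ N ≤ F.card

theorem has_spec {μ W : ℝ} {R : ℕ} (h : Has μ W R) {b : ℕ} (hb : 2 * b + 1 ≤ R) :
    Sd R b (h b hb).choose (h b hb).choose_spec.choose ∧
      W * μ ^ (h b hb).choose ≤ ((h b hb).choose_spec.choose.card : ℝ) :=
  (h b hb).choose_spec.choose_spec

/-- the position of `z` of a key -/
def zk (R : ℕ) (k : KeyT R) : Pt :=
  if k.2.2.1 = true then (-1, 0) else (((k.2.1 : ℕ) : ℤ), ((k.2.1 : ℕ) : ℤ) + 1)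

theorem zk_ok {R : ℕ} (k : Key R) : Zp (k.1.2.1 : ℕ) (zk R k.1) := by
  unfold zk Zp
  by_cases h : k.1.2.2.1 = true
  · left
    rw [if_pos h]
    exact ⟨k.2.2 h, rfl⟩
  · right
    rw [if_neg h]

/-- the data of a key -/
noncomputable def Dk {μ W : ℝ} {R : ℕ} (h : Has μ W R) (k : Key R) : Dat :=
  DD k.1.1 k.2.1 (has_spec h k.2.1).1 (zk_ok k) k.1.2.2.2

theorem Dk_spec {μ W : ℝ} {R : ℕ} (h : Has μ W R) (k : Key R) :
    (Dk h k).rho = R + 2 ∧ ∃ N, W * μ ^ N ≤ ((Dk h k).Ls.card : ℝ) ∧ (Dk h k).ell ≤ N + 2 := by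
  refine ⟨DD_rho _ _ _ _ _, (h _ k.2.1).choose, ?_, (DD_ell _ _ _ _ _).1⟩
  unfold Dk
  rw [DD_card]
  exact (has_spec h k.2.1).2

/-- the points with a detour -/
noncomputable def QQ {μ W : ℝ} {R : ℕ} (h : Has μ W R) (A : Finset Pt) (B : List Pt) : Finset Pt :=
  A.filter (fun p => ((R : ℤ) + 2 < |p.1| ∨ (R : ℤ) + 2 < |p.2|) ∧ ∃ k, Sg (Dk h k) B p)

/-- classes -/
noncomputable def cla (R : ℕ) : Finset Pt :=
  Finset.Ico 0 (2 * (R : ℤ) + 6) ×ˢ Finset.Ico 0 (2 * (R : ℤ) + 6)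

theorem card_cla (R : ℕ) : (cla R).card = (2 * R + 6) ^ 2 := by
  unfold cla
  rw [Finset.card_product, Int.card_Ico]
  have e : (2 * (R : ℤ) + 6 - 0).toNat = 2 * R + 6 := by omega
  rw [e, sq]

theorem QQ_card {μ W : ℝ} {R : ℕ} (h : Has μ W R) (A : Finset Pt) (B : List Pt) :
    (QQ h A B).card ≤ ∑ q ∈ (Finset.univ : Finset (Key R)) ×ˢ cla R,
      (QS (Dk h q.1) A q.2 B).card := by
  refine (Finset.card_le_card ?_).trans Finset.card_biUnion_le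
  intro p hp
  unfold QQ at hp
  rw [Finset.mem_filter] at hp
  obtain ⟨hA, hf, k, hs⟩ := hp
  rw [Finset.mem_biUnion]
  have hrho := (Dk_spec h k).1
  have hm : (Dk h k).m = 2 * (R : ℤ) + 6 := by
    unfold Dat.m
    rw [hrho]
    push_cast
    ring
  refine ⟨(k, cls (Dk h k) p), ?_, ?_⟩
  · rw [Finset.mem_product]
    refine ⟨Finset.mem_univ _, ?_⟩
    unfold cla cls
    rw [Finset.mem_product, Finset.mem_Ico, Finset.mem_Ico, hm]
    simp only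
    have hpos : (0 : ℤ) < 2 * (R : ℤ) + 6 := by positivity
    exact ⟨⟨Int.emod_nonneg _ hpos.ne', Int.emod_lt_of_pos _ hpos⟩,
      ⟨Int.emod_nonneg _ hpos.ne', Int.emod_lt_of_pos _ hpos⟩⟩
  · unfold QS
    rw [Finset.mem_filter]
    refine ⟨hA, rfl, ?_, hs⟩
    unfold far
    rw [hrho]
    push_cast
    exact hf

/-- number of words of length `n` as a real number, with a bound -/
def Up (μ E : ℝ) (M : ℕ) : Prop := ∀ n ≤ M, ((LS n).ncard : ℝ) ≤ 4 * μ ^ n * E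

variable {μ W E : ℝ} {R M : ℕ}

theorem count2 (hμ : 1 ≤ μ) (hW : 0 < W) (hE : 0 < E) (hU : Up μ E M) (h : Has μ W R)
    (A : Finset Pt) (k : Key R) (c : Pt) (n r k0 : ℕ) (hk0 : Real.exp 1 * μ ^ 2 ≤ k0 * W)
    (hk1 : 1 ≤ k0) (hM : n + (2 * R + 5) ^ 2 * r ≤ M) :
    (({B | B ∈ LS n ∧ (∀ v ∈ B, v ∈ A → v = 0) ∧ k0 * r ≤ (QS (Dk h k) A c B).card} :
      Set (List Pt)).ncard : ℝ) ≤ 4 * μ ^ n * E * Real.exp (-r) := by
  obtain ⟨hrho, N, hN, hell⟩ := Dk_spec h k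
  have hμ0 : 0 < μ := by linarith
  have hne : (Dk h k).Ls.Nonempty := by
    rw [← Finset.card_pos]
    have : (0 : ℝ) < ((Dk h k).Ls.card : ℝ) := lt_of_lt_of_le (by positivity) hN
    exact_mod_cast this
  have hl := ell_le _ hne
  rw [hrho] at hl
  have h1 := count1 (Dk h k) A c r (k0 * r) n
  have h2 := choose_ge k0 r hk1
  obtain ⟨S, hS⟩ : ∃ S, S = ({B | B ∈ LS n ∧ (∀ v ∈ B, v ∈ A → v = 0) ∧
    k0 * r ≤ (QS (Dk h k) A c B).card} : Set (List Pt)).ncard := ⟨_, rfl⟩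
  rw [← hS] at h1 ⊢
  have hle : n + (Dk h k).ell * r ≤ M := by
    refine le_trans ?_ hM
    have e1 : (2 * (R + 2) + 1) ^ 2 = (2 * R + 5) ^ 2 := by ring
    rw [e1] at hl
    have : (Dk h k).ell * r ≤ (2 * R + 5) ^ 2 * r := Nat.mul_le_mul_right _ (by omega)
    omega
  have h3 := hU _ hle
  have h4 : (S : ℝ) * (k0 : ℝ) ^ r * (W * μ ^ N) ^ r ≤ 4 * μ ^ (n + (Dk h k).ell * r) * E := by
    refine le_trans ?_ h3
    have h5 : S * k0 ^ r * (Dk h k).Ls.card ^ r ≤ (LS (n + (Dk h k).ell * r)).ncard := by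
      refine le_trans ?_ h1
      gcongr
    calc (S : ℝ) * (k0 : ℝ) ^ r * (W * μ ^ N) ^ r
        ≤ (S : ℝ) * (k0 : ℝ) ^ r * ((Dk h k).Ls.card : ℝ) ^ r := by gcongr
      _ ≤ _ := by exact_mod_cast h5
  have h6 : μ ^ (n + (Dk h k).ell * r) ≤ μ ^ n * ((μ ^ N) ^ r * (μ ^ 2) ^ r) := by
    rw [← pow_mul, ← pow_mul, ← pow_add, ← pow_add]
    apply pow_le_pow_right₀ hμ
    have : (Dk h k).ell * r ≤ (N + 2) * r := Nat.mul_le_mul_right _ hell
    linarith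
  have h7 : (S : ℝ) * (Real.exp 1 * μ ^ 2) ^ r * (μ ^ N) ^ r ≤
      4 * μ ^ n * E * ((μ ^ N) ^ r * (μ ^ 2) ^ r) := by
    calc (S : ℝ) * (Real.exp 1 * μ ^ 2) ^ r * (μ ^ N) ^ r
        ≤ (S : ℝ) * (k0 * W) ^ r * (μ ^ N) ^ r := by gcongr
      _ = (S : ℝ) * (k0 : ℝ) ^ r * (W * μ ^ N) ^ r := by rw [mul_pow, mul_pow]; ring
      _ ≤ 4 * μ ^ (n + (Dk h k).ell * r) * E := h4
      _ ≤ 4 * (μ ^ n * ((μ ^ N) ^ r * (μ ^ 2) ^ r)) * E := by gcongr
      _ = _ := by ring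
  have h8 : 0 < (μ ^ N) ^ r * (μ ^ 2) ^ r := by positivity
  have h9 : (S : ℝ) * Real.exp 1 ^ r ≤ 4 * μ ^ n * E := by
    have e : (S : ℝ) * (Real.exp 1 * μ ^ 2) ^ r * (μ ^ N) ^ r =
        (S : ℝ) * Real.exp 1 ^ r * ((μ ^ N) ^ r * (μ ^ 2) ^ r) := by rw [mul_pow]; ring
    rw [e] at h7
    exact le_of_mul_le_mul_right h7 h8
  rw [Real.exp_neg, ← div_eq_mul_inv, le_div_iff₀ (Real.exp_pos _)]
  calc (S : ℝ) * Real.exp r = (S : ℝ) * Real.exp 1 ^ r := by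
        rw [← Real.exp_nat_mul, mul_one]
    _ ≤ _ := h9

theorem count3 (hμ : 1 ≤ μ) (hW : 0 < W) (hE : 0 < E) (hU : Up μ E M) (h : Has μ W R)
    (A : Finset Pt) (n r k0 : ℕ) (hk0 : Real.exp 1 * μ ^ 2 ≤ k0 * W)
    (hk1 : 1 ≤ k0) (hr : 1 ≤ r) (hR : 1 ≤ R) (hM : n + (2 * R + 5) ^ 2 * r ≤ M) :
    (({B | B ∈ LS n ∧ (∀ v ∈ B, v ∈ A → v = 0) ∧
      64 * R * (2 * R + 6) ^ 2 * (k0 * r) ≤ (QQ h A B).card} :
      Set (List Pt)).ncard : ℝ) ≤
      (64 * R * (2 * R + 6) ^ 2 : ℕ) * (4 * μ ^ n * E * Real.exp (-r)) := by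
  obtain ⟨U, hU'⟩ : ∃ U : Key R × Pt → Set (List Pt), U = fun q =>
    {B | B ∈ LS n ∧ (∀ v ∈ B, v ∈ A → v = 0) ∧ k0 * r ≤ (QS (Dk h q.1) A q.2 B).card} := ⟨_, rfl⟩
  have hUm : ∀ q B, B ∈ U q ↔ B ∈ LS n ∧ (∀ v ∈ B, v ∈ A → v = 0) ∧
      k0 * r ≤ (QS (Dk h q.1) A q.2 B).card := by
    intro q B
    rw [hU']
    exact Iff.rfl
  have hUf : ∀ q, (U q).Finite := fun q =>
    (LS_finite n).subset (fun B hB => ((hUm q B).1 hB).1)
  have hcard : ((Finset.univ : Finset (Key R)) ×ˢ cla R).card ≤ 64 * R * (2 * R + 6) ^ 2 := by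
    rw [Finset.card_product, card_cla, Finset.card_univ]
    exact Nat.mul_le_mul_right _ (card_key R)
  have hpos : 0 < k0 * r := Nat.mul_pos hk1 hr
  have hsub : ({B | B ∈ LS n ∧ (∀ v ∈ B, v ∈ A → v = 0) ∧
      64 * R * (2 * R + 6) ^ 2 * (k0 * r) ≤ (QQ h A B).card} : Set (List Pt)) ⊆
      (((Finset.univ : Finset (Key R)) ×ˢ cla R).biUnion (fun q => (hUf q).toFinset) :
        Finset (List Pt)) := by
    rintro B ⟨h1, h2, h3⟩
    have h4 := h3.trans (QQ_card h A B)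
    rw [Finset.mem_coe, Finset.mem_biUnion]
    by_contra hcon
    push Not at hcon
    have h5 : ∀ q ∈ (Finset.univ : Finset (Key R)) ×ˢ cla R,
        (QS (Dk h q.1) A q.2 B).card < k0 * r := by
      intro q hq
      by_contra h6
      apply hcon q hq
      rw [Set.Finite.mem_toFinset, hUm]
      exact ⟨h1, h2, not_lt.1 h6⟩
    rcases ((Finset.univ : Finset (Key R)) ×ˢ cla R).eq_empty_or_nonempty with h6 | h6
    · rw [h6, Finset.sum_empty] at h4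
      have : 0 < 64 * R * (2 * R + 6) ^ 2 * (k0 * r) := by positivity
      omega
    · have h7 := Finset.sum_lt_sum_of_nonempty h6 h5
      rw [Finset.sum_const, smul_eq_mul] at h7
      have h8 := Nat.mul_le_mul_right (k0 * r) hcard
      omega
  have h1 := Set.ncard_le_ncard hsub (Finset.finite_toSet _)
  rw [Set.ncard_coe_finset] at h1
  have h2 := h1.trans Finset.card_biUnion_le
  have h3 : ∀ q ∈ (Finset.univ : Finset (Key R)) ×ˢ cla R, (((hUf q).toFinset.card : ℕ) : ℝ) ≤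
      4 * μ ^ n * E * Real.exp (-r) := by
    intro q _
    rw [← Set.ncard_eq_toFinset_card _ (hUf q)]
    have := count2 hμ hW hE hU h A q.1 q.2 n r k0 hk0 hk1 hM
    rw [hU']
    exact this
  have h4 : 0 ≤ 4 * μ ^ n * E * Real.exp (-r) := by positivity
  calc (({B | B ∈ LS n ∧ (∀ v ∈ B, v ∈ A → v = 0) ∧
      64 * R * (2 * R + 6) ^ 2 * (k0 * r) ≤ (QQ h A B).card} : Set (List Pt)).ncard : ℝ)
      ≤ ((∑ q ∈ (Finset.univ : Finset (Key R)) ×ˢ cla R, (hUf q).toFinset.card : ℕ) : ℝ) := by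
        exact_mod_cast h2
    _ = ∑ q ∈ (Finset.univ : Finset (Key R)) ×ˢ cla R, (((hUf q).toFinset.card : ℕ) : ℝ) := by
        push_cast; rfl
    _ ≤ ∑ q ∈ (Finset.univ : Finset (Key R)) ×ˢ cla R, 4 * μ ^ n * E * Real.exp (-r) :=
        Finset.sum_le_sum h3
    _ = (((Finset.univ : Finset (Key R)) ×ˢ cla R).card : ℝ) * (4 * μ ^ n * E * Real.exp (-r)) := by
        rw [Finset.sum_const, nsmul_eq_mul]
    _ ≤ _ := by
        apply mul_le_mul_of_nonneg_right _ h4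
        exact_mod_cast hcard

/-- pairs of walks -/
def PQ {μ W : ℝ} {R : ℕ} (h : Has μ W R) (t n J : ℕ) : Set (List Pt × List Pt) :=
  {q | q.1 ∈ LS t ∧ q.2 ∈ LS n ∧ (∀ v ∈ q.2, v ∈ q.1 → v = 0) ∧
    J ≤ (QQ h q.1.toFinset q.2).card}

theorem PQ_finite {μ W : ℝ} {R : ℕ} (h : Has μ W R) (t n J : ℕ) : (PQ h t n J).Finite :=
  ((LS_finite t).prod (LS_finite n)).subset (fun _ hq => ⟨hq.1, hq.2.1⟩)

theorem count4 (hμ : 1 ≤ μ) (hW : 0 < W) (hE : 0 < E) (hU : Up μ E M) (h : Has μ W R)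
    (t n r k0 : ℕ) (hk0 : Real.exp 1 * μ ^ 2 ≤ k0 * W)
    (hk1 : 1 ≤ k0) (hr : 1 ≤ r) (hR : 1 ≤ R) (ht : t ≤ M) (hM : n + (2 * R + 5) ^ 2 * r ≤ M) :
    ((PQ h t n (64 * R * (2 * R + 6) ^ 2 * (k0 * r))).ncard : ℝ) ≤
      (64 * R * (2 * R + 6) ^ 2 : ℕ) * (16 * μ ^ (t + n) * E ^ 2 * Real.exp (-r)) := by
  obtain ⟨G, hG⟩ : ∃ G : List Pt → Set (List Pt), G = fun A =>
    {B | B ∈ LS n ∧ (∀ v ∈ B, v ∈ A.toFinset → v = 0) ∧
      64 * R * (2 * R + 6) ^ 2 * (k0 * r) ≤ (QQ h A.toFinset B).card} := ⟨_, rfl⟩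
  have hGm : ∀ A B, B ∈ G A ↔ B ∈ LS n ∧ (∀ v ∈ B, v ∈ A.toFinset → v = 0) ∧
      64 * R * (2 * R + 6) ^ 2 * (k0 * r) ≤ (QQ h A.toFinset B).card := by
    intro A B
    rw [hG]
    exact Iff.rfl
  have hGf : ∀ A, (G A).Finite := fun A => (LS_finite n).subset (fun B hB => ((hGm A B).1 hB).1)
  have hsub : (PQ h t n (64 * R * (2 * R + 6) ^ 2 * (k0 * r))) ⊆
      (((LS_finite t).toFinset.sigma (fun A => (hGf A).toFinset)).image
        (fun q : (Σ _ : List Pt, List Pt) => (q.1, q.2)) : Finset (List Pt × List Pt)) := by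
    rintro ⟨A, B⟩ ⟨h1, h2, h3, h4⟩
    simp only at h1 h2 h3 h4
    rw [Finset.mem_coe, Finset.mem_image]
    refine ⟨⟨A, B⟩, ?_, rfl⟩
    rw [Finset.mem_sigma, Set.Finite.mem_toFinset, Set.Finite.mem_toFinset, hGm]
    exact ⟨h1, h2, fun v hv hvA => h3 v hv (List.mem_toFinset.1 hvA), h4⟩
  have h1 : (PQ h t n (64 * R * (2 * R + 6) ^ 2 * (k0 * r))).ncard ≤
      ∑ A ∈ (LS_finite t).toFinset, (hGf A).toFinset.card := by
    refine (Set.ncard_le_ncard hsub (Finset.finite_toSet _)).trans ?_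
    rw [Set.ncard_coe_finset]
    refine Finset.card_image_le.trans ?_
    rw [Finset.card_sigma]
  have h2 : ∀ A ∈ (LS_finite t).toFinset, (((hGf A).toFinset.card : ℕ) : ℝ) ≤
      (64 * R * (2 * R + 6) ^ 2 : ℕ) * (4 * μ ^ n * E * Real.exp (-r)) := by
    intro A _
    rw [← Set.ncard_eq_toFinset_card _ (hGf A)]
    have := count3 hμ hW hE hU h A.toFinset n r k0 hk0 hk1 hr hR hM
    rw [hG]
    exact this
  have h3 : (((LS_finite t).toFinset.card : ℕ) : ℝ) ≤ 4 * μ ^ t * E := by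
    rw [← Set.ncard_eq_toFinset_card _ (LS_finite t)]
    exact hU t ht
  have h4 : 0 ≤ (64 * R * (2 * R + 6) ^ 2 : ℕ) * (4 * μ ^ n * E * Real.exp (-r)) := by positivity
  calc ((PQ h t n (64 * R * (2 * R + 6) ^ 2 * (k0 * r))).ncard : ℝ)
      ≤ ((∑ A ∈ (LS_finite t).toFinset, (hGf A).toFinset.card : ℕ) : ℝ) := by exact_mod_cast h1
    _ = ∑ A ∈ (LS_finite t).toFinset, (((hGf A).toFinset.card : ℕ) : ℝ) := by push_cast; rfl
    _ ≤ ∑ A ∈ (LS_finite t).toFinset,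
        (64 * R * (2 * R + 6) ^ 2 : ℕ) * (4 * μ ^ n * E * Real.exp (-r)) :=
        Finset.sum_le_sum h2
    _ = (((LS_finite t).toFinset.card : ℕ) : ℝ) *
        ((64 * R * (2 * R + 6) ^ 2 : ℕ) * (4 * μ ^ n * E * Real.exp (-r))) := by
        rw [Finset.sum_const, nsmul_eq_mul]
    _ ≤ (4 * μ ^ t * E) * ((64 * R * (2 * R + 6) ^ 2 : ℕ) * (4 * μ ^ n * E * Real.exp (-r))) :=
        mul_le_mul_of_nonneg_right h3 h4
    _ = _ := by rw [pow_add]; ring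

end Pool.Agent.T9h33.Cn2
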