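import Pool.Agent.T9h33.Fr

/-!
Counting self-avoiding walks with many places for a detour.
-/

set_option autoImplicit false

namespace Pool.Agent.T9h33.Fr

open Pool.Agent.W840.CT (Pt Con LS LS_finite)
open scoped Classical

/-- the modulus -/
def Dat.m (F : Dat) : ℤ := 2 * (F.rho : ℤ) + 2

theorem Dat.m_pos (F : Dat) : 0 < F.m := by unfold Dat.m; positivity

/-- residue class -/
def cls (F : Dat) (p : Pt) : Pt := (p.1 % F.m, p.2 % F.m)

/-- far from the origin -/
def far (F : Dat) (p : Pt) : Prop := (F.rho : ℤ) < |p.1| ∨ (F.rho : ℤ) < |p.2|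

theorem eq_of_mod {m a b : ℤ} (h : a % m = b % m) (h2 : |a - b| < m) : a = b := by
  have h3 : m ∣ a - b := Int.dvd_of_emod_eq_zero (Int.emod_eq_emod_iff_emod_sub_eq_zero.1 h)
  have := Int.eq_zero_of_abs_lt_dvd h3 h2
  omega

theorem eq_of_cls {F : Dat} {p q : Pt} (h : cls F p = cls F q) (h1 : |p.1 - q.1| < F.m)
    (h2 : |p.2 - q.2| < F.m) : p = q := by
  unfold cls at h
  rw [Prod.mk.injEq] at h
  exact Prod.ext (eq_of_mod h.1 h1) (eq_of_mod h.2 h2)

/-- points of `A` in the class `c` with a detour -/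
noncomputable def QS (F : Dat) (A : Finset Pt) (c : Pt) (B : List Pt) : Finset Pt :=
  A.filter (fun p => cls F p = c ∧ far F p ∧ Sg F B p)

variable {F : Dat} {A : Finset Pt} {c : Pt} {B : List Pt} {T : Finset Pt} {f : Pt → List Pt}

theorem fam_of (hT : T ⊆ QS F A c B) (hf : ∀ p ∈ T, f p ∈ F.Ls) (hA : ∀ v ∈ B, v ∈ A → v = 0) :
    Fam F B A T f := by
  have h : ∀ p ∈ T, p ∈ A ∧ cls F p = c ∧ far F p ∧ Sg F B p := by
    intro p hp
    exact Finset.mem_filter.1 (hT hp)
  refine ⟨fun p hp => (h p hp).2.2.2, hf, fun p hp p' hp' hne => ?_, fun p hp => (h p hp).1, hA⟩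
  have h1 := (h p hp).2.1
  have h2 := (h p' hp').2.1
  rw [← h2] at h1
  by_contra hcon
  push Not at hcon
  exact hne (eq_of_cls h1 hcon.1 hcon.2)

theorem recoverT (hT : T ⊆ QS F A c B) (hf : ∀ p ∈ T, f p ∈ F.Ls)
    (hA : ∀ v ∈ B, v ∈ A → v = 0) :
    (nw F B T f).toFinset.filter (fun v => v ∈ A ∧ v ≠ 0 ∧ cls F v = c) = T := by
  have H := fam_of hT hf hA
  have h : ∀ p ∈ T, p ∈ A ∧ cls F p = c ∧ far F p ∧ Sg F B p := by
    intro p hp
    exact Finset.mem_filter.1 (hT hp)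
  ext v
  simp only [Finset.mem_filter, List.mem_toFinset]
  constructor
  · rintro ⟨h1, h2, h3, h4⟩
    rcases H.mem_nw h1 with h5 | ⟨p, hp, u, hu, h5⟩
    · exact absurd (hA v h5 h2) h3
    · have hU := F.sub _ (H.mem p hp) u hu
      have hn := F.near p u (Or.inl hU)
      rw [← h5] at hn
      have h6 := (h p hp).2.1
      rw [← h6] at h4
      have hm : F.m = 2 * (F.rho : ℤ) + 2 := rfl
      rw [eq_of_cls h4 (by omega) (by omega)]
      exact hp
  · intro hv
    refine ⟨H.p_mem_nw hv, (h v hv).1, ?_, (h v hv).2.1⟩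
    rintro rfl
    rcases (h 0 hv).2.2.1 with h | h <;> simp at h <;> omega

theorem count1 (F : Dat) (A : Finset Pt) (c : Pt) (r J n : ℕ) :
    ({B | B ∈ LS n ∧ (∀ v ∈ B, v ∈ A → v = 0) ∧ J ≤ (QS F A c B).card} : Set (List Pt)).ncard *
      J.choose r * F.Ls.card ^ r ≤ (LS (n + F.ell * r)).ncard := by
  obtain ⟨S, hS⟩ : ∃ S : Set (List Pt), S = {B | B ∈ LS n ∧ (∀ v ∈ B, v ∈ A → v = 0) ∧
    J ≤ (QS F A c B).card} := ⟨_, rfl⟩
  rw [← hS]
  have hSm : ∀ B, B ∈ S ↔ B ∈ LS n ∧ (∀ v ∈ B, v ∈ A → v = 0) ∧ J ≤ (QS F A c B).card := by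
    intro B
    rw [hS]
    exact Iff.rfl
  have hSf : S.Finite := (LS_finite n).subset (fun B hB => ((hSm B).1 hB).1)
  obtain ⟨S1, hS1⟩ : ∃ S1 : Finset (Σ _ : List Pt, Finset Pt),
    S1 = (hSf.toFinset).sigma (fun B => (QS F A c B).powersetCard r) := ⟨_, rfl⟩
  have hS1m : ∀ q ∈ S1, (q.1 ∈ LS n ∧ (∀ v ∈ q.1, v ∈ A → v = 0)) ∧ q.2 ⊆ QS F A c q.1 ∧
      q.2.card = r := by
    rintro ⟨B, T⟩ hq
    rw [hS1, Finset.mem_sigma, Set.Finite.mem_toFinset, Finset.mem_powersetCard] at hq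
    have := (hSm B).1 hq.1
    exact ⟨⟨this.1, this.2.1⟩, hq.2⟩
  have hmain : (S1.sigma (fun q => q.2.pi (fun _ => F.Ls))).card ≤
      (LS_finite (n + F.ell * r)).toFinset.card := by
    refine Finset.card_le_card_of_injOn (fun x : (Σ q : (Σ _ : List Pt, Finset Pt),
      (∀ a ∈ q.2, List Pt)) => nw F x.1.1 x.1.2
        (fun p => if h : p ∈ x.1.2 then x.2 p h else [])) ?_ ?_
    · rintro ⟨⟨B, T⟩, g⟩ hq
      rw [Finset.mem_coe, Finset.mem_sigma, Finset.mem_pi] at hq
      obtain ⟨hq1, hg⟩ := hq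
      obtain ⟨⟨⟨h1, h2, h3, h4⟩, hA⟩, hT, hc⟩ := hS1m _ hq1
      simp only at h1 h2 h3 h4 hA hT hc hg ⊢
      have hf : ∀ p ∈ T, (fun p => if h : p ∈ T then g p h else []) p ∈ F.Ls := by
        intro p hp
        simp only
        rw [dif_pos hp]
        exact hg p hp
      have H := fam_of hT hf hA
      rw [Set.Finite.coe_toFinset]
      refine ⟨?_, ?_, H.chain h3 h4, H.nodup h4⟩
      · rw [H.length h4, h1, hc]
        ring
      · refine H.head h2 (fun p hp => ?_)
        exact (Finset.mem_filter.1 (hT hp)).2.2.1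
    · rintro ⟨⟨B, T⟩, g⟩ hq ⟨⟨B', T'⟩, g'⟩ hq' h
      rw [Finset.mem_coe, Finset.mem_sigma, Finset.mem_pi] at hq hq'
      obtain ⟨hq1, hg⟩ := hq
      obtain ⟨hq1', hg'⟩ := hq'
      obtain ⟨⟨⟨-, -, -, hn⟩, hA⟩, hT, -⟩ := hS1m _ hq1
      obtain ⟨⟨⟨-, -, -, hn'⟩, hA'⟩, hT', -⟩ := hS1m _ hq1'
      simp only at hn hn' hA hA' hT hT' hg hg' h
      have hf : ∀ p ∈ T, (fun p => if h : p ∈ T then g p h else []) p ∈ F.Ls := by
        intro p hp
        simp only
        rw [dif_pos hp]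
        exact hg p hp
      have hf' : ∀ p ∈ T', (fun p => if h : p ∈ T' then g' p h else []) p ∈ F.Ls := by
        intro p hp
        simp only
        rw [dif_pos hp]
        exact hg' p hp
      have e1 := recoverT hT hf hA
      have e2 := recoverT hT' hf' hA'
      rw [h, e2] at e1
      subst e1
      have H := fam_of hT hf hA
      have H' := fam_of hT' hf' hA'
      have d1 := H.decode
      have d2 := H'.decode
      rw [h, d2] at d1
      subst d1
      have e3 : g = g' := by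
        funext p hp
        have r1 := H.recover hn hp
        have r2 := H'.recover hn' hp
        rw [h, r2] at r1
        have r3 := List.map_injective_iff.2 (F.inj p) r1
        simp only [dif_pos hp] at r3
        exact r3.symm
      rw [e3]
  have hlow : hSf.toFinset.card * J.choose r ≤ S1.card := by
    rw [hS1, Finset.card_sigma, ← smul_eq_mul]
    refine Finset.card_nsmul_le_sum _ _ _ (fun B hB => ?_)
    rw [Finset.card_powersetCard]
    rw [Set.Finite.mem_toFinset] at hB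
    exact Nat.choose_le_choose r ((hSm B).1 hB).2.2
  have hcard : (S1.sigma (fun q => q.2.pi (fun _ => F.Ls))).card = S1.card * F.Ls.card ^ r := by
    rw [Finset.card_sigma, ← smul_eq_mul, ← Finset.sum_const]
    refine Finset.sum_congr rfl (fun q hq => ?_)
    rw [Finset.card_pi, Finset.prod_const, (hS1m q hq).2.2]
  have e1 : S.ncard = hSf.toFinset.card := Set.ncard_eq_toFinset_card S hSf
  have e2 : (LS (n + F.ell * r)).ncard = (LS_finite (n + F.ell * r)).toFinset.card :=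
    Set.ncard_eq_toFinset_card _ _
  rw [e1, e2]
  refine le_trans ?_ hmain
  rw [hcard]
  exact Nat.mul_le_mul_right _ hlow

end Pool.Agent.T9h33.Fr
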