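import Pool.Agent.T9h33.Str

/-!
Two disjoint strands from two neighbouring points of a sphere of radius `R` to its centre. The
coordinates are such that the centre is `(R, 0)` and the ball is
`0 ≤ x - y ≤ 2 R`, `0 ≤ x + y ≤ 2 R`.
-/

set_option autoImplicit false

namespace Pool.Agent.T9h33.Two

open Pool.Agent.W840.CT (Pt adj adj_comm)
open Pool.Agent.T9h33.Str
open Pool.Agent.N941.SP (dm)

/-- a lower bound for the weight of the diamonds -/
structure Dh (μ δ : ℝ) (M : ℕ) : Prop where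
  mu : 1 ≤ μ
  pos : 0 < δ
  le : δ * μ ≤ 1
  dia : ∀ Y : ℕ, 1 ≤ Y → Y ≤ M → ∃ N, δ * μ ^ N ≤ dm Y N

variable {μ δ : ℝ} {M : ℕ}

theorem Dh.mu0 (h : Dh μ δ M) : 0 ≤ μ := by linarith [h.mu]

theorem Dh.le1 (h : Dh μ δ M) : δ ≤ 1 := by
  have h1 := h.mu
  have h2 := h.le
  have h3 := h.pos
  nlinarith

theorem Dh.base (h : Dh μ δ M) {Y : ℕ} (h1 : 1 ≤ Y) (h2 : Y ≤ M) : St μ (0, 0) ((Y : ℤ), 0)
    (fun v => 0 < v.1 - v.2 ∧ v.1 - v.2 < Y ∧ 0 < v.1 + v.2 ∧ v.1 + v.2 < Y) δ := by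
  obtain ⟨N, hN⟩ := h.dia Y h1 h2
  exact st_dia hN

/-- a run in the direction `(1, 0)` -/
theorem Dh.runE (h : Dh μ δ M) (x y : ℤ) {Y : ℕ} (hY : Y ≤ M) : St μ (x, y) (x + Y, y)
    (fun v => x - y < v.1 - v.2 ∧ v.1 - v.2 < x - y + Y ∧ x + y < v.1 + v.2 ∧
      v.1 + v.2 < x + y + Y) δ := by
  rcases Nat.eq_zero_or_pos Y with h0 | h0
  · subst h0
    rw [Nat.cast_zero, add_zero]
    exact (St.refl _ _).mono h.mu0 (fun _ hv => hv) h.le1
  · have h1 := (h.base h0 hY).map (h := fun v => (x + v.1, y + v.2))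
      (U' := fun v => x - y < v.1 - v.2 ∧ v.1 - v.2 < x - y + Y ∧ x + y < v.1 + v.2 ∧
        v.1 + v.2 < x + y + Y) (by
        rintro ⟨a, b⟩ ⟨c, d⟩ hab
        simp only [Prod.mk.injEq] at hab
        exact Prod.ext (by simp only; omega) (by simp only; omega)) (by
        intro u v huv
        unfold adj at *
        simp only [add_sub_add_left_eq_sub]
        exact huv) (by
        intro v hv
        try simp only at hv ⊢
        omega)
    simpa using h1

/-- a run in the direction `(0, -1)` -/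
theorem Dh.runS (h : Dh μ δ M) (x y : ℤ) {Y : ℕ} (hY : Y ≤ M) : St μ (x, y) (x, y - Y)
    (fun v => x - y < v.1 - v.2 ∧ v.1 - v.2 < x - y + Y ∧ x + y - Y < v.1 + v.2 ∧
      v.1 + v.2 < x + y) δ := by
  rcases Nat.eq_zero_or_pos Y with h0 | h0
  · subst h0
    rw [Nat.cast_zero, sub_zero]
    exact (St.refl _ _).mono h.mu0 (fun _ hv => hv) h.le1
  · have h1 := (h.base h0 hY).map (h := fun v => (x + v.2, y - v.1))
      (U' := fun v => x - y < v.1 - v.2 ∧ v.1 - v.2 < x - y + Y ∧ x + y - Y < v.1 + v.2 ∧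
        v.1 + v.2 < x + y) (by
        rintro ⟨a, b⟩ ⟨c, d⟩ hab
        simp only [Prod.mk.injEq] at hab
        exact Prod.ext (by simp only; omega) (by simp only; omega)) (by
        intro u v huv
        unfold adj at *
        simp only [add_sub_add_left_eq_sub, sub_sub_sub_cancel_left]
        rw [abs_sub_comm u.1, add_comm]
        exact huv) (by
        intro v hv
        try simp only at hv ⊢
        omega)
    simpa using h1

/-- a run in the direction `(0, 1)` -/
theorem Dh.runN (h : Dh μ δ M) (x y : ℤ) {Y : ℕ} (hY : Y ≤ M) : St μ (x, y) (x, y + Y)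
    (fun v => x - y - Y < v.1 - v.2 ∧ v.1 - v.2 < x - y ∧ x + y < v.1 + v.2 ∧
      v.1 + v.2 < x + y + Y) δ := by
  rcases Nat.eq_zero_or_pos Y with h0 | h0
  · subst h0
    rw [Nat.cast_zero, add_zero]
    exact (St.refl _ _).mono h.mu0 (fun _ hv => hv) h.le1
  · have h1 := (h.base h0 hY).map (h := fun v => (x + v.2, y + v.1))
      (U' := fun v => x - y - Y < v.1 - v.2 ∧ v.1 - v.2 < x - y ∧ x + y < v.1 + v.2 ∧
        v.1 + v.2 < x + y + Y) (by
        rintro ⟨a, b⟩ ⟨c, d⟩ hab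
        simp only [Prod.mk.injEq] at hab
        exact Prod.ext (by simp only; omega) (by simp only; omega)) (by
        intro u v huv
        unfold adj at *
        simp only [add_sub_add_left_eq_sub]
        rw [add_comm]
        exact huv) (by
        intro v hv
        try simp only at hv ⊢
        omega)
    simpa using h1

/-- the region of the lower strand -/
def Gam (R s : ℕ) (v : Pt) : Prop :=
  2 * (s : ℤ) ≤ v.1 - v.2 ∧ v.2 < 0 ∧ 0 ≤ v.1 + v.2 ∧ v.1 - v.2 ≤ 2 * R

theorem gam0 (h : Dh μ δ M) {R s : ℕ} (hR : R ≤ M) (hs : 1 ≤ s) (h1 : 2 * s ≤ R + 1)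
    (h2 : R < 4 * s) : St μ ((s : ℤ), -(s : ℤ)) ((R : ℤ), 0) (Gam R s) (δ * δ * δ) := by
  have hδ := h.pos
  obtain ⟨a, ha⟩ : ∃ a, a = min (R - s) (2 * s) := ⟨_, rfl⟩
  obtain ⟨b, hb⟩ : ∃ b, b = R - s - a := ⟨_, rfl⟩
  have p1 := h.runE (s : ℤ) (-(s : ℤ)) (Y := a) (by omega)
  have p2 := h.runE ((s : ℤ) + a) (-(s : ℤ)) (Y := b) (by omega)
  have p3 := h.runN (R : ℤ) (-(s : ℤ)) (Y := s) (by omega)
  have e : (s : ℤ) + a + b = R := by omega
  rw [e] at p2
  rw [neg_add_cancel] at p3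
  have q1 := p1.glue h.mu0 hδ.le p2 (V := fun v => 2 * (s : ℤ) < v.1 - v.2 ∧ v.2 < 0 ∧
      0 ≤ v.1 + v.2 ∧ v.1 - v.2 < R + s ∧ v.1 + v.2 < R - s ∨ v = ((s : ℤ) + a, -(s : ℤ)))
    (fun h1 => ⟨?_, ?_⟩) (fun h1 => ?_) (fun v h1 h2 => ?_) (fun v h1 => ?_) (fun v h1 => ?_)
    (Or.inr rfl)
  · refine q1.glue h.mu0 hδ.le p3 (fun h1 => ⟨?_, ?_⟩) (fun h1 => ?_) (fun v h1 h2 => ?_)
      (fun v h1 => ?_) (fun v h1 => ?_) ?_
    · intro h3
      rw [Prod.mk.injEq] at h3
      omega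
    · try simp only
      omega
    · simp only [Prod.mk.injEq]
      omega
    · try simp only at h1 h2
      rcases h1 with h1 | h1
      · omega
      · rw [h1] at h2
        try simp only at h2
        omega
    · try simp only at h1
      unfold Gam
      rcases h1 with h1 | h1
      · omega
      · rw [h1]
        try simp only
        omega
    · try simp only at h1
      unfold Gam
      omega
    · unfold Gam
      try simp only
      omega
  · intro h3
    apply h1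
    rw [Prod.mk.injEq] at h3 ⊢
    omega
  · try simp only
    omega
  · try simp only
    omega
  · try simp only at h1 h2
    omega
  · try simp only at h1
    left
    omega
  · try simp only at h1
    left
    omega

theorem Gam.sub {R s : ℕ} {v : Pt} (h : Gam R (2 * s) v) : Gam R s v := by
  unfold Gam at *
  omega

theorem gam (h : Dh μ δ M) {R : ℕ} (hR : R ≤ M) (k : ℕ) {s : ℕ} (hs : 1 ≤ s) (h1 : 2 * s ≤ R + 1)
    (h2 : R < 4 * s * 2 ^ k) :
    St μ ((s : ℤ), -(s : ℤ)) ((R : ℤ), 0) (Gam R s) (δ ^ (2 * k + 3)) := by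
  have hδ := h.pos
  induction k generalizing s with
  | zero =>
    have := gam0 h hR hs h1 (by simpa using h2)
    rw [show 2 * 0 + 3 = 3 by norm_num, pow_succ, pow_two]
    exact this
  | succ k ih =>
    rcases Nat.lt_or_ge R (4 * s) with h3 | h3
    · refine (gam0 h hR hs h1 h3).mono h.mu0 (fun _ hv => hv) ?_
      calc δ ^ (2 * (k + 1) + 3) ≤ δ ^ 3 := pow_le_pow_of_le_one hδ.le h.le1 (by omega)
        _ = δ * δ * δ := by ring
    · have ih' := ih (s := 2 * s) (by omega) (by omega) (by rw [pow_succ] at h2; linarith)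
      have p1 := h.runE (s : ℤ) (-(s : ℤ)) (Y := s) (by omega)
      have p2 := h.runS ((s : ℤ) + s) (-(s : ℤ)) (Y := s) (by omega)
      have e : (((2 * s : ℕ) : ℕ) : ℤ) = (s : ℤ) + s := by push_cast; ring
      rw [e] at ih'
      have e2 : -(s : ℤ) - s = -((s : ℤ) + s) := by ring
      rw [e2] at p2
      have q1 := p1.glue h.mu0 hδ.le p2 (V := fun v => 2 * (s : ℤ) < v.1 - v.2 ∧ v.2 < 0 ∧
          0 ≤ v.1 + v.2 ∧ v.1 - v.2 < 4 * s)
        (fun h1 => ⟨?_, ?_⟩) (fun h1 => ?_) (fun v h1 h2 => ?_) (fun v h1 => ?_) (fun v h1 => ?_)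
        ?_
      · have q2 := q1.glue h.mu0 (pow_pos hδ (2 * k + 3)).le ih' (V := Gam R s)
          (fun h1 => ⟨?_, ?_⟩) (fun h1 => ?_) (fun v h1 h2 => ?_) (fun v h1 => ?_)
          (fun v h1 => h1.sub) ?_
        · have e3 : δ * δ * δ ^ (2 * k + 3) = δ ^ (2 * (k + 1) + 3) := by ring
          rw [e3] at q2
          exact q2
        · intro h4
          rw [Prod.mk.injEq] at h4
          omega
        · unfold Gam
          try simp only
          push_cast
          omega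
        · try simp only
          omega
        · try simp only at h1
          unfold Gam at h2
          push_cast at h2
          omega
        · try simp only at h1
          unfold Gam
          omega
        · unfold Gam
          try simp only
          omega
      · intro h3
        rw [Prod.mk.injEq] at h3
        omega
      · try simp only
        omega
      · try simp only
        omega
      · try simp only at h1 h2
        omega
      · try simp only at h1 ⊢
        omega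
      · try simp only at h1 ⊢
        omega
      · try simp only
        omega

/-- the region of the upper strand -/
def Gam' (R s : ℕ) (v : Pt) : Prop :=
  2 * (s : ℤ) ≤ v.1 + v.2 ∧ 0 < v.2 ∧ 0 ≤ v.1 - v.2 ∧ v.1 + v.2 ≤ 2 * R

theorem gam' (h : Dh μ δ M) {R : ℕ} (hR : R ≤ M) (k : ℕ) {s : ℕ} (hs : 1 ≤ s) (h1 : 2 * s ≤ R + 1)
    (h2 : R < 4 * s * 2 ^ k) :
    St μ ((s : ℤ), (s : ℤ)) ((R : ℤ), 0) (Gam' R s) (δ ^ (2 * k + 3)) := by
  have h3 := (gam h hR k hs h1 h2).map (h := fun v => (v.1, -v.2)) (U' := Gam' R s) (by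
    rintro ⟨a, b⟩ ⟨c, d⟩ hab
    simp only [Prod.mk.injEq] at hab
    exact Prod.ext (by simp only; omega) (by simp only; omega)) (by
    intro u v huv
    unfold adj at *
    try simp only
    rw [← abs_neg (-v.2 - -u.2)]
    have : -(-v.2 - -u.2) = v.2 - u.2 := by ring
    rw [this]
    exact huv) (by
    intro v hv
    unfold Gam at hv
    unfold Gam'
    try simp only
    omega)
  simpa using h3

/-- the first strand -/
theorem alpha (h : Dh μ δ M) {R : ℕ} (hR : R ≤ M) (k : ℕ) {b : ℕ} (h1 : 2 * b + 1 ≤ R)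
    (h2 : R < 4 * 2 ^ k) : St μ ((b : ℤ), (b : ℤ)) ((R : ℤ), 0)
      (fun v => 0 ≤ v.1 + v.2 ∧ v.1 - v.2 ≤ 2 * R ∧ 0 < v.1 - v.2 ∧
        (v.1 + v.2 < 2 * b + 2 ∨ v.2 < 0)) (δ ^ (2 * k + 5)) := by
  have hδ := h.pos
  rcases Nat.eq_zero_or_pos b with h0 | h0
  · subst h0
    have g1 := gam h hR k (s := 1) le_rfl (by omega) (by simpa using h2)
    have p1 : St μ ((0 : ℤ), (0 : ℤ)) (1, 0) (fun _ => False) δ :=
      St.step (by unfold adj; norm_num) _ h.le
    rcases Nat.lt_or_ge R 2 with hR1 | hR1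
    · have : R = 1 := by omega
      subst this
      simp only [Nat.cast_zero, Nat.cast_one]
      refine p1.mono h.mu0 (fun _ hv => hv.elim) ?_
      calc δ ^ (2 * k + 5) ≤ δ ^ 1 := pow_le_pow_of_le_one hδ.le h.le1 (by omega)
        _ = δ := pow_one δ
    have p2 : St μ ((1 : ℤ), (0 : ℤ)) (1, -1) (fun _ => False) δ :=
      St.step (by unfold adj; norm_num) _ h.le
    have q1 := p1.glue h.mu0 hδ.le p2 (V := fun v => v = (1, 0)) (fun _ => ⟨by simp, fun h => h⟩)
      (fun _ h => h) (fun v h _ => h) (fun v h => h.elim) (fun v h => h.elim) rfl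
    rw [Nat.cast_one] at g1
    have q2 := q1.glue h.mu0 (pow_pos hδ (2 * k + 3)).le g1
      (V := fun v => 0 ≤ v.1 + v.2 ∧ v.1 - v.2 ≤ 2 * R ∧ 0 < v.1 - v.2 ∧
        (v.1 + v.2 < 2 * (0 : ℕ) + 2 ∨ v.2 < 0)) (fun h1 => ⟨?_, ?_⟩) (fun h1 => ?_)
      (fun v h1 h2 => ?_) (fun v h1 => ?_) (fun v h1 => ?_) ?_
    · have e3 : δ * δ * δ ^ (2 * k + 3) = δ ^ (2 * k + 5) := by ring
      rw [e3] at q2
      simpa using q2
    · intro h4
      rw [Prod.mk.injEq] at h4
      omega
    · unfold Gam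
      simp
    · simp
      omega
    · rw [h1] at h2
      unfold Gam at h2
      simp at h2
    · rw [h1]
      simp
      omega
    · unfold Gam at h1
      simp only [Nat.cast_zero, Nat.cast_one] at h1 ⊢
      omega
    · simp
      omega
  · have g1 := gam h hR k (s := b) h0 (by omega) (by
      refine lt_of_lt_of_le h2 ?_
      have : 4 * 1 * 2 ^ k ≤ 4 * b * 2 ^ k := by gcongr; exact h0
      linarith)
    have p1 := h.runS (b : ℤ) (b : ℤ) (Y := 2 * b) (by omega)
    have e : (b : ℤ) - ((2 * b : ℕ) : ℤ) = -(b : ℤ) := by push_cast; ring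
    rw [e] at p1
    have q2 := p1.glue h.mu0 (pow_pos hδ (2 * k + 3)).le g1
      (V := fun v => 0 ≤ v.1 + v.2 ∧ v.1 - v.2 ≤ 2 * R ∧ 0 < v.1 - v.2 ∧
        (v.1 + v.2 < 2 * b + 2 ∨ v.2 < 0)) (fun h1 => ⟨?_, ?_⟩) (fun h1 => ?_)
      (fun v h1 h2 => ?_) (fun v h1 => ?_) (fun v h1 => ?_) ?_
    · refine q2.mono h.mu0 (fun _ hv => hv) ?_
      calc δ ^ (2 * k + 5) ≤ δ ^ (2 * k + 4) := pow_le_pow_of_le_one hδ.le h.le1 (by omega)
        _ = δ * δ ^ (2 * k + 3) := by ring
    · intro h4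
      rw [Prod.mk.injEq] at h4
      omega
    · unfold Gam
      try simp only
      omega
    · try simp only
      push_cast
      omega
    · unfold Gam at h2
      try simp only at h1
      push_cast at h1
      omega
    · try simp only at h1
      push_cast at h1
      try simp only
      omega
    · unfold Gam at h1
      try simp only
      omega
    · try simp only
      omega

/-- **Two strands.** -/
theorem two (h : Dh μ δ M) {R : ℕ} (hR : R ≤ M) (k : ℕ) {b : ℕ} (h1 : 2 * b + 1 ≤ R)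
    (h2 : R < 4 * 2 ^ k) : ∃ N, ∃ F : Finset (List Pt),
      (∀ l ∈ F, l.length = N + 1 ∧ Pth ((b : ℤ), (b : ℤ)) ((b : ℤ) + 1, (b : ℤ) + 1)
        (fun v => 0 ≤ v.1 - v.2 ∧ v.1 - v.2 ≤ 2 * R ∧ 0 ≤ v.1 + v.2 ∧ v.1 + v.2 ≤ 2 * R) l ∧
        ((R : ℤ), (0 : ℤ)) ∈ l) ∧ δ ^ (4 * k + 8) * μ ^ N ≤ F.card := by
  have hδ := h.pos
  have a1 := alpha h hR k h1 h2
  have b1 := (gam' h hR k (s := b + 1) (by omega) (by omega) (by
      refine lt_of_lt_of_le h2 ?_
      have : 4 * 1 * 2 ^ k ≤ 4 * (b + 1) * 2 ^ k := by gcongr; omega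
      linarith)).rev
  have e : (((b + 1 : ℕ) : ℕ) : ℤ) = (b : ℤ) + 1 := by push_cast; ring
  rw [e] at b1
  have q := a1.glue' h.mu0 (pow_pos hδ (2 * k + 3)).le b1
    (V := fun v => 0 ≤ v.1 - v.2 ∧ v.1 - v.2 ≤ 2 * R ∧ 0 ≤ v.1 + v.2 ∧ v.1 + v.2 ≤ 2 * R)
    (fun h1 => ⟨?_, ?_⟩) (fun h1 => ?_)
    (fun v h1 h2 => ?_) (fun v h1 => ?_) (fun v h1 => ?_) ?_
  · have e3 : δ ^ (2 * k + 5) * δ ^ (2 * k + 3) = δ ^ (4 * k + 8) := by
      rw [← pow_add]; congr 1; ring
    rw [e3] at q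
    exact q
  · intro h4
    rw [Prod.mk.injEq] at h4
    omega
  · unfold Gam'
    try simp only
    push_cast
    omega
  · try simp only
    omega
  · unfold Gam' at h2
    try simp only at h1
    push_cast at h2
    omega
  · try simp only at h1 ⊢
    omega
  · unfold Gam' at h1
    push_cast at h1
    try simp only
    omega
  · try simp only
    omega

end Pool.Agent.T9h33.Two
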