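import Pool.Agent.T9h33.Loc
import Pool.Agent.T9h33.Two

/-!
The four kinds of detours.
-/

set_option autoImplicit false

namespace Pool.Agent.T9h33.Dt

open Pool.Agent.W840.CT (Pt Con Nb adj adj_comm LS)
open Pool.Agent.T9h33.Str
open Pool.Agent.T9h33.Loc
open Pool.Agent.T9h33.Fr
open Pool.Agent.TH303.SX2 (Bd)

/-- the ball -/
def Ball (R : ℕ) (v : Pt) : Prop :=
  0 ≤ v.1 - v.2 ∧ v.1 - v.2 ≤ 2 * R ∧ 0 ≤ v.1 + v.2 ∧ v.1 + v.2 ≤ 2 * R

/-- the strands -/
theorem strands {μ K : ℝ} (h : Bd μ K) : ∃ K' : ℝ, 0 ≤ K' ∧ ∀ R : ℕ, 1 ≤ R → ∀ b : ℕ,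
    2 * b + 1 ≤ R → ∃ N, ∃ F : Finset (List Pt),
      (∀ l ∈ F, l.length = N + 1 ∧ Pth ((b : ℤ), (b : ℤ)) ((b : ℤ) + 1, (b : ℤ) + 1) (Ball R) l ∧
        ((R : ℤ), (0 : ℤ)) ∈ l) ∧
      Real.exp (-(K' * Real.log (R + 1) ^ 4)) * μ ^ N ≤ F.card := by
  obtain ⟨K1, hK1, h1⟩ := Dw.dia h
  have hμ := h.one
  have hμ0 : 0 < μ := by linarith
  have hlμ : 0 ≤ Real.log μ := Real.log_nonneg hμ
  refine ⟨20 * (K1 + 4 * Real.log μ), by positivity, fun R hR b hb => ?_⟩
  have hlog2 : 0.6931471803 < Real.log 2 := Real.log_two_gt_d9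
  have hR0 : (1 : ℝ) ≤ R := by exact_mod_cast hR
  have hL : Real.log 2 ≤ Real.log ((R : ℝ) + 1) := Real.log_le_log (by norm_num) (by linarith)
  obtain ⟨l, hl⟩ : ∃ l, l = Real.log ((R : ℝ) + 1) := ⟨_, rfl⟩
  rw [← hl] at hL
  have hl0 : 0.69 < l := by linarith
  have hl2 : 0.47 ≤ l ^ 2 := by nlinarith
  have hl3 : 0.32 ≤ l ^ 3 := by
    have : l ^ 3 = l ^ 2 * l := by ring
    nlinarith
  obtain ⟨δ, hδ⟩ : ∃ δ, δ = Real.exp (-(K1 * l ^ 3 + Real.log μ)) := ⟨_, rfl⟩
  have hδ0 : 0 < δ := by rw [hδ]; exact Real.exp_pos _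
  have hD : Two.Dh μ δ R := by
    refine ⟨hμ, hδ0, ?_, fun Y hY hYR => ?_⟩
    · have e : μ = Real.exp (Real.log μ) := (Real.exp_log hμ0).symm
      rw [hδ]
      nth_rw 2 [e]
      rw [← Real.exp_add]
      rw [Real.exp_le_one_iff]
      have : 0 ≤ K1 * l ^ 3 := by positivity
      linarith
    · obtain ⟨N, hN⟩ := h1 Y hY
      refine ⟨N, le_trans ?_ hN⟩
      apply mul_le_mul_of_nonneg_right _ (pow_pos hμ0 N).le
      rw [hδ]
      apply Real.exp_le_exp.2
      have hYR' : (Y : ℝ) ≤ R := by exact_mod_cast hYR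
      have hY0 : (0 : ℝ) ≤ Y := Nat.cast_nonneg _
      have h2 : Real.log ((Y : ℝ) + 1) ≤ l := by
        rw [hl]
        exact Real.log_le_log (by linarith) (by linarith)
      have h3 : 0 ≤ Real.log ((Y : ℝ) + 1) := Real.log_nonneg (by linarith)
      have h4 : Real.log ((Y : ℝ) + 1) ^ 3 ≤ l ^ 3 := pow_le_pow_left₀ h3 h2 3
      have h5 := mul_le_mul_of_nonneg_left h4 hK1
      linarith
  obtain ⟨k, hk⟩ : ∃ k, k = Nat.log 2 R := ⟨_, rfl⟩
  have hk1 : 2 ^ k ≤ R := by rw [hk]; exact Nat.pow_log_le_self 2 (by omega)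
  have hk2 : R < 4 * 2 ^ k := by
    have := Nat.lt_pow_succ_log_self (b := 2) (by norm_num) R
    rw [← hk, pow_succ] at this
    omega
  obtain ⟨N, F, h2, h3⟩ := Two.two hD le_rfl k hb hk2
  refine ⟨N, F, h2, le_trans ?_ h3⟩
  apply mul_le_mul_of_nonneg_right _ (pow_pos hμ0 N).le
  rw [hδ, ← Real.exp_nat_mul]
  apply Real.exp_le_exp.2
  rw [← hl]
  push_cast
  have hkl : (k : ℝ) * Real.log 2 ≤ l := by
    have h4 : (2 : ℝ) ^ k ≤ (R : ℝ) + 1 := by
      have : (2 : ℝ) ^ k ≤ R := by exact_mod_cast hk1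
      linarith
    have h5 := Real.log_le_log (by positivity) h4
    rw [Real.log_pow, ← hl] at h5
    exact h5
  have hk0 : (0 : ℝ) ≤ k := Nat.cast_nonneg k
  have hkl' : (k : ℝ) ≤ 1.5 * l := by nlinarith
  have h8 : (8 : ℝ) ≤ 12 * l := by linarith
  have h9 : 4 * (k : ℝ) + 8 ≤ 20 * l := by linarith
  have h10 : Real.log μ ≤ 4 * Real.log μ * l ^ 3 := by
    calc Real.log μ ≤ 4 * Real.log μ * 0.32 := by linarith
      _ ≤ _ := by gcongr
  have h11 : K1 * l ^ 3 + Real.log μ ≤ (K1 + 4 * Real.log μ) * l ^ 3 := by nlinarith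
  have h12 : 0 ≤ K1 * l ^ 3 + Real.log μ := by positivity
  have h13 : (4 * (k : ℝ) + 8) * (K1 * l ^ 3 + Real.log μ) ≤
      (20 * l) * ((K1 + 4 * Real.log μ) * l ^ 3) := by gcongr
  have h14 : (20 * l) * ((K1 + 4 * Real.log μ) * l ^ 3) = 20 * (K1 + 4 * Real.log μ) * l ^ 4 := by
    ring
  linarith

/-- constructor -/
def mkD (g : Bool × Bool × Bool) (R : ℕ) (x0 mrk hd tl : Pt) (U : Pt → Prop)
    (Ls : Finset (List Pt)) (ell : ℕ)
    (hnear : ∀ u, U u ∨ u = x0 → |u.1 - (R : ℤ)| + |u.2| ≤ (R : ℤ) + 2)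
    (hL : ∀ L ∈ Ls, L.length = ell + 1 ∧ Pth hd tl U L ∧ ((R : ℤ), (0 : ℤ)) ∈ L ∧ mrk ∈ L)
    (hhd : U hd) (htl : U tl) : Dat where
  h := ch g R
  x0 := x0
  mrk := mrk
  hd := hd
  tl := tl
  c0 := ((R : ℤ), 0)
  U := U
  Ls := Ls
  ell := ell
  rho := R + 2
  inj := ch_inj g R
  adj := fun p u v h => (ch_adj g R p u v).2 h
  ctr := ch_ctr g R
  near := by
    intro p u hu
    have h1 := ch_norm g R p u
    have h2 := hnear u hu
    rw [← h1] at h2
    have h3 := abs_nonneg ((ch g R p u).1 - p.1)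
    have h4 := abs_nonneg ((ch g R p u).2 - p.2)
    push_cast
    constructor <;> linarith
  len := fun L hl => (hL L hl).1
  chain := fun L hl => (hL L hl).2.1.ch
  nodup := fun L hl => (hL L hl).2.1.nd
  head := fun L hl => (hL L hl).2.1.hd
  last := fun L hl => (hL L hl).2.1.tl
  sub := fun L hl v hv => by
    rcases (hL L hl).2.1.mem v hv with h | h | h
    · rw [h]; exact hhd
    · rw [h]; exact htl
    · exact h
  mc := fun L hl => (hL L hl).2.2.1
  mm := fun L hl => (hL L hl).2.2.2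

/-- the possible positions of `z` -/
def Zp (b : ℕ) (z : Pt) : Prop := (b = 0 ∧ z = (-1, 0)) ∨ z = ((b : ℤ), (b : ℤ) + 1)

/-- the data of the strands -/
def Sd (R b N : ℕ) (F : Finset (List Pt)) : Prop :=
  ∀ l ∈ F, l.length = N + 1 ∧ Pth ((b : ℤ), (b : ℤ)) ((b : ℤ) + 1, (b : ℤ) + 1) (Ball R) l ∧
    ((R : ℤ), (0 : ℤ)) ∈ l

theorem ball_v {R b : ℕ} (hb : 2 * b + 1 ≤ R) : Ball R ((b : ℤ), (b : ℤ)) := by
  unfold Ball; simp only; omega

theorem ball_v' {R b : ℕ} (hb : 2 * b + 1 ≤ R) : Ball R ((b : ℤ) + 1, (b : ℤ) + 1) := by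
  unfold Ball; simp only; omega

theorem Ball.norm {R : ℕ} {v : Pt} (h : Ball R v) : |v.1 - (R : ℤ)| + |v.2| ≤ R :=
  (ball_iff R v).2 h

/-- the outer path -/
theorem pth1 {R b N : ℕ} {F : Finset (List Pt)} (hb : 2 * b + 1 ≤ R) (hF : Sd R b N F) {z : Pt}
    (hz : Zp b z) {l : List Pt} (hl : l ∈ F) :
    Pth z (z.1 + 1, z.2 + 1) (fun v => Ball R v ∨ v = z ∨ v = (z.1 + 1, z.2 + 1))
      (z :: (l ++ [(z.1 + 1, z.2 + 1)])) := by
  obtain ⟨h1, h2, h3⟩ := hF l hl
  have hin : ∀ v ∈ l, Ball R v := by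
    intro v hv
    rcases h2.mem v hv with h | h | h
    · rw [h]; exact ball_v hb
    · rw [h]; exact ball_v' hb
    · exact h
  have hzl : z ∉ l := by
    intro h
    have := hin z h
    unfold Ball at this
    rcases hz with ⟨-, hz⟩ | hz <;> rw [hz] at this <;> simp only at this <;> omega
  have hsl : (z.1 + 1, z.2 + 1) ∉ l := by
    intro h
    have := hin _ h
    unfold Ball at this
    rcases hz with ⟨-, hz⟩ | hz <;> rw [hz] at this <;> simp only at this <;> omega
  refine ⟨?_, ?_, rfl, ?_, ?_⟩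
  · rw [List.isChain_cons]
    constructor
    · intro y hy
      rw [List.head?_append, h2.hd] at hy
      simp only [Option.some_or, Option.mem_def, Option.some.injEq] at hy
      subst hy
      unfold adj
      rcases hz with ⟨h0, hz⟩ | hz
      · subst h0
        rw [hz]; simp
      · rw [hz]; simp
    · rw [List.isChain_append]
      refine ⟨h2.ch, List.IsChain.singleton _, ?_⟩
      intro x hx y hy
      rw [h2.tl] at hx
      simp only [Option.mem_def, Option.some.injEq, List.head?_cons] at hx hy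
      subst hx
      subst hy
      unfold adj
      rcases hz with ⟨h0, hz⟩ | hz
      · subst h0
        rw [hz]; simp
      · rw [hz]; simp
  · rw [List.nodup_cons, List.mem_append, List.mem_singleton, List.nodup_append]
    refine ⟨?_, h2.nd, List.nodup_singleton _, ?_⟩
    · rintro (h | h)
      · exact hzl h
      · have := congrArg Prod.fst h
        simp at this
    · intro a ha b hb' hab
      rw [List.mem_singleton] at hb'
      rw [hab, hb'] at ha
      exact hsl ha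
  · rw [← List.cons_append, List.getLast?_append]
    simp
  · intro v hv
    right; right
    rw [List.mem_cons, List.mem_append, List.mem_singleton] at hv
    rcases hv with h | h | h
    · exact Or.inr (Or.inl h)
    · exact Or.inl (hin v h)
    · exact Or.inr (Or.inr h)

theorem pth2 {R b N : ℕ} {F : Finset (List Pt)} (hF : Sd R b N F) {l : List Pt} (hl : l ∈ F) :
    Pth ((b : ℤ), (b : ℤ)) ((b : ℤ) + 1, (b : ℤ) + 1) (Ball R) l := (hF l hl).2.1

theorem near1 {R b : ℕ} (hb : 2 * b + 1 ≤ R) {z : Pt} (hz : Zp b z) (u : Pt)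
    (hu : (Ball R u ∨ u = z ∨ u = (z.1 + 1, z.2 + 1)) ∨ u = z) :
    |u.1 - (R : ℤ)| + |u.2| ≤ (R : ℤ) + 2 := by
  have h1 : |z.1 - (R : ℤ)| + |z.2| ≤ (R : ℤ) + 2 := by
    rcases hz with ⟨h0, hz⟩ | hz
    · rw [hz]; simp only; rw [abs_of_nonpos (by omega), abs_zero]; omega
    · rw [hz]; simp only; rw [abs_of_nonpos (by omega), abs_of_nonneg (by omega)]; omega
  have h2 : |z.1 + 1 - (R : ℤ)| + |z.2 + 1| ≤ (R : ℤ) + 2 := by
    rcases hz with ⟨h0, hz⟩ | hz
    · rw [hz]; simp only; rw [abs_of_nonpos (by omega), abs_of_nonneg (by omega)]; omega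
    · rw [hz]; simp only; rw [abs_of_nonpos (by omega), abs_of_nonneg (by omega)]; omega
  rcases hu with (hu | hu | hu) | hu
  · have := hu.norm; omega
  · rw [hu]; exact h1
  · rw [hu]; exact h2
  · rw [hu]; exact h1

theorem near2 {R b : ℕ} (hb : 2 * b + 1 ≤ R) {z : Pt} (hz : Zp b z) (u : Pt)
    (hu : Ball R u ∨ u = (z.1, z.2 + 1)) : |u.1 - (R : ℤ)| + |u.2| ≤ (R : ℤ) + 2 := by
  rcases hu with hu | hu
  · have := hu.norm; omega
  · rw [hu]
    rcases hz with ⟨h0, hz⟩ | hz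
    · rw [hz]; simp only; rw [abs_of_nonpos (by omega), abs_of_nonneg (by omega)]; omega
    · rw [hz]; simp only; rw [abs_of_nonpos (by omega), abs_of_nonneg (by omega)]; omega

section
variable (g : Bool × Bool × Bool) {R b N : ℕ} {F : Finset (List Pt)} (hb : 2 * b + 1 ≤ R)
  (hF : Sd R b N F) {z : Pt} (hz : Zp b z)

open scoped Classical in
/-- insertion in the direction from `z` -/
noncomputable def D1 : Dat := mkD g R z z z (z.1 + 1, z.2 + 1)
  (fun v => Ball R v ∨ v = z ∨ v = (z.1 + 1, z.2 + 1))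
  (F.image (fun l => z :: (l ++ [(z.1 + 1, z.2 + 1)]))) (N + 2) (near1 hb hz) (by
    intro L hL
    rw [Finset.mem_image] at hL
    obtain ⟨l, hl, rfl⟩ := hL
    refine ⟨?_, pth1 hb hF hz hl, ?_, ?_⟩
    · rw [List.length_cons, List.length_append, (hF l hl).1, List.length_singleton]
    · exact List.mem_cons_of_mem _ (List.mem_append_left _ (hF l hl).2.2)
    · exact List.mem_cons_self) (Or.inr (Or.inl rfl)) (Or.inr (Or.inr rfl))

open scoped Classical in
/-- insertion in the direction to `z` -/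
noncomputable def D2 : Dat := mkD g R z z (z.1 + 1, z.2 + 1) z
  (fun v => Ball R v ∨ v = z ∨ v = (z.1 + 1, z.2 + 1))
  (F.image (fun l => (z :: (l ++ [(z.1 + 1, z.2 + 1)])).reverse)) (N + 2) (near1 hb hz) (by
    intro L hL
    rw [Finset.mem_image] at hL
    obtain ⟨l, hl, rfl⟩ := hL
    refine ⟨?_, (pth1 hb hF hz hl).rev, ?_, ?_⟩
    · rw [List.length_reverse, List.length_cons, List.length_append, (hF l hl).1,
        List.length_singleton]
    · rw [List.mem_reverse]
      exact List.mem_cons_of_mem _ (List.mem_append_left _ (hF l hl).2.2)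
    · rw [List.mem_reverse]
      exact List.mem_cons_self) (Or.inr (Or.inr rfl)) (Or.inr (Or.inl rfl))

/-- replacement -/
noncomputable def D3 : Dat := mkD g R (z.1, z.2 + 1) ((b : ℤ), (b : ℤ)) ((b : ℤ), (b : ℤ))
  ((b : ℤ) + 1, (b : ℤ) + 1) (Ball R) F N (near2 hb hz) (by
    intro l hl
    exact ⟨(hF l hl).1, (hF l hl).2.1, (hF l hl).2.2, List.mem_of_head? (hF l hl).2.1.hd⟩)
  (ball_v hb) (ball_v' hb)

open scoped Classical in
/-- replacement, the other direction -/
noncomputable def D4 : Dat := mkD g R (z.1, z.2 + 1) ((b : ℤ), (b : ℤ)) ((b : ℤ) + 1, (b : ℤ) + 1)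
  ((b : ℤ), (b : ℤ)) (Ball R) (F.image List.reverse) N (near2 hb hz) (by
    intro L hL
    rw [Finset.mem_image] at hL
    obtain ⟨l, hl, rfl⟩ := hL
    refine ⟨?_, (hF l hl).2.1.rev, ?_, ?_⟩
    · rw [List.length_reverse]; exact (hF l hl).1
    · rw [List.mem_reverse]; exact (hF l hl).2.2
    · rw [List.mem_reverse]; exact List.mem_of_head? (hF l hl).2.1.hd)
  (ball_v' hb) (ball_v hb)

/-- the four kinds -/
noncomputable def DD (i : Fin 4) : Dat :=
  if i = 0 then D1 g hb hF hz else if i = 1 then D2 g hb hF hz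
    else if i = 2 then D3 g hb hF hz else D4 g hb hF hz

theorem DD_card (i : Fin 4) : (DD g hb hF hz i).Ls.card = F.card := by
  classical
  have i1 : Function.Injective (fun l : List Pt => z :: (l ++ [(z.1 + 1, z.2 + 1)])) := by
    intro a c h
    simp only [List.cons.injEq, true_and, List.append_cancel_right_eq] at h
    exact h
  fin_cases i
  · show (F.image _).card = _
    exact Finset.card_image_of_injective _ i1
  · show (F.image _).card = _
    exact Finset.card_image_of_injective _ (List.reverse_injective.comp i1)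
  · rfl
  · show (F.image _).card = _
    exact Finset.card_image_of_injective _ List.reverse_injective

theorem DD_ell (i : Fin 4) : (DD g hb hF hz i).ell ≤ N + 2 ∧ N ≤ (DD g hb hF hz i).ell := by
  fin_cases i
  · exact ⟨le_rfl, Nat.le_add_right _ _⟩
  · exact ⟨le_rfl, Nat.le_add_right _ _⟩
  · exact ⟨Nat.le_add_right _ _, le_rfl⟩
  · exact ⟨Nat.le_add_right _ _, le_rfl⟩

theorem DD_rho (i : Fin 4) : (DD g hb hF hz i).rho = R + 2 := by
  fin_cases i <;> rfl

end

/-- **A detour exists.** -/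
theorem exists_sg {B : List Pt} {R : ℕ} {p : Pt} (hB : B.IsChain adj) (hn : B.Nodup)
    (h0 : ∀ v ∈ B, (R : ℤ) < |v.1 - p.1| + |v.2 - p.2|) {g : Bool × Bool × Bool} {b : ℕ} {z : Pt}
    (hS : Std B R p g b z) {N : ℕ} {F : Finset (List Pt)} (hF : Sd R b N F) :
    ∃ i, Sg (DD g hS.1 hF hS.2.1 i) B p := by
  have hs := hS
  obtain ⟨hb, hz, h⟩ := hs
  have hball : ∀ u, Ball R u → ch g R p u ∉ B := by
    intro u hu hm
    have h1 := h0 _ hm
    rw [ch_norm] at h1
    have := hu.norm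
    omega
  have a1 : adj (z.1, z.2 + 1) z := by unfold adj; simp
  have a2 : adj (z.1, z.2 + 1) (z.1 + 1, z.2 + 1) := by unfold adj; simp
  have a3 : adj z ((b : ℤ), (b : ℤ)) := by
    unfold adj
    rcases hz with ⟨h0, hz⟩ | hz
    · subst h0; rw [hz]; simp
    · rw [hz]; simp
  have a4 : adj ((b : ℤ) + 1, (b : ℤ) + 1) (z.1 + 1, z.2 + 1) := by
    unfold adj
    rcases hz with ⟨h0, hz⟩ | hz
    · subst h0; rw [hz]; simp
    · rw [hz]; simp
  have cadj : ∀ u v, adj u v → adj (ch g R p u) (ch g R p v) := fun u v h =>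
    (ch_adj g R p u v).2 h
  rcases h with ⟨h1, h2 | h2⟩ | ⟨h1, h2⟩ | ⟨h1, h2⟩
  · refine ⟨0, ?_, ?_, ?_, ?_⟩
    · show ch g R p z ∈ B
      exact h2.mem_left
    · intro u hu hm
      have hm' : ch g R p u ∈ B := hm
      rcases (hu : Ball R u ∨ u = z ∨ u = (z.1 + 1, z.2 + 1)) with h3 | h3 | h3
      · exact absurd hm' (hball u h3)
      · exact h3
      · rw [h3] at hm'; exact absurd hm' h1
    · intro y hy
      have hy' : Con B y (ch g R p z) := hy
      show adj y (ch g R p z)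
      exact hy'.adj hB
    · intro y hy
      have hy' : Con B (ch g R p z) y := hy
      show adj (ch g R p (z.1 + 1, z.2 + 1)) y
      rw [hy'.right_unique hn h2]
      exact cadj _ _ (adj_comm a2)
  · refine ⟨1, ?_, ?_, ?_, ?_⟩
    · show ch g R p z ∈ B
      exact h2.mem_right
    · intro u hu hm
      have hm' : ch g R p u ∈ B := hm
      rcases (hu : Ball R u ∨ u = z ∨ u = (z.1 + 1, z.2 + 1)) with h3 | h3 | h3
      · exact absurd hm' (hball u h3)
      · exact h3
      · rw [h3] at hm'; exact absurd hm' h1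
    · intro y hy
      have hy' : Con B y (ch g R p z) := hy
      show adj y (ch g R p (z.1 + 1, z.2 + 1))
      rw [hy'.left_unique hn h2]
      exact cadj _ _ a2
    · intro y hy
      have hy' : Con B (ch g R p z) y := hy
      show adj (ch g R p z) y
      exact hy'.adj hB
  · refine ⟨2, ?_, ?_, ?_, ?_⟩
    · show ch g R p (z.1, z.2 + 1) ∈ B
      exact h1.mem_right
    · intro u hu hm
      exact absurd hm (hball u hu)
    · intro y hy
      have hy' : Con B y (ch g R p (z.1, z.2 + 1)) := hy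
      show adj y (ch g R p ((b : ℤ), (b : ℤ)))
      rw [hy'.left_unique hn h1]
      exact cadj _ _ a3
    · intro y hy
      have hy' : Con B (ch g R p (z.1, z.2 + 1)) y := hy
      show adj (ch g R p ((b : ℤ) + 1, (b : ℤ) + 1)) y
      rw [hy'.right_unique hn h2]
      exact cadj _ _ a4
  · refine ⟨3, ?_, ?_, ?_, ?_⟩
    · show ch g R p (z.1, z.2 + 1) ∈ B
      exact h1.mem_right
    · intro u hu hm
      exact absurd hm (hball u hu)
    · intro y hy
      have hy' : Con B y (ch g R p (z.1, z.2 + 1)) := hy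
      show adj y (ch g R p ((b : ℤ) + 1, (b : ℤ) + 1))
      rw [hy'.left_unique hn h1]
      exact cadj _ _ (adj_comm a4)
    · intro y hy
      have hy' : Con B (ch g R p (z.1, z.2 + 1)) y := hy
      show adj (ch g R p ((b : ℤ), (b : ℤ))) y
      rw [hy'.right_unique hn h2]
      exact cadj _ _ (adj_comm a3)

end Pool.Agent.T9h33.Dt
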