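import Pool.Agent.N941.SP.Arm

/-!
Diamond words of all heights with a weight which is at least `exp (-K (log Y)^3)`.
-/

set_option autoImplicit false

namespace Pool.Agent.T9h33.Dw

open Real
open Pool.Agent.N941.SP
open Pool.Agent.H122R3.SX (W Saw UB G c ub ubx g fs mem_fs gw one_le_gw ubx_sq_le g_pow gw_mul
  pos_le_length g_mul one_le_g g_mono pos X st)
open Pool.Agent.TH303.SX2 (Bd)

theorem good_ne {μ K : ℝ} (h : Bd μ K) {n i : ℕ} (hi : 2 ^ i ≤ n) :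
    (good μ (exp (-(Pool.Agent.TH303.SX2.K2 K * log (n + 1) ^ 2))) i).Nonempty := by
  obtain ⟨m, x, hm, hx, hmx⟩ := Pool.Agent.TH303.SX2.exists_ubx h (S := 2 ^ i) Nat.one_le_two_pow
  refine ⟨m, x, hx, ?_⟩
  have hμ0 : 0 < μ := by linarith [h.one]
  rw [le_div_iff₀ (pow_pos hμ0 m)] at hmx
  refine le_trans ?_ hmx
  apply mul_le_mul_of_nonneg_right _ (pow_pos hμ0 m).le
  apply exp_le_exp.2
  have h1 : (((2 ^ i : ℕ) : ℕ) : ℝ) ≤ n := by exact_mod_cast hi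
  have h0 : (0 : ℝ) ≤ (((2 ^ i : ℕ) : ℕ) : ℝ) := Nat.cast_nonneg _
  have h2 : log ((((2 ^ i : ℕ) : ℕ) : ℝ) + 1) ≤ log ((n : ℝ) + 1) :=
    log_le_log (by linarith) (by linarith)
  have h3 : 0 ≤ log ((((2 ^ i : ℕ) : ℕ) : ℝ) + 1) := log_nonneg (by linarith)
  have h4 : log ((((2 ^ i : ℕ) : ℕ) : ℝ) + 1) ^ 2 ≤ log ((n : ℝ) + 1) ^ 2 :=
    pow_le_pow_left₀ h3 h2 2
  have := Pool.Agent.TH303.SX2.K2_nonneg h.Kn
  have := mul_le_mul_of_nonneg_left h4 this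
  linarith

/-- one piece -/
theorem piece {μ θ : ℝ} (hμ : 1 ≤ μ) (hθ : 0 < θ) {j : ℕ} (hg : (good μ θ j).Nonempty) {T : ℤ}
    (hT : 2 * 2 ^ j ≤ T) {H' : ℤ} {M : ℕ} {w : ℝ} (h : w * μ ^ M ≤ μ * g H' 0 T M) :
    ∃ N, θ ^ 2 * w * μ ^ N ≤ μ * g (H' + 2 * 2 ^ j) 0 T N := by
  have hμ0 : 0 < μ := by linarith
  obtain ⟨m, x, hx, hm⟩ := hg
  have e1 := ubx_sq_le (S := 2 ^ j) Nat.one_le_two_pow m hx
  have e2 : g (2 * ((2 ^ j : ℕ) : ℤ)) 0 (2 * ((2 ^ j : ℕ) : ℤ)) (2 * m) ≤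
      g (2 * 2 ^ j) 0 T (2 * m) := by
    push_cast
    exact g_mono _ hT
  have e3 := g_mul H' 0 T (2 * 2 ^ j) 0 T M (2 * m)
  have e4 : max T (|(0 : ℤ)| + T) = T := by simp
  rw [e4, add_zero] at e3
  refine ⟨M + 2 * m, ?_⟩
  have e5 : (θ * μ ^ m) ^ 2 ≤ (g (2 * 2 ^ j) 0 T (2 * m) : ℝ) := by
    calc (θ * μ ^ m) ^ 2 ≤ (ubx m x (2 ^ j) : ℝ) ^ 2 := by gcongr
      _ ≤ _ := by exact_mod_cast e1.trans e2
  have e6 : (g H' 0 T M : ℝ) * g (2 * 2 ^ j) 0 T (2 * m) ≤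
      g (H' + 2 * 2 ^ j) 0 T (M + 2 * m) := by exact_mod_cast e3
  calc θ ^ 2 * w * μ ^ (M + 2 * m) = (w * μ ^ M) * (θ * μ ^ m) ^ 2 := by
        rw [pow_add, pow_mul']; ring
    _ ≤ (μ * g H' 0 T M) * (g (2 * 2 ^ j) 0 T (2 * m) : ℝ) := by gcongr
    _ = μ * ((g H' 0 T M : ℝ) * g (2 * 2 ^ j) 0 T (2 * m)) := by ring
    _ ≤ _ := by gcongr

theorem mid {μ θ : ℝ} (hμ : 1 ≤ μ) (hθ : 0 < θ) (hθ1 : θ ≤ 1) (j : ℕ)
    (hg : ∀ i < j, (good μ θ i).Nonempty) {T : ℤ} (hT : 2 * 2 ^ j ≤ T) {H' : ℕ}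
    (hH : H' < 2 * 2 ^ j) : ∃ N, θ ^ (2 * j) * μ ^ N ≤ μ * g H' 0 T N := by
  have hμ0 : 0 < μ := by linarith
  induction j generalizing H' with
  | zero =>
    refine ⟨H', ?_⟩
    have h1 := one_le_g (T := T) H' (by
      have : (0 : ℤ) ≤ 2 * 2 ^ 0 := by norm_num
      omega)
    have h2 : (1 : ℝ) ≤ g H' 0 T H' := by exact_mod_cast h1
    have h3 : μ ^ H' ≤ μ := by
      have h4 : H' ≤ 1 := by omega
      calc μ ^ H' ≤ μ ^ 1 := pow_le_pow_right₀ hμ h4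
        _ = μ := pow_one _
    simp only [mul_zero, pow_zero, one_mul]
    nlinarith
  | succ j ih =>
    have hT' : 2 * 2 ^ j ≤ T := by
      rw [pow_succ] at hT
      have : (0 : ℤ) < 2 ^ j := by positivity
      omega
    have hg' : ∀ i < j, (good μ θ i).Nonempty := fun i hi => hg i (by omega)
    rcases Nat.lt_or_ge H' (2 * 2 ^ j) with h | h
    · obtain ⟨N, hN⟩ := ih hg' hT' h
      refine ⟨N, le_trans ?_ hN⟩
      apply mul_le_mul_of_nonneg_right _ (pow_pos hμ0 N).le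
      exact pow_le_pow_of_le_one hθ.le hθ1 (by omega)
    · obtain ⟨H'', rfl⟩ : ∃ H'', H' = H'' + 2 * 2 ^ j := ⟨H' - 2 * 2 ^ j, by omega⟩
      obtain ⟨M, hM⟩ := ih hg' hT' (H' := H'') (by rw [pow_succ] at hH; omega)
      obtain ⟨N, hN⟩ := piece hμ hθ (hg j (by omega)) hT' hM
      refine ⟨N, ?_⟩
      have e : (((H'' + 2 * 2 ^ j : ℕ) : ℕ) : ℤ) = (H'' : ℤ) + 2 * 2 ^ j := by push_cast; ring
      rw [e]
      calc θ ^ (2 * (j + 1)) * μ ^ N = θ ^ 2 * θ ^ (2 * j) * μ ^ N := by ring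
        _ ≤ _ := hN

theorem mid2 {μ θ : ℝ} (hμ : 1 ≤ μ) (hθ : 0 < θ) (hθ1 : θ ≤ 1) (j : ℕ)
    (hg : ∀ i ≤ j, (good μ θ i).Nonempty) {T : ℤ} (hT : 2 * 2 ^ j ≤ T) (q : ℕ) {H' : ℕ}
    (hH : H' < (q + 1) * (2 * 2 ^ j)) : ∃ N, θ ^ (2 * (j + q)) * μ ^ N ≤ μ * g H' 0 T N := by
  have hμ0 : 0 < μ := by linarith
  induction q generalizing H' with
  | zero => exact mid hμ hθ hθ1 j (fun i hi => hg i hi.le) hT (by simpa using hH)
  | succ q ih =>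
    rcases Nat.lt_or_ge H' ((q + 1) * (2 * 2 ^ j)) with h | h
    · obtain ⟨N, hN⟩ := ih h
      refine ⟨N, le_trans ?_ hN⟩
      apply mul_le_mul_of_nonneg_right _ (pow_pos hμ0 N).le
      exact pow_le_pow_of_le_one hθ.le hθ1 (by omega)
    · have h2 : 2 * 2 ^ j ≤ H' := le_trans (Nat.le_mul_of_pos_left _ (Nat.succ_pos q)) h
      obtain ⟨H'', rfl⟩ : ∃ H'', H' = H'' + 2 * 2 ^ j := ⟨H' - 2 * 2 ^ j, by omega⟩
      obtain ⟨M, hM⟩ := ih (H' := H'') (by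
        have : (q + 1 + 1) * (2 * 2 ^ j) = (q + 1) * (2 * 2 ^ j) + 2 * 2 ^ j := by ring
        omega)
      obtain ⟨N, hN⟩ := piece hμ hθ (hg j le_rfl) hT hM
      refine ⟨N, ?_⟩
      have e : (((H'' + 2 * 2 ^ j : ℕ) : ℕ) : ℤ) = (H'' : ℤ) + 2 * 2 ^ j := by push_cast; ring
      rw [e]
      calc θ ^ (2 * (j + (q + 1))) * μ ^ N = θ ^ 2 * θ ^ (2 * (j + q)) * μ ^ N := by ring
        _ ≤ _ := hN

theorem pos_rep (k : ℕ) : pos (List.replicate k (0 : Fin 4)) 0 = k ∧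
    X (List.replicate k (0 : Fin 4)) = 0 := by
  unfold X
  induction k with
  | zero => simp
  | succ k ih =>
    rw [List.replicate_succ, H122R3.SX.pos_cons, H122R3.SX.pos_cons, ih.1, ih.2]
    refine ⟨?_, ?_⟩
    · simp [st]; ring
    · simp [st]

theorem inf_rep {k : ℕ} {v : W} (h : v <:+: List.replicate k (0 : Fin 4)) :
    v = List.replicate v.length 0 := by
  apply List.eq_replicate_of_mem
  intro a ha
  exact List.eq_of_mem_replicate (h.subset ha)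

theorem dm_straight (Y : ℕ) : 1 ≤ dm Y Y := by
  unfold dm
  rw [Nat.one_le_iff_ne_zero, Ne, Finset.card_eq_zero, ← Ne, ← Finset.nonempty_iff_ne_empty]
  refine ⟨List.replicate Y 0, ?_⟩
  rw [mem_fs]
  refine ⟨⟨?_, (pos_rep Y).1, (pos_rep Y).2, ?_⟩, List.length_replicate⟩
  · intro v hv h0
    refine ⟨0, ?_⟩
    rw [inf_rep hv, (pos_rep _).1]
    have := List.length_pos_of_ne_nil h0
    omega
  · intro v hv h0 hne
    have h1 := inf_rep hv.isInfix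
    have h2 := List.length_pos_of_ne_nil h0
    have h3 : v.length < Y := by
      have h4 := hv.length_le
      rw [List.length_replicate] at h4
      rcases Nat.lt_or_ge v.length Y with h | h
      · exact h
      · exfalso
        apply hne
        have : v.length = Y := by omega
        rw [h1, this]
    rw [h1, (pos_rep _).1, (pos_rep _).2]
    have h5 : |2 * ((v.length : ℕ) : ℤ) - Y| < Y := by
      rw [abs_lt]
      constructor <;> omega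
    simpa using h5

/-- **Diamond words of all heights.** -/
theorem dia {μ K : ℝ} (h : Bd μ K) : ∃ K' : ℝ, 0 ≤ K' ∧ ∀ Y : ℕ, 1 ≤ Y →
    ∃ N, exp (-(K' * log (Y + 1) ^ 3)) * μ ^ N ≤ dm Y N := by
  have hμ := h.one
  have hμ0 : 0 < μ := by linarith
  have hK2 := Pool.Agent.TH303.SX2.K2_nonneg h.Kn
  have hlμ : 0 ≤ log μ := log_nonneg hμ
  obtain ⟨κ, hκ⟩ : ∃ κ, κ = Pool.Agent.TH303.SX2.K2 K := ⟨_, rfl⟩
  rw [← hκ] at hK2
  refine ⟨40 * κ + 40 * log μ, by positivity, fun Y hY => ?_⟩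
  have hY0 : (1 : ℝ) ≤ Y := by exact_mod_cast hY
  have hlog2 : 0.6931471803 < log 2 := log_two_gt_d9
  have hL : log 2 ≤ log ((Y : ℝ) + 1) := log_le_log (by norm_num) (by linarith)
  obtain ⟨l, hl⟩ : ∃ l, l = log ((Y : ℝ) + 1) := ⟨_, rfl⟩
  rw [← hl] at hL
  have hl0 : 0.69 < l := by linarith
  have hl2 : 0.47 ≤ l ^ 2 := by nlinarith
  have hl3 : 0.32 ≤ l ^ 3 := by
    have : l ^ 3 = l ^ 2 * l := by ring
    nlinarith
  rcases Nat.lt_or_ge Y 9 with h9 | h9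
  · refine ⟨Y, ?_⟩
    have h1 : (1 : ℝ) ≤ dm Y Y := by exact_mod_cast dm_straight Y
    refine le_trans ?_ h1
    rw [← hl]
    have h2 : μ ^ Y = exp (Y * log μ) := by rw [exp_nat_mul, exp_log hμ0]
    rw [h2, ← exp_add, ← exp_zero]
    apply exp_le_exp.2
    have h3 : (Y : ℝ) ≤ 8 := by exact_mod_cast (by omega : Y ≤ 8)
    have h4 : (Y : ℝ) * log μ ≤ 8 * log μ := by gcongr
    have h5 : 40 * log μ * 0.32 ≤ 40 * log μ * l ^ 3 := by gcongr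
    have h6 : 0 ≤ 40 * κ * l ^ 3 := by positivity
    nlinarith
  · obtain ⟨j, hj⟩ : ∃ j, j = Nat.log 2 ((Y - 1) / 8) := ⟨_, rfl⟩
    have hj1 : 8 * 2 ^ j ≤ Y - 1 := by
      have := Nat.pow_log_le_self 2 (x := (Y - 1) / 8) (by omega)
      rw [← hj] at this
      omega
    have hj2 : Y - 1 < 16 * 2 ^ j := by
      have := Nat.lt_pow_succ_log_self (b := 2) (by norm_num) ((Y - 1) / 8)
      rw [← hj, pow_succ] at this
      omega
    obtain ⟨θ, hθ⟩ : ∃ θ, θ = exp (-(κ * log ((Y : ℝ) + 1) ^ 2)) := ⟨_, rfl⟩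
    have hθ0 : 0 < θ := by rw [hθ]; exact exp_pos _
    have hθ1 : θ ≤ 1 := by
      rw [hθ, exp_le_one_iff]
      have : 0 ≤ κ * log ((Y : ℝ) + 1) ^ 2 := by positivity
      linarith
    have hg : ∀ i ≤ j, (good μ θ i).Nonempty := by
      intro i hi
      rw [hθ, hκ]
      apply good_ne h
      have : 2 ^ i ≤ 2 ^ j := Nat.pow_le_pow_right (by norm_num) hi
      omega
    have harm := arms hμ hθ0 j (fun i hi => hg i hi.le)
    obtain ⟨M, hM⟩ := mid2 hμ hθ0 hθ1 j hg (T := 2 * 2 ^ j) le_rfl 3 (H' := Y - 1 - 8 * 2 ^ j)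
      (by omega)
    have hT : ((2 * 2 ^ j : ℤ) : ℝ) ≤ 1 / 2 * (((4 * 2 ^ j : ℕ) : ℤ) : ℝ) := by
      push_cast
      linarith
    have hH1 : (1 : ℤ) ≤ ((4 * 2 ^ j : ℕ) : ℤ) := by
      have : 1 ≤ 2 ^ j := Nat.one_le_two_pow
      exact_mod_cast (by omega : 1 ≤ 4 * 2 ^ j)
    have hglue := dm_ge (η := 1 / 2) (by norm_num) le_rfl hH1 hT
      (H' := ((Y - 1 - 8 * 2 ^ j : ℕ) : ℤ)) (Nl μ θ j) M (Nl μ θ j)
    have e1 : 2 * ((4 * 2 ^ j : ℕ) : ℤ) + ((Y - 1 - 8 * 2 ^ j : ℕ) : ℤ) + 1 = (Y : ℤ) := by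
      have : 2 * (4 * 2 ^ j) + (Y - 1 - 8 * 2 ^ j) + 1 = Y := by omega
      exact_mod_cast this
    rw [e1] at hglue
    refine ⟨Nl μ θ j + M + 1 + Nl μ θ j, ?_⟩
    have hglue' : (gw (1 / 2) ((4 * 2 ^ j : ℕ) : ℤ) (Nl μ θ j) : ℝ) *
        (g ((Y - 1 - 8 * 2 ^ j : ℕ) : ℤ) 0 (2 * 2 ^ j) M : ℝ) *
        (gw (1 / 2) ((4 * 2 ^ j : ℕ) : ℤ) (Nl μ θ j) : ℝ) ≤
        (dm Y (Nl μ θ j + M + 1 + Nl μ θ j) : ℝ) := by exact_mod_cast hglue
    refine le_trans ?_ hglue'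
    obtain ⟨a, ha⟩ : ∃ a, a = (gw (1 / 2) ((4 * 2 ^ j : ℕ) : ℤ) (Nl μ θ j) : ℝ) := ⟨_, rfl⟩
    obtain ⟨b, hb⟩ : ∃ b, b = (g ((Y - 1 - 8 * 2 ^ j : ℕ) : ℤ) 0 (2 * 2 ^ j) M : ℝ) := ⟨_, rfl⟩
    rw [← ha, ← hb]
    rw [← ha] at harm
    rw [← hb] at hM
    have ha' : θ ^ (4 * j) * μ ^ (Nl μ θ j) / μ ^ 4 ≤ a := by
      rw [div_le_iff₀ (pow_pos hμ0 4)]
      linarith
    have hb' : θ ^ (2 * (j + 3)) * μ ^ M / μ ≤ b := by
      rw [div_le_iff₀ hμ0]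
      linarith
    have key : exp (-((40 * κ + 40 * log μ) * log ((Y : ℝ) + 1) ^ 3)) ≤
        θ ^ (10 * j + 6) * (μ ^ 10)⁻¹ := by
      have h2 : (μ ^ 10)⁻¹ = exp (-(10 * log μ)) := by
        rw [exp_neg, show (10 : ℝ) * log μ = ((10 : ℕ) : ℝ) * log μ by norm_num, exp_nat_mul,
          exp_log hμ0]
      rw [h2, hθ, ← exp_nat_mul, ← exp_add]
      apply exp_le_exp.2
      rw [← hl]
      push_cast
      have hjl : (j : ℝ) * log 2 ≤ l := by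
        have h1 : (2 : ℝ) ^ j ≤ (Y : ℝ) + 1 := by
          have : 2 ^ j ≤ Y := by omega
          have : (2 : ℝ) ^ j ≤ Y := by exact_mod_cast this
          linarith
        have h3 := log_le_log (by positivity) h1
        rw [log_pow, ← hl] at h3
        exact h3
      have hj0 : (0 : ℝ) ≤ j := Nat.cast_nonneg j
      have hjl' : (j : ℝ) ≤ 1.5 * l := by nlinarith
      have h4 : (10 * (j : ℝ) + 6) * (κ * l ^ 2) ≤ (15 * l + 6 * (l / 0.69)) * (κ * l ^ 2) := by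
        have : (6 : ℝ) ≤ 6 * (l / 0.69) := by
          have : 1 ≤ l / 0.69 := by
            rw [le_div_iff₀ (by norm_num)]; linarith
          linarith
        have h5 : 10 * (j : ℝ) ≤ 15 * l := by linarith
        gcongr
      have h5 : (15 * l + 6 * (l / 0.69)) * (κ * l ^ 2) ≤ 40 * κ * l ^ 3 := by
        have h6 : (15 * l + 6 * (l / 0.69)) * (κ * l ^ 2) = (15 + 6 / 0.69) * (κ * l ^ 3) := by
          ring
        have h7 : 0 ≤ κ * l ^ 3 := by positivity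
        rw [h6]
        have h8 : (15 + 6 / 0.69 : ℝ) ≤ 40 := by norm_num
        nlinarith
      have h6 : 10 * log μ ≤ 40 * log μ * l ^ 3 := by
        calc 10 * log μ ≤ 40 * log μ * 0.32 := by linarith
          _ ≤ _ := by gcongr
      linarith
    calc exp (-((40 * κ + 40 * log μ) * log ((Y : ℝ) + 1) ^ 3)) *
          μ ^ (Nl μ θ j + M + 1 + Nl μ θ j)
        ≤ (θ ^ (10 * j + 6) * (μ ^ 10)⁻¹) * μ ^ (Nl μ θ j + M + 1 + Nl μ θ j) := by gcongr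
      _ = (θ ^ (4 * j) * μ ^ (Nl μ θ j) / μ ^ 4) * (θ ^ (2 * (j + 3)) * μ ^ M / μ) *
          (θ ^ (4 * j) * μ ^ (Nl μ θ j) / μ ^ 4) := by
          have e : θ ^ (10 * j + 6) = θ ^ (4 * j) * θ ^ (2 * (j + 3)) * θ ^ (4 * j) := by
            rw [← pow_add, ← pow_add]
            congr 1
            ring
          rw [e]
          field_simp
          ring
      _ ≤ a * b * a := by
          have ha0 : 0 ≤ a := by rw [ha]; exact Nat.cast_nonneg _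
          have hb0 : 0 ≤ b := by rw [hb]; exact Nat.cast_nonneg _
          gcongr

end Pool.Agent.T9h33.Dw
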