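import Pool.Agent.T9h33.Ca
import Pool.Agent.N941.SP.Bri

/-!
The tail of the number of close approaches.
-/

set_option autoImplicit false

namespace Pool.Agent.T9h33.Fi

open Pool.Agent.W840.CT (Pt LS LS_finite LS_le SW SW_finite ex pa fu TT cn cn_pos)
open Pool.Agent.T9h33.Cn2
open Pool.Agent.T9h33.Ca
open Pool.Agent.TH303.SX2 (Bd)
open scoped Classical

theorem cn_c (n : ℕ) : cn n = H122R3.SX.c n := N941.SP.C_eq_c n

theorem pow_bound {N : ℕ} (hN : 2 ≤ N) : N + (2 * N + 5) ^ 2 * (N + 1) ≤ N ^ 11 := by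
  have h1 : 2 * N + 5 ≤ N ^ 4 := by
    have h2 : N ^ 4 = N * N ^ 3 := by ring
    have h3 : 2 ^ 3 ≤ N ^ 3 := Nat.pow_le_pow_left hN 3
    have h4 : N * 8 ≤ N * N ^ 3 := Nat.mul_le_mul_left _ h3
    omega
  have h2 : N + 1 ≤ N ^ 2 := by nlinarith
  have h3 : N ≤ N ^ 10 := by
    calc N = N ^ 1 := (pow_one N).symm
      _ ≤ N ^ 10 := Nat.pow_le_pow_right (by omega) (by norm_num)
  calc N + (2 * N + 5) ^ 2 * (N + 1) ≤ N ^ 10 + (N ^ 4) ^ 2 * N ^ 2 := by gcongr
    _ = 2 * N ^ 10 := by ring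
    _ ≤ N * N ^ 10 := Nat.mul_le_mul_right _ hN
    _ = N ^ 11 := by ring

theorem pow_bound2 {N : ℕ} (hN : 2 ≤ N) :
    (N + 1) * (N * (64 * N * (2 * N + 6) ^ 2 * 16)) ≤ N ^ 23 := by
  have h1 : 2 * N + 6 ≤ N ^ 4 := by
    have h2 : N ^ 4 = N * N ^ 3 := by ring
    have h3 : 2 ^ 3 ≤ N ^ 3 := Nat.pow_le_pow_left hN 3
    have h4 : N * 8 ≤ N * N ^ 3 := Nat.mul_le_mul_left _ h3
    omega
  have h2 : N + 1 ≤ N ^ 2 := by nlinarith
  have h3 : 2 ^ 10 ≤ N ^ 10 := Nat.pow_le_pow_left hN 10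
  calc (N + 1) * (N * (64 * N * (2 * N + 6) ^ 2 * 16)) =
        (N + 1) * (N * N) * (2 * N + 6) ^ 2 * 2 ^ 10 := by ring
    _ ≤ N ^ 2 * (N * N) * (N ^ 4) ^ 2 * N ^ 10 := by gcongr
    _ = N ^ 22 := by ring
    _ ≤ N ^ 23 := Nat.pow_le_pow_right (by omega) (by norm_num)

/-- **Few close approaches.** -/
theorem main : ∃ K : ℝ, 1 ≤ K ∧ ∀ N : ℕ, 2 ≤ N → ∀ x : ℝ, 0 ≤ x →
    (({ω | SW N ω ∧ ∃ t k : ℕ, 1 ≤ k ∧
      Real.exp (K * Real.log (k + 1) ^ 4) * (Real.log N ^ 2 + x) < ca N t k ω} :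
      Set (Fin (N + 1) → ℤ × ℤ)).ncard : ℝ) ≤ Real.exp (-x) * cn N := by
  obtain ⟨μ, K, hBd⟩ := Pool.Agent.TH303.SX2.exists_Bd
  obtain ⟨K', hK', hst⟩ := Dt.strands hBd
  obtain ⟨Kc, hKc, hct⟩ := Y981.CT.tail_all
  have hμ := hBd.one
  have hK := hBd.Kn
  have hμ0 : 0 < μ := by linarith
  obtain ⟨C, hC⟩ : ∃ C, C = ((4 * Kc + 25) + 1024 * (43 + 242 * K) + 70) *
    (Real.exp 1 * μ ^ 2 + 1) := ⟨_, rfl⟩
  have hC1 : 1 ≤ C := by
    rw [hC]
    have h1 : 1 ≤ Real.exp 1 * μ ^ 2 + 1 := by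
      have : 0 ≤ Real.exp 1 * μ ^ 2 := by positivity
      linarith
    nlinarith
  have hlC : 0 ≤ Real.log C := Real.log_nonneg hC1
  refine ⟨K' + 13 + 5 * Real.log C, by linarith, fun N hN x hx => ?_⟩
  have hN' : (2 : ℝ) ≤ N := by exact_mod_cast hN
  have hlog2 : (0.69 : ℝ) < Real.log 2 := by
    have := Real.log_two_gt_d9
    linarith
  obtain ⟨L, hL⟩ : ∃ L, L = Real.log N := ⟨_, rfl⟩
  have hlogN : (0.69 : ℝ) < L := by
    rw [hL]
    exact hlog2.trans_le (Real.log_le_log (by norm_num) hN')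
  have hL2 : (0.47 : ℝ) ≤ L ^ 2 := by nlinarith
  have hLL : L ≤ 1.45 * L ^ 2 := by nlinarith
  rw [← hL]
  obtain ⟨M, hM⟩ : ∃ M, M = N ^ 11 := ⟨_, rfl⟩
  obtain ⟨E, hE⟩ : ∃ E, E = Real.exp (121 * K * L ^ 2) := ⟨_, rfl⟩
  have hE0 : 0 < E := by rw [hE]; exact Real.exp_pos _
  have hU : Up μ E M := by
    intro n hn
    have h1 := LS_le n
    have h2 : ((LS n).ncard : ℝ) ≤ (H122R3.SX.c n : ℝ) := by
      rw [← cn_c]
      exact_mod_cast h1
    refine h2.trans ((hBd.c_le4 hn).trans (le_of_eq ?_))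
    rw [hE, hM]
    push_cast
    rw [Real.log_pow, ← hL]
    congr 2
    push_cast
    ring
  have hhas : ∀ R : ℕ, 1 ≤ R → Has μ (Real.exp (-(K' * Real.log (R + 1) ^ 4))) R := by
    intro R hR b hb
    obtain ⟨n, F, h1, h2⟩ := hst R hR b hb
    exact ⟨n, F, h1, h2⟩
  have hcn : μ ^ N ≤ (cn N : ℝ) := by
    rw [cn_c]
    exact hBd.low N hN
  obtain ⟨y, hy⟩ : ∃ y, y = x + (40 + 242 * K) * L ^ 2 := ⟨_, rfl⟩
  obtain ⟨r, hr⟩ : ∃ r, r = ⌈y⌉₊ := ⟨_, rfl⟩
  have hy0 : 0 < y := by rw [hy]; positivity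
  have hr1 : (r : ℝ) ≤ y + 1 := by rw [hr]; exact (Nat.ceil_lt_add_one hy0.le).le
  have hr2 : y ≤ r := by rw [hr]; exact Nat.le_ceil _
  have hr3 : 1 ≤ r := by rw [hr]; exact Nat.ceil_pos.2 hy0
  obtain ⟨k0, hk0⟩ : ∃ k0 : ℕ → ℕ, k0 = fun R : ℕ =>
    ⌈Real.exp 1 * μ ^ 2 * Real.exp (K' * Real.log ((R : ℝ) + 1) ^ 4)⌉₊ := ⟨_, rfl⟩
  have hk1 : ∀ R, 1 ≤ k0 R := by
    intro R
    rw [hk0]
    exact Nat.ceil_pos.2 (by positivity)
  have hk2 : ∀ R : ℕ, Real.exp 1 * μ ^ 2 ≤ k0 R * Real.exp (-(K' * Real.log (R + 1) ^ 4)) := by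
    intro R
    have h1 : Real.exp 1 * μ ^ 2 * Real.exp (K' * Real.log (R + 1) ^ 4) ≤ k0 R := by
      rw [hk0]; exact Nat.le_ceil _
    rw [Real.exp_neg, ← div_eq_mul_inv, le_div_iff₀ (Real.exp_pos _)]
    exact h1
  have hk3 : ∀ R k : ℕ, R ≤ k → (k0 R : ℝ) ≤
      (Real.exp 1 * μ ^ 2 + 1) * Real.exp (K' * Real.log (k + 1) ^ 4) := by
    intro R k hRk
    have h1 : (k0 R : ℝ) ≤ Real.exp 1 * μ ^ 2 * Real.exp (K' * Real.log (R + 1) ^ 4) + 1 := by
      rw [hk0]; exact (Nat.ceil_lt_add_one (by positivity)).le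
    have h2 : Real.log ((R : ℝ) + 1) ≤ Real.log ((k : ℝ) + 1) := by
      have : (R : ℝ) ≤ k := by exact_mod_cast hRk
      have h0 : (0 : ℝ) ≤ R := Nat.cast_nonneg _
      exact Real.log_le_log (by linarith) (by linarith)
    have h3 : 0 ≤ Real.log ((R : ℝ) + 1) := Real.log_nonneg (by
      have h0 : (0 : ℝ) ≤ R := Nat.cast_nonneg _
      linarith)
    have h4 : Real.log ((R : ℝ) + 1) ^ 4 ≤ Real.log ((k : ℝ) + 1) ^ 4 :=
      pow_le_pow_left₀ h3 h2 4
    have h5 : Real.exp (K' * Real.log ((R : ℝ) + 1) ^ 4) ≤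
        Real.exp (K' * Real.log ((k : ℝ) + 1) ^ 4) :=
      Real.exp_le_exp.2 (mul_le_mul_of_nonneg_left h4 hK')
    have h6 : 1 ≤ Real.exp (K' * Real.log ((k : ℝ) + 1) ^ 4) := by
      rw [← Real.exp_zero]
      exact Real.exp_le_exp.2 (by positivity)
    have h7 : 0 ≤ Real.exp 1 * μ ^ 2 := by positivity
    nlinarith [mul_le_mul_of_nonneg_left h5 h7]
  -- the number of bad walks for `t` and `R`
  obtain ⟨thr, hthr⟩ : ∃ thr : ℕ → ℕ, thr = fun R => 64 * R * (2 * R + 6) ^ 2 * (k0 R * r) :=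
    ⟨_, rfl⟩
  have hone : ∀ t ≤ N, ∀ R (hR : 1 ≤ R), R ≤ N →
      (({ω | SW N ω ∧ thr R ≤ (QQ (hhas R hR) (pa ω t).toFinset (fu ω t)).card} :
        Set (Fin (N + 1) → ℤ × ℤ)).ncard : ℝ) ≤
      (64 * N * (2 * N + 6) ^ 2 : ℕ) * (16 * cn N * E ^ 2 * Real.exp (-r)) := by
    intro t ht R hR hRN
    have hpos : 0 ≤ ((64 * N * (2 * N + 6) ^ 2 : ℕ) : ℝ) * (16 * cn N * E ^ 2 * Real.exp (-r)) := by
      have := cn_pos N
      positivity
    rcases Nat.lt_or_ge (N + 1) r with h1 | h1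
    · have e : ({ω | SW N ω ∧ thr R ≤ (QQ (hhas R hR) (pa ω t).toFinset (fu ω t)).card} :
        Set (Fin (N + 1) → ℤ × ℤ)) = ∅ := by
        apply Set.eq_empty_of_forall_notMem
        rintro ω ⟨-, h2⟩
        have h3 := QQ_le (hhas R hR) ω ht
        have h4 : r ≤ thr R := by
          rw [hthr]
          have h5 : 1 ≤ 64 * R * (2 * R + 6) ^ 2 * k0 R :=
            Nat.mul_pos (by positivity) (hk1 R)
          calc r = 1 * r := (one_mul r).symm
            _ ≤ 64 * R * (2 * R + 6) ^ 2 * k0 R * r := Nat.mul_le_mul_right _ h5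
            _ = _ := by ring
        omega
      rw [e, Set.ncard_empty, Nat.cast_zero]
      exact hpos
    · have h2 := pair_le (hhas R hR) N t (thr R) ht
      have h3 := count4 hμ (Real.exp_pos _) hE0 hU (hhas R hR) t (N - t) r (k0 R) (hk2 R) (hk1 R)
        hr3 hR (by
          rw [hM]
          have := pow_bound hN
          omega) (by
          rw [hM]
          have h4 := pow_bound hN
          have h5 : (2 * R + 5) ^ 2 * r ≤ (2 * N + 5) ^ 2 * (N + 1) := by gcongr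
          omega)
      have h4 : (({ω | SW N ω ∧ thr R ≤ (QQ (hhas R hR) (pa ω t).toFinset (fu ω t)).card} :
        Set (Fin (N + 1) → ℤ × ℤ)).ncard : ℝ) ≤
          ((PQ (hhas R hR) t (N - t) (thr R)).ncard : ℝ) := by exact_mod_cast h2
      refine h4.trans ?_
      rw [hthr]
      refine h3.trans ?_
      rw [show t + (N - t) = N by omega]
      have h5 : ((64 * R * (2 * R + 6) ^ 2 : ℕ) : ℝ) ≤ ((64 * N * (2 * N + 6) ^ 2 : ℕ) : ℝ) := by
        have : 64 * R * (2 * R + 6) ^ 2 ≤ 64 * N * (2 * N + 6) ^ 2 := by gcongr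
        exact_mod_cast this
      gcongr
  -- the union bound
  obtain ⟨S1, hS1⟩ : ∃ S1 : Set (Fin (N + 1) → ℤ × ℤ), S1 =
    {ω | SW N ω ∧ ∃ t, Kc * (Real.log N ^ 2 + (x + 1)) < TT N t ω} := ⟨_, rfl⟩
  obtain ⟨S2, hS2⟩ : ∃ S2 : ℕ × ℕ → Set (Fin (N + 1) → ℤ × ℤ), S2 = fun q =>
    {ω | SW N ω ∧ ∃ hR : 1 ≤ q.2, thr q.2 ≤
      (QQ (hhas q.2 hR) (pa ω q.1).toFinset (fu ω q.1)).card} := ⟨_, rfl⟩
  have hS1f : S1.Finite := by
    rw [hS1]; exact (SW_finite N).subset (fun ω hω => hω.1)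
  have hS2f : ∀ q, (S2 q).Finite := by
    intro q
    rw [hS2]; exact (SW_finite N).subset (fun ω hω => hω.1)
  have hS2c : ∀ q ∈ Finset.range (N + 1) ×ˢ Finset.Icc 1 N, (((hS2f q).toFinset.card : ℕ) : ℝ) ≤
      (64 * N * (2 * N + 6) ^ 2 : ℕ) * (16 * cn N * E ^ 2 * Real.exp (-r)) := by
    rintro ⟨t, R⟩ hq
    rw [Finset.mem_product, Finset.mem_range, Finset.mem_Icc] at hq
    simp only at hq
    rw [← Set.ncard_eq_toFinset_card _ (hS2f (t, R))]
    refine le_trans ?_ (hone t (by omega) R hq.2.1 hq.2.2)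
    have hsub : S2 (t, R) ⊆ {ω | SW N ω ∧ thr R ≤
        (QQ (hhas R hq.2.1) (pa ω t).toFinset (fu ω t)).card} := by
      intro ω hω
      rw [hS2] at hω
      obtain ⟨h1, hR, h2⟩ := hω
      exact ⟨h1, h2⟩
    exact_mod_cast Set.ncard_le_ncard hsub ((SW_finite N).subset (fun ω hω => hω.1))
  have hsub : ({ω | SW N ω ∧ ∃ t k : ℕ, 1 ≤ k ∧
      Real.exp ((K' + 13 + 5 * Real.log C) * Real.log (k + 1) ^ 4) * (L ^ 2 + x) <
        ca N t k ω} : Set (Fin (N + 1) → ℤ × ℤ)) ⊆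
      ((hS1f.toFinset ∪ (Finset.range (N + 1) ×ˢ Finset.Icc 1 N).biUnion
        (fun q => (hS2f q).toFinset) : Finset _) : Set (Fin (N + 1) → ℤ × ℤ)) := by
    rintro ω ⟨hω, t, k, hk, hca⟩
    rw [Finset.mem_coe, Finset.mem_union, Finset.mem_biUnion]
    by_contra hcon
    push Not at hcon
    obtain ⟨c1, c2⟩ := hcon
    have hS0 : 0 < L ^ 2 + x := by linarith
    have htN : t ≤ N := by
      by_contra htN
      have e : ca N t k ω = 0 := by
        unfold ca
        rw [Finset.card_eq_zero, Finset.filter_eq_empty_iff]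
        rintro i - ⟨-, j, hj, -⟩
        have := j.2
        omega
      rw [e, Nat.cast_zero] at hca
      have : 0 < Real.exp ((K' + 13 + 5 * Real.log C) * Real.log (k + 1) ^ 4) * (L ^ 2 + x) := by
        positivity
      linarith
    have d1 : (TT N t ω : ℝ) ≤ Kc * (L ^ 2 + (x + 1)) := by
      by_contra h
      apply c1
      rw [Set.Finite.mem_toFinset, hS1]
      refine ⟨hω, t, ?_⟩
      rw [← hL]
      exact not_le.1 h
    have d2 : ∀ R (hR : 1 ≤ R), R ≤ N →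
        (QQ (hhas R hR) (pa ω t).toFinset (fu ω t)).card < thr R := by
      intro R hR hRN
      by_contra h
      apply c2 (t, R)
      · rw [Finset.mem_product, Finset.mem_range, Finset.mem_Icc]
        exact ⟨by simp only; omega, hR, hRN⟩
      · rw [Set.Finite.mem_toFinset, hS2]
        exact ⟨hω, hR, not_lt.1 h⟩
    -- bound for the terms
    obtain ⟨κ, hκ⟩ : ∃ κ, κ = (Real.exp 1 * μ ^ 2 + 1) *
      Real.exp (K' * Real.log (k + 1) ^ 4) := ⟨_, rfl⟩
    have hκ1 : 1 ≤ κ := by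
      rw [hκ]
      have h6 : 1 ≤ Real.exp (K' * Real.log ((k : ℝ) + 1) ^ 4) := by
        rw [← Real.exp_zero]
        exact Real.exp_le_exp.2 (by positivity)
      have h7 : 0 ≤ Real.exp 1 * μ ^ 2 := by positivity
      nlinarith
    obtain ⟨s, hs⟩ : ∃ s, s = L ^ 2 + x := ⟨_, rfl⟩
    have hs1 : 0.47 ≤ s := by rw [hs]; linarith
    have hkr : (1 : ℝ) ≤ k := by exact_mod_cast hk
    have hry : (r : ℝ) ≤ (43 + 242 * K) * s := by
      have h1 : (43 + 242 * K) * s = (40 + 242 * K) * L ^ 2 + x + (3 * L ^ 2 + (42 + 242 * K) * x)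
        := by
        rw [hs]; ring
      have h2 : 0 ≤ (42 + 242 * K) * x := by positivity
      rw [hy] at hr1
      linarith
    have hterm : ∀ r' ∈ Finset.range (min k N + 1),
        ((cl (pa ω t).toFinset (fu ω t) r').card : ℝ) ≤
          s * ((k : ℝ) + 1) ^ 3 * κ * ((4 * Kc + 25) + 1024 * (43 + 242 * K) + 70) := by
      intro r' hr'
      rw [Finset.mem_range, Nat.lt_succ_iff, Nat.le_min] at hr'
      have hk3' : (1 : ℝ) ≤ ((k : ℝ) + 1) ^ 3 := one_le_pow₀ (by linarith)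
      have hbig : ∀ u : ℝ, 0 ≤ u → s * u ≤ s * ((k : ℝ) + 1) ^ 3 * κ * u := by
        intro u hu
        have h1 : 1 ≤ ((k : ℝ) + 1) ^ 3 * κ := by nlinarith
        have h2 : 0 ≤ s * u := by positivity
        nlinarith
      rcases Nat.lt_or_ge r' 2 with h2 | h2
      · have h3 : ((cl (pa ω t).toFinset (fu ω t) r').card : ℝ) ≤ s * (4 * Kc + 25) := by
          have h4 : (TT N t ω : ℝ) + 9 ≤ s * (4 * Kc + 25) := by
            have h5 : Kc * (L ^ 2 + (x + 1)) ≤ Kc * (4 * s) := by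
              apply mul_le_mul_of_nonneg_left _ hKc.le
              linarith
            linarith
          interval_cases r'
          · have h5 := cl_zero (A := (pa ω t).toFinset) (B := fu ω t) (fun v hv hv' =>
              W840.CT.split_disj hω htN v hv (List.mem_toFinset.1 hv'))
            have h6 : ((cl (pa ω t).toFinset (fu ω t) 0).card : ℝ) ≤ 1 := by exact_mod_cast h5
            have h7 : (0 : ℝ) ≤ TT N t ω := Nat.cast_nonneg _
            linarith
          · have h5 := cl_one (ω := ω) htN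
            have h6 : ((cl (pa ω t).toFinset (fu ω t) 1).card : ℝ) ≤ TT N t ω + 9 := by
              exact_mod_cast h5
            linarith
        refine h3.trans ((hbig _ (by positivity)).trans ?_)
        apply mul_le_mul_of_nonneg_left _ (by positivity)
        have : 0 ≤ 1024 * (43 + 242 * K) + 70 := by positivity
        linarith
      · obtain ⟨R, rfl⟩ : ∃ R, r' = R + 1 := ⟨r' - 1, by omega⟩
        have hR : 1 ≤ R := by omega
        have h3 := cl_le (hhas R hR) hR (A := (pa ω t).toFinset) (W840.CT.fu_mem hω htN)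
        have h4 := d2 R hR (by omega)
        have hRk : R ≤ k := by omega
        have h5 : (cl (pa ω t).toFinset (fu ω t) (R + 1)).card ≤
            64 * R * (2 * R + 6) ^ 2 * (k0 R * r) + 2 * (2 * R + 5) ^ 2 := by
          rw [hthr] at h4
          simp only at h4
          omega
        have h6 : ((cl (pa ω t).toFinset (fu ω t) (R + 1)).card : ℝ) ≤
            64 * R * (2 * R + 6) ^ 2 * (k0 R * r) + 2 * (2 * R + 5) ^ 2 := by exact_mod_cast h5
        have hRr : (R : ℝ) ≤ k := by exact_mod_cast hRk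
        have hR0 : (0 : ℝ) ≤ R := Nat.cast_nonneg _
        have h7 : (64 : ℝ) * R * (2 * R + 6) ^ 2 ≤ 1024 * ((k : ℝ) + 1) ^ 3 := by
          have h8 : 2 * (R : ℝ) + 6 ≤ 4 * ((k : ℝ) + 1) := by linarith
          have h9 : (R : ℝ) ≤ k + 1 := by linarith
          calc (64 : ℝ) * R * (2 * R + 6) ^ 2 ≤ 64 * (k + 1) * (4 * ((k : ℝ) + 1)) ^ 2 := by
                gcongr
            _ = _ := by ring
        have h8 : (2 : ℝ) * (2 * R + 5) ^ 2 ≤ s * ((k : ℝ) + 1) ^ 3 * κ * 70 := by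
          have h9 : 2 * (R : ℝ) + 5 ≤ 4 * ((k : ℝ) + 1) := by linarith
          have h10 : (1 : ℝ) ≤ k + 1 := by linarith
          calc (2 : ℝ) * (2 * R + 5) ^ 2 ≤ 2 * (4 * ((k : ℝ) + 1)) ^ 2 := by gcongr
            _ = 32 * ((k : ℝ) + 1) ^ 2 := by ring
            _ ≤ 32 * ((k : ℝ) + 1) ^ 3 := by
                apply mul_le_mul_of_nonneg_left _ (by norm_num)
                exact pow_le_pow_right₀ h10 (by norm_num)
            _ ≤ (s * 70) * ((k : ℝ) + 1) ^ 3 := by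
                apply mul_le_mul_of_nonneg_right _ (by positivity)
                linarith
            _ = s * ((k : ℝ) + 1) ^ 3 * 1 * 70 := by ring
            _ ≤ _ := by gcongr
        have h9 : (k0 R : ℝ) * r ≤ κ * ((43 + 242 * K) * s) := by
          have h10 := hk3 R k hRk
          rw [← hκ] at h10
          gcongr
        have h11 : 64 * (R : ℝ) * (2 * R + 6) ^ 2 * (k0 R * r) ≤
            s * ((k : ℝ) + 1) ^ 3 * κ * (1024 * (43 + 242 * K)) := by
          calc 64 * (R : ℝ) * (2 * R + 6) ^ 2 * (k0 R * r)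
              ≤ (1024 * ((k : ℝ) + 1) ^ 3) * (κ * ((43 + 242 * K) * s)) := by gcongr
            _ = _ := by ring
        have h12 : 0 ≤ s * ((k : ℝ) + 1) ^ 3 * κ * (4 * Kc + 25) := by positivity
        nlinarith
    have hsum : (ca N t k ω : ℝ) ≤ ((k : ℝ) + 1) *
        (s * ((k : ℝ) + 1) ^ 3 * κ * ((4 * Kc + 25) + 1024 * (43 + 242 * K) + 70)) := by
      have h1 := ca_le hω htN k
      have h2 : (ca N t k ω : ℝ) ≤ ∑ r' ∈ Finset.range (min k N + 1),
          ((cl (pa ω t).toFinset (fu ω t) r').card : ℝ) := by exact_mod_cast h1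
      refine h2.trans ((Finset.sum_le_card_nsmul _ _ _ hterm).trans ?_)
      rw [Finset.card_range, nsmul_eq_mul]
      apply mul_le_mul_of_nonneg_right _ (by positivity)
      have : min k N ≤ k := min_le_left _ _
      push_cast
      have : ((min k N : ℕ) : ℝ) ≤ k := by exact_mod_cast this
      push_cast at this
      linarith
    have hfin : ((k : ℝ) + 1) *
        (s * ((k : ℝ) + 1) ^ 3 * κ * ((4 * Kc + 25) + 1024 * (43 + 242 * K) + 70)) ≤
        Real.exp ((K' + 13 + 5 * Real.log C) * Real.log (k + 1) ^ 4) * s := by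
      have e1 : ((k : ℝ) + 1) *
        (s * ((k : ℝ) + 1) ^ 3 * κ * ((4 * Kc + 25) + 1024 * (43 + 242 * K) + 70)) =
        ((k : ℝ) + 1) ^ 4 * C * Real.exp (K' * Real.log (k + 1) ^ 4) * s := by
        rw [hκ, hC]; ring
      rw [e1]
      apply mul_le_mul_of_nonneg_right _ (by linarith)
      obtain ⟨l, hl⟩ : ∃ l, l = Real.log ((k : ℝ) + 1) := ⟨_, rfl⟩
      have hl1 : 0.69 < l := by
        rw [hl]
        exact hlog2.trans_le (Real.log_le_log (by norm_num) (by linarith))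
      have e2 : ((k : ℝ) + 1) ^ 4 = Real.exp (4 * l) := by
        rw [show (4 : ℝ) * l = ((4 : ℕ) : ℝ) * l by norm_num, Real.exp_nat_mul, hl,
          Real.exp_log (by linarith)]
      have e3 : C = Real.exp (Real.log C) := (Real.exp_log (by linarith)).symm
      rw [← hl, e2]
      nth_rw 1 [e3]
      rw [← Real.exp_add, ← Real.exp_add]
      apply Real.exp_le_exp.2
      have h1 : 0.32 ≤ l ^ 3 := by
        calc (0.32 : ℝ) ≤ 0.69 ^ 3 := by norm_num
          _ ≤ l ^ 3 := by gcongr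
      have h2 : l ^ 4 = l ^ 3 * l := by ring
      have h3 : 4 * l ≤ 13 * l ^ 4 := by rw [h2]; nlinarith
      have h4 : 0.22 ≤ l ^ 4 := by rw [h2]; nlinarith
      have h5 : Real.log C ≤ 5 * Real.log C * l ^ 4 := by nlinarith
      linarith
    rw [hs] at hfin hsum
    linarith
  have hcard := Set.ncard_le_ncard hsub (Finset.finite_toSet _)
  rw [Set.ncard_coe_finset] at hcard
  have hcard2 := hcard.trans ((Finset.card_union_le _ _).trans
    (Nat.add_le_add_left Finset.card_biUnion_le _))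
  have h1 : ((hS1f.toFinset.card : ℕ) : ℝ) ≤ Real.exp (-(x + 1)) * cn N := by
    rw [← Set.ncard_eq_toFinset_card _ hS1f, hS1]
    exact hct N hN (x + 1) (by linarith)
  have hcn1 := cn_pos N
  have h2 : ((∑ q ∈ Finset.range (N + 1) ×ˢ Finset.Icc 1 N, (hS2f q).toFinset.card : ℕ) : ℝ) ≤
      1 / 2 * Real.exp (-x) * cn N := by
    push_cast
    refine (Finset.sum_le_card_nsmul _ _ _ hS2c).trans ?_
    rw [Finset.card_product, Finset.card_range, Nat.card_Icc, Nat.add_sub_cancel, nsmul_eq_mul]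
    have h3 : (((N + 1) * N : ℕ) : ℝ) *
        (((64 * N * (2 * N + 6) ^ 2 : ℕ) : ℝ) * (16 * cn N * E ^ 2 * Real.exp (-r))) =
        (((N + 1) * (N * (64 * N * (2 * N + 6) ^ 2 * 16)) : ℕ) : ℝ) *
          (cn N * E ^ 2 * Real.exp (-r)) := by
      push_cast
      ring
    rw [h3]
    have h4 : (((N + 1) * (N * (64 * N * (2 * N + 6) ^ 2 * 16)) : ℕ) : ℝ) ≤ (N : ℝ) ^ 23 := by
      exact_mod_cast pow_bound2 hN
    have h5 : (N : ℝ) ^ 23 = Real.exp (23 * L) := by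
      rw [show (23 : ℝ) * L = ((23 : ℕ) : ℝ) * L by norm_num, Real.exp_nat_mul, hL,
        Real.exp_log (by linarith)]
    have h6 : E ^ 2 = Real.exp (242 * K * L ^ 2) := by
      rw [hE, ← Real.exp_nat_mul]
      congr 1
      push_cast
      ring
    have h7 : Real.exp (-(r : ℝ)) ≤ Real.exp (-y) := Real.exp_le_exp.2 (by linarith)
    have h8 : Real.exp (23 * L) * (Real.exp (242 * K * L ^ 2) * Real.exp (-y)) ≤
        1 / 2 * Real.exp (-x) := by
      have h9 : (1 / 2 : ℝ) = Real.exp (-Real.log 2) := by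
        rw [Real.exp_neg, Real.exp_log (by norm_num)]; norm_num
      rw [h9, ← Real.exp_add, ← Real.exp_add, ← Real.exp_add]
      apply Real.exp_le_exp.2
      rw [hy]
      have := Real.log_two_lt_d9
      nlinarith
    calc (((N + 1) * (N * (64 * N * (2 * N + 6) ^ 2 * 16)) : ℕ) : ℝ) *
          (cn N * E ^ 2 * Real.exp (-r))
        ≤ Real.exp (23 * L) * (cn N * Real.exp (242 * K * L ^ 2) * Real.exp (-y)) := by
          rw [← h5, ← h6]
          gcongr
      _ = (Real.exp (23 * L) * (Real.exp (242 * K * L ^ 2) * Real.exp (-y))) * cn N := by ring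
      _ ≤ _ := by gcongr
  have h3 : Real.exp (-(x + 1)) ≤ 1 / 2 * Real.exp (-x) := by
    have h9 : (1 / 2 : ℝ) = Real.exp (-Real.log 2) := by
      rw [Real.exp_neg, Real.exp_log (by norm_num)]; norm_num
    rw [h9, ← Real.exp_add]
    apply Real.exp_le_exp.2
    have := Real.log_two_lt_d9
    linarith
  have h4 : (({ω | SW N ω ∧ ∃ t k : ℕ, 1 ≤ k ∧
      Real.exp ((K' + 13 + 5 * Real.log C) * Real.log (k + 1) ^ 4) * (L ^ 2 + x) <
        ca N t k ω} : Set (Fin (N + 1) → ℤ × ℤ)).ncard : ℝ) ≤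
      ((hS1f.toFinset.card : ℕ) : ℝ) +
      ((∑ q ∈ Finset.range (N + 1) ×ˢ Finset.Icc 1 N, (hS2f q).toFinset.card : ℕ) : ℝ) := by
    exact_mod_cast hcard2
  have h5 : Real.exp (-(x + 1)) * cn N ≤ 1 / 2 * Real.exp (-x) * cn N := by gcongr
  linarith

end Pool.Agent.T9h33.Fi
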