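import Pool.Agent.W840.CT.Count

/-!
Simultaneous insertions of long detours in a self-avoiding walk, with decoding.
-/

set_option autoImplicit false

namespace Pool.Agent.T9h33.Fr

open Pool.Agent.W840.CT (Pt Con LS LS_finite)
open scoped Classical

/-- the data of a kind of detour. Near the point `p` the chart `h p` is used, with `h p c0 = p`.
The point `h p x0` of the walk is replaced by one of the lists of `Ls`, mapped by `h p`. -/
structure Dat where
  h : Pt → Pt → Pt
  x0 : Pt
  mrk : Pt
  hd : Pt
  tl : Pt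
  c0 : Pt
  U : Pt → Prop
  Ls : Finset (List Pt)
  ell : ℕ
  rho : ℕ
  inj : ∀ p, Function.Injective (h p)
  adj : ∀ p u v, W840.CT.adj u v → W840.CT.adj (h p u) (h p v)
  ctr : ∀ p, h p c0 = p
  near : ∀ p u, U u ∨ u = x0 → |(h p u).1 - p.1| ≤ rho ∧ |(h p u).2 - p.2| ≤ rho
  len : ∀ L ∈ Ls, L.length = ell + 1
  chain : ∀ L ∈ Ls, L.IsChain W840.CT.adj
  nodup : ∀ L ∈ Ls, L.Nodup
  head : ∀ L ∈ Ls, L.head? = some hd
  last : ∀ L ∈ Ls, L.getLast? = some tl
  sub : ∀ L ∈ Ls, ∀ v ∈ L, U v
  mc : ∀ L ∈ Ls, c0 ∈ L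
  mm : ∀ L ∈ Ls, mrk ∈ L

/-- a detour is possible at `p` -/
structure Sg (F : Dat) (B : List Pt) (p : Pt) : Prop where
  mx : F.h p F.x0 ∈ B
  av : ∀ u, F.U u → F.h p u ∈ B → u = F.x0
  pr : ∀ z, Con B z (F.h p F.x0) → W840.CT.adj z (F.h p F.hd)
  su : ∀ y, Con B (F.h p F.x0) y → W840.CT.adj (F.h p F.tl) y

/-- a family of separated detours -/
structure Fam (F : Dat) (B : List Pt) (A : Finset Pt) (T : Finset Pt) (f : Pt → List Pt) : Prop where
  sur : ∀ p ∈ T, Sg F B p
  mem : ∀ p ∈ T, f p ∈ F.Ls
  sep : ∀ p ∈ T, ∀ p' ∈ T, p ≠ p' → 2 * (F.rho : ℤ) + 2 ≤ |p.1 - p'.1| ∨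
    2 * (F.rho : ℤ) + 2 ≤ |p.2 - p'.2|
  sub : T ⊆ A
  avo : ∀ v ∈ B, v ∈ A → v = 0

/-- what is emitted at `x` -/
noncomputable def em (F : Dat) (T : Finset Pt) (f : Pt → List Pt) (x : Pt) : List Pt :=
  if h : ∃ p ∈ T, F.h p F.x0 = x then (f h.choose).map (F.h h.choose) else [x]

/-- the new walk -/
noncomputable def nw (F : Dat) (B : List Pt) (T : Finset Pt) (f : Pt → List Pt) : List Pt :=
  B.flatMap (em F T f)

/-- decoding -/
noncomputable def gd (F : Dat) (T : Finset Pt) (v : Pt) : Option Pt :=
  if h : ∃ p ∈ T, ∃ u, F.U u ∧ F.h p u = v then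
    (if F.h h.choose F.mrk = v then some (F.h h.choose F.x0) else none)
  else some v

section
variable {F : Dat} {B : List Pt} {A T : Finset Pt} {f : Pt → List Pt}

theorem Fam.eq_of_near (H : Fam F B A T f) {p p' : Pt} (hp : p ∈ T) (hp' : p' ∈ T)
    (h1 : |p.1 - p'.1| < 2 * (F.rho : ℤ) + 2) (h2 : |p.2 - p'.2| < 2 * (F.rho : ℤ) + 2) :
    p = p' := by
  by_contra h
  rcases H.sep p hp p' hp' h with h | h <;> omega

theorem Fam.eq_of_eq (H : Fam F B A T f) {p p' u u' : Pt} (hp : p ∈ T) (hp' : p' ∈ T)
    (hu : F.U u ∨ u = F.x0) (hu' : F.U u' ∨ u' = F.x0) (h : F.h p u = F.h p' u') : p = p' := by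
  have n1 := F.near p u hu
  have n2 := F.near p' u' hu'
  rw [h] at n1
  rw [abs_le, abs_le] at n1 n2
  refine H.eq_of_near hp hp' ?_ ?_ <;> rw [abs_lt] <;> omega

theorem Fam.em_X (H : Fam F B A T f) {p : Pt} (hp : p ∈ T) :
    em F T f (F.h p F.x0) = (f p).map (F.h p) := by
  have h : ∃ p' ∈ T, F.h p' F.x0 = F.h p F.x0 := ⟨p, hp, rfl⟩
  unfold em
  rw [dif_pos h]
  rw [H.eq_of_eq h.choose_spec.1 hp (Or.inr rfl) (Or.inr rfl) h.choose_spec.2]

theorem em_other {x : Pt} (h : ¬ ∃ p ∈ T, F.h p F.x0 = x) : em F T f x = [x] := by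
  unfold em
  rw [dif_neg h]

/-- elements of the new walk -/
theorem Fam.mem_nw (H : Fam F B A T f) {v : Pt} (hv : v ∈ nw F B T f) :
    v ∈ B ∨ ∃ p ∈ T, ∃ u ∈ f p, v = F.h p u := by
  unfold nw at hv
  rw [List.mem_flatMap] at hv
  obtain ⟨x, hx, hv⟩ := hv
  by_cases h : ∃ p ∈ T, F.h p F.x0 = x
  · obtain ⟨p, hp, rfl⟩ := h
    rw [H.em_X hp, List.mem_map] at hv
    obtain ⟨u, hu, rfl⟩ := hv
    exact Or.inr ⟨p, hp, u, hu, rfl⟩
  · rw [em_other h, List.mem_singleton] at hv
    rw [hv]; exact Or.inl hx

theorem Fam.p_mem_nw (H : Fam F B A T f) {p : Pt} (hp : p ∈ T) : p ∈ nw F B T f := by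
  unfold nw
  rw [List.mem_flatMap]
  refine ⟨F.h p F.x0, (H.sur p hp).mx, ?_⟩
  rw [H.em_X hp, List.mem_map]
  exact ⟨F.c0, F.mc _ (H.mem p hp), F.ctr p⟩

/-- the only point of the walk in the region of the detour -/
theorem Fam.av (H : Fam F B A T f) {p u : Pt} (hp : p ∈ T) (hu : F.U u) (hB : F.h p u ∈ B) :
    u = F.x0 := (H.sur p hp).av u hu hB

theorem Fam.gd_in (H : Fam F B A T f) {p u : Pt} (hp : p ∈ T) (hu : F.U u) :
    gd F T (F.h p u) = if u = F.mrk then some (F.h p F.x0) else none := by
  have h : ∃ p' ∈ T, ∃ u', F.U u' ∧ F.h p' u' = F.h p u := ⟨p, hp, u, hu, rfl⟩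
  unfold gd
  rw [dif_pos h]
  have h1 := h.choose_spec
  obtain ⟨u', hu', h2⟩ := h1.2
  have e : h.choose = p := H.eq_of_eq h1.1 hp (Or.inl hu') (Or.inl hu) h2
  rw [e]
  by_cases h3 : u = F.mrk
  · rw [if_pos h3, if_pos (by rw [h3])]
  · rw [if_neg h3, if_neg (fun h4 => h3 ((F.inj p) h4).symm)]

theorem gd_out {v : Pt} (h : ¬ ∃ p ∈ T, ∃ u, F.U u ∧ F.h p u = v) : gd F T v = some v := by
  unfold gd
  rw [dif_neg h]

theorem filterMap_single {L : List Pt} (hL : L.Nodup) {m : Pt} (hm : m ∈ L) {a : Pt} :
    L.filterMap (fun u => if u = m then some a else none) = [a] := by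
  induction L with
  | nil => simp at hm
  | cons b L ih =>
    rw [List.nodup_cons] at hL
    rcases List.mem_cons.1 hm with h | h
    · subst h
      rw [List.filterMap_cons, if_pos rfl]
      simp only [List.cons.injEq, true_and]
      rw [List.filterMap_eq_nil_iff]
      intro u hu
      rw [if_neg]
      rintro rfl
      exact hL.1 hu
    · have hne : b ≠ m := by
        rintro rfl
        exact hL.1 h
      rw [List.filterMap_cons, if_neg hne]
      exact ih hL.2 h

theorem flatMap_single {B : List Pt} (hB : B.Nodup) {a : Pt} (ha : a ∈ B) (L : List Pt) :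
    B.flatMap (fun x => if x = a then L else []) = L := by
  induction B with
  | nil => simp at ha
  | cons b B ih =>
    rw [List.nodup_cons] at hB
    rw [List.flatMap_cons]
    rcases List.mem_cons.1 ha with h | h
    · subst h
      rw [if_pos rfl]
      have h2 : B.flatMap (fun x => if x = a then L else []) = [] := by
        rw [List.flatMap_eq_nil_iff]
        intro x hx
        rw [if_neg]
        rintro rfl
        exact hB.1 hx
      rw [h2, List.append_nil]
    · rw [if_neg (by rintro rfl; exact hB.1 h), List.nil_append]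
      exact ih hB.2 h

/-- **Decoding.** -/
theorem Fam.decode (H : Fam F B A T f) : (nw F B T f).filterMap (gd F T) = B := by
  unfold nw
  rw [List.filterMap_flatMap]
  have h : ∀ x ∈ B, (em F T f x).filterMap (gd F T) = [x] := by
    intro x hx
    by_cases h : ∃ p ∈ T, F.h p F.x0 = x
    · obtain ⟨p, hp, rfl⟩ := h
      rw [H.em_X hp, List.filterMap_map]
      have e : (f p).filterMap (gd F T ∘ F.h p) =
          (f p).filterMap (fun u => if u = F.mrk then some (F.h p F.x0) else none) := by
        apply List.filterMap_congr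
        intro u hu
        exact H.gd_in hp (F.sub _ (H.mem p hp) u hu)
      rw [e]
      exact filterMap_single (F.nodup _ (H.mem p hp)) (F.mm _ (H.mem p hp))
    · rw [em_other h]
      have h1 : ¬ ∃ p ∈ T, ∃ u, F.U u ∧ F.h p u = x := by
        rintro ⟨p, hp, u, hu, rfl⟩
        have := H.av hp hu hx
        subst this
        exact h ⟨p, hp, rfl⟩
      simp [gd_out h1]
  have h2 : B.flatMap (fun a => (em F T f a).filterMap (gd F T)) = B.flatMap (fun a => [a]) := by
    rw [List.flatMap_def, List.flatMap_def]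
    congr 1
    exact List.map_congr_left h
  rw [h2]
  simp

theorem Fam.nodup (H : Fam F B A T f) (hn : B.Nodup) : (nw F B T f).Nodup := by
  unfold nw
  rw [List.nodup_flatMap]
  constructor
  · intro x hx
    by_cases h : ∃ p ∈ T, F.h p F.x0 = x
    · obtain ⟨p, hp, rfl⟩ := h
      rw [H.em_X hp]
      exact (F.nodup _ (H.mem p hp)).map (F.inj p)
    · rw [em_other h]
      simp
  · refine hn.pairwise_of_forall_ne ?_
    intro x hx y hy hxy
    rw [Function.onFun, List.disjoint_left]
    intro v hv hv'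
    by_cases h : ∃ p ∈ T, F.h p F.x0 = x
    · obtain ⟨p, hp, rfl⟩ := h
      rw [H.em_X hp, List.mem_map] at hv
      obtain ⟨u, hu, rfl⟩ := hv
      have hU := F.sub _ (H.mem p hp) u hu
      by_cases h' : ∃ p' ∈ T, F.h p' F.x0 = y
      · obtain ⟨p', hp', rfl⟩ := h'
        rw [H.em_X hp', List.mem_map] at hv'
        obtain ⟨u', hu', h2⟩ := hv'
        have hU' := F.sub _ (H.mem p' hp') u' hu'
        have := H.eq_of_eq hp' hp (Or.inl hU') (Or.inl hU) h2
        subst this
        exact hxy rfl
      · rw [em_other h', List.mem_singleton] at hv'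
        subst hv'
        have := H.av hp hU hy
        subst this
        exact hxy rfl
    · rw [em_other h, List.mem_singleton] at hv
      subst hv
      by_cases h' : ∃ p' ∈ T, F.h p' F.x0 = y
      · obtain ⟨p', hp', rfl⟩ := h'
        rw [H.em_X hp', List.mem_map] at hv'
        obtain ⟨u', hu', h2⟩ := hv'
        have hU' := F.sub _ (H.mem p' hp') u' hu'
        rw [← h2] at hx
        have := H.av hp' hU' hx
        subst this
        exact hxy h2.symm
      · rw [em_other h', List.mem_singleton] at hv'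
        exact hxy hv'

theorem Fam.chain (H : Fam F B A T f) (hB : B.IsChain W840.CT.adj) (hn : B.Nodup) :
    (nw F B T f).IsChain W840.CT.adj := by
  unfold nw
  rw [List.flatMap_def, List.isChain_flatten]
  · constructor
    · intro l hl
      rw [List.mem_map] at hl
      obtain ⟨x, hx, rfl⟩ := hl
      by_cases h : ∃ p ∈ T, F.h p F.x0 = x
      · obtain ⟨p, hp, rfl⟩ := h
        rw [H.em_X hp, List.isChain_map]
        exact (F.chain _ (H.mem p hp)).imp (fun a b hab => F.adj p a b hab)
      · rw [em_other h]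
        exact List.IsChain.singleton _
    · rw [List.isChain_map, List.isChain_iff_getElem]
      intro i hi
      have hc : Con B B[i] B[i + 1] := ⟨i, hi, rfl, rfl⟩
      have ha := hc.adj hB
      intro u hu w hw
      by_cases h : ∃ p ∈ T, F.h p F.x0 = B[i]
      · obtain ⟨p, hp, hx⟩ := h
        by_cases h' : ∃ p' ∈ T, F.h p' F.x0 = B[i + 1]
        · exfalso
          obtain ⟨p', hp', hx'⟩ := h'
          have d := F.near p F.x0 (Or.inr rfl)
          have d' := F.near p' F.x0 (Or.inr rfl)
          rw [hx] at d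
          rw [hx'] at d'
          have : p = p' := by
            have ha' : |B[i + 1].1 - B[i].1| + |B[i + 1].2 - B[i].2| = 1 := ha
            have a1 : |B[i + 1].1 - B[i].1| ≤ 1 := by
              have := abs_nonneg (B[i + 1].2 - B[i].2)
              omega
            have a2 : |B[i + 1].2 - B[i].2| ≤ 1 := by
              have := abs_nonneg (B[i + 1].1 - B[i].1)
              omega
            refine H.eq_of_near hp hp' ?_ ?_ <;> rw [abs_lt] <;>
              rw [abs_le] at a1 a2 <;> rw [abs_le, abs_le] at d d' <;> omega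
          rw [this, hx'] at hx
          have := (hn.getElem_inj_iff).1 hx
          omega
        · rw [em_other h'] at hw
          simp only [List.head?_cons, Option.mem_def, Option.some.injEq] at hw
          subst hw
          rw [← hx, H.em_X hp, List.getLast?_map, F.last _ (H.mem p hp)] at hu
          simp only [Option.map_some, Option.mem_def, Option.some.injEq] at hu
          subst hu
          rw [← hx] at hc
          exact (H.sur p hp).su _ hc
      · rw [em_other h] at hu
        simp only [List.getLast?_singleton, Option.mem_def, Option.some.injEq] at hu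
        subst hu
        by_cases h' : ∃ p' ∈ T, F.h p' F.x0 = B[i + 1]
        · obtain ⟨p', hp', hx'⟩ := h'
          rw [← hx', H.em_X hp', List.head?_map, F.head _ (H.mem p' hp')] at hw
          simp only [Option.map_some, Option.mem_def, Option.some.injEq] at hw
          subst hw
          rw [← hx'] at hc
          exact (H.sur p' hp').pr _ hc
        · rw [em_other h'] at hw
          simp only [List.head?_cons, Option.mem_def, Option.some.injEq] at hw
          subst hw
          exact ha
  · rw [List.mem_map]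
    rintro ⟨x, hx, h1⟩
    by_cases h : ∃ p ∈ T, F.h p F.x0 = x
    · obtain ⟨p, hp, rfl⟩ := h
      rw [H.em_X hp, List.map_eq_nil_iff] at h1
      have := F.mc _ (H.mem p hp)
      rw [h1] at this
      simp at this
    · rw [em_other h] at h1
      simp at h1

theorem Fam.length (H : Fam F B A T f) (hn : B.Nodup) :
    (nw F B T f).length = B.length + F.ell * T.card := by
  unfold nw
  rw [List.length_flatMap]
  have h1 : ∀ x ∈ B, (em F T f x).length =
      1 + (if x ∈ T.image (fun p => F.h p F.x0) then F.ell else 0) := by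
    intro x hx
    by_cases h : ∃ p ∈ T, F.h p F.x0 = x
    · rw [if_pos (by rw [Finset.mem_image]; exact h)]
      obtain ⟨p, hp, rfl⟩ := h
      rw [H.em_X hp, List.length_map, F.len _ (H.mem p hp), add_comm]
    · rw [em_other h, if_neg (by rw [Finset.mem_image]; exact h)]
      simp
  rw [List.map_congr_left h1]
  rw [← List.sum_toFinset _ hn, Finset.sum_add_distrib, ← Finset.sum_filter, Finset.sum_const,
    Finset.sum_const, List.toFinset_card_of_nodup hn]
  have h2 : (B.toFinset.filter (fun x => x ∈ T.image (fun p => F.h p F.x0))) =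
      T.image (fun p => F.h p F.x0) := by
    ext x
    simp only [Finset.mem_filter, List.mem_toFinset, Finset.mem_image, and_iff_right_iff_imp,
      forall_exists_index, and_imp]
    rintro p hp rfl
    exact (H.sur p hp).mx
  rw [h2, Finset.card_image_of_injOn (fun p hp p' hp' h =>
    H.eq_of_eq hp hp' (Or.inr rfl) (Or.inr rfl) h)]
  simp [mul_comm]

theorem Fam.head (H : Fam F B A T f) (h0 : B.head? = some 0)
    (hfar : ∀ p ∈ T, (F.rho : ℤ) < |p.1| ∨ (F.rho : ℤ) < |p.2|) :
    (nw F B T f).head? = some 0 := by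
  obtain ⟨l, rfl⟩ : ∃ l, B = 0 :: l := by
    cases B with
    | nil => simp at h0
    | cons a l =>
      simp only [List.head?_cons, Option.some.injEq] at h0
      exact ⟨l, by rw [h0]⟩
  unfold nw
  rw [List.flatMap_cons]
  have h : ¬ ∃ p ∈ T, F.h p F.x0 = 0 := by
    rintro ⟨p, hp, hx⟩
    have d := F.near p F.x0 (Or.inr rfl)
    rw [hx] at d
    simp only [Prod.fst_zero, Prod.snd_zero, zero_sub, abs_neg] at d
    rcases hfar p hp with h | h <;> omega
  rw [em_other h]
  simp

/-- recovering the inserted lists -/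
theorem Fam.recover (H : Fam F B A T f) (hn : B.Nodup) {p : Pt} (hp : p ∈ T) :
    (nw F B T f).filter (fun v => decide (∃ u, F.U u ∧ F.h p u = v)) = (f p).map (F.h p) := by
  unfold nw
  rw [List.filter_flatMap]
  have h : ∀ x ∈ B, (em F T f x).filter (fun v => decide (∃ u, F.U u ∧ F.h p u = v)) =
      if x = F.h p F.x0 then (f p).map (F.h p) else [] := by
    intro x hx
    by_cases h : x = F.h p F.x0
    · rw [if_pos h, h, H.em_X hp, List.filter_eq_self]
      intro v hv
      rw [List.mem_map] at hv
      obtain ⟨u, hu, rfl⟩ := hv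
      rw [decide_eq_true_iff]
      exact ⟨u, F.sub _ (H.mem p hp) u hu, rfl⟩
    · rw [if_neg h, List.filter_eq_nil_iff]
      intro v hv
      rw [decide_eq_true_iff]
      rintro ⟨u, hu, rfl⟩
      by_cases h' : ∃ p' ∈ T, F.h p' F.x0 = x
      · obtain ⟨p', hp', rfl⟩ := h'
        rw [H.em_X hp', List.mem_map] at hv
        obtain ⟨u', hu', h2⟩ := hv
        have := H.eq_of_eq hp' hp (Or.inl (F.sub _ (H.mem p' hp') u' hu')) (Or.inl hu) h2
        subst this
        exact h rfl
      · rw [em_other h', List.mem_singleton] at hv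
        rw [← hv] at hx
        have := H.av hp hu hx
        subst this
        exact h hv.symm
  have h2 : B.flatMap (fun a => (em F T f a).filter (fun v => decide (∃ u, F.U u ∧ F.h p u = v))) =
      B.flatMap (fun x => if x = F.h p F.x0 then (f p).map (F.h p) else []) := by
    rw [List.flatMap_def, List.flatMap_def]
    congr 1
    exact List.map_congr_left h
  rw [h2]
  exact flatMap_single hn (H.sur p hp).mx _

end

end Pool.Agent.T9h33.Fr
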