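import Pool.Agent.T9h33.Ca

/-!
A path which comes close to all points of a square has many points of its past near its future.
-/

set_option autoImplicit false

namespace Pool.Agent.T9h33.Hole

open Pool.Agent.W840.CT (Pt)
open Pool.Agent.T9h33.Ca
open scoped Classical

/-- one dimensional boundary points -/
theorem bdry {P : ℤ → Prop} {a b u v : ℤ} (hu : a ≤ u ∧ u < b) (hv : a ≤ v ∧ v < b) (hPu : P u)
    (hPv : ¬ P v) : ∃ w w' : ℤ, (a ≤ w ∧ w < b) ∧ (a ≤ w' ∧ w' < b) ∧ |w - w'| = 1 ∧ P w ∧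
      ¬ P w' := by
  rcases le_total u v with h | h
  · obtain ⟨n, hn⟩ : ∃ n : ℕ, v = u + n := ⟨(v - u).toNat, by omega⟩
    induction n generalizing v with
    | zero =>
      exfalso
      apply hPv
      rw [hn]
      simpa using hPu
    | succ n ih =>
      by_cases h1 : P (v - 1)
      · refine ⟨v - 1, v, ⟨by omega, by omega⟩, hv, ?_, h1, hPv⟩
        rw [abs_sub_comm]
        have : v - (v - 1) = 1 := by ring
        rw [this]
        norm_num
      · exact ih (v := v - 1) ⟨by omega, by omega⟩ h1 (by omega) (by push_cast at hn; omega)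
  · obtain ⟨n, hn⟩ : ∃ n : ℕ, v = u - n := ⟨(u - v).toNat, by omega⟩
    induction n generalizing v with
    | zero =>
      exfalso
      apply hPv
      rw [hn]
      simpa using hPu
    | succ n ih =>
      by_cases h1 : P (v + 1)
      · refine ⟨v + 1, v, ⟨by omega, by omega⟩, hv, ?_, h1, hPv⟩
        have : v + 1 - v = 1 := by ring
        rw [this]
        norm_num
      · exact ih (v := v + 1) ⟨by omega, by omega⟩ h1 (by omega) (by push_cast at hn; omega)

/-- the square -/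
noncomputable def Q (b : Pt) (l : ℕ) : Finset Pt :=
  Finset.Ico b.1 (b.1 + l) ×ˢ Finset.Ico b.2 (b.2 + l)

theorem mem_Q {b y : Pt} {l : ℕ} : y ∈ Q b l ↔
    (b.1 ≤ y.1 ∧ y.1 < b.1 + l) ∧ (b.2 ≤ y.2 ∧ y.2 < b.2 + l) := by
  unfold Q
  rw [Finset.mem_product, Finset.mem_Ico, Finset.mem_Ico]

theorem card_Ico' (a : ℤ) (l : ℕ) : (Finset.Ico a (a + l)).card = l := by
  rw [Int.card_Ico]
  omega

theorem card_Q (b : Pt) (l : ℕ) : (Q b l).card = l * l := by
  unfold Q
  rw [Finset.card_product, card_Ico', card_Ico']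

/-- **Isoperimetry in a square.** -/
theorem iso {b : Pt} {l : ℕ} (V : Finset Pt) (hV : V ⊆ Q b l) (h1 : l * l ≤ 4 * V.card)
    (h2 : l * l ≤ 4 * (Q b l \ V).card) (hl : 1 ≤ l) : ∃ S : Finset Pt, S ⊆ V ∧ l ≤ 4 * S.card ∧
      ∀ y ∈ S, ∃ y' ∈ Q b l \ V, d1 y y' = 1 := by
  -- the boundary
  obtain ⟨S, hS⟩ : ∃ S : Finset Pt, S = V.filter (fun y => ∃ y' ∈ Q b l \ V, d1 y y' = 1) :=
    ⟨_, rfl⟩
  refine ⟨S, by rw [hS]; exact Finset.filter_subset _ _, ?_, fun y hy => by
    rw [hS, Finset.mem_filter] at hy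
    exact hy.2⟩
  obtain ⟨Rm, hRm⟩ : ∃ Rm : Finset ℤ, Rm = (Finset.Ico b.2 (b.2 + l)).filter
    (fun j => (∃ u ∈ Finset.Ico b.1 (b.1 + l), (u, j) ∈ V) ∧
      ∃ u ∈ Finset.Ico b.1 (b.1 + l), (u, j) ∉ V) := ⟨_, rfl⟩
  -- each mixed row has a boundary point
  have hrow : Rm ⊆ S.image Prod.snd := by
    intro j hj
    rw [hRm, Finset.mem_filter, Finset.mem_Ico] at hj
    obtain ⟨hj, ⟨u, hu, huV⟩, ⟨v, hv, hvV⟩⟩ := hj
    rw [Finset.mem_Ico] at hu hv
    obtain ⟨w, w', hw, hw', hww, hwV, hwV'⟩ := bdry (P := fun u => (u, j) ∈ V) hu hv huV hvV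
    rw [Finset.mem_image]
    refine ⟨(w, j), ?_, rfl⟩
    rw [hS, Finset.mem_filter]
    refine ⟨hwV, (w', j), ?_, ?_⟩
    · rw [Finset.mem_sdiff, mem_Q]
      exact ⟨⟨hw', hj⟩, hwV'⟩
    · unfold d1
      simp only [sub_self, abs_zero, add_zero]
      exact hww
  have hRS : Rm.card ≤ S.card := (Finset.card_le_card hrow).trans Finset.card_image_le
  by_cases hm : l ≤ 4 * Rm.card
  · omega
  · -- few mixed rows
    have hfull : ∃ j ∈ Finset.Ico b.2 (b.2 + l), ∀ u ∈ Finset.Ico b.1 (b.1 + l), (u, j) ∈ V := by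
      by_contra hcon
      push Not at hcon
      have hsub : V ⊆ Finset.Ico b.1 (b.1 + l) ×ˢ Rm := by
        intro y hy
        have hyQ := mem_Q.1 (hV hy)
        rw [Finset.mem_product, Finset.mem_Ico, hRm, Finset.mem_filter, Finset.mem_Ico]
        exact ⟨hyQ.1, hyQ.2, ⟨y.1, Finset.mem_Ico.2 hyQ.1, hy⟩, hcon y.2 (Finset.mem_Ico.2 hyQ.2)⟩
      have h3 := Finset.card_le_card hsub
      rw [Finset.card_product, card_Ico'] at h3
      nlinarith
    have hempty : ∃ j ∈ Finset.Ico b.2 (b.2 + l), ∀ u ∈ Finset.Ico b.1 (b.1 + l),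
        (u, j) ∉ V := by
      by_contra hcon
      push Not at hcon
      have hsub : Q b l \ V ⊆ Finset.Ico b.1 (b.1 + l) ×ˢ Rm := by
        intro y hy
        rw [Finset.mem_sdiff, mem_Q] at hy
        rw [Finset.mem_product, Finset.mem_Ico, hRm, Finset.mem_filter, Finset.mem_Ico]
        exact ⟨hy.1.1, hy.1.2, hcon y.2 (Finset.mem_Ico.2 hy.1.2), ⟨y.1,
          Finset.mem_Ico.2 hy.1.1, hy.2⟩⟩
      have h3 := Finset.card_le_card hsub
      rw [Finset.card_product, card_Ico'] at h3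
      nlinarith
    obtain ⟨j, hj, hjV⟩ := hfull
    obtain ⟨j', hj', hjV'⟩ := hempty
    rw [Finset.mem_Ico] at hj hj'
    have hcol : Finset.Ico b.1 (b.1 + l) ⊆ S.image Prod.fst := by
      intro u hu
      obtain ⟨w, w', hw, hw', hww, hwV, hwV'⟩ := bdry (P := fun j => (u, j) ∈ V) hj hj'
        (hjV u hu) (hjV' u hu)
      rw [Finset.mem_Ico] at hu
      rw [Finset.mem_image]
      refine ⟨(u, w), ?_, rfl⟩
      rw [hS, Finset.mem_filter]
      refine ⟨hwV, (u, w'), ?_, ?_⟩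
      · rw [Finset.mem_sdiff, mem_Q]
        exact ⟨⟨hu, hw'⟩, hwV'⟩
      · unfold d1
        simp only [sub_self, abs_zero, zero_add]
        exact hww
    have h3 := (Finset.card_le_card hcol).trans Finset.card_image_le
    rw [card_Ico'] at h3
    omega

/-- the number of lattice points at distance at most `k` -/
theorem card_near (e : Pt) (k : ℕ) (T : Finset Pt) (h : ∀ y ∈ T, d1 e y ≤ k) :
    T.card ≤ (2 * k + 1) ^ 2 := by
  rw [← bx_card e k]
  apply Finset.card_le_card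
  intro y hy
  rw [mem_bx]
  have h1 := h y hy
  unfold d1 at h1
  have h2 := abs_nonneg (e.1 - y.1)
  have h3 := abs_nonneg (e.2 - y.2)
  rw [abs_sub_comm y.1, abs_sub_comm y.2]
  constructor <;> omega

theorem hole {N : ℕ} {ω : Fin (N + 1) → ℤ × ℤ} {k : ℕ} {b : Pt} {l : ℕ}
    (hcov : ∀ y ∈ Q b l, ∃ i, d1 (ω i) y ≤ k) (hl : 2 * (2 * k + 1) ≤ l) :
    ∃ t, l ≤ 4 * ((2 * k + 1) ^ 2 * ca N t (2 * k + 1) ω) := by
  obtain ⟨V, hV⟩ : ∃ V : ℕ → Finset Pt, V = fun t => (Q b l).filter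
    (fun y => ∃ i : Fin (N + 1), i.1 ≤ t ∧ d1 (ω i) y ≤ k) := ⟨_, rfl⟩
  have hVm : ∀ t y, y ∈ V t ↔ y ∈ Q b l ∧ ∃ i : Fin (N + 1), i.1 ≤ t ∧ d1 (ω i) y ≤ k := by
    intro t y
    rw [hV]
    exact Finset.mem_filter
  have hVQ : ∀ t, V t ⊆ Q b l := fun t y hy => ((hVm t y).1 hy).1
  have hVN : V N = Q b l := by
    apply Finset.Subset.antisymm (hVQ N)
    intro y hy
    rw [hVm]
    obtain ⟨i, hi⟩ := hcov y hy
    exact ⟨hy, i, by omega, hi⟩
  -- the time
  have hex : ∃ t, l * l ≤ 2 * (V t).card := ⟨N, by rw [hVN, card_Q]; omega⟩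
  obtain ⟨t, ht⟩ : ∃ t, t = Nat.find hex := ⟨_, rfl⟩
  have ht1 : l * l ≤ 2 * (V t).card := by rw [ht]; exact Nat.find_spec hex
  have htN : t ≤ N := by
    rw [ht]
    exact Nat.find_min' hex (by rw [hVN, card_Q]; omega)
  have hl2 : 4 * (2 * k + 1) ^ 2 ≤ l * l := by
    calc 4 * (2 * k + 1) ^ 2 = (2 * (2 * k + 1)) * (2 * (2 * k + 1)) := by ring
      _ ≤ l * l := Nat.mul_le_mul hl hl
  have ht2 : 2 * (V t).card ≤ l * l + 2 * (2 * k + 1) ^ 2 := by
    have hstep : ∃ c : ℕ, 2 * c ≤ l * l ∧ (V t).card ≤ c + (2 * k + 1) ^ 2 := by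
      rcases Nat.eq_zero_or_pos t with h0 | h0
      · refine ⟨0, by omega, ?_⟩
        rw [zero_add]
        apply card_near (ω ⟨t, by omega⟩) k
        intro y hy
        obtain ⟨-, i, hi, hd⟩ := (hVm t y).1 hy
        have : i = ⟨t, by omega⟩ := Fin.ext (by simp only; omega)
        rw [← this]
        exact hd
      · refine ⟨(V (t - 1)).card, ?_, ?_⟩
        · have := Nat.find_min hex (m := t - 1) (by omega)
          omega
        · have hsub : V t ⊆ V (t - 1) ∪ (Q b l).filter (fun y => d1 (ω ⟨t, by omega⟩) y ≤ k) := by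
            intro y hy
            obtain ⟨hQ, i, hi, hd⟩ := (hVm t y).1 hy
            rw [Finset.mem_union, hVm, Finset.mem_filter]
            rcases Nat.lt_or_ge i.1 t with h3 | h3
            · exact Or.inl ⟨hQ, i, by omega, hd⟩
            · right
              have : i = ⟨t, by omega⟩ := Fin.ext (by simp only; omega)
              rw [← this]
              exact ⟨hQ, hd⟩
          refine (Finset.card_le_card hsub).trans ((Finset.card_union_le _ _).trans ?_)
          apply Nat.add_le_add_left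
          apply card_near (ω ⟨t, by omega⟩) k
          intro y hy
          exact (Finset.mem_filter.1 hy).2
    obtain ⟨c, hc1, hc2⟩ := hstep
    omega
  have hsd : (Q b l \ V t).card = l * l - (V t).card := by
    rw [Finset.card_sdiff_of_subset (hVQ t), card_Q]
  obtain ⟨S, hSV, hSc, hSn⟩ := iso (V t) (hVQ t) (by omega) (by rw [hsd]; omega) (by omega)
  refine ⟨t, ?_⟩
  -- each point of `S` is near a counted point
  have hcount : S.card ≤ (2 * k + 1) ^ 2 * ca N t (2 * k + 1) ω := by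
    obtain ⟨I, hI⟩ : ∃ I : Finset (Fin (N + 1)), I = (Finset.univ : Finset (Fin (N + 1))).filter
      (fun i => i.1 ≤ t ∧ ∃ j : Fin (N + 1), t ≤ j.1 ∧ d1 (ω i) (ω j) ≤ (2 * k + 1 : ℕ)) :=
      ⟨_, rfl⟩
    have hIc : I.card = ca N t (2 * k + 1) ω := by rw [hI]; rfl
    have hsub : S ⊆ I.biUnion (fun i => S.filter (fun y => d1 (ω i) y ≤ k)) := by
      intro y hy
      obtain ⟨-, i, hi, hd⟩ := (hVm t y).1 (hSV hy)
      obtain ⟨y', hy', hyy⟩ := hSn y hy
      rw [Finset.mem_sdiff] at hy'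
      obtain ⟨j, hj⟩ := hcov y' hy'.1
      have hjt : t ≤ j.1 := by
        by_contra hcon
        apply hy'.2
        rw [hVm]
        exact ⟨hy'.1, j, by omega, hj⟩
      rw [Finset.mem_biUnion]
      refine ⟨i, ?_, Finset.mem_filter.2 ⟨hy, hd⟩⟩
      rw [hI, Finset.mem_filter]
      refine ⟨Finset.mem_univ _, hi, j, hjt, ?_⟩
      unfold d1 at hd hj hyy ⊢
      have a1 := abs_sub_le (ω i).1 y.1 (ω j).1
      have a2 := abs_sub_le (ω i).2 y.2 (ω j).2
      have a3 := abs_sub_le y.1 y'.1 (ω j).1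
      have a4 := abs_sub_le y.2 y'.2 (ω j).2
      rw [abs_sub_comm y'.1] at a3
      rw [abs_sub_comm y'.2] at a4
      push_cast
      linarith
    refine (Finset.card_le_card hsub).trans (Finset.card_biUnion_le.trans ?_)
    refine (Finset.sum_le_card_nsmul _ _ ((2 * k + 1) ^ 2) (fun i _ => ?_)).trans ?_
    · apply card_near (ω i) k
      intro y hy
      exact (Finset.mem_filter.1 hy).2
    · rw [smul_eq_mul, hIc, mul_comm]
  omega

end Pool.Agent.T9h33.Hole
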