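import Pool.Agent.T9h33.Cnt

/-!
Local geometry of a self-avoiding walk near a point at distance `R + 1`.
-/

set_option autoImplicit false

namespace Pool.Agent.T9h33.Loc

open Pool.Agent.W840.CT (Pt Con Nb adj adj_comm)

/-- symmetries of the lattice -/
def iso (g : Bool × Bool × Bool) (v : Pt) : Pt :=
  (if g.2.1 then -(if g.1 then v.2 else v.1) else (if g.1 then v.2 else v.1),
    if g.2.2 then -(if g.1 then v.1 else v.2) else (if g.1 then v.1 else v.2))

theorem iso_sub (g : Bool × Bool × Bool) (u v : Pt) : iso g (u - v) = iso g u - iso g v := by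
  obtain ⟨a, b, c⟩ := g
  cases a <;> cases b <;> cases c <;> refine Prod.ext ?_ ?_ <;> simp [iso] <;> ring

theorem iso_norm (g : Bool × Bool × Bool) (v : Pt) :
    |(iso g v).1| + |(iso g v).2| = |v.1| + |v.2| := by
  obtain ⟨a, b, c⟩ := g
  cases a <;> cases b <;> cases c <;> simp [iso] <;> ring

theorem iso_inj (g : Bool × Bool × Bool) : Function.Injective (iso g) := by
  obtain ⟨a, b, c⟩ := g
  rintro ⟨x, y⟩ ⟨x', y'⟩ h
  cases a <;> cases b <;> cases c <;> simp [iso] at h ⊢ <;> tauto

theorem iso_surj (g : Bool × Bool × Bool) (v : Pt) : ∃ u, iso g u = v := by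
  obtain ⟨a, b, c⟩ := g
  obtain ⟨x, y⟩ := v
  cases a <;> cases b <;> cases c
  · exact ⟨(x, y), by simp [iso]⟩
  · exact ⟨(x, -y), by simp [iso]⟩
  · exact ⟨(-x, y), by simp [iso]⟩
  · exact ⟨(-x, -y), by simp [iso]⟩
  · exact ⟨(y, x), by simp [iso]⟩
  · exact ⟨(-y, x), by simp [iso]⟩
  · exact ⟨(y, -x), by simp [iso]⟩
  · exact ⟨(-y, -x), by simp [iso]⟩

theorem iso_flip (g : Bool × Bool × Bool) : ∃ g', ∀ v, iso g' v = iso g (v.1, -v.2) := by
  obtain ⟨a, b, c⟩ := g
  cases a
  · refine ⟨(false, b, !c), fun v => ?_⟩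
    cases b <;> cases c <;> simp [iso]
  · refine ⟨(true, !b, c), fun v => ?_⟩
    cases b <;> cases c <;> simp [iso]

theorem iso_exists (w : Pt) : ∃ g, ∃ a b : ℤ, 0 ≤ b ∧ b ≤ a ∧ w = iso g (-a, b) := by
  obtain ⟨x, y⟩ := w
  rcases le_total |y| |x| with h | h
  · rcases le_total 0 x with h1 | h1 <;> rcases le_total 0 y with h2 | h2
    · rw [abs_of_nonneg h1, abs_of_nonneg h2] at h
      exact ⟨(false, true, false), x, y, h2, h, by simp [iso]⟩
    · rw [abs_of_nonneg h1, abs_of_nonpos h2] at h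
      exact ⟨(false, true, true), x, -y, by omega, h, by simp [iso]⟩
    · rw [abs_of_nonpos h1, abs_of_nonneg h2] at h
      exact ⟨(false, false, false), -x, y, h2, h, by simp [iso]⟩
    · rw [abs_of_nonpos h1, abs_of_nonpos h2] at h
      exact ⟨(false, false, true), -x, -y, by omega, h, by simp [iso]⟩
  · rcases le_total 0 x with h1 | h1 <;> rcases le_total 0 y with h2 | h2
    · rw [abs_of_nonneg h1, abs_of_nonneg h2] at h
      exact ⟨(true, false, true), y, x, h1, h, by simp [iso]⟩
    · rw [abs_of_nonneg h1, abs_of_nonpos h2] at h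
      exact ⟨(true, false, false), -y, x, h1, h, by simp [iso]⟩
    · rw [abs_of_nonpos h1, abs_of_nonneg h2] at h
      exact ⟨(true, true, true), y, -x, by omega, h, by simp [iso]⟩
    · rw [abs_of_nonpos h1, abs_of_nonpos h2] at h
      exact ⟨(true, true, false), -y, -x, by omega, h, by simp [iso]⟩

/-- the chart -/
def ch (g : Bool × Bool × Bool) (R : ℕ) (p u : Pt) : Pt := p + iso g (u - ((R : ℤ), 0))

theorem ch_inj (g : Bool × Bool × Bool) (R : ℕ) (p : Pt) : Function.Injective (ch g R p) := by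
  intro u v h
  unfold ch at h
  exact sub_left_injective (iso_inj g (add_left_cancel h))

theorem ch_surj (g : Bool × Bool × Bool) (R : ℕ) (p v : Pt) : ∃ u, ch g R p u = v := by
  obtain ⟨u, hu⟩ := iso_surj g (v - p)
  refine ⟨u + ((R : ℤ), 0), ?_⟩
  unfold ch
  rw [add_sub_cancel_right, hu, add_sub_cancel]

theorem ch_ctr (g : Bool × Bool × Bool) (R : ℕ) (p : Pt) : ch g R p ((R : ℤ), 0) = p := by
  unfold ch
  have : iso g 0 = 0 := by
    obtain ⟨a, b, c⟩ := g
    cases a <;> cases b <;> cases c <;> simp [iso]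
  rw [sub_self, this, add_zero]

theorem ch_adj (g : Bool × Bool × Bool) (R : ℕ) (p u v : Pt) :
    adj (ch g R p u) (ch g R p v) ↔ adj u v := by
  have h1 : ch g R p v - ch g R p u = iso g (v - u) := by
    unfold ch
    rw [add_sub_add_left_eq_sub, ← iso_sub, sub_sub_sub_cancel_right]
  have h2 := iso_norm g (v - u)
  rw [← h1] at h2
  unfold adj
  simp only [Prod.fst_sub, Prod.snd_sub] at h2
  rw [h2]

theorem ch_norm (g : Bool × Bool × Bool) (R : ℕ) (p u : Pt) :
    |(ch g R p u).1 - p.1| + |(ch g R p u).2 - p.2| = |u.1 - R| + |u.2| := by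
  unfold ch
  simp only [Prod.fst_add, Prod.snd_add, add_sub_cancel_left]
  rw [iso_norm]
  simp

/-- the ball in the standard coordinates -/
theorem ball_iff (R : ℕ) (u : Pt) : |u.1 - R| + |u.2| ≤ R ↔
    0 ≤ u.1 - u.2 ∧ u.1 - u.2 ≤ 2 * R ∧ 0 ≤ u.1 + u.2 ∧ u.1 + u.2 ≤ 2 * R := by
  rcases abs_cases (u.1 - R) with h | h <;> rcases abs_cases u.2 with h' | h' <;> omega

variable {B : List Pt} {p : Pt} {R : ℕ}

theorem un_cases {u v : Pt} (h : adj u v) : v = (u.1 + 1, u.2) ∨ v = (u.1 - 1, u.2) ∨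
    v = (u.1, u.2 + 1) ∨ v = (u.1, u.2 - 1) := by
  obtain ⟨a, b⟩ := u
  obtain ⟨c, d⟩ := v
  unfold adj at h
  simp only [Prod.mk.injEq] at *
  rcases abs_cases (c - a) with h1 | h1 <;> rcases abs_cases (d - b) with h2 | h2 <;> omega

/-- neighbours along `B` in the chart -/
theorem nbs (hB : B.IsChain adj) (hn : B.Nodup) (g : Bool × Bool × Bool) {z : Pt}
    (hz : ∃ z1 w1, Con B z1 (ch g R p z) ∧ Con B (ch g R p z) w1) :
    ∃ e f : Pt, e ≠ f ∧ adj z e ∧ adj z f ∧ Nb B (ch g R p z) (ch g R p e) ∧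
      Nb B (ch g R p z) (ch g R p f) := by
  obtain ⟨z1, w1, h1, h2⟩ := hz
  obtain ⟨e, he⟩ := ch_surj g R p z1
  obtain ⟨f, hf⟩ := ch_surj g R p w1
  subst he
  subst hf
  refine ⟨e, f, ?_, ?_, ?_, Or.inr h1, Or.inl h2⟩
  · rintro rfl
    exact Con.ne hn h1 h2 rfl
  · exact (ch_adj g R p _ _).1 (adj_comm (h1.adj hB))
  · exact (ch_adj g R p _ _).1 (h2.adj hB)

/-- the standard position of the walk near `p` -/
def Std (B : List Pt) (R : ℕ) (p : Pt) (g : Bool × Bool × Bool) (b : ℕ) (z : Pt) : Prop :=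
  2 * b + 1 ≤ R ∧ ((b = 0 ∧ z = (-1, 0)) ∨ z = ((b : ℤ), (b : ℤ) + 1)) ∧
    ((ch g R p (z.1 + 1, z.2 + 1) ∉ B ∧ Nb B (ch g R p z) (ch g R p (z.1, z.2 + 1))) ∨
    (Con B (ch g R p z) (ch g R p (z.1, z.2 + 1)) ∧
      Con B (ch g R p (z.1, z.2 + 1)) (ch g R p (z.1 + 1, z.2 + 1))) ∨
    (Con B (ch g R p (z.1 + 1, z.2 + 1)) (ch g R p (z.1, z.2 + 1)) ∧
      Con B (ch g R p (z.1, z.2 + 1)) (ch g R p z)))

theorem loc (hB : B.IsChain adj) (hn : B.Nodup) (hR : 1 ≤ R)
    (h0 : ∀ v ∈ B, (R : ℤ) < |v.1 - p.1| + |v.2 - p.2|)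
    (h1 : ∃ v ∈ B, |v.1 - p.1| + |v.2 - p.2| = (R : ℤ) + 1)
    (h2 : ∀ v ∈ B, |v.1 - p.1| + |v.2 - p.2| = (R : ℤ) + 1 → ∃ z w, Con B z v ∧ Con B v w) :
    ∃ g b z, Std B R p g b z := by
  have h0' : ∀ g u, |u.1 - (R : ℤ)| + |u.2| ≤ (R : ℤ) → ch g R p u ∉ B := by
    intro g u hu hm
    have := h0 _ hm
    rw [ch_norm] at this
    omega
  have fin : ∀ g (b : ℕ) (z : Pt), 2 * b + 1 ≤ R →
      ((b = 0 ∧ z = (-1, 0)) ∨ z = ((b : ℤ), (b : ℤ) + 1)) →
      Nb B (ch g R p z) (ch g R p (z.1, z.2 + 1)) →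
      (ch g R p (z.1 + 1, z.2 + 1) ∈ B → z.2 + z.1 + 3 ≤ 2 * R ∨ z = (-1, 0)) →
      Std B R p g b z := by
    intro g b z hb hz hnb hs
    refine ⟨hb, hz, ?_⟩
    by_cases hsB : ch g R p (z.1 + 1, z.2 + 1) ∈ B
    · right
      have hs' := hs hsB
      have hnorm : |(z.1 + 1) - (R : ℤ)| + |z.2 + 1| = (R : ℤ) + 1 := by
        rcases hz with ⟨rfl, rfl⟩ | rfl
        · simp
        · simp only at hs' ⊢
          rw [abs_of_nonpos (by omega), abs_of_nonneg (by omega)]
          omega
      have hint := h2 _ hsB (by rw [ch_norm]; exact hnorm)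
      obtain ⟨e, f, hef, he, hf, ne, nf⟩ := nbs hB hn g hint
      have hne : ∀ u : Pt, Nb B (ch g R p (z.1 + 1, z.2 + 1)) (ch g R p u) →
          ¬ (|u.1 - R| + |u.2| ≤ (R : ℤ)) := fun u hu hc => h0' g u hc hu.mem_right
      have hk : Nb B (ch g R p (z.1 + 1, z.2 + 1)) (ch g R p (z.1, z.2 + 1)) := by
        have key : ∀ u, adj (z.1 + 1, z.2 + 1) u →
            Nb B (ch g R p (z.1 + 1, z.2 + 1)) (ch g R p u) →
            u = (z.1, z.2 + 1) ∨ u = (z.1 + 1, z.2 + 1 + 1) := by
          intro u hu hnu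
          have h3 := hne u hnu
          rw [ball_iff] at h3
          rcases un_cases hu with h | h | h | h
          · exfalso
            apply h3
            rw [h]
            rcases hz with ⟨rfl, rfl⟩ | rfl
            · simp only; omega
            · simp only at hs' ⊢
              rcases hs' with hs' | hs'
              · omega
              · rw [Prod.mk.injEq] at hs'
                omega
          · left
            rw [h]
            simp
          · exact Or.inr h
          · exfalso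
            apply h3
            rw [h]
            rcases hz with ⟨rfl, rfl⟩ | rfl
            · simp only; omega
            · simp only; omega
        rcases key e he ne with h3 | h3
        · rw [← h3]; exact ne
        · rcases key f hf nf with h4 | h4
          · rw [← h4]; exact nf
          · exact absurd (h3.trans h4.symm) hef
      have hzs : ch g R p z ≠ ch g R p (z.1 + 1, z.2 + 1) := by
        intro h
        have := ch_inj g R p h
        have := congrArg Prod.fst this
        simp at this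
      rcases hnb with h3 | h3 <;> rcases hk with h4 | h4
      · exact absurd (h3.left_unique hn h4) hzs
      · exact Or.inl ⟨h3, h4⟩
      · exact Or.inr ⟨h4, h3⟩
      · exact absurd (h3.right_unique hn h4) hzs
    · exact Or.inl ⟨hsB, hnb⟩
  by_cases htip : ∃ v ∈ B, |v.1 - p.1| + |v.2 - p.2| = (R : ℤ) + 1 ∧ (v.1 = p.1 ∨ v.2 = p.2)
  · obtain ⟨v, hv, hvn, hvt⟩ := htip
    obtain ⟨g, a, b, hb, hba, hw⟩ := iso_exists (v - p)
    have hnm := iso_norm g (-a, b)
    rw [← hw] at hnm
    simp only [Prod.fst_sub, Prod.snd_sub, abs_neg] at hnm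
    rw [abs_of_nonneg hb, abs_of_nonneg (hb.trans hba), hvn] at hnm
    have hb0 : b = 0 := by
      have h3 : (iso g (-a, b)).1 = 0 ∨ (iso g (-a, b)).2 = 0 := by
        rw [← hw]
        simp only [Prod.fst_sub, Prod.snd_sub]
        omega
      obtain ⟨g1, g2, g3⟩ := g
      cases g1 <;> cases g2 <;> cases g3 <;> simp [iso] at h3 <;> omega
    subst hb0
    have hz : ch g R p (-1, 0) = v := by
      unfold ch
      have : ((-1, 0) : Pt) - ((R : ℤ), 0) = (-a, 0) := by
        simp only [Prod.mk_sub_mk, Prod.mk.injEq]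
        omega
      rw [this, ← hw, add_sub_cancel]
    have hint := h2 v hv hvn
    rw [← hz] at hint
    obtain ⟨e, f, hef, he, hf, ne, nf⟩ := nbs hB hn g hint
    have key : ∀ u, adj (-1, 0) u → Nb B (ch g R p (-1, 0)) (ch g R p u) →
        u = (-2, 0) ∨ u = (-1, 1) ∨ u = (-1, -1) := by
      intro u hu hnu
      have h3 : ¬ (|u.1 - R| + |u.2| ≤ (R : ℤ)) := fun hc => h0' g u hc hnu.mem_right
      rw [ball_iff] at h3
      rcases un_cases hu with h | h | h | h
      · exfalso
        apply h3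
        rw [h]
        simp
      · left; rw [h]; simp
      · right; left; rw [h]; simp
      · right; right; rw [h]; simp
    have hex : Nb B (ch g R p (-1, 0)) (ch g R p (-1, 1)) ∨
        Nb B (ch g R p (-1, 0)) (ch g R p (-1, -1)) := by
      rcases key e he ne with h3 | h3 | h3
      · rcases key f hf nf with h4 | h4 | h4
        · exact absurd (h3.trans h4.symm) hef
        · left; rw [← h4]; exact nf
        · right; rw [← h4]; exact nf
      · left; rw [← h3]; exact ne
      · right; rw [← h3]; exact ne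
    rcases hex with h3 | h3
    · exact ⟨g, 0, (-1, 0), fin g 0 (-1, 0) (by omega) (Or.inl ⟨rfl, rfl⟩) (by simpa using h3)
        (fun _ => Or.inr rfl)⟩
    · obtain ⟨g', hg'⟩ := iso_flip g
      have e1 : ch g' R p (-1, 0) = ch g R p (-1, 0) := by
        unfold ch
        rw [hg']
        simp
      have e2 : ch g' R p (-1, 1) = ch g R p (-1, -1) := by
        unfold ch
        rw [hg']
        simp
      exact ⟨g', 0, (-1, 0), fin g' 0 (-1, 0) (by omega) (Or.inl ⟨rfl, rfl⟩)
        (by rw [e1]; simpa [e2] using h3) (fun _ => Or.inr rfl)⟩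
  · push Not at htip
    obtain ⟨v, hv, hvn⟩ := h1
    obtain ⟨g, a, b, hb, hba, hw⟩ := iso_exists (v - p)
    have hnm := iso_norm g (-a, b)
    rw [← hw] at hnm
    simp only [Prod.fst_sub, Prod.snd_sub, abs_neg] at hnm
    rw [abs_of_nonneg hb, abs_of_nonneg (hb.trans hba), hvn] at hnm
    have hnt : ∀ u : Pt, |u.1 - R| + |u.2| = (R : ℤ) + 1 → ch g R p u ∈ B →
        u.1 ≠ R ∧ u.2 ≠ 0 := by
      intro u hu hm
      have h3 := htip _ hm (by rw [ch_norm]; exact hu)
      have e1 : (ch g R p u).1 - p.1 = (iso g (u - ((R : ℤ), 0))).1 := by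
        unfold ch; simp
      have e2 : (ch g R p u).2 - p.2 = (iso g (u - ((R : ℤ), 0))).2 := by
        unfold ch; simp
      have h4 : (iso g (u - ((R : ℤ), 0))).1 ≠ 0 ∧ (iso g (u - ((R : ℤ), 0))).2 ≠ 0 := by
        rw [← e1, ← e2]
        constructor
        · intro h; exact h3.1 (by omega)
        · intro h; exact h3.2 (by omega)
      obtain ⟨g1, g2, g3⟩ := g
      cases g1 <;> cases g2 <;> cases g3 <;> simp [iso] at h4 <;> constructor <;> omega
    have hz : ch g R p (b - 1, b) = v := by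
      unfold ch
      have : ((b - 1, b) : Pt) - ((R : ℤ), 0) = (-a, b) := by
        simp only [Prod.mk_sub_mk, Prod.mk.injEq]
        omega
      rw [this, ← hw, add_sub_cancel]
    have hb1 : 1 ≤ b := by
      have h3 := hnt (b - 1, b) (by
        simp only
        rw [abs_of_nonpos (by omega), abs_of_nonneg (by omega)]
        omega) (by rw [hz]; exact hv)
      have := h3.2
      simp only at this
      omega
    obtain ⟨b', hb'⟩ : ∃ b' : ℕ, (b' : ℤ) = b - 1 := ⟨(b - 1).toNat, by omega⟩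
    have hint := h2 v hv hvn
    rw [← hz] at hint
    obtain ⟨e, f, hef, he, hf, ne, nf⟩ := nbs hB hn g hint
    have key : ∀ u, adj (b - 1, b) u → Nb B (ch g R p (b - 1, b)) (ch g R p u) →
        u = (b - 1 - 1, b) ∨ u = (b - 1, b + 1) := by
      intro u hu hnu
      have h3 : ¬ (|u.1 - R| + |u.2| ≤ (R : ℤ)) := fun hc => h0' g u hc hnu.mem_right
      rw [ball_iff] at h3
      rcases un_cases hu with h | h | h | h
      · exfalso
        apply h3
        rw [h]
        simp only
        omega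
      · left; exact h
      · right; exact h
      · exfalso
        apply h3
        rw [h]
        simp only
        omega
    have hex : Nb B (ch g R p (b - 1, b)) (ch g R p (b - 1, b + 1)) := by
      rcases key e he ne with h3 | h3
      · rcases key f hf nf with h4 | h4
        · exact absurd (h3.trans h4.symm) hef
        · rw [← h4]; exact nf
      · rw [← h3]; exact ne
    refine ⟨g, b', (b - 1, b), fin g b' (b - 1, b) (by omega) (Or.inr ?_) hex (fun hs => ?_)⟩
    · rw [Prod.mk.injEq]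
      omega
    · left
      simp only at hs ⊢
      by_contra hcon
      have h3 := hnt (b - 1 + 1, b + 1) (by
        simp only
        rw [abs_of_nonpos (by omega), abs_of_nonneg (by omega)]
        omega) hs
      have := h3.1
      simp only at this
      omega

end Pool.Agent.T9h33.Loc
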