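import Pool.Agent.Y981.L2X.Dir

/-!
Segments of the planar self-avoiding walk and the correlation length.
-/

set_option autoImplicit false

namespace Pool.Agent.T9h33.Mod

open Pool.Agent.TH795.EP Pool.Agent.TH795.EP2 Pool.Agent.TH795.SE2 Pool.Agent.TH262.SawL
open Pool.Agent.Y981.L2 Pool.Agent.Y981.L2X H981 Finset Filter Topology

/-- the correlation length at `z = e ^ (-1/n) / μ` -/
noncomputable def xi (n : ℕ) : ℝ := 1 / Y981.L2.mass (1 / n)

theorem xi_pos {n : ℕ} (hn : 1 ≤ n) : 0 < xi n := by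
  have hn0 : (0 : ℝ) < n := by exact_mod_cast hn
  have := Y981.L2.mass_pos (e := 1 / (n : ℝ)) (by positivity)
  unfold xi
  positivity

theorem mass_scale {e t : ℝ} (he : 0 < e) (ht0 : 0 < t) (ht1 : t ≤ 1) :
    t * Y981.L2.mass e ≤ Y981.L2.mass (t * e) := by
  by_contra hcon
  push Not at hcon
  have h1 : Y981.L2.mass (t * e) / t < Y981.L2.mass e := by
    rw [div_lt_iff₀ ht0]
    linarith
  obtain ⟨h, h2, h3⟩ := exists_between h1
  have h0 : 0 < Y981.L2.mass (t * e) := Y981.L2.mass_pos (by positivity)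
  have h4 : 0 ≤ h := le_trans (by positivity) h2.le
  have h5 := psi_le_of_lt he.le h4 h3
  have h6 := psi_smul h4 ht0.le ht1
  have h7 := Y981.L2.le_mass (e := t * e) (mul_nonneg ht0.le h4)
    (h6.trans (mul_le_mul_of_nonneg_left h5 ht0.le))
  rw [div_lt_iff₀ ht0] at h2
  linarith

theorem xi_mono {m n : ℕ} (hm : 1 ≤ m) (hmn : m ≤ n) : xi m ≤ xi n := by
  have hm0 : (0 : ℝ) < m := by exact_mod_cast hm
  have hn0 : (0 : ℝ) < n := by exact_mod_cast (by omega : 0 < n)
  have hle : (m : ℝ) ≤ n := by exact_mod_cast hmn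
  have h1 := Y981.L2.mass_mono (e := 1 / (n : ℝ)) (e' := 1 / m) (by positivity)
    (one_div_le_one_div_of_le hm0 hle)
  have h2 := Y981.L2.mass_pos (e := 1 / (n : ℝ)) (by positivity)
  unfold xi
  exact one_div_le_one_div_of_le h2 h1

theorem xi_lin {m n : ℕ} (hm : 1 ≤ m) (hmn : m ≤ n) : xi n ≤ n / m * xi m := by
  have hm0 : (0 : ℝ) < m := by exact_mod_cast hm
  have hn0 : (0 : ℝ) < n := by exact_mod_cast (by omega : 0 < n)
  have hle : (m : ℝ) ≤ n := by exact_mod_cast hmn
  have h1 := mass_scale (e := 1 / (m : ℝ)) (t := (m : ℝ) / n) (by positivity) (by positivity)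
    (by rw [div_le_one hn0]; exact hle)
  have e1 : (m : ℝ) / n * (1 / m) = 1 / n := by field_simp
  rw [e1] at h1
  have h2 := Y981.L2.mass_pos (e := 1 / (n : ℝ)) (by positivity)
  have h3 := Y981.L2.mass_pos (e := 1 / (m : ℝ)) (by positivity)
  unfold xi
  rw [div_le_iff₀ h2]
  calc (1 : ℝ) = n / m * (1 / Y981.L2.mass (1 / m)) *
        (m / n * Y981.L2.mass (1 / m)) := by field_simp
    _ ≤ n / m * (1 / Y981.L2.mass (1 / m)) * Y981.L2.mass (1 / n) := by
        apply mul_le_mul_of_nonneg_left h1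
        positivity

/-- length of the displacement of a word -/
noncomputable def len (w : List St) : ℝ := Real.sqrt ((dx w : ℝ) ^ 2 + (dy w : ℝ) ^ 2)

/-- the number of words of which the segment from `i` to `i + m` is long -/
theorem seg_card' (n i m : ℕ) (him : i + m ≤ n) (P : List St → Prop) :
    (fs (fun w => Saw w ∧ P ((w.drop i).take m)) n).card ≤
      c i * ((fs (fun w => Saw w ∧ P w) m).card * c (n - (i + m))) := by
  classical
  unfold c
  rw [← Finset.card_product, ← Finset.card_product]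
  apply card_le_of_decode (fun q => q.1 ++ (q.2.1 ++ q.2.2))
  intro w hw
  rw [mem_fs] at hw
  obtain ⟨⟨hw1, hw2⟩, hwl⟩ := hw
  refine ⟨(w.take i, (w.drop i).take m, (w.drop i).drop m), ?_, ?_⟩
  · rw [Finset.mem_product, Finset.mem_product, mem_fs, mem_fs, mem_fs]
    simp only
    refine ⟨⟨hw1.subw (List.take_prefix _ _).isInfix, ?_⟩,
      ⟨⟨hw1.subw ?_, hw2⟩, ?_⟩, hw1.subw ?_, ?_⟩
    · rw [List.length_take]; omega
    · exact (List.take_prefix _ _).isInfix.trans (List.drop_suffix _ _).isInfix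
    · rw [List.length_take, List.length_drop]; omega
    · exact (List.drop_suffix _ _).isInfix.trans (List.drop_suffix _ _).isInfix
    · rw [List.length_drop, List.length_drop]; omega
  · simp only
    rw [List.take_append_drop, List.take_append_drop]

theorem seg_far : ∃ K : ℝ, 0 ≤ K ∧ ∀ n i m : ℕ, 2 ≤ n → i + m ≤ n → ∀ r : ℝ,
    ((fs (fun w => Saw w ∧ r ≤ len ((w.drop i).take m)) n).card : ℝ) / c n ≤
      Real.exp (K * Real.log n ^ 2) * far m r := by
  obtain ⟨K, hK, hup, -⟩ := exists_K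
  refine ⟨3 * K, by positivity, fun n i m hn him r => ?_⟩
  have h1 := seg_card' n i m him (fun w => r ≤ len w)
  have h2 : ((fs (fun w => Saw w ∧ r ≤ len ((w.drop i).take m)) n).card : ℝ) ≤
      c i * ((fs (fun w => Saw w ∧ r ≤ len w) m).card * c (n - (i + m))) := by
    exact_mod_cast h1
  have hcm := c_pos m
  have hcn := c_pos n
  have h3 : ((fs (fun w => Saw w ∧ r ≤ len w) m).card : ℝ) = far m r * c m := by
    unfold far len
    rw [div_mul_cancel₀ _ hcm.ne']
  have hfar : 0 ≤ far m r := by unfold far; positivity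
  have e1 := hup n hn i (by omega)
  have e2 := hup n hn m (by omega)
  have e3 := hup n hn (n - (i + m)) (by omega)
  have hmu := mu_pos
  have hq := q_pos n K
  have hlow : mu ^ n ≤ c n := by rw [c_eq]; exact mu_pow_le n
  have hq3 : q n K * q n K * q n K = Real.exp (3 * K * Real.log n ^ 2) := by
    rw [q_mul, q_mul]
    unfold q
    congr 1
    ring
  rw [div_le_iff₀ hcn]
  calc ((fs (fun w => Saw w ∧ r ≤ len ((w.drop i).take m)) n).card : ℝ)
      ≤ c i * ((far m r * c m) * c (n - (i + m))) := by rw [← h3]; exact h2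
    _ ≤ (mu ^ i * q n K) * ((far m r * (mu ^ m * q n K)) * (mu ^ (n - (i + m)) * q n K)) := by
        gcongr
    _ = Real.exp (3 * K * Real.log n ^ 2) * far m r * (mu ^ i * mu ^ m * mu ^ (n - (i + m))) := by
        rw [← hq3]; ring
    _ = Real.exp (3 * K * Real.log n ^ 2) * far m r * mu ^ n := by
        rw [← pow_add, ← pow_add]
        congr 2
        omega
    _ ≤ _ := by
        apply mul_le_mul_of_nonneg_left hlow
        positivity

/-- the segments which are too long -/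
theorem pair_bound : ∃ K : ℝ, 1 ≤ K ∧ ∀ n i m : ℕ, 2 ≤ n → 1 ≤ m → i + m ≤ n → ∀ T : ℝ, 0 ≤ T →
    ((fs (fun w => Saw w ∧ K * (Real.log n ^ 2 + T) * xi m < len ((w.drop i).take m)) n).card : ℝ)
      / c n ≤ Real.exp (-T - 3 * Real.log n ^ 2) := by
  obtain ⟨K1, hK1, h1⟩ := seg_far
  obtain ⟨K2, hK2, h2⟩ := far_upper
  have hxi1 := xi_pos (n := 1) le_rfl
  obtain ⟨K, hK⟩ : ∃ K, K = 4 * (K1 + K2 + 4) + 3 / xi 1 := ⟨_, rfl⟩
  have h3xi : 0 < 3 / xi 1 := by positivity
  refine ⟨K, by linarith, fun n i m hn hm him T hT => ?_⟩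
  have hcn := c_pos n
  have hlog := log_pos' hn
  have hlog2 : Real.log 2 ≤ Real.log n := log_ge hn
  have h6 := Real.log_two_gt_d9
  have hL : (0.4 : ℝ) ≤ Real.log n ^ 2 := by
    have h7 : (0.69 : ℝ) ^ 2 ≤ Real.log n ^ 2 := pow_le_pow_left₀ (by norm_num) (by linarith) 2
    norm_num at h7
    linarith
  rcases Nat.lt_or_ge m 2 with hm2 | hm2
  · have hm1 : m = 1 := by omega
    subst hm1
    have e : fs (fun w => Saw w ∧ K * (Real.log n ^ 2 + T) * xi 1 < len ((w.drop i).take 1)) n =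
        ∅ := by
      apply Finset.eq_empty_of_forall_notMem
      intro w hw
      rw [mem_fs] at hw
      obtain ⟨⟨-, h3⟩, hl⟩ := hw
      have h4 : len ((w.drop i).take 1) ≤ 1 := by
        unfold len
        rw [Real.sqrt_le_one]
        have hlen : ((w.drop i).take 1).length = 1 := by
          rw [List.length_take, List.length_drop]; omega
        obtain ⟨s, hs⟩ := List.length_eq_one_iff.1 hlen
        rw [hs]
        cases s <;> simp
      have h5 : 1 ≤ K * (Real.log n ^ 2 + T) * xi 1 := by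
        have h7 : 3 / xi 1 ≤ K := by rw [hK]; linarith
        calc (1 : ℝ) ≤ 3 * 0.4 := by norm_num
          _ ≤ 3 * (Real.log n ^ 2 + T) := by linarith
          _ = 3 / xi 1 * (Real.log n ^ 2 + T) * xi 1 := by field_simp
          _ ≤ _ := by gcongr
      linarith
    rw [e, Finset.card_empty, Nat.cast_zero, zero_div]
    exact (Real.exp_pos _).le
  · have hxi := xi_pos hm
    have hmle : Real.log m ≤ Real.log n := Real.log_le_log (by exact_mod_cast (by omega : 0 < m))
      (by exact_mod_cast (by omega : m ≤ n))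
    have hlm := log_pos' hm2
    have hlm2 : Real.log m ^ 2 ≤ Real.log n ^ 2 := pow_le_pow_left₀ hlm.le hmle 2
    obtain ⟨r, hr⟩ : ∃ r, r = K * (Real.log n ^ 2 + T) * xi m := ⟨_, rfl⟩
    have hK0 : 0 ≤ K := by rw [hK]; positivity
    have hr0 : 0 ≤ r := by rw [hr]; positivity
    rw [← hr]
    have h3 := h1 n i m hn him r
    have h4 := h2 m hm2 r hr0
    have h5 : ((fs (fun w => Saw w ∧ r < len ((w.drop i).take m)) n).card : ℝ) / c n ≤
        ((fs (fun w => Saw w ∧ r ≤ len ((w.drop i).take m)) n).card : ℝ) / c n := by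
      apply div_le_div_of_nonneg_right _ hcn.le
      exact_mod_cast Finset.card_le_card (fun w hw => by
        rw [mem_fs] at hw ⊢
        exact ⟨⟨hw.1.1, hw.1.2.le⟩, hw.2⟩)
    refine h5.trans (h3.trans ?_)
    calc Real.exp (K1 * Real.log n ^ 2) * far m r
        ≤ Real.exp (K1 * Real.log n ^ 2) *
          Real.exp (K2 * Real.log m ^ 2 - r * Y981.L2.mass (1 / m) / 4) := by gcongr
      _ = Real.exp (K1 * Real.log n ^ 2 + (K2 * Real.log m ^ 2 -
          r * Y981.L2.mass (1 / m) / 4)) := by rw [Real.exp_add]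
      _ ≤ _ := by
        apply Real.exp_le_exp.2
        have h7 : r * Y981.L2.mass (1 / m) = K * (Real.log n ^ 2 + T) := by
          rw [hr]
          unfold xi
          have hm0 : (0 : ℝ) < m := by exact_mod_cast hm
          have := Y981.L2.mass_pos (e := 1 / (m : ℝ)) (by positivity)
          field_simp
        rw [h7]
        have h8 : 4 * (K1 + K2 + 4) * (Real.log n ^ 2 + T) ≤ K * (Real.log n ^ 2 + T) := by
          apply mul_le_mul_of_nonneg_right _ (by positivity)
          rw [hK]; linarith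
        have h9 : K2 * Real.log m ^ 2 ≤ K2 * Real.log n ^ 2 := by gcongr
        nlinarith [mul_nonneg hK1 hT, mul_nonneg hK2 hT]

/-- **Modulus of continuity.** -/
theorem modulus : ∃ K : ℝ, 1 ≤ K ∧ ∀ n : ℕ, 2 ≤ n → ∀ T : ℝ, 0 ≤ T →
    ((fs (fun w => Saw w ∧ ∃ i m, 1 ≤ m ∧ i + m ≤ n ∧
      K * (Real.log n ^ 2 + T) * xi m < len ((w.drop i).take m)) n).card : ℝ) / c n ≤
      Real.exp (-T) := by
  classical
  obtain ⟨K, hK, h⟩ := pair_bound
  refine ⟨K, hK, fun n hn T hT => ?_⟩
  have hcn := c_pos n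
  have hn0 : (0 : ℝ) < n := by exact_mod_cast (by omega : 0 < n)
  have hcard : ((fs (fun w => Saw w ∧ ∃ i m, 1 ≤ m ∧ i + m ≤ n ∧
      K * (Real.log n ^ 2 + T) * xi m < len ((w.drop i).take m)) n).card) ≤
      ∑ p ∈ range n ×ˢ range n, (fs (fun w => Saw w ∧ p.1 + (p.2 + 1) ≤ n ∧
        K * (Real.log n ^ 2 + T) * xi (p.2 + 1) < len ((w.drop p.1).take (p.2 + 1))) n).card := by
    refine le_trans (Finset.card_le_card ?_) Finset.card_biUnion_le
    intro w hw
    rw [mem_fs] at hw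
    obtain ⟨⟨hw1, i, m, hm, him, hw2⟩, hl⟩ := hw
    obtain ⟨m', rfl⟩ : ∃ m', m = m' + 1 := ⟨m - 1, by omega⟩
    rw [Finset.mem_biUnion]
    refine ⟨(i, m'), ?_, ?_⟩
    · rw [Finset.mem_product, Finset.mem_range, Finset.mem_range]
      exact ⟨by simp only; omega, by simp only; omega⟩
    · rw [mem_fs]
      exact ⟨⟨hw1, him, hw2⟩, hl⟩
  have hcard' : ((fs (fun w => Saw w ∧ ∃ i m, 1 ≤ m ∧ i + m ≤ n ∧
      K * (Real.log n ^ 2 + T) * xi m < len ((w.drop i).take m)) n).card : ℝ) ≤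
      ∑ p ∈ range n ×ˢ range n, ((fs (fun w => Saw w ∧ p.1 + (p.2 + 1) ≤ n ∧
        K * (Real.log n ^ 2 + T) * xi (p.2 + 1) < len ((w.drop p.1).take (p.2 + 1))) n).card : ℝ) := by
    exact_mod_cast hcard
  rw [div_le_iff₀ hcn]
  refine hcard'.trans ?_
  have hterm : ∀ p ∈ range n ×ˢ range n, ((fs (fun w => Saw w ∧ p.1 + (p.2 + 1) ≤ n ∧
        K * (Real.log n ^ 2 + T) * xi (p.2 + 1) < len ((w.drop p.1).take (p.2 + 1))) n).card : ℝ) ≤
      Real.exp (-T - 3 * Real.log n ^ 2) * c n := by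
    intro p _
    by_cases hp : p.1 + (p.2 + 1) ≤ n
    · have h1 := h n p.1 (p.2 + 1) hn (by omega) hp T hT
      rw [div_le_iff₀ hcn] at h1
      refine le_trans ?_ h1
      exact_mod_cast Finset.card_le_card (fun w hw => by
        rw [mem_fs] at hw ⊢
        exact ⟨⟨hw.1.1, hw.1.2.2⟩, hw.2⟩)
    · have e : fs (fun w => Saw w ∧ p.1 + (p.2 + 1) ≤ n ∧
        K * (Real.log n ^ 2 + T) * xi (p.2 + 1) < len ((w.drop p.1).take (p.2 + 1))) n = ∅ := by
        apply Finset.eq_empty_of_forall_notMem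
        intro w hw
        rw [mem_fs] at hw
        exact hp hw.1.2.1
      rw [e, Finset.card_empty, Nat.cast_zero]
      positivity
  refine (Finset.sum_le_card_nsmul _ _ _ hterm).trans ?_
  rw [Finset.card_product, Finset.card_range, nsmul_eq_mul, ← mul_assoc]
  apply mul_le_mul_of_nonneg_right _ hcn.le
  have hlog := log_pos' hn
  have hlog2 : Real.log 2 ≤ Real.log n := log_ge hn
  have h6 := Real.log_two_gt_d9
  have h7 : (n : ℝ) * n = Real.exp (2 * Real.log n) := by
    rw [two_mul, Real.exp_add, Real.exp_log hn0]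
  push_cast
  rw [h7, ← Real.exp_add]
  apply Real.exp_le_exp.2
  nlinarith

/-- the correlation length is at least of order `√n / (log n)²` -/
theorem sqrt_le : ∃ K : ℝ, 1 ≤ K ∧ ∀ n : ℕ, 2 ≤ n →
    Real.sqrt n ≤ K * xi n * Real.log n ^ 2 := by
  classical
  obtain ⟨K, hK, h⟩ := modulus
  have hxi1 := xi_pos (n := 1) le_rfl
  refine ⟨8 * K + 3 / xi 1 + 1, by have : 0 < 3 / xi 1 := by positivity
                                   linarith, fun n hn => ?_⟩
  have hcn := c_pos n
  have hn0 : (0 : ℝ) < n := by exact_mod_cast (by omega : 0 < n)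
  have hlog := log_pos' hn
  have hlog2 : Real.log 2 ≤ Real.log n := log_ge hn
  have h6 := Real.log_two_gt_d9
  have hL : (0.4 : ℝ) ≤ Real.log n ^ 2 := by
    have h7 : (0.69 : ℝ) ^ 2 ≤ Real.log n ^ 2 := pow_le_pow_left₀ (by norm_num) (by linarith) 2
    norm_num at h7
    linarith
  have h1 := h n hn 1 zero_le_one
  have hlt : Real.exp (-1) < 1 := by
    rw [← Real.exp_zero]
    exact Real.exp_lt_exp.2 (by norm_num)
  -- a good word
  obtain ⟨w, hw, hwl, hgood⟩ : ∃ w, Saw w ∧ w.length = n ∧ ∀ i m, 1 ≤ m → i + m ≤ n →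
      len ((w.drop i).take m) ≤ K * (Real.log n ^ 2 + 1) * xi m := by
    by_contra hcon
    push Not at hcon
    have e : fs (fun w => Saw w ∧ ∃ i m, 1 ≤ m ∧ i + m ≤ n ∧
      K * (Real.log n ^ 2 + 1) * xi m < len ((w.drop i).take m)) n = fs Saw n := by
      ext w
      rw [mem_fs, mem_fs]
      constructor
      · rintro ⟨⟨h1, -⟩, h2⟩
        exact ⟨h1, h2⟩
      · rintro ⟨h1, h2⟩
        exact ⟨⟨h1, hcon w h1 h2⟩, h2⟩
    rw [e] at h1
    have e2 : ((fs Saw n).card : ℝ) = c n := rfl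
    rw [e2, div_self hcn.ne'] at h1
    linarith
  obtain ⟨R, hR⟩ : ∃ R, R = K * (Real.log n ^ 2 + 1) * xi n := ⟨_, rfl⟩
  have hxin := xi_pos (n := n) (by omega)
  have hR0 : 0 ≤ R := by rw [hR]; positivity
  have hsmall : ∀ m, m ≤ n → |(path w m).1| ≤ ⌊R⌋₊ ∧ |(path w m).2| ≤ ⌊R⌋₊ := by
    intro m hm
    rcases Nat.eq_zero_or_pos m with h0 | h0
    · subst h0
      rw [path_zero]
      simp
    · have h2 := hgood 0 m h0 (by omega)
      rw [List.drop_zero] at h2
      have h3 : len (w.take m) ≤ R := by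
        refine h2.trans ?_
        rw [hR]
        apply mul_le_mul_of_nonneg_left (xi_mono h0 hm)
        positivity
      unfold len at h3
      have h4 : ∀ z : ℤ, (z : ℝ) ^ 2 ≤ (dx (w.take m) : ℝ) ^ 2 + (dy (w.take m) : ℝ) ^ 2 →
          |z| ≤ ⌊R⌋₊ := by
        intro z hz
        have h5 : |(z : ℝ)| ≤ R := by
          rw [← Real.sqrt_sq_eq_abs]
          exact (Real.sqrt_le_sqrt hz).trans h3
        have h6 : ((z.natAbs : ℕ) : ℝ) ≤ R := by
          rw [Nat.cast_natAbs, Int.cast_abs]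
          exact h5
        have h7 := Nat.le_floor h6
        rw [Int.abs_eq_natAbs]
        exact_mod_cast h7
      constructor
      · exact h4 _ (le_add_of_nonneg_right (sq_nonneg _))
      · exact h4 _ (le_add_of_nonneg_left (sq_nonneg _))
  have hcount : n + 1 ≤ (2 * ⌊R⌋₊ + 1) ^ 2 := by
    have hc : ((Finset.Icc (-(⌊R⌋₊ : ℤ)) ⌊R⌋₊) ×ˢ (Finset.Icc (-(⌊R⌋₊ : ℤ)) ⌊R⌋₊)).card =
        (2 * ⌊R⌋₊ + 1) ^ 2 := by
      rw [Finset.card_product, Int.card_Icc, sq]
      congr 1 <;> omega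
    rw [← hc]
    calc n + 1 = (Finset.range (n + 1)).card := (Finset.card_range _).symm
      _ ≤ _ := by
        refine Finset.card_le_card_of_injOn (fun m => path w m) ?_ ?_
        · intro m hm
          rw [Finset.mem_coe, Finset.mem_range] at hm
          obtain ⟨h2, h3⟩ := hsmall m (by omega)
          rw [abs_le] at h2 h3
          rw [Finset.mem_coe, Finset.mem_product, Finset.mem_Icc, Finset.mem_Icc]
          exact ⟨h2, h3⟩
        · intro i hi j hj hij
          rw [Finset.mem_coe, Finset.mem_range] at hi hj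
          simp only at hij
          rcases lt_trichotomy i j with h2 | h2 | h2
          · exact absurd hij (saw_iff'.1 hw i j h2 (by omega))
          · exact h2
          · exact absurd hij.symm (saw_iff'.1 hw j i h2 (by omega))
  have h2 : Real.sqrt n ≤ 2 * R + 1 := by
    apply Real.sqrt_le_iff.2
    refine ⟨by positivity, ?_⟩
    have h3 : ((n + 1 : ℕ) : ℝ) ≤ (((2 * ⌊R⌋₊ + 1) ^ 2 : ℕ) : ℝ) := by exact_mod_cast hcount
    push_cast at h3
    have h4 := Nat.floor_le hR0
    have h5 : (2 * (⌊R⌋₊ : ℝ) + 1) ^ 2 ≤ (2 * R + 1) ^ 2 :=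
      pow_le_pow_left₀ (by positivity) (by linarith) 2
    linarith
  have hmono := xi_mono (m := 1) (n := n) le_rfl (by omega)
  have h3 : (1 : ℝ) ≤ 3 / xi 1 * xi n * Real.log n ^ 2 := by
    calc (1 : ℝ) ≤ 3 * 0.4 := by norm_num
      _ ≤ 3 * Real.log n ^ 2 := by linarith
      _ = 3 / xi 1 * xi 1 * Real.log n ^ 2 := by field_simp
      _ ≤ _ := by gcongr
  have h4 : 2 * R ≤ 8 * K * xi n * Real.log n ^ 2 := by
    rw [hR]
    have h5 : Real.log n ^ 2 + 1 ≤ 4 * Real.log n ^ 2 := by linarith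
    calc 2 * (K * (Real.log n ^ 2 + 1) * xi n) ≤ 2 * (K * (4 * Real.log n ^ 2) * xi n) := by
          gcongr
      _ = _ := by ring
  have h5 : 0 ≤ xi n * Real.log n ^ 2 := by positivity
  nlinarith

end Pool.Agent.T9h33.Mod
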