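import Pool.Agent.T9h33.AR
import Pool.Agent.H981R2.Plain

set_option autoImplicit false

/-!
Periodic self-avoiding paths on the square lattice, and the contacts of two such paths with the
same period.
-/

namespace Pool.Agent.T9h33.PA

open Finset Pool.Agent.T9h33.TA Pool.Agent.T9h33.TB Pool.Agent.T9h33.TD
open Pool.Agent.Results.MP_46f0ca_pr.WindowMerging (IsSAW)
open scoped Classical

/-- bi-infinite self-avoiding nearest-neighbour paths through the origin which are invariant under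
the translation by `x`, with `n` steps per period -/
structure IsPer (n : ℕ) (x : ℤ × ℤ) (f : ℤ → ℤ × ℤ) : Prop where
  zero : f 0 = 0
  inj : Function.Injective f
  step : ∀ t, |(f (t + 1)).1 - (f t).1| + |(f (t + 1)).2 - (f t).2| = 1
  per : ∀ t, f (t + n) = f t + x

variable {m n : ℕ} {x : ℤ × ℤ} {f g : ℤ → ℤ × ℤ}

theorem IsPer.per_mul (h : IsPer n x f) (t k : ℤ) :
    (f (t + k * n)).1 = (f t).1 + k * x.1 ∧ (f (t + k * n)).2 = (f t).2 + k * x.2 := by
  induction k using Int.induction_on with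
  | zero => simp
  | succ k ih =>
    have e : t + ((k : ℤ) + 1) * n = (t + k * n) + n := by ring
    rw [e, h.per, Prod.fst_add, Prod.snd_add, ih.1, ih.2]
    constructor <;> ring
  | pred k ih =>
    have e : t + -(k : ℤ) * n = (t + (-(k : ℤ) - 1) * n) + n := by ring
    rw [e, h.per, Prod.fst_add, Prod.snd_add] at ih
    constructor
    · linarith [ih.1]
    · linarith [ih.2]

theorem IsPer.mod (h : IsPer n x f) (hn : 1 ≤ n) (t : ℤ) :
    (f t).1 = (f ((t % n).toNat : ℕ)).1 + (t / n) * x.1 ∧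
      (f t).2 = (f ((t % n).toNat : ℕ)).2 + (t / n) * x.2 := by
  have h1 : 0 ≤ t % n := Int.emod_nonneg _ (by omega)
  rw [Int.toNat_of_nonneg h1]
  have h2 := h.per_mul (t % n) (t / n)
  have h3 : t % n + t / n * n = t := Int.emod_add_ediv_mul t n
  rw [h3] at h2
  exact h2

theorem IsPer.last (h : IsPer n x f) : f n = x := by
  have := h.per 0
  rwa [zero_add, h.zero, zero_add] at this

theorem mod_lt {n : ℕ} (hn : 1 ≤ n) (t : ℤ) : (t % n).toNat < n := by
  have h1 : 0 ≤ t % n := Int.emod_nonneg _ (by omega)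
  have h2 : t % n < n := Int.emod_lt_of_pos _ (by omega)
  omega

/-- two periodic paths which agree on a period are equal -/
theorem IsPer.ext {y : ℤ × ℤ} (hf : IsPer n x f) (hg : IsPer n y g) (hn : 1 ≤ n)
    (h : ∀ k : ℕ, k ≤ n → f k = g k) : f = g := by
  have hxy : x = y := by rw [← hf.last, ← hg.last, h n le_rfl]
  subst hxy
  funext t
  have h1 := hf.mod hn t
  have h2 := hg.mod hn t
  have h3 := h _ (mod_lt hn t).le
  rw [h3] at h1
  exact Prod.ext (h1.1.trans h2.1.symm) (h1.2.trans h2.2.symm)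

/-- change of the base point -/
def rot (i : ℤ) (f : ℤ → ℤ × ℤ) : ℤ → ℤ × ℤ := fun t => f (t + i) - f i

theorem IsPer.rot (h : IsPer n x f) (i : ℤ) : IsPer n x (rot i f) := by
  refine ⟨?_, ?_, ?_, ?_⟩
  · simp [PA.rot]
  · intro a b hab
    have := h.inj (sub_left_injective hab)
    linarith
  · intro t
    have e : t + 1 + i = t + i + 1 := by ring
    simp only [PA.rot, Prod.fst_sub, Prod.snd_sub, sub_sub_sub_cancel_right, e]
    exact h.step _
  · intro t
    have e : t + n + i = t + i + n := by ring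
    simp only [PA.rot, e, h.per]
    abel

theorem rot_rot (i j : ℤ) (f : ℤ → ℤ × ℤ) : rot i (rot j f) = rot (i + j) f := by
  funext t
  simp only [rot]
  rw [add_assoc]
  abel

theorem IsPer.rot_zero (h : IsPer n x f) : PA.rot 0 f = f := by
  funext t
  simp [PA.rot, h.zero]

theorem rot_inj {x y : ℤ × ℤ} (hf : IsPer n x f) (hg : IsPer m y g) {i : ℤ}
    (h : rot i f = rot i g) : f = g := by
  have h1 := congrArg (rot (-i)) h
  rw [rot_rot, rot_rot, neg_add_cancel, hf.rot_zero, hg.rot_zero] at h1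
  exact h1

/-- `f` is weakly to one side of `g` -/
def K (f g : ℤ → ℤ × ℤ) : Prop := ∀ s t : ℤ, (f s).1 = (g t).1 → (f s).2 ≤ (g t).2

theorem ivt (u : ℕ → ℤ) (v : ℤ) (h0 : u 0 ≤ v) : ∀ n : ℕ, v ≤ u n →
    (∀ k < n, u (k + 1) ≤ u k + 1) → ∃ j ≤ n, u j = v := by
  intro n
  induction n with
  | zero => intro h _; exact ⟨0, le_rfl, by omega⟩
  | succ n ih =>
    intro h hs
    by_cases hn : v ≤ u n
    · obtain ⟨j, h1, h2⟩ := ih hn (fun k hk => hs k (by omega))
      exact ⟨j, by omega, h2⟩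
    · have := hs n (by omega)
      exact ⟨n + 1, le_rfl, by omega⟩

theorem IsPer.step_le (h : IsPer n x f) (t : ℤ) : (f (t + 1)).1 ≤ (f t).1 + 1 := by
  have h1 := h.step t
  have h2 := abs_nonneg ((f (t + 1)).2 - (f t).2)
  have h3 := le_abs_self ((f (t + 1)).1 - (f t).1)
  omega

/-- **contacts** -/
theorem exists_contact (hm : 1 ≤ m) (hn : 1 ≤ n) (hx : 1 ≤ x.1) (hf : IsPer m x f)
    (hg : IsPer n x g) (s : ℤ) : ∃ i j : ℕ, i < m ∧ j < n ∧ K (rot i f) (rot j g) ∧
      x.1 ∣ (f i).1 - (g j).1 - s := by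
  set A := ((range m) ×ˢ (range n)).filter (fun p : ℕ × ℕ => x.1 ∣ (f p.1).1 - (g p.2).1 - s)
    with hA
  have hAne : A.Nonempty := by
    set v : ℤ := (-s) % x.1 with hv
    have hv0 : 0 ≤ v := Int.emod_nonneg _ (by omega)
    have hv1 : v < x.1 := Int.emod_lt_of_pos _ (by omega)
    obtain ⟨j, hj1, hj2⟩ := ivt (fun k => (g k).1) v (by simpa [hg.zero] using hv0) n (by
      rw [hg.last]
      exact hv1.le) (fun k _ => by
        have := hg.step_le k
        push_cast
        exact this)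
    have hjn : j ≠ n := by
      rintro rfl
      rw [hg.last] at hj2
      omega
    refine ⟨(0, j), ?_⟩
    rw [hA, Finset.mem_filter, Finset.mem_product, Finset.mem_range, Finset.mem_range]
    refine ⟨⟨(by omega : 0 < m), (by omega : j < n)⟩, ?_⟩
    simp only [Nat.cast_zero, hf.zero, Prod.fst_zero, hj2]
    have h1 : (0 : ℤ) - v - s = -(-(-s) + v) := by ring
    rw [h1, dvd_neg]
    have h2 : (-s) % x.1 + x.1 * ((-s) / x.1) = -s := Int.emod_add_mul_ediv _ _
    refine ⟨-((-s) / x.1), ?_⟩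
    rw [hv]
    linarith
  obtain ⟨⟨i, j⟩, hij, hmax⟩ := Finset.exists_max_image A (fun p : ℕ × ℕ =>
    (f p.1).2 - (g p.2).2 - (((f p.1).1 - (g p.2).1 - s) / x.1) * x.2) hAne
  rw [hA, Finset.mem_filter, Finset.mem_product, Finset.mem_range, Finset.mem_range] at hij
  obtain ⟨⟨hi, hj⟩, hdvd⟩ := hij
  simp only at hi hj hdvd hmax
  refine ⟨i, j, hi, hj, ?_, hdvd⟩
  intro t t' ht
  simp only [rot, Prod.fst_sub, Prod.snd_sub] at ht ⊢
  obtain ⟨k, hk⟩ := hdvd
  have hx0 : x.1 ≠ 0 := by omega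
  set T := t + i with hT
  set T' := t' + j with hT'
  obtain ⟨a1, a2⟩ := hf.mod hm T
  obtain ⟨b1, b2⟩ := hg.mod hn T'
  set i2 := (T % m).toNat with hi2
  set j2 := (T' % n).toNat with hj2
  have e1 : (f i2).1 - (g j2).1 - s = x.1 * (k + T' / n - T / m) := by
    have : (f i2).1 - (g j2).1 - s = (f i).1 - (g j).1 - s - (T / m) * x.1 + (T' / n) * x.1 := by
      linarith
    rw [this, hk]
    ring
  have h3 := hmax (i2, j2) (by
    rw [hA, Finset.mem_filter, Finset.mem_product, Finset.mem_range, Finset.mem_range]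
    exact ⟨⟨mod_lt hm T, mod_lt hn T'⟩, ⟨_, e1⟩⟩)
  simp only at h3
  rw [e1, hk, Int.mul_ediv_cancel_left _ hx0, Int.mul_ediv_cancel_left _ hx0] at h3
  have e2 : (k + T' / n - T / m) * x.2 = k * x.2 + T' / n * x.2 - T / m * x.2 := by ring
  rw [e2] at h3
  linarith

/-- restriction to one period -/
def res (n : ℕ) (f : ℤ → ℤ × ℤ) : Fin (n + 1) → ℤ × ℤ := fun i => f (i : ℕ)

theorem IsPer.saw (h : IsPer n x f) (k : ℕ) : IsSAW k (res k f) := by
  refine ⟨h.zero, ?_, ?_⟩
  · intro i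
    have := h.step (i : ℕ)
    simp only [res, Fin.val_succ, Fin.val_castSucc]
    push_cast
    exact this
  · intro a b hab
    have := h.inj hab
    exact Fin.ext (by exact_mod_cast this)

/-- the periodic paths which move to the right -/
theorem finite_per (n : ℕ) (hn : 1 ≤ n) :
    {f : ℤ → ℤ × ℤ | IsPer n (f n) f ∧ 1 ≤ (f n).1}.Finite := by
  refine Set.Finite.of_injOn (f := res n) (t := (Sn n : Set _)) ?_ ?_ (Finset.finite_toSet _)
  · intro f hf
    exact mem_Sn.mpr (hf.1.saw n)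
  · intro f hf g hg hfg
    refine hf.1.ext hg.1 hn (fun k hk => ?_)
    have := congrFun hfg ⟨k, by omega⟩
    simpa [res] using this

/-- the periodic paths which move to the right -/
noncomputable def QF (n : ℕ) : Finset (ℤ → ℤ × ℤ) :=
  if hn : 1 ≤ n then (finite_per n hn).toFinset else ∅

theorem mem_QF (hn : 1 ≤ n) : f ∈ QF n ↔ IsPer n (f n) f ∧ 1 ≤ (f n).1 := by
  unfold QF
  rw [dif_pos hn, Set.Finite.mem_toFinset]
  rfl

/-- with a given period -/
noncomputable def PF (n : ℕ) (x : ℤ × ℤ) : Finset (ℤ → ℤ × ℤ) := (QF n).filter (fun f => f n = x)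

theorem mem_PF (hn : 1 ≤ n) (hx : 1 ≤ x.1) : f ∈ PF n x ↔ IsPer n x f := by
  unfold PF
  rw [Finset.mem_filter, mem_QF hn]
  constructor
  · rintro ⟨⟨h1, h2⟩, h3⟩
    rw [h3] at h1
    exact h1
  · intro h
    have h1 := h.last
    exact ⟨⟨by rw [h1]; exact h, by rw [h1]; exact hx⟩, h1⟩

/-- pairs in contact -/
noncomputable def KF (m n : ℕ) (x : ℤ × ℤ) : Finset ((ℤ → ℤ × ℤ) × (ℤ → ℤ × ℤ)) :=
  (PF m x ×ˢ PF n x).filter (fun p => K p.1 p.2)

theorem mem_KF (hm : 1 ≤ m) (hn : 1 ≤ n) (hx : 1 ≤ x.1) : (f, g) ∈ KF m n x ↔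
    IsPer m x f ∧ IsPer n x g ∧ K f g := by
  unfold KF
  rw [Finset.mem_filter, Finset.mem_product, mem_PF hm hx, mem_PF hn hx]
  tauto

theorem contact_count (hm : 1 ≤ m) (hn : 1 ≤ n) (hx : 1 ≤ x.1) :
    x.1.toNat * ((PF m x).card * (PF n x).card) ≤ m * n * (KF m n x).card := by
  have h1 : ∀ p ∈ PF m x ×ˢ PF n x, x.1.toNat ≤ (((range m) ×ˢ (range n)).filter
      (fun q : ℕ × ℕ => K (rot q.1 p.1) (rot q.2 p.2))).card := by
    rintro ⟨f, g⟩ hp
    rw [Finset.mem_product, mem_PF hm hx, mem_PF hn hx] at hp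
    obtain ⟨hf, hg⟩ := hp
    simp only at hf hg ⊢
    have h2 : range x.1.toNat ⊆ (((range m) ×ˢ (range n)).filter
        (fun q : ℕ × ℕ => K (rot q.1 f) (rot q.2 g))).image
        (fun q : ℕ × ℕ => (((f q.1).1 - (g q.2).1) % x.1).toNat) := by
      intro s hs
      rw [Finset.mem_range] at hs
      obtain ⟨i, j, hi, hj, hK, hd⟩ := exists_contact hm hn hx hf hg (s : ℤ)
      rw [Finset.mem_image]
      refine ⟨(i, j), ?_, ?_⟩
      · rw [Finset.mem_filter, Finset.mem_product, Finset.mem_range, Finset.mem_range]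
        exact ⟨⟨hi, hj⟩, hK⟩
      · simp only
        have h3 : ((f i).1 - (g j).1) % x.1 = (s : ℤ) % x.1 :=
          (Int.ModEq.symm ((Int.modEq_iff_dvd).mpr hd))
        rw [h3, Int.emod_eq_of_lt (by omega) (by omega)]
        simp
    calc x.1.toNat = (range x.1.toNat).card := (Finset.card_range _).symm
      _ ≤ _ := Finset.card_le_card h2
      _ ≤ _ := Finset.card_image_le
  calc x.1.toNat * ((PF m x).card * (PF n x).card)
      = ∑ p ∈ PF m x ×ˢ PF n x, x.1.toNat := by
        rw [Finset.sum_const, Finset.card_product, smul_eq_mul, mul_comm]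
    _ ≤ ∑ p ∈ PF m x ×ˢ PF n x, (((range m) ×ˢ (range n)).filter
      (fun q : ℕ × ℕ => K (rot q.1 p.1) (rot q.2 p.2))).card := Finset.sum_le_sum h1
    _ = ∑ q ∈ (range m) ×ˢ (range n), ((PF m x ×ˢ PF n x).filter
      (fun p => K (rot q.1 p.1) (rot q.2 p.2))).card := by
        simp only [Finset.card_filter]
        rw [Finset.sum_comm]
    _ ≤ ∑ q ∈ (range m) ×ˢ (range n), (KF m n x).card := by
        refine Finset.sum_le_sum fun q _ => ?_
        refine Finset.card_le_card_of_injOn (fun p => (rot q.1 p.1, rot q.2 p.2)) ?_ ?_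
        · rintro ⟨f, g⟩ hp
          rw [Finset.mem_coe, Finset.mem_filter, Finset.mem_product, mem_PF hm hx,
            mem_PF hn hx] at hp
          rw [Finset.mem_coe, mem_KF hm hn hx]
          exact ⟨hp.1.1.rot _, hp.1.2.rot _, hp.2⟩
        · rintro ⟨f, g⟩ hp ⟨f', g'⟩ hp' h
          rw [Finset.mem_coe, Finset.mem_filter, Finset.mem_product, mem_PF hm hx,
            mem_PF hn hx] at hp hp'
          simp only [Prod.mk.injEq] at h hp hp' ⊢
          exact ⟨rot_inj hp.1.1 hp'.1.1 h.1, rot_inj hp.1.2 hp'.1.2 h.2⟩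
    _ = m * n * (KF m n x).card := by
        rw [Finset.sum_const, Finset.card_product, Finset.card_range, Finset.card_range,
          smul_eq_mul]

end Pool.Agent.T9h33.PA
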