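import Pool.Agent.T9h33.PA

set_option autoImplicit false

/-!
Two periodic self-avoiding paths with the same period, in contact, form a self-avoiding polygon.
-/

namespace Pool.Agent.T9h33.PB

open Finset Pool.Agent.T9h33.PA
open Pool.Agent.T9h33.AR (val_succ)
open Pool.Agent.W870.Pg (LF mem_LF)
open Pool.Agent.H924P (IsLoop)
open scoped Classical

/-- one period of `f`, then one period of `g` backwards -/
def Gc (m n : ℕ) (f g : ℤ → ℤ × ℤ) (j : ℕ) : ℤ × ℤ :=
  if j ≤ m then f j else g ((m + n + 1 - j : ℕ) : ℤ) + (0, 1)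

variable {m n : ℕ} {x : ℤ × ℤ} {f g : ℤ → ℤ × ℤ}

theorem Gc_inj (hf : IsPer m x f) (hg : IsPer n x g) (hK : K f g) {j k : ℕ}
    (hj : j ≤ m + n + 1) (hk : k ≤ m + n + 1) (h : Gc m n f g j = Gc m n f g k) : j = k := by
  have key : ∀ s t : ℤ, f s ≠ g t + (0, 1) := by
    intro s t e
    have e1 := congrArg Prod.fst e
    have e2 := congrArg Prod.snd e
    simp only [Prod.fst_add, Prod.snd_add, add_zero] at e1 e2
    have := hK s t e1
    omega
  unfold Gc at h
  split_ifs at h with h1 h2 h2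
  · have := hf.inj h
    exact_mod_cast this
  · exact absurd h (key _ _)
  · exact absurd h.symm (key _ _)
  · have h3 := hg.inj (add_right_cancel h)
    have h4 : m + n + 1 - j = m + n + 1 - k := by exact_mod_cast h3
    omega

theorem Gc_adj (hf : IsPer m x f) (hg : IsPer n x g) {j : ℕ} (hj : j < m + n + 1) :
    |(Gc m n f g (j + 1)).1 - (Gc m n f g j).1| +
      |(Gc m n f g (j + 1)).2 - (Gc m n f g j).2| = 1 := by
  rcases lt_trichotomy j m with h | h | h
  · unfold Gc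
    rw [if_pos (by omega), if_pos (by omega)]
    have := hf.step j
    push_cast
    exact this
  · subst h
    unfold Gc
    rw [if_neg (by omega), if_pos le_rfl]
    have e1 : j + n + 1 - (j + 1) = n := by omega
    rw [e1, hf.last, hg.last]
    simp
  · unfold Gc
    rw [if_neg (by omega), if_neg (by omega)]
    have h1 := hg.step ((m + n + 1 - (j + 1) : ℕ) : ℤ)
    have e1 : ((m + n + 1 - (j + 1) : ℕ) : ℤ) + 1 = ((m + n + 1 - j : ℕ) : ℤ) := by omega
    rw [e1] at h1
    simp only [Prod.fst_add, Prod.snd_add, add_sub_add_right_eq_sub]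
    rw [abs_sub_comm, abs_sub_comm (g ((m + n + 1 - (j + 1) : ℕ) : ℤ)).2]
    exact h1

theorem Gc_zero (hf : IsPer m x f) : Gc m n f g 0 = 0 := by
  unfold Gc
  rw [if_pos (by omega)]
  exact hf.zero

theorem Gc_end (hg : IsPer n x g) : Gc m n f g (m + n + 1) = (0, 1) := by
  unfold Gc
  rw [if_neg (by omega), Nat.sub_self, Nat.cast_zero, hg.zero, zero_add]

/-- the loop -/
def Lc (m n : ℕ) (f g : ℤ → ℤ × ℤ) : ZMod (m + n + 2) → ℤ × ℤ := fun i => Gc m n f g i.val

theorem Lc_loop (hf : IsPer m x f) (hg : IsPer n x g) (hK : K f g) :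
    IsLoop (m + n + 2) (Lc m n f g) := by
  have : NeZero (m + n + 2) := ⟨by omega⟩
  refine ⟨?_, ?_, ?_⟩
  · unfold Lc
    rw [ZMod.val_zero]
    exact Gc_zero hf
  · intro i j hij
    have h2 := Gc_inj hf hg hK (by have := ZMod.val_lt i; omega)
      (by have := ZMod.val_lt j; omega) hij
    exact ZMod.val_injective _ h2
  · intro i
    unfold Lc
    rcases val_succ (M := m + n + 2) (by omega) i with ⟨h1, h2⟩ | ⟨h1, h2⟩
    · rw [h2]
      exact Gc_adj hf hg (by omega)
    · rw [h2]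
      have e2 : i.val = m + n + 1 := by omega
      rw [e2, Gc_end hg, Gc_zero hf]
      norm_num

theorem Lc_inj (hm : 1 ≤ m) (hn : 1 ≤ n) {y : ℤ × ℤ} {f' g' : ℤ → ℤ × ℤ} (hf : IsPer m x f)
    (hg : IsPer n x g) (hf' : IsPer m y f') (hg' : IsPer n y g')
    (h : Lc m n f g = Lc m n f' g') : f = f' ∧ g = g' := by
  have : NeZero (m + n + 2) := ⟨by omega⟩
  have hall : ∀ j : ℕ, j < m + n + 2 → Gc m n f g j = Gc m n f' g' j := by
    intro j hj
    have h1 := congrFun h (j : ZMod (m + n + 2))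
    unfold Lc at h1
    rw [ZMod.val_natCast, Nat.mod_eq_of_lt hj] at h1
    exact h1
  constructor
  · refine hf.ext hf' hm (fun k hk => ?_)
    have h1 := hall k (by omega)
    unfold Gc at h1
    rw [if_pos hk, if_pos hk] at h1
    exact h1
  · refine hg.ext hg' hn (fun k hk => ?_)
    have h1 := hall (m + n + 1 - k) (by omega)
    unfold Gc at h1
    rw [if_neg (by omega), if_neg (by omega)] at h1
    have e : m + n + 1 - (m + n + 1 - k) = k := by omega
    rw [e] at h1
    exact add_right_cancel h1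

theorem loops_le (hm : 1 ≤ m) (hn : 1 ≤ n) (X : Finset (ℤ × ℤ)) (hX : ∀ x ∈ X, 1 ≤ x.1) :
    ∑ x ∈ X, (KF m n x).card ≤ (LF (m + n + 2)).card := by
  have : NeZero (m + n + 2) := ⟨by omega⟩
  rw [← Finset.card_sigma]
  refine Finset.card_le_card_of_injOn (fun p => Lc m n p.2.1 p.2.2) ?_ ?_
  · rintro ⟨x, f, g⟩ hp
    rw [Finset.mem_coe, Finset.mem_sigma] at hp
    obtain ⟨hx, hp⟩ := hp
    rw [mem_KF hm hn (hX x hx)] at hp
    rw [Finset.mem_coe, mem_LF]
    exact Lc_loop hp.1 hp.2.1 hp.2.2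
  · rintro ⟨x, f, g⟩ hp ⟨y, f', g'⟩ hq h
    rw [Finset.mem_coe, Finset.mem_sigma] at hp hq
    obtain ⟨hx, hp⟩ := hp
    obtain ⟨hy, hq⟩ := hq
    rw [mem_KF hm hn (hX x hx)] at hp
    rw [mem_KF hm hn (hX y hy)] at hq
    obtain ⟨e1, e2⟩ := Lc_inj hm hn hp.1 hp.2.1 hq.1 hq.2.1 h
    subst e1
    subst e2
    have e3 : x = y := by rw [← hp.1.last, ← hq.1.last]
    subst e3
    rfl

/-- **periodic paths and polygons** -/
theorem main_ineq (hm : 1 ≤ m) (hn : 1 ≤ n) (X : Finset (ℤ × ℤ)) (hX : ∀ x ∈ X, 1 ≤ x.1) :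
    ∑ x ∈ X, x.1.toNat * ((PF m x).card * (PF n x).card) ≤ m * n * (LF (m + n + 2)).card := by
  calc ∑ x ∈ X, x.1.toNat * ((PF m x).card * (PF n x).card)
      ≤ ∑ x ∈ X, m * n * (KF m n x).card :=
        Finset.sum_le_sum fun x hx => contact_count hm hn (hX x hx)
    _ = m * n * ∑ x ∈ X, (KF m n x).card := by rw [Finset.mul_sum]
    _ ≤ _ := Nat.mul_le_mul_left _ (loops_le hm hn X hX)

end Pool.Agent.T9h33.PB
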