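import Pool.Agent.T9h33.PA

set_option autoImplicit false

/-!
Bridges among the periodic paths.
-/

namespace Pool.Agent.T9h33.PC

open Finset Pool.Agent.T9h33.PA Pool.Agent.T9h33.TA Pool.Agent.T9h33.TD
open Pool.Agent.Results.MP_46f0ca_pr.WindowMerging (IsSAW)
open scoped Classical

/-- the first period is a bridge -/
def IsBr (n : ℕ) (f : ℤ → ℤ × ℤ) : Prop :=
  ∀ t : ℤ, 1 ≤ t → t ≤ n → 0 < (f t).1 ∧ (f t).1 ≤ (f n).1

variable {n : ℕ} {x : ℤ × ℤ} {f g : ℤ → ℤ × ℤ}

/-- the periodic paths whose first period is a bridge -/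
noncomputable def BF (n : ℕ) : Finset (ℤ → ℤ × ℤ) := (QF n).filter (IsBr n)

/-- the number of base points at which the period is a bridge -/
noncomputable def cu (n : ℕ) (f : ℤ → ℤ × ℤ) : ℕ :=
  ((range n).filter (fun i : ℕ => IsBr n (rot i f))).card

theorem rot_mem (hn : 1 ≤ n) (hf : f ∈ QF n) (i : ℤ) : rot i f ∈ QF n := by
  rw [mem_QF hn] at hf ⊢
  have h1 := hf.1.rot i
  have h2 := h1.last
  rw [h2]
  exact ⟨h1, hf.2⟩

theorem rot_mod (hn : 1 ≤ n) (hf : IsPer n x f) (i : ℤ) : rot ((i % n).toNat : ℕ) f = rot i f := by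
  have h1 : 0 ≤ i % n := Int.emod_nonneg _ (by omega)
  rw [Int.toNat_of_nonneg h1]
  funext t
  unfold rot
  have h3 : i % n + i / n * n = i := Int.emod_add_ediv_mul i n
  have h2 := hf.per_mul (i % n) (i / n)
  have h4 := hf.per_mul (t + i % n) (i / n)
  have h5 : t + i % n + i / n * n = t + i := by rw [add_assoc, h3]
  rw [h5] at h4
  rw [h3] at h2
  refine Prod.ext ?_ ?_
  · simp only [Prod.fst_sub]
    linarith [h2.1, h4.1]
  · simp only [Prod.snd_sub]
    linarith [h2.2, h4.2]

theorem cu_rot (hn : 1 ≤ n) (hf : IsPer n x f) (i : ℤ) : cu n f ≤ cu n (rot i f) := by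
  unfold cu
  refine Finset.card_le_card_of_injOn (fun k : ℕ => (((k : ℤ) - i) % n).toNat) ?_ ?_
  · intro k hk
    rw [Finset.mem_coe, Finset.mem_filter, Finset.mem_range] at hk ⊢
    refine ⟨mod_lt hn _, ?_⟩
    rw [rot_mod hn (hf.rot i), rot_rot, sub_add_cancel]
    exact hk.2
  · intro k hk l hl h
    rw [Finset.mem_coe, Finset.mem_filter, Finset.mem_range] at hk hl
    simp only at h
    have h1 : 0 ≤ ((k : ℤ) - i) % n := Int.emod_nonneg _ (by omega)
    have h2 : 0 ≤ ((l : ℤ) - i) % n := Int.emod_nonneg _ (by omega)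
    have h3 : ((k : ℤ) - i) % n = ((l : ℤ) - i) % n := by omega
    have h4 : (n : ℤ) ∣ ((l : ℤ) - i) - ((k : ℤ) - i) := Int.ModEq.dvd h3
    have h5 : (n : ℤ) ∣ (l : ℤ) - k := by
      have e : ((l : ℤ) - i) - ((k : ℤ) - i) = l - k := by ring
      rwa [e] at h4
    obtain ⟨q, hq⟩ := h5
    have hkn := hk.1
    have hln := hl.1
    have hq0 : q = 0 := by
      by_contra hne
      rcases lt_or_gt_of_ne hne with h6 | h6
      · have : (n : ℤ) * q ≤ n * (-1) := mul_le_mul_of_nonneg_left (by omega) (by omega)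
        omega
      · have : (n : ℤ) * 1 ≤ n * q := mul_le_mul_of_nonneg_left (by omega) (by omega)
        omega
    rw [hq0, mul_zero] at hq
    omega

/-- mass transport -/
theorem sum_cu (hn : 1 ≤ n) : n * (BF n).card ≤ ∑ f ∈ QF n, cu n f := by
  unfold cu
  simp only [Finset.card_filter]
  rw [Finset.sum_comm]
  calc n * (BF n).card = ∑ i ∈ range n, (BF n).card := by
        rw [Finset.sum_const, Finset.card_range, smul_eq_mul]
    _ ≤ _ := by
        refine Finset.sum_le_sum fun i _ => ?_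
        rw [← Finset.card_filter]
        refine Finset.card_le_card_of_injOn (fun g => rot (-i) g) ?_ ?_
        · intro g hg
          rw [Finset.mem_coe, BF, Finset.mem_filter] at hg
          rw [Finset.mem_coe, Finset.mem_filter]
          refine ⟨rot_mem hn hg.1 _, ?_⟩
          rw [rot_rot, add_neg_cancel, ((mem_QF hn).mp hg.1).1.rot_zero]
          exact hg.2
        · intro g hg g' hg' h
          rw [Finset.mem_coe, BF, Finset.mem_filter] at hg hg'
          exact rot_inj ((mem_QF hn).mp hg.1).1 ((mem_QF hn).mp hg'.1).1 h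

theorem sum_cu_sq (hn : 1 ≤ n) : ∑ f ∈ QF n, cu n f ^ 2 ≤ n * ∑ f ∈ BF n, cu n f := by
  have h1 : ∀ f ∈ QF n, cu n f ^ 2 ≤
      ∑ i ∈ range n, (if IsBr n (rot (i : ℕ) f) then cu n (rot (i : ℕ) f) else 0) := by
    intro f hf
    have hf' := ((mem_QF hn).mp hf).1
    have e : cu n f ^ 2 = ∑ i ∈ range n, (if IsBr n (rot (i : ℕ) f) then cu n f else 0) := by
      rw [sq]
      conv_lhs => enter [1]; unfold cu
      rw [Finset.card_filter, Finset.sum_mul]
      refine Finset.sum_congr rfl fun i _ => ?_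
      split_ifs <;> simp
    rw [e]
    refine Finset.sum_le_sum fun i _ => ?_
    split_ifs
    · exact cu_rot hn hf' i
    · exact le_rfl
  refine (Finset.sum_le_sum h1).trans ?_
  rw [Finset.sum_comm]
  calc ∑ i ∈ range n, ∑ f ∈ QF n, (if IsBr n (rot (i : ℕ) f) then cu n (rot (i : ℕ) f) else 0)
      ≤ ∑ i ∈ range n, ∑ f ∈ BF n, cu n f := by
        refine Finset.sum_le_sum fun i _ => ?_
        rw [← Finset.sum_filter]
        have h2 : ∑ f ∈ (QF n).filter (fun f => IsBr n (rot (i : ℕ) f)), cu n (rot (i : ℕ) f) =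
            ∑ g ∈ ((QF n).filter (fun f => IsBr n (rot (i : ℕ) f))).image (fun f => rot (i : ℕ) f),
              cu n g := by
          rw [Finset.sum_image]
          intro f hf g hg h
          rw [Finset.mem_coe, Finset.mem_filter] at hf hg
          exact rot_inj ((mem_QF hn).mp hf.1).1 ((mem_QF hn).mp hg.1).1 h
        rw [h2]
        refine Finset.sum_le_sum_of_subset fun g hg => ?_
        rw [Finset.mem_image] at hg
        obtain ⟨f, hf, rfl⟩ := hg
        rw [Finset.mem_filter] at hf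
        rw [BF, Finset.mem_filter]
        exact ⟨rot_mem hn hf.1 _, hf.2⟩
    _ = _ := by rw [Finset.sum_const, Finset.card_range, smul_eq_mul]

/-- bridges versus periodic paths -/
theorem br_sq_le (hn : 1 ≤ n) : n * (BF n).card ^ 2 ≤ (QF n).card * ∑ f ∈ BF n, cu n f := by
  have h1 := sum_cu hn
  have h2 := sum_cu_sq hn
  have h3 : (∑ f ∈ QF n, cu n f) ^ 2 ≤ (QF n).card * ∑ f ∈ QF n, cu n f ^ 2 :=
    sq_sum_le_card_mul_sum_sq
  have h4 : (n * (BF n).card) ^ 2 ≤ (QF n).card * (n * ∑ f ∈ BF n, cu n f) :=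
    (Nat.pow_le_pow_left h1 2).trans (h3.trans (Nat.mul_le_mul_left _ h2))
  have h5 : n * (n * (BF n).card ^ 2) ≤ n * ((QF n).card * ∑ f ∈ BF n, cu n f) := by
    calc n * (n * (BF n).card ^ 2) = (n * (BF n).card) ^ 2 := by ring
      _ ≤ _ := h4
      _ = _ := by ring
  exact Nat.le_of_mul_le_mul_left h5 (by omega)

/-- the bridges of the library, as a finite set -/
theorem finite_br (n : ℕ) : {ω : Fin (n + 1) → ℤ × ℤ | H981.IsBridge n ω}.Finite :=
  (Pool.Agent.H976R2.finite_saw n).subset (fun _ h => h.1)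

noncomputable def RF (n : ℕ) : Finset (Fin (n + 1) → ℤ × ℤ) := (finite_br n).toFinset

theorem mem_RF {n : ℕ} {ω : Fin (n + 1) → ℤ × ℤ} : ω ∈ RF n ↔ H981.IsBridge n ω := by
  unfold RF
  rw [Set.Finite.mem_toFinset]
  rfl

theorem card_RF (n : ℕ) : (RF n).card = H981.B n := by
  unfold H981.B RF
  rw [← Set.ncard_eq_toFinset_card _ (finite_br n)]
  exact (Nat.card_coe_set_eq _).symm

theorem res_bridge (hf : IsPer n x f) {k : ℕ}
    (h : ∀ t : ℤ, 1 ≤ t → t ≤ k → 0 < (f t).1 ∧ (f t).1 ≤ (f k).1) :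
    H981.IsBridge k (res k f) := by
  refine ⟨hf.saw k, fun i hi => ?_⟩
  have hi0 : (i : ℕ) ≠ 0 := fun h0 => hi (Fin.ext h0)
  have := h (i : ℕ) (by omega) (by have := i.2; omega)
  simp only [res, Fin.val_last]
  exact this

/-- a bridge is cut into two bridges -/
theorem sum_cut (hn : 1 ≤ n) : ∑ f ∈ BF n, cu n f ≤
    ∑ i ∈ range n, (RF i).card * (RF (n - i)).card := by
  unfold cu
  simp only [Finset.card_filter]
  rw [Finset.sum_comm]
  refine Finset.sum_le_sum fun i hi => ?_
  rw [Finset.mem_range] at hi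
  rw [← Finset.card_filter, ← Finset.card_product]
  refine Finset.card_le_card_of_injOn (fun f => (res i f, res (n - i) (rot (i : ℕ) f))) ?_ ?_
  · intro f hf
    rw [Finset.mem_coe, Finset.mem_filter, BF, Finset.mem_filter] at hf
    obtain ⟨⟨h1, h2⟩, h3⟩ := hf
    have hf' := ((mem_QF hn).mp h1).1
    rw [Finset.mem_coe, Finset.mem_product, mem_RF, mem_RF]
    constructor
    · refine res_bridge hf' (fun t ht1 ht2 => ⟨(h2 t ht1 (by omega)).1, ?_⟩)
      have h4 := (h3 (t + n - i) (by omega) (by omega)).2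
      unfold rot at h4
      have e1 : t + n - i + (i : ℤ) = t + n := by ring
      have e2 : (n : ℤ) + i = i + n := by ring
      rw [e1, e2, hf'.per, hf'.per] at h4
      simp only [Prod.fst_sub, Prod.fst_add] at h4
      linarith
    · refine res_bridge (hf'.rot i) (fun t ht1 ht2 => ⟨(h3 t ht1 (by omega)).1, ?_⟩)
      have h4 := (h2 (t + i) (by omega) (by omega)).2
      unfold rot
      have e1 : ((n - i : ℕ) : ℤ) + i = n := by omega
      rw [e1]
      simp only [Prod.fst_sub]
      linarith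
  · intro f hf g hg h
    rw [Finset.mem_coe, Finset.mem_filter, BF, Finset.mem_filter] at hf hg
    have hf' := ((mem_QF hn).mp hf.1.1).1
    have hg' := ((mem_QF hn).mp hg.1.1).1
    simp only [Prod.mk.injEq] at h
    obtain ⟨h1, h2⟩ := h
    have h3 : ∀ k : ℕ, k ≤ i → f k = g k := by
      intro k hk
      have := congrFun h1 ⟨k, by omega⟩
      simpa [res] using this
    refine hf'.ext hg' hn (fun k hk => ?_)
    rcases le_or_gt k i with hki | hki
    · exact h3 k hki
    · have := congrFun h2 ⟨k - i, by omega⟩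
      simp only [res, rot] at this
      have e : ((k - i : ℕ) : ℤ) + i = k := by omega
      rw [e, h3 i le_rfl] at this
      exact sub_left_injective this

/-- periodic extension of a walk -/
def ext (n : ℕ) (ω : Fin (n + 1) → ℤ × ℤ) (t : ℤ) : ℤ × ℤ :=
  ((P ω (t % n).toNat).1 + (t / n) * (P ω n).1, (P ω (t % n).toNat).2 + (t / n) * (P ω n).2)

theorem ext_nat {ω : Fin (n + 1) → ℤ × ℤ} (h : IsSAW n ω) (hn : 1 ≤ n) {k : ℕ} (hk : k ≤ n) :
    ext n ω k = P ω k := by
  unfold ext
  rcases Nat.lt_or_ge k n with h1 | h1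
  · have e1 : ((k : ℤ) % n).toNat = k := by
      rw [Int.emod_eq_of_lt (by omega) (by omega)]
      simp
    have e2 : (k : ℤ) / n = 0 := Int.ediv_eq_zero_of_lt (by omega) (by omega)
    rw [e1, e2]
    simp
  · have e0 : k = n := by omega
    subst e0
    have e1 : ((k : ℤ) % k).toNat = 0 := by simp
    have e2 : (k : ℤ) / k = 1 := Int.ediv_self (by omega)
    rw [e1, e2, P_zero h]
    simp

theorem bridge_P {ω : Fin (n + 1) → ℤ × ℤ} (h : H981.IsBridge n ω) {k : ℕ} (h1 : 1 ≤ k)
    (hk : k ≤ n) : 0 < (P ω k).1 ∧ (P ω k).1 ≤ (P ω n).1 := by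
  have h2 := h.2 ⟨k, by omega⟩ (by
    intro h0
    have := congrArg Fin.val h0
    simp at this
    omega)
  have e1 := P_val ω ⟨k, by omega⟩
  have e2 := P_val ω (Fin.last n)
  rw [Fin.val_last] at e2
  rw [← e1, ← e2] at h2
  exact h2

theorem ext_per {ω : Fin (n + 1) → ℤ × ℤ} (h : H981.IsBridge n ω) (hn : 1 ≤ n) :
    IsPer n (P ω n) (ext n ω) := by
  have hsaw : IsSAW n ω := h.1
  have hn0 : (n : ℤ) ≠ 0 := by omega
  have hh : 0 < (P ω n).1 := (bridge_P h hn le_rfl).1
  refine ⟨?_, ?_, ?_, ?_⟩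
  · have := ext_nat hsaw hn (k := 0) (by omega)
    rw [P_zero hsaw] at this
    exact_mod_cast this
  · intro t t' htt
    have e1 := congrArg Prod.fst htt
    have e2 := congrArg Prod.snd htt
    unfold ext at e1 e2
    simp only at e1 e2
    have r1 := mod_lt hn t
    have r2 := mod_lt hn t'
    have m1 : 0 ≤ t % n := Int.emod_nonneg _ hn0
    have m2 : 0 ≤ t' % n := Int.emod_nonneg _ hn0
    have d1 : t % n + t / n * n = t := Int.emod_add_ediv_mul t n
    have d2 : t' % n + t' / n * n = t' := Int.emod_add_ediv_mul t' n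
    set r := (t % n).toNat with hr
    set r' := (t' % n).toNat with hr'
    set k := t / n with hk
    set k' := t' / n with hk'
    have key : ∀ (a a' : ℤ) (s s' : ℕ), s < n → s' < n →
        (P ω s).1 + a * (P ω n).1 = (P ω s').1 + a' * (P ω n).1 →
        (P ω s).2 + a * (P ω n).2 = (P ω s').2 + a' * (P ω n).2 → ¬ a < a' := by
      intro a a' s s' hs hs' f1 f2 haa
      have g1 : (P ω s).1 ≤ (P ω n).1 := by
        rcases Nat.eq_zero_or_pos s with h0 | h0
        · rw [h0, P_zero hsaw]
          exact hh.le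
        · exact (bridge_P h h0 hs.le).2
      have g2 : 0 ≤ (P ω s').1 := by
        rcases Nat.eq_zero_or_pos s' with h0 | h0
        · rw [h0, P_zero hsaw]
        · exact (bridge_P h h0 hs'.le).1.le
      have g3 : a * (P ω n).1 + (P ω n).1 ≤ a' * (P ω n).1 := by
        have : (a + 1) * (P ω n).1 ≤ a' * (P ω n).1 :=
          mul_le_mul_of_nonneg_right (by omega) hh.le
        linarith
      have g4 : (P ω s').1 = 0 := by linarith
      have g5 : s' = 0 := by
        by_contra hne
        have := (bridge_P h (by omega : 1 ≤ s') hs'.le).1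
        omega
      have g6 : a' * (P ω n).1 = (a + 1) * (P ω n).1 := by linarith
      have g7 : a' = a + 1 := mul_right_cancel₀ hh.ne' g6
      subst g5
      rw [P_zero hsaw, g7] at f1 f2
      have g8 : P ω s = P ω n := Prod.ext (by linarith) (by linarith)
      have := P_inj hsaw hs.le le_rfl g8
      omega
    have h1 := key k k' r r' r1 r2 e1 e2
    have h2 := key k' k r' r r2 r1 e1.symm e2.symm
    have h3 : k = k' := by omega
    rw [h3] at e1 e2
    have h4 : P ω r = P ω r' := Prod.ext (by linarith) (by linarith)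
    have h5 := P_inj hsaw r1.le r2.le h4
    have h6 : t % n = t' % n := by omega
    rw [← d1, ← d2, h6, h3]
  · intro t
    have m1 : 0 ≤ t % n := Int.emod_nonneg _ hn0
    have m2 : t % n < n := Int.emod_lt_of_pos _ (by omega)
    have d1 : t % n + t / n * n = t := Int.emod_add_ediv_mul t n
    have hst := saw_step hsaw (k := (t % n).toNat) (by omega)
    rcases Int.lt_or_le (t % n + 1) n with h1 | h1
    · have e1 : (t + 1) % n = t % n + 1 := by
        have : t + 1 = (t % n + 1) + n * (t / n) := by linarith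
        rw [this, Int.add_mul_emod_self_left, Int.emod_eq_of_lt (by omega) h1]
      have e2 : (t + 1) / n = t / n := by
        have : t + 1 = (t % n + 1) + n * (t / n) := by linarith
        conv_lhs => rw [this]
        rw [Int.add_mul_ediv_left _ _ hn0, Int.ediv_eq_zero_of_lt (by omega) h1, zero_add]
      unfold ext
      have e3 : (t % n + 1).toNat = (t % n).toNat + 1 := by omega
      rw [e1, e2, e3]
      simp only [add_sub_add_right_eq_sub]
      exact hst
    · have e0 : t % n + 1 = n := by omega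
      have e1 : (t + 1) % n = 0 := by
        have : t + 1 = n * (t / n + 1) := by linarith
        rw [this, Int.mul_emod_right]
      have e2 : (t + 1) / n = t / n + 1 := by
        have : t + 1 = n * (t / n + 1) := by linarith
        conv_lhs => rw [this]
        rw [Int.mul_ediv_cancel_left _ hn0]
      unfold ext
      rw [e1, e2]
      have e3 : (t % n).toNat + 1 = n := by omega
      rw [e3] at hst
      rw [Int.toNat_zero, P_zero hsaw]
      simp only
      have g1 : (0 : ℤ) + (t / n + 1) * (P ω n).1 - ((P ω (t % n).toNat).1 + t / n * (P ω n).1) =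
          (P ω n).1 - (P ω (t % n).toNat).1 := by ring
      have g2 : (0 : ℤ) + (t / n + 1) * (P ω n).2 - ((P ω (t % n).toNat).2 + t / n * (P ω n).2) =
          (P ω n).2 - (P ω (t % n).toNat).2 := by ring
      rw [g1, g2]
      exact hst
  · intro t
    unfold ext
    have e1 : (t + n) % n = t % n := by simp
    have e2 : (t + n) / n = t / n + 1 := by
      rw [Int.add_ediv_of_dvd_right (dvd_refl _), Int.ediv_self hn0]
    rw [e1, e2]
    refine Prod.ext ?_ ?_ <;> simp only [Prod.fst_add, Prod.snd_add] <;> ring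

theorem card_RF_le (hn : 1 ≤ n) : (RF n).card ≤ (BF n).card := by
  refine Finset.card_le_card_of_injOn (fun ω => ext n ω) ?_ ?_
  · intro ω hω
    rw [Finset.mem_coe, mem_RF] at hω
    have h1 := ext_per hω hn
    have h2 := h1.last
    rw [Finset.mem_coe, BF, Finset.mem_filter, mem_QF hn]
    beta_reduce
    refine ⟨⟨by rw [h2]; exact h1, by rw [h2]; exact (bridge_P hω hn le_rfl).1⟩, ?_⟩
    intro t ht1 ht2
    obtain ⟨k, rfl⟩ : ∃ k : ℕ, t = k := ⟨t.toNat, by omega⟩
    rw [ext_nat hω.1 hn (by omega), ext_nat hω.1 hn le_rfl]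
    exact bridge_P hω (by omega) (by omega)
  · intro ω hω ω' hω' h
    rw [Finset.mem_coe, mem_RF] at hω hω'
    funext i
    have h1 := congrFun h ((i : ℕ) : ℤ)
    simp only at h1
    rw [ext_nat hω.1 hn (by have := i.2; omega), ext_nat hω'.1 hn (by have := i.2; omega),
      P_val, P_val] at h1
    exact h1

/-- **bridges and periodic paths** -/
theorem key_ineq (hn : 1 ≤ n) : n * H981.B n ^ 2 ≤
    (QF n).card * ∑ i ∈ range n, H981.B i * H981.B (n - i) := by
  have h1 := br_sq_le hn
  have h2 := sum_cut hn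
  have h3 := card_RF_le hn
  simp only [card_RF] at h2 h3
  calc n * H981.B n ^ 2 ≤ n * (BF n).card ^ 2 :=
        Nat.mul_le_mul_left _ (Nat.pow_le_pow_left h3 2)
    _ ≤ _ := h1
    _ ≤ _ := Nat.mul_le_mul_left _ h2

end Pool.Agent.T9h33.PC
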