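import Pool.Agent.H981R2.Plain

set_option autoImplicit false

/-!
The generating function of bridges diverges at the critical point.
-/

namespace Pool.Agent.T9h33.PD

open scoped ENNReal
open H981

/-- folded walks with a given list of widths -/
def Ch : List ℕ → List St → Prop
  | [], ω => ω = []
  | A :: α, ω => ∃ β, IsBr A β ∧ HPc α β ω

theorem W0_le_prod' (z : ℝ≥0∞) : ∀ γ : List ℕ, W0 z γ ≤ (γ.map (bb z)).prod
  | [] => by simp [W0]
  | A :: α => by
    calc W0 z (A :: α) ≤ ∑' β, (ind (IsBr A β) * z ^ β.length) * W0 z α := by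
          simp only [W0]
          apply ENNReal.tsum_le_tsum
          intro β
          rw [mul_assoc]
          gcongr
          exact Wf_le_W0 z α β
      _ = bb z A * W0 z α := by rw [ENNReal.tsum_mul_right]; rfl
      _ ≤ bb z A * (α.map (bb z)).prod := by gcongr; exact W0_le_prod' z α
      _ = _ := by simp

theorem Ch_sum (z : ℝ≥0∞) (γ : List ℕ) : ∑' ω, ind (Ch γ ω) * z ^ ω.length ≤ W0 z γ := by
  cases γ with
  | nil =>
    rw [tsum_eq_single []]
    · simp [Ch, W0, ind]
    · intro ω h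
      rw [ind_not, zero_mul]
      exact h
  | cons A α =>
    calc ∑' ω, ind (Ch (A :: α) ω) * z ^ ω.length
        ≤ ∑' q : LL, ind (IsBr A q.1 ∧ HPc α q.1 q.2) * z ^ q.2.length := by
          refine tsum_cover _ _ _ _ (fun q : LL => q.2) ?_
          rintro ω ⟨β, h1, h2⟩
          exact ⟨(β, ω), ⟨h1, h2⟩, rfl, le_rfl⟩
      _ = ∑' β, ind (IsBr A β) * ∑' ω, ind (HPc α β ω) * z ^ ω.length := by
          rw [ENNReal.tsum_prod']
          congr 1; ext β
          rw [← ENNReal.tsum_mul_left]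
          congr 1; ext ω
          rw [ind_and]; ring
      _ ≤ ∑' β, ind (IsBr A β) * (z ^ β.length * Wf z α β) := by
          gcongr with β
          exact HPc_sum z α β
      _ = _ := rfl

theorem sum_ind (F : ℕ → ℝ≥0∞) (N : ℕ) :
    ∑ k ∈ Finset.range N, F k = ∑' k, ind (k < N) * F k := by
  rw [tsum_eq_sum (s := Finset.range N)]
  · refine Finset.sum_congr rfl fun k hk => ?_
    rw [Finset.mem_range] at hk
    rw [ind_of hk, one_mul]
  · intro k hk
    rw [Finset.mem_range] at hk
    rw [ind_not hk, zero_mul]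

theorem hh_sum (z : ℝ≥0∞) (N : ℕ) :
    ∑ k ∈ Finset.range (N + 1), hh k * z ^ k ≤ DD (bb z) N := by
  have h1 : ∑ k ∈ Finset.range (N + 1), hh k * z ^ k =
      ∑' q : ℕ × List St, ind (q.1 < N + 1 ∧ (Saw q.2 ∧ HP q.2 ∧ q.2.length = q.1)) *
        z ^ q.1 := by
    rw [sum_ind, ENNReal.tsum_prod']
    congr 1; ext k
    unfold hh
    rw [← ENNReal.tsum_mul_right, ← ENNReal.tsum_mul_left]
    congr 1; ext ω
    simp only
    rw [ind_and (k < N + 1)]
    ring
  rw [h1]
  calc ∑' q : ℕ × List St, ind (q.1 < N + 1 ∧ (Saw q.2 ∧ HP q.2 ∧ q.2.length = q.1)) * z ^ q.1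
      ≤ ∑' q : List ℕ × List St, ind (Dec N q.1 ∧ Ch q.1 q.2) * z ^ q.2.length := by
        refine tsum_cover _ _ _ _ (fun q : List ℕ × List St => (q.2.length, q.2)) ?_
        rintro ⟨k, ω⟩ ⟨h2, h3, h4, h5⟩
        simp only at h2 h3 h4 h5
        by_cases h0 : ω = []
        · refine ⟨([], ω), ⟨trivial, h0⟩, ?_, ?_⟩
          · simp only; rw [h5]
          · simp only; rw [h5]
        · obtain ⟨A, α, β, g1, g2, g3, g4, g5, g6⟩ := exists_unfold _ ω rfl h3 h4 h0
          refine ⟨(A :: α, ω), ⟨⟨g2, by omega, g3⟩, ⟨β, g1, g4⟩⟩, ?_, ?_⟩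
          · simp only; rw [h5]
          · simp only; rw [h5]
    _ = ∑' γ : List ℕ, ind (Dec N γ) * ∑' ω, ind (Ch γ ω) * z ^ ω.length := by
        rw [ENNReal.tsum_prod']
        congr 1; ext γ
        rw [← ENNReal.tsum_mul_left]
        congr 1; ext ω
        simp only
        rw [ind_and]; ring
    _ ≤ ∑' γ : List ℕ, ind (Dec N γ) * (γ.map (bb z)).prod := by
        gcongr with γ
        exact (Ch_sum z γ).trans (W0_le_prod' z γ)
    _ = _ := rfl

theorem prod_bound {z : ℝ≥0∞} (hB : BB z ≠ ⊤) (N : ℕ) :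
    ∏ B ∈ Finset.range N, (1 + bb z (B + 1)) ≤ ENNReal.ofReal (Real.exp (BB z).toReal) := by
  have hne : ∀ a, bb z a ≠ ⊤ := fun a => ne_top_of_le_ne_top hB (bb_le_BB z a)
  have h1 : ∀ B ∈ Finset.range N, 1 + bb z (B + 1) ≤
      ENNReal.ofReal (Real.exp (bb z (B + 1)).toReal) := by
    intro B _
    calc 1 + bb z (B + 1) = ENNReal.ofReal 1 + ENNReal.ofReal (bb z (B + 1)).toReal := by
          rw [ENNReal.ofReal_one, ENNReal.ofReal_toReal (hne _)]
      _ = ENNReal.ofReal (1 + (bb z (B + 1)).toReal) :=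
          (ENNReal.ofReal_add zero_le_one ENNReal.toReal_nonneg).symm
      _ ≤ _ := ENNReal.ofReal_le_ofReal (by
          have := Real.add_one_le_exp (bb z (B + 1)).toReal
          linarith)
  refine (Finset.prod_le_prod' h1).trans ?_
  rw [← ENNReal.ofReal_prod_of_nonneg (fun i _ => (Real.exp_pos _).le), ← Real.exp_sum]
  refine ENNReal.ofReal_le_ofReal (Real.exp_le_exp.mpr ?_)
  rw [← ENNReal.toReal_sum (fun a _ => hne _)]
  refine ENNReal.toReal_mono hB ?_
  have h2 : ∑ a ∈ Finset.range N, bb z (a + 1) =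
      ∑ b ∈ (Finset.range N).image (fun a => a + 1), bb z b := by
    rw [Finset.sum_image]
    intro a _ b _ h
    simpa using h
  rw [h2, BB_eq]
  exact ENNReal.sum_le_tsum _

/-- **the critical generating function of bridges is infinite** -/
theorem BB_top : BB (ENNReal.ofReal mu⁻¹) = ⊤ := by
  by_contra hB
  set z := ENNReal.ofReal mu⁻¹ with hz
  have hz0 : z ≠ 0 := by
    rw [hz, Ne, ENNReal.ofReal_eq_zero, not_le]
    exact inv_pos.mpr mu_pos
  have hzt : z ≠ ⊤ := ENNReal.ofReal_ne_top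
  set C := ENNReal.ofReal (Real.exp (BB z).toReal) with hC
  have hCt : C ≠ ⊤ := ENNReal.ofReal_ne_top
  have h1 : ∀ N, ∑ k ∈ Finset.range (N + 1), hh k * z ^ k ≤ C := fun N =>
    (hh_sum z N).trans ((DD_le _ _).trans (prod_bound hB N))
  have h2 : ∀ M : ℕ, z * ∑ N ∈ Finset.range M, cc N * z ^ N ≤ C * C := by
    intro M
    calc z * ∑ N ∈ Finset.range M, cc N * z ^ N
        ≤ ∑ N ∈ Finset.range M, ∑ k ∈ Finset.range (N + 1),
          (hh (k + 1) * z ^ (k + 1)) * (hh (N - k) * z ^ (N - k)) := by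
          rw [Finset.mul_sum]
          refine Finset.sum_le_sum fun N _ => ?_
          calc z * (cc N * z ^ N) ≤ z * ((∑ k ∈ Finset.range (N + 1), hh (k + 1) * hh (N - k)) *
                z ^ N) := by gcongr; exact cc_le N
            _ = _ := by
              rw [Finset.sum_mul, Finset.mul_sum]
              refine Finset.sum_congr rfl fun k hk => ?_
              rw [Finset.mem_range] at hk
              have e : z ^ N = z ^ k * z ^ (N - k) := by
                rw [← pow_add]; congr 1; omega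
              rw [e, pow_succ]
              ring
      _ = ∑ a ∈ Finset.range M, ∑ b ∈ Finset.range (M - a),
          (hh (a + 1) * z ^ (a + 1)) * (hh b * z ^ b) :=
          Finset.sum_range_diag_flip M (fun a b => (hh (a + 1) * z ^ (a + 1)) * (hh b * z ^ b))
      _ ≤ ∑ a ∈ Finset.range M, (hh (a + 1) * z ^ (a + 1)) * C := by
          refine Finset.sum_le_sum fun a _ => ?_
          rw [← Finset.mul_sum]
          gcongr
          refine le_trans (Finset.sum_le_sum_of_subset ?_) (h1 M)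
          intro b hb
          rw [Finset.mem_range] at hb ⊢
          omega
      _ = (∑ a ∈ Finset.range M, (hh (a + 1) * z ^ (a + 1))) * C := by rw [Finset.sum_mul]
      _ ≤ C * C := by
          gcongr
          refine le_trans ?_ (h1 M)
          rw [Finset.sum_range_succ']
          exact le_self_add
  have h3 : ∀ N : ℕ, 1 ≤ cc N * z ^ N := by
    intro N
    have hmu := mu_pos
    calc (1 : ℝ≥0∞) = ENNReal.ofReal (mu ^ N * mu⁻¹ ^ N) := by
          rw [← mul_pow, mul_inv_cancel₀ hmu.ne', one_pow, ENNReal.ofReal_one]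
      _ ≤ ENNReal.ofReal (cr' N * mu⁻¹ ^ N) := by
          apply ENNReal.ofReal_le_ofReal
          gcongr
          exact mu_pow_le N
      _ = _ := by
          have := one_le_cr' N
          rw [ENNReal.ofReal_mul (by linarith), ofReal_cr', hz,
            ENNReal.ofReal_pow (by positivity)]
  have h4 : ∀ M : ℕ, (M : ℝ≥0∞) ≤ C * C / z := by
    intro M
    rw [ENNReal.le_div_iff_mul_le (Or.inl hz0) (Or.inl hzt)]
    refine le_trans ?_ (h2 M)
    rw [mul_comm]
    gcongr
    calc (M : ℝ≥0∞) = ∑ N ∈ Finset.range M, 1 := by simp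
      _ ≤ _ := Finset.sum_le_sum fun N _ => h3 N
  have h5 : C * C / z ≠ ⊤ := (ENNReal.div_lt_top (ENNReal.mul_ne_top hCt hCt) hz0).ne
  obtain ⟨M, hM⟩ := ENNReal.exists_nat_gt h5
  exact absurd (h4 M) (not_le.mpr hM)

theorem BB_eq_bn (z : ℝ≥0∞) : BB z = ∑' n, bn n * z ^ n := by
  unfold BB
  simp_rw [bn_eq, ← ENNReal.tsum_mul_right]
  rw [ENNReal.tsum_comm]
  congr 1; ext X
  rw [tsum_eq_single X.length]
  · congr 1
    by_cases h : IsB X
    · rw [ind_of h, ind_of ⟨h, rfl⟩]
    · rw [ind_not h, ind_not (fun h' => h h'.1)]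
  · intro n hn
    rw [ind_not (fun h' => hn h'.2.symm), zero_mul]

/-- **the critical partial sums are unbounded** -/
theorem unbounded (C : ℝ) : ∃ N : ℕ, C ≤ ∑ n ∈ Finset.range (N + 1), (B n : ℝ) / mu ^ n := by
  by_contra hcon
  push Not at hcon
  have hmu := mu_pos
  have h1 : BB (ENNReal.ofReal mu⁻¹) ≤ ENNReal.ofReal C := by
    rw [BB_eq_bn]
    refine ENNReal.tsum_le_of_sum_range_le fun N => ?_
    have h2 : ∑ n ∈ Finset.range N, bn n * ENNReal.ofReal mu⁻¹ ^ n =
        ENNReal.ofReal (∑ n ∈ Finset.range N, (B n : ℝ) / mu ^ n) := by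
      rw [ENNReal.ofReal_sum_of_nonneg (fun n _ => by positivity)]
      refine Finset.sum_congr rfl fun n _ => ?_
      rw [div_eq_mul_inv, ENNReal.ofReal_mul (by positivity), ← inv_pow,
        ENNReal.ofReal_pow (by positivity), ← br'_eq, ofReal_br']
    rw [h2]
    apply ENNReal.ofReal_le_ofReal
    refine le_trans ?_ (hcon N).le
    rw [Finset.sum_range_succ]
    have : 0 ≤ (B N : ℝ) / mu ^ N := by positivity
    linarith
  rw [BB_top] at h1
  exact absurd h1 (not_le.mpr ENNReal.ofReal_lt_top)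

end Pool.Agent.T9h33.PD
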