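import Pool.Agent.T9h33.PB
import Pool.Agent.T9h33.PC
import Pool.Agent.T9h33.PD

set_option autoImplicit false

/-!
The number of periodic self-avoiding paths is at least `μ^n / (log n)^2` for infinitely many `n`.
-/

namespace Pool.Agent.T9h33.PE

open Finset Pool.Agent.T9h33.PA Pool.Agent.T9h33.PC
open H981 (mu mu_pos B)

/-- bridges, normalised -/
noncomputable def v (n : ℕ) : ℝ := (B n : ℝ) / mu ^ n

/-- periodic paths up to the choice of the base point, normalised -/
noncomputable def a (n : ℕ) : ℝ := ((QF n).card : ℝ) / (n * mu ^ n)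

/-- pairs of bridges -/
noncomputable def sc (n : ℕ) : ℝ := ∑ i ∈ range n, v i * v (n - i)

/-- partial sums -/
noncomputable def VV (N : ℕ) : ℝ := ∑ n ∈ range (N + 1), v n

theorem v_nonneg (n : ℕ) : 0 ≤ v n := by
  have := mu_pos
  unfold v; positivity

theorem a_nonneg (n : ℕ) : 0 ≤ a n := by
  have := mu_pos
  unfold a; positivity

theorem sc_nonneg (n : ℕ) : 0 ≤ sc n := by
  unfold sc
  exact Finset.sum_nonneg fun i _ => mul_nonneg (v_nonneg _) (v_nonneg _)

theorem v_sq_le {n : ℕ} (hn : 1 ≤ n) : v n ^ 2 ≤ a n * sc n := by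
  have hmu := mu_pos
  have hn0 : (0 : ℝ) < n := by exact_mod_cast hn
  have h1 : ((n * B n ^ 2 : ℕ) : ℝ) ≤
      (((QF n).card * ∑ i ∈ range n, B i * B (n - i) : ℕ) : ℝ) := by
    exact_mod_cast key_ineq hn
  push_cast at h1
  have h2 : sc n = (∑ i ∈ range n, (B i : ℝ) * B (n - i)) / mu ^ n := by
    unfold sc v
    rw [Finset.sum_div]
    refine Finset.sum_congr rfl fun i hi => ?_
    rw [Finset.mem_range] at hi
    have e : mu ^ n = mu ^ i * mu ^ (n - i) := by
      rw [← pow_add]; congr 1; omega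
    rw [e]
    field_simp
  rw [h2]
  unfold v a
  have h3 : ((B n : ℝ) / mu ^ n) ^ 2 = (n * (B n : ℝ) ^ 2) / (n * mu ^ n * mu ^ n) := by
    field_simp
  have h4 : ((QF n).card : ℝ) / (n * mu ^ n) * ((∑ i ∈ range n, (B i : ℝ) * B (n - i)) / mu ^ n) =
      ((QF n).card * ∑ i ∈ range n, (B i : ℝ) * B (n - i)) / (n * mu ^ n * mu ^ n) := by
    field_simp
  rw [h3, h4]
  exact div_le_div_of_nonneg_right h1 (by positivity)

theorem sum_sc (N : ℕ) : ∑ n ∈ range (N + 1), sc n ≤ VV N ^ 2 := by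
  calc ∑ n ∈ range (N + 1), sc n
      ≤ ∑ n ∈ range (N + 1), ∑ i ∈ range (n + 1), v i * v (n - i) := by
        refine Finset.sum_le_sum fun n _ => ?_
        unfold sc
        rw [Finset.sum_range_succ]
        have := mul_nonneg (v_nonneg n) (v_nonneg (n - n))
        linarith
    _ = ∑ i ∈ range (N + 1), ∑ j ∈ range (N + 1 - i), v i * v j :=
        Finset.sum_range_diag_flip (N + 1) (fun i j => v i * v j)
    _ ≤ ∑ i ∈ range (N + 1), v i * VV N := by
        refine Finset.sum_le_sum fun i _ => ?_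
        rw [← Finset.mul_sum]
        refine mul_le_mul_of_nonneg_left ?_ (v_nonneg i)
        unfold VV
        refine Finset.sum_le_sum_of_subset_of_nonneg (fun j hj => ?_) (fun j _ _ => v_nonneg j)
        rw [Finset.mem_range] at hj ⊢
        omega
    _ = VV N ^ 2 := by
        rw [← Finset.sum_mul, sq]
        rfl

theorem VV_mono {M N : ℕ} (h : M ≤ N) : VV M ≤ VV N := by
  unfold VV
  refine Finset.sum_le_sum_of_subset_of_nonneg (fun j hj => ?_) (fun j _ _ => v_nonneg j)
  rw [Finset.mem_range] at hj ⊢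
  omega

theorem diff_sq {M N : ℕ} (h : M ≤ N) :
    (VV N - VV M) ^ 2 ≤ (∑ n ∈ Ico (M + 1) (N + 1), a n) * VV N ^ 2 := by
  have h1 : VV N - VV M = ∑ n ∈ Ico (M + 1) (N + 1), v n := by
    unfold VV
    rw [Finset.sum_Ico_eq_sub _ (by omega)]
  rw [h1]
  have h2 := Finset.sum_sq_le_sum_mul_sum_of_sq_le_mul (Ico (M + 1) (N + 1)) (r := v) (f := a)
    (g := sc) (fun i _ => a_nonneg i) (fun i _ => sc_nonneg i) (fun i hi => by
      rw [Finset.mem_Ico] at hi
      exact v_sq_le (by omega))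
  refine h2.trans (mul_le_mul_of_nonneg_left ?_ (Finset.sum_nonneg fun i _ => a_nonneg i))
  refine le_trans ?_ (sum_sc N)
  refine Finset.sum_le_sum_of_subset_of_nonneg (fun j hj => ?_) (fun j _ _ => sc_nonneg j)
  rw [Finset.mem_Ico] at hj
  rw [Finset.mem_range]
  omega

theorem log_tel {n : ℕ} (hn : 3 ≤ n) : 1 / ((n : ℝ) * Real.log n ^ 2) ≤
    1 / Real.log ((n - 1 : ℕ) : ℝ) - 1 / Real.log n := by
  have hnR : (3 : ℝ) ≤ n := by exact_mod_cast hn
  have hc : ((n - 1 : ℕ) : ℝ) = n - 1 := by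
    rw [Nat.cast_sub (by omega)]
    norm_num
  rw [hc]
  have h1 : 0 < Real.log ((n : ℝ) - 1) := Real.log_pos (by linarith)
  have h2 : Real.log ((n : ℝ) - 1) ≤ Real.log n := Real.log_le_log (by linarith) (by linarith)
  have h3 : 0 < Real.log n := h1.trans_le h2
  have h4 : 1 / (n : ℝ) ≤ Real.log n - Real.log ((n : ℝ) - 1) := by
    have h5 := Real.log_le_sub_one_of_pos (show 0 < ((n : ℝ) - 1) / n by
      apply div_pos <;> linarith)
    rw [Real.log_div (by linarith) (by linarith)] at h5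
    have h6 : ((n : ℝ) - 1) / n - 1 = -(1 / n) := by field_simp; ring
    linarith
  have h5 : 1 / Real.log ((n : ℝ) - 1) - 1 / Real.log n =
      (Real.log n - Real.log ((n : ℝ) - 1)) / (Real.log ((n : ℝ) - 1) * Real.log n) := by
    field_simp
  rw [h5, le_div_iff₀ (by positivity)]
  refine le_trans ?_ h4
  have h6 : 1 / ((n : ℝ) * Real.log n ^ 2) * (Real.log ((n : ℝ) - 1) * Real.log n) =
      1 / n * (Real.log ((n : ℝ) - 1) / Real.log n) := by
    field_simp
  rw [h6]
  have h7 : Real.log ((n : ℝ) - 1) / Real.log n ≤ 1 := (div_le_one h3).mpr h2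
  have h8 : 0 ≤ 1 / (n : ℝ) := by positivity
  calc 1 / (n : ℝ) * (Real.log ((n : ℝ) - 1) / Real.log n) ≤ 1 / n * 1 :=
        mul_le_mul_of_nonneg_left h7 h8
    _ = 1 / n := mul_one _

theorem sum_log {M : ℕ} (hM : 2 ≤ M) (N : ℕ) :
    ∑ n ∈ Ico (M + 1) (N + 1), 1 / ((n : ℝ) * Real.log n ^ 2) ≤ 1 / Real.log M := by
  have hM0 : 0 < Real.log (M : ℝ) := Real.log_pos (by exact_mod_cast (by omega : 1 < M))
  rcases Nat.lt_or_ge N M with h | h
  · rw [Finset.Ico_eq_empty (by omega), Finset.sum_empty]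
    positivity
  · have key : ∑ n ∈ Ico (M + 1) (N + 1), 1 / ((n : ℝ) * Real.log n ^ 2) ≤
        1 / Real.log M - 1 / Real.log N := by
      induction N, h using Nat.le_induction with
      | base => simp
      | succ N hN ih =>
        rw [Finset.sum_Ico_succ_top (by omega)]
        have h1 := log_tel (n := N + 1) (by omega)
        rw [Nat.add_sub_cancel] at h1
        linarith
    have hN0 : 0 < Real.log (N : ℝ) := Real.log_pos (by exact_mod_cast (by omega : 1 < N))
    have : 0 < 1 / Real.log (N : ℝ) := by positivity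
    linarith

/-- **many periodic paths** -/
theorem many (n0 : ℕ) : ∃ n : ℕ, n0 ≤ n ∧ 1 / ((n : ℝ) * Real.log n ^ 2) ≤ a n := by
  obtain ⟨M, hM⟩ : ∃ M, M = max n0 150 := ⟨_, rfl⟩
  have hM1 : n0 ≤ M := by rw [hM]; exact le_max_left _ _
  have hM2 : 150 ≤ M := by rw [hM]; exact le_max_right _ _
  obtain ⟨N, hN⟩ := PD.unbounded (2 * VV M + 1)
  have hN' : 2 * VV M + 1 ≤ VV N := hN
  have hMv : 0 ≤ VV M := Finset.sum_nonneg fun i _ => v_nonneg i
  have hMN : M ≤ N := by
    by_contra hcon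
    have := VV_mono (show N ≤ M by omega)
    linarith
  by_contra hcon
  push Not at hcon
  have h1 := diff_sq hMN
  have h2 : ∑ n ∈ Ico (M + 1) (N + 1), a n ≤ 1 / Real.log M :=
    (Finset.sum_le_sum fun n hn => by
      rw [Finset.mem_Ico] at hn
      exact (hcon n (by omega)).le).trans (sum_log (by omega) N)
  have hM150 : (150 : ℝ) ≤ M := by exact_mod_cast hM2
  have h3 : 5 < Real.log M := by
    rw [Real.lt_log_iff_exp_lt (by linarith)]
    have := Real.exp_one_lt_d9
    calc Real.exp 5 = Real.exp 1 ^ 5 := by rw [← Real.exp_nat_mul]; norm_num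
      _ < 2.7182818286 ^ 5 := pow_lt_pow_left₀ this (Real.exp_pos _).le (by norm_num)
      _ < 150 := by norm_num
      _ ≤ _ := hM150
  have h4 : 1 / Real.log M < 1 / 5 := one_div_lt_one_div_of_lt (by norm_num) h3
  have hVN : 0 < VV N := by linarith
  have h5 : VV N / 2 ≤ VV N - VV M := by linarith
  have h6 : (VV N / 2) ^ 2 ≤ (VV N - VV M) ^ 2 := pow_le_pow_left₀ (by linarith) h5 2
  have h7 : (∑ n ∈ Ico (M + 1) (N + 1), a n) * VV N ^ 2 ≤ 1 / 5 * VV N ^ 2 :=
    mul_le_mul_of_nonneg_right (by linarith) (by positivity)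
  have h8 : 0 < VV N ^ 2 := by positivity
  nlinarith

end Pool.Agent.T9h33.PE
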