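import Pool.Agent.T9h33.PE
import Pool.Agent.TH508.LT.Fin2

set_option autoImplicit false

/-!
Polygons: `p_{2n} ≥ n^(-4) μ^(2n)` for infinitely many `n`.
-/

namespace Pool.Agent.T9h33.PG

open Finset Pool.Agent.T9h33.TA Pool.Agent.T9h33.TB Pool.Agent.T9h33.TD Pool.Agent.T9h33.PA
open Pool.Agent.W870.Pg (LF mem_LF)
open Pool.Agent.Results.MP_46f0ca_pr.WindowMerging (IsSAW)
open scoped Classical

open Pool.Agent.H122R3.MS (Pt seg prob hfin) in
open Pool.Agent.W387.MS2 (rad AllSeg) in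
open Pool.Agent.H979R2.P2 (dist2 diam le_diam) in
theorem far_gen : ∃ c C : ℝ, 0 < c ∧ c ≤ 1 ∧ 1 ≤ C ∧ ∀ n : ℕ, 16 ≤ n → ∀ T : ℝ,
    Real.log n ^ 2 ≤ T → ∀ i m : ℕ, i + m ≤ n → 16 * T ≤ m → ∀ r : ℕ, rad c C T m ≤ r →
    (((Sn n).filter (Far i m r)).card : ℝ) ≤ C * Real.exp (-T) * (Sn n).card := by
  obtain ⟨c, C, hc0, hc1, hC1, h⟩ := Pool.Agent.Y981.All.all_seg
  refine ⟨c, C, hc0, hc1, hC1, fun n hn T hT i m him hm r hr => ?_⟩
  have h1 := h n hn T hT
  set e := Equiv.arrowCongr (Equiv.refl (Fin (n + 1))) (finTwoArrowEquiv ℤ) with he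
  have hfar : ∀ ω : Fin (n + 1) → ℤ × ℤ, Far i m r ω → ¬ AllSeg c C T n (e.symm ω) := by
    intro ω hF hA
    apply hF
    intro j hj
    have h2 := hA i m him hm
    have h3 := (le_diam (seg (e.symm ω) i m) (Fin.ofNat _ j) 0).trans (h2.le.trans hr)
    have hval : ((Fin.ofNat (m + 1) j : Fin (m + 1)) : ℕ) = j := val_ofNat hj
    have hx : ∀ k : Fin (n + 1), (e.symm ω) k 0 = (ω k).1 := fun k => rfl
    have hy : ∀ k : Fin (n + 1), (e.symm ω) k 1 = (ω k).2 := fun k => rfl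
    have h4 : dist2 (seg (e.symm ω) i m (Fin.ofNat _ j)) (seg (e.symm ω) i m 0) =
        Real.sqrt (((((P ω (i + j) - P ω i).1 : ℤ) : ℝ)) ^ 2 +
          ((((P ω (i + j) - P ω i).2 : ℤ) : ℝ)) ^ 2) := by
      unfold dist2 seg
      congr 1
      rw [Fin.sum_univ_two, hval]
      simp only [Pi.sub_apply, hx, hy, P, Fin.val_zero, add_zero, sub_self, Int.cast_zero,
        sub_zero, Prod.fst_sub, Prod.snd_sub]
    rw [h4] at h3
    have h5 : (((((P ω (i + j) - P ω i).1 : ℤ) : ℝ)) ^ 2 +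
          ((((P ω (i + j) - P ω i).2 : ℤ) : ℝ)) ^ 2) ≤ (r : ℝ) ^ 2 := by
      have := Real.sqrt_le_left (Nat.cast_nonneg r) |>.mp h3
      exact this
    constructor
    · have h6 : ((((P ω (i + j) - P ω i).1 : ℤ) : ℝ)) ^ 2 ≤ (r : ℝ) ^ 2 := by
        nlinarith [sq_nonneg ((((P ω (i + j) - P ω i).2 : ℤ) : ℝ))]
      have h7 := abs_le_of_sq_le_sq h6 (Nat.cast_nonneg r)
      exact_mod_cast h7
    · have h6 : ((((P ω (i + j) - P ω i).2 : ℤ) : ℝ)) ^ 2 ≤ (r : ℝ) ^ 2 := by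
        nlinarith [sq_nonneg ((((P ω (i + j) - P ω i).1 : ℤ) : ℝ))]
      have h7 := abs_le_of_sq_le_sq h6 (Nat.cast_nonneg r)
      exact_mod_cast h7
  have hle : ((Sn n).filter (Far i m r)).card ≤
      Nat.card {w : Fin (n + 1) → Pt // Pool.Agent.H122R3.MS.IsSAW n w ∧
        ¬ AllSeg c C T n w} := by
    have := hfin n
    have : Finite {w : Fin (n + 1) → Pt // Pool.Agent.H122R3.MS.IsSAW n w ∧
        ¬ AllSeg c C T n w} :=
      Finite.of_injective (β := {w : Fin (n + 1) → Pt // Pool.Agent.H122R3.MS.IsSAW n w})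
        (fun w => ⟨w.1, w.2.1⟩) (fun a b hab => Subtype.ext (by simpa using hab))
    have e1 : ((Sn n).filter (Far i m r)).card =
        Nat.card {ω // ω ∈ (Sn n).filter (Far i m r)} := by
      rw [Nat.card_eq_fintype_card, Fintype.card_coe]
    rw [e1]
    refine Nat.card_le_card_of_injective (fun ω => ⟨e.symm ω.1, ?_, ?_⟩) ?_
    · have := (Finset.mem_filter.mp ω.2).1
      rw [mem_Sn] at this
      rw [Pool.Agent.H122R3.MS.saw_iff, ← he, Equiv.apply_symm_apply]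
      exact this
    · exact hfar _ (Finset.mem_filter.mp ω.2).2
    · intro a b hab
      exact Subtype.ext (e.symm.injective (congrArg Subtype.val hab))
  have h2 := Pool.Agent.H122R3.MS.prob_eq n (fun w => ¬ AllSeg c C T n w)
  calc (((Sn n).filter (Far i m r)).card : ℝ)
      ≤ (Nat.card {w : Fin (n + 1) → Pt // Pool.Agent.H122R3.MS.IsSAW n w ∧
        ¬ AllSeg c C T n w} : ℝ) := by exact_mod_cast hle
    _ = prob n (fun w => ¬ AllSeg c C T n w) * Pool.Agent.H122R3.MS.cS n := h2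
    _ ≤ C * Real.exp (-T) * (Sn n).card := by
        rw [card_Sn]
        exact mul_le_mul_of_nonneg_right h1 (Nat.cast_nonneg _)

/-- the periodic paths with a short period vector -/
noncomputable def NF (n r : ℕ) : Finset (ℤ → ℤ × ℤ) :=
  (QF n).filter (fun f : ℤ → ℤ × ℤ => |(f n).1| ≤ (r : ℤ) ∧ |(f n).2| ≤ (r : ℤ))

theorem card_QF_le {n : ℕ} (hn : 1 ≤ n) (r : ℕ) :
    (QF n).card ≤ (NF n r).card + ((Sn n).filter (Far 0 n r)).card := by
  have h1 : (QF n).card = (NF n r).card +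
      ((QF n).filter (fun f : ℤ → ℤ × ℤ =>
        ¬ (|(f n).1| ≤ (r : ℤ) ∧ |(f n).2| ≤ (r : ℤ)))).card := by
    unfold NF
    exact (Finset.card_filter_add_card_filter_not _).symm
  rw [h1]
  refine Nat.add_le_add_left ?_ _
  refine Finset.card_le_card_of_injOn (res n) ?_ ?_
  · intro f hf
    rw [Finset.mem_coe, Finset.mem_filter] at hf
    have h2 := ((mem_QF hn).mp hf.1).1
    rw [Finset.mem_coe, Finset.mem_filter]
    refine ⟨mem_Sn.mpr (h2.saw n), fun hF => hf.2 ?_⟩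
    have h3 := hF n le_rfl
    have e1 : P (res n f) n = f n := by
      have := P_val (res n f) (Fin.last n)
      rw [Fin.val_last] at this
      rw [this]
      simp [res]
    rw [zero_add, e1, P_zero (h2.saw n)] at h3
    simpa using h3
  · intro f hf g hg hfg
    rw [Finset.mem_coe, Finset.mem_filter] at hf hg
    refine ((mem_QF hn).mp hf.1).1.ext ((mem_QF hn).mp hg.1).1 hn (fun k hk => ?_)
    have := congrFun hfg ⟨k, by omega⟩
    simpa [res] using this

/-- the period vectors -/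
noncomputable def XX (r : ℕ) : Finset (ℤ × ℤ) :=
  ((range r).image (fun i : ℕ => (i : ℤ) + 1)) ×ˢ Icc (-(r : ℤ)) r

theorem XX_pos {r : ℕ} {x : ℤ × ℤ} (hx : x ∈ XX r) : 1 ≤ x.1 := by
  unfold XX at hx
  rw [Finset.mem_product, Finset.mem_image] at hx
  obtain ⟨⟨i, _, hi⟩, _⟩ := hx
  omega

theorem sum_XX (r : ℕ) : ∑ x ∈ XX r, 1 / (x.1 : ℝ) ≤ (2 * r + 1) * (1 + Real.log r) := by
  unfold XX
  rw [Finset.sum_product]
  simp only [Finset.sum_const, Int.card_Icc, nsmul_eq_mul]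
  rw [Finset.sum_image (by intro a _ b _ h; simpa using h), ← Finset.mul_sum]
  have e1 : (((r : ℤ) + 1 - -(r : ℤ)).toNat : ℝ) = 2 * r + 1 := by
    have : (r : ℤ) + 1 - -(r : ℤ) = ((2 * r + 1 : ℕ) : ℤ) := by push_cast; ring
    rw [this, Int.toNat_natCast]
    push_cast
    ring
  rw [e1]
  refine mul_le_mul_of_nonneg_left ?_ (by positivity)
  have h := harmonic_le_one_add_log r
  refine le_trans (le_of_eq ?_) h
  unfold harmonic
  push_cast
  refine Finset.sum_congr rfl fun i _ => ?_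
  rw [one_div]

theorem card_NF_le {n r : ℕ} (hn : 1 ≤ n) : ((NF n r).card : ℝ) ≤ ∑ x ∈ XX r, ((PF n x).card : ℝ) := by
  have h : (NF n r).card ≤ ∑ x ∈ XX r, (PF n x).card := by
    rw [← Finset.card_sigma]
    refine Finset.card_le_card_of_injOn (fun f => (⟨f n, f⟩ : (_ : ℤ × ℤ) × (ℤ → ℤ × ℤ))) ?_ ?_
    · intro f hf
      rw [Finset.mem_coe, NF, Finset.mem_filter] at hf
      obtain ⟨h1, h2, h3⟩ := hf
      have h4 := ((mem_QF hn).mp h1).2
      rw [Finset.mem_coe, Finset.mem_sigma]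
      refine ⟨?_, ?_⟩
      · simp only
        unfold XX
        rw [abs_le] at h2 h3
        rw [Finset.mem_product, Finset.mem_image, Finset.mem_Icc]
        exact ⟨⟨((f n).1 - 1).toNat, by rw [Finset.mem_range]; omega, by omega⟩, h3⟩
      · simp only
        rw [PF, Finset.mem_filter]
        exact ⟨h1, rfl⟩
    · intro f _ g _ h
      simp only [Sigma.mk.injEq, heq_eq_eq] at h
      exact h.2
  exact_mod_cast h

/-- polygons and periodic paths with a short period vector -/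
theorem poly_ge {n r : ℕ} (hn : 1 ≤ n) : ((NF n r).card : ℝ) ^ 2 ≤
    (2 * r + 1) * (1 + Real.log r) * ((n : ℝ) ^ 2 * (LF (2 * (n + 1))).card) := by
  have h1 := card_NF_le (r := r) hn
  have h2 := Finset.sum_sq_le_sum_mul_sum_of_sq_le_mul (XX r) (r := fun x => ((PF n x).card : ℝ))
    (f := fun x => 1 / (x.1 : ℝ)) (g := fun x => (x.1 : ℝ) * ((PF n x).card : ℝ) ^ 2)
    (fun x hx => by
      have : (1 : ℝ) ≤ x.1 := by exact_mod_cast XX_pos hx
      positivity) (fun x hx => by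
      have : (1 : ℝ) ≤ x.1 := by exact_mod_cast XX_pos hx
      positivity) (fun x hx => by
      have : (1 : ℝ) ≤ x.1 := by exact_mod_cast XX_pos hx
      have h0 : (x.1 : ℝ) ≠ 0 := by linarith
      have : 1 / (x.1 : ℝ) * (x.1 * ((PF n x).card : ℝ) ^ 2) = ((PF n x).card : ℝ) ^ 2 := by
        field_simp
      exact this.ge)
  have h3 : ∑ x ∈ XX r, (x.1 : ℝ) * ((PF n x).card : ℝ) ^ 2 ≤
      (n : ℝ) ^ 2 * (LF (2 * (n + 1))).card := by
    have h4 := PB.main_ineq hn hn (XX r) (fun x hx => XX_pos hx)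
    have e : n + n + 2 = 2 * (n + 1) := by ring
    rw [e] at h4
    have h5 : ((∑ x ∈ XX r, x.1.toNat * ((PF n x).card * (PF n x).card) : ℕ) : ℝ) ≤
        ((n * n * (LF (2 * (n + 1))).card : ℕ) : ℝ) := by exact_mod_cast h4
    push_cast at h5
    refine le_trans (le_of_eq ?_) (h5.trans (le_of_eq (by ring)))
    refine Finset.sum_congr rfl fun x hx => ?_
    have h6 := XX_pos hx
    have h7 : ((x.1.toNat : ℕ) : ℝ) = (x.1 : ℝ) := by
      have : ((x.1.toNat : ℕ) : ℤ) = x.1 := Int.toNat_of_nonneg (by omega)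
      exact_mod_cast this
    rw [h7]
    ring
  have h4 : ((NF n r).card : ℝ) ^ 2 ≤ (∑ x ∈ XX r, ((PF n x).card : ℝ)) ^ 2 :=
    pow_le_pow_left₀ (Nat.cast_nonneg _) h1 2
  refine h4.trans (h2.trans (mul_le_mul (sum_XX r) h3 ?_ ?_))
  · refine Finset.sum_nonneg fun x hx => ?_
    have : (1 : ℝ) ≤ x.1 := by exact_mod_cast XX_pos hx
    positivity
  · have : 0 ≤ Real.log (r : ℝ) := Real.log_natCast_nonneg _
    positivity

theorem PP_eq (N : ℕ) (hN : 1 ≤ N) : H981.PP N = (LF (2 * N)).card / (4 * (N : ℝ)) := by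
  have : NeZero (2 * N) := ⟨by omega⟩
  unfold H981.PP
  congr 2
  have e1 : {f : ZMod (2 * N) → ℤ × ℤ | H981.IsLoop (2 * N) f} = (LF (2 * N) : Set _) := by
    ext f
    rw [Finset.mem_coe, mem_LF]
    exact Iff.rfl
  have e2 : Nat.card {f : ZMod (2 * N) → ℤ × ℤ // H981.IsLoop (2 * N) f} =
      {f : ZMod (2 * N) → ℤ × ℤ | H981.IsLoop (2 * N) f}.ncard := Nat.card_coe_set_eq _
  rw [e2, e1, Set.ncard_coe_finset]

theorem ev_pow (k : ℕ) (a b : ℝ) (hb : 0 < b) : ∃ l0 : ℝ, ∀ l : ℝ, l0 ≤ l → 0 < l →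
    a * l ^ k ≤ Real.exp (b * l) := by
  refine ⟨((k + 1).factorial : ℝ) * a / b ^ (k + 1), fun l hl hl0 => ?_⟩
  have h1 := Real.pow_div_factorial_le_exp (b * l) (by positivity) (k + 1)
  refine le_trans ?_ h1
  have hf : (0 : ℝ) < ((k + 1).factorial : ℝ) := by exact_mod_cast Nat.factorial_pos _
  rw [div_le_iff₀ (by positivity)] at hl
  rw [le_div_iff₀ hf, mul_pow, pow_succ l]
  calc a * l ^ k * ((k + 1).factorial : ℝ) = (((k + 1).factorial : ℝ) * a) * l ^ k := by ring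
    _ ≤ (l * b ^ (k + 1)) * l ^ k := mul_le_mul_of_nonneg_right hl (by positivity)
    _ = b ^ (k + 1) * (l ^ k * l) := by ring

open Pool.Agent.W387.MS2 (rad) in
/-- the radius -/
theorem rad_le {c C l T n : ℝ} (hc0 : 0 < c) (hC : 1 ≤ C) (hn : n = Real.exp l) (hl : 64 ≤ l)
    (hT1 : 1 ≤ T) (hT2 : T ≤ Real.exp (1 / 2 * l)) :
    rad c C T n ≤ C * n * Real.exp (-(c / 2 * (l / Real.log l))) := by
  have hn0 : 0 < n := by rw [hn]; exact Real.exp_pos _
  have hT0 : 0 < T := by linarith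
  have hx0 : 0 < n / T := by positivity
  have hlog : Real.log (n / T) = l - Real.log T := by
    rw [Real.log_div hn0.ne' hT0.ne', hn, Real.log_exp]
  have hT3 : Real.log T ≤ 1 / 2 * l := by
    rw [Real.log_le_iff_le_exp hT0]
    exact hT2
  have hT4 : 0 ≤ Real.log T := Real.log_nonneg hT1
  have h1 : l / 2 ≤ Real.log (n / T) := by rw [hlog]; linarith
  have h2 : Real.log (n / T) ≤ l := by rw [hlog]; linarith
  have h3 : 1 ≤ Real.log (Real.log (n / T)) := by
    rw [Real.le_log_iff_exp_le (by linarith)]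
    have := Real.exp_one_lt_d9
    linarith
  have h4 : Real.log (Real.log (n / T)) ≤ Real.log l := Real.log_le_log (by linarith) h2
  unfold rad
  refine mul_le_mul_of_nonneg_left ?_ (by positivity)
  rw [Real.rpow_def_of_pos hx0]
  refine Real.exp_le_exp.mpr ?_
  have h5 : l / 2 / Real.log l ≤ Real.log (n / T) / Real.log (Real.log (n / T)) :=
    div_le_div₀ (by linarith) h1 (by linarith) h4
  have h6 := mul_le_mul_of_nonneg_left h5 hc0.le
  have e2 : Real.log (n / T) * -(c / Real.log (Real.log (n / T))) =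
      -(c * (Real.log (n / T) / Real.log (Real.log (n / T)))) := by ring
  have e3 : c / 2 * (l / Real.log l) = c * (l / 2 / Real.log l) := by ring
  rw [e2, e3]
  linarith

theorem many_near : ∃ c C : ℝ, 0 < c ∧ c ≤ 1 ∧ 1 ≤ C ∧ ∃ l0 : ℝ, ∀ n : ℕ, l0 ≤ Real.log n →
    1 / ((n : ℝ) * Real.log n ^ 2) ≤ PE.a n → ∀ r : ℕ,
    C * n * Real.exp (-(c / 2 * (Real.log n / Real.log (Real.log n)))) ≤ r →
    H981.mu ^ n / (2 * Real.log n ^ 2) ≤ ((NF n r).card : ℝ) := by
  obtain ⟨c, C, hc0, hc1, hC1, hfar⟩ := far_gen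
  obtain ⟨K, hK, hup⟩ := Pool.Agent.TH508.LT.sq_upper2
  have hmu := H981.mu_pos
  obtain ⟨l1, h1⟩ := ev_pow 2 (16 * (K + 1)) (1 / 2) (by norm_num)
  obtain ⟨l2, h2⟩ := ev_pow 2 (2 * C) 1 one_pos
  refine ⟨c, C, hc0, hc1, hC1, max (max l1 l2) 64, fun n hn ha r hr => ?_⟩
  set l : ℝ := Real.log n with hl
  have a1 : l1 ≤ l := (le_max_left _ _).trans ((le_max_left _ _).trans hn)
  have a2 : l2 ≤ l := (le_max_right _ _).trans ((le_max_left _ _).trans hn)
  have a3 : 64 ≤ l := (le_max_right _ _).trans hn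
  have hl0 : 0 < l := by linarith
  have hn1 : 1 ≤ n := by
    rcases Nat.eq_zero_or_pos n with h0 | h0
    · rw [h0] at hl
      simp at hl
      linarith
    · exact h0
  have hnpos : (0 : ℝ) < n := by exact_mod_cast hn1
  have hel : Real.exp l = n := Real.exp_log hnpos
  have b1 := h1 l a1 hl0
  have b2 := h2 l a2 hl0
  rw [one_mul] at b2
  have hl2 : (1 : ℝ) ≤ l ^ 2 := one_le_pow₀ (by linarith)
  set T : ℝ := (K + 1) * l ^ 2 with hT
  have hlT : l ^ 2 ≤ T := by
    rw [hT]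
    have : 0 ≤ K * l ^ 2 := by positivity
    linarith
  have hT1 : 1 ≤ T := hl2.trans hlT
  have hT16 : 16 * T ≤ Real.exp (1 / 2 * l) := by
    rw [hT]
    linarith
  have hT2 : T ≤ Real.exp (1 / 2 * l) := by linarith
  have hTn : 16 * T ≤ n := by
    refine hT16.trans ?_
    rw [← hel]
    exact Real.exp_le_exp.mpr (by linarith)
  have hn16 : 16 ≤ n := by
    have : (16 : ℝ) ≤ n := by linarith
    exact_mod_cast this
  have hrad := rad_le hc0 hC1 hel.symm a3 hT1 hT2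
  have hF := hfar n hn16 T hlT 0 n (by omega) hTn r (hrad.trans hr)
  have hS : ((Sn n).card : ℝ) ≤ H981.mu ^ n * Real.exp (K * l ^ 2) := by
    rw [card_Sn, Pool.Agent.H122R3.MS.cS_eq, ← H981.cr'_eq]
    exact hup n (by omega)
  have hF2 : (((Sn n).filter (Far 0 n r)).card : ℝ) ≤ H981.mu ^ n / (2 * l ^ 2) := by
    refine hF.trans ?_
    have h3 : C * Real.exp (-T) * (Sn n).card ≤
        C * Real.exp (-T) * (H981.mu ^ n * Real.exp (K * l ^ 2)) :=
      mul_le_mul_of_nonneg_left hS (by positivity)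
    refine h3.trans ?_
    have h4 : Real.exp (-T) * Real.exp (K * l ^ 2) = Real.exp (-(l ^ 2)) := by
      rw [← Real.exp_add]
      congr 1
      rw [hT]
      ring
    have h5 : C * Real.exp (-T) * (H981.mu ^ n * Real.exp (K * l ^ 2)) =
        H981.mu ^ n * (C * (Real.exp (-T) * Real.exp (K * l ^ 2))) := by ring
    rw [h5, h4, div_eq_mul_inv]
    refine mul_le_mul_of_nonneg_left ?_ (by positivity)
    have h6 : 2 * C * l ^ 2 ≤ Real.exp (l ^ 2) := by
      refine b2.trans (Real.exp_le_exp.mpr ?_)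
      exact le_self_pow₀ (by linarith) (by norm_num)
    rw [Real.exp_neg, ← div_eq_mul_inv, ← one_div, div_le_div_iff₀ (Real.exp_pos _) (by positivity)]
    linarith
  have hQ : H981.mu ^ n / l ^ 2 ≤ ((QF n).card : ℝ) := by
    unfold PE.a at ha
    rw [div_le_div_iff₀ (by positivity) (by positivity)] at ha
    rw [div_le_iff₀ (by positivity)]
    have h3 : (n : ℝ) * H981.mu ^ n ≤ n * (((QF n).card : ℝ) * l ^ 2) := by linarith
    exact le_of_mul_le_mul_left h3 hnpos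
  have hle : ((QF n).card : ℝ) ≤ (NF n r).card + ((Sn n).filter (Far 0 n r)).card := by
    exact_mod_cast card_QF_le hn1 r
  have h7 : H981.mu ^ n / l ^ 2 = H981.mu ^ n / (2 * l ^ 2) + H981.mu ^ n / (2 * l ^ 2) := by
    field_simp
    ring
  linarith

/-- **polygons**: `p_{2n} ≥ n^(κ / log log n - 4) μ^(2n)` for infinitely many `n` -/
theorem lower : ∃ κ : ℝ, 0 < κ ∧ ∀ n0 : ℕ, ∃ n : ℕ, n0 ≤ n ∧
    Real.exp (κ * (Real.log n / Real.log (Real.log n))) * (H981.mu ^ (2 * n) / (n : ℝ) ^ 4) ≤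
      H981.PP n := by
  obtain ⟨c, C, hc0, hc1, hC1, l1, hnear⟩ := many_near
  have hmu := H981.mu_pos
  set A : ℝ := 48 * H981.mu ^ 2 * (2 * C + 3) with hA
  have hA0 : 0 < A := by positivity
  obtain ⟨l3, h3⟩ := ev_pow 10 A (c / 8) (by positivity)
  refine ⟨c / 8, by positivity, fun n0 => ?_⟩
  set M : ℝ := max l1 (max 64 (max (l3 ^ 2) (C + 1))) with hM
  obtain ⟨n, hn, ha⟩ := PE.many (max n0 ⌈Real.exp M⌉₊)
  have hn0 : n0 ≤ n := (le_max_left _ _).trans hn
  have hnM : Real.exp M ≤ n :=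
    (Nat.le_ceil _).trans (by exact_mod_cast (le_max_right _ _).trans hn)
  have hnpos : (0 : ℝ) < n := (Real.exp_pos _).trans_le hnM
  have hn1 : 1 ≤ n := by exact_mod_cast hnpos
  refine ⟨n + 1, by omega, ?_⟩
  set l : ℝ := Real.log n with hl
  have hel : Real.exp l = n := Real.exp_log hnpos
  have hMl : M ≤ l := by
    rw [hl, Real.le_log_iff_exp_le hnpos]
    exact hnM
  have a1 : l1 ≤ l := (le_max_left _ _).trans hMl
  have a3 : 64 ≤ l := (le_max_left _ _).trans ((le_max_right _ _).trans hMl)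
  have a4 : l3 ^ 2 ≤ l :=
    (le_max_left _ _).trans ((le_max_right _ _).trans ((le_max_right _ _).trans hMl))
  have a5 : C + 1 ≤ l :=
    (le_max_right _ _).trans ((le_max_right _ _).trans ((le_max_right _ _).trans hMl))
  have hl0 : 0 < l := by linarith
  have hnl : l + 1 ≤ n := by rw [← hel]; exact Real.add_one_le_exp l
  set ll : ℝ := Real.log l with hll
  have hll1 : 1 ≤ ll := by
    rw [hll, Real.le_log_iff_exp_le hl0]
    have := Real.exp_one_lt_d9
    linarith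
  set w : ℝ := Real.exp (-(c / 2 * (l / ll))) with hw
  have hw0 : 0 < w := Real.exp_pos _
  have hw1 : w ≤ 1 := Real.exp_le_one_iff.mpr (by
    have : 0 ≤ c / 2 * (l / ll) := by positivity
    linarith)
  have hnw : 1 ≤ n * w := by
    rw [hw, ← hel, ← Real.exp_add]
    refine Real.one_le_exp ?_
    have h4 : l / ll ≤ l := div_le_self hl0.le hll1
    have h5 : c / 2 * (l / ll) ≤ 1 / 2 * l := mul_le_mul (by linarith) h4 (by positivity)
      (by norm_num)
    linarith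
  set r : ℕ := ⌈C * n * w⌉₊ with hr
  have hr1 : C * n * w ≤ r := Nat.le_ceil _
  have hr2 : (r : ℝ) ≤ C * n * w + 1 := (Nat.ceil_lt_add_one (by positivity)).le
  have hNF := hnear n a1 ha r hr1
  have hP := poly_ge (r := r) hn1
  set X : ℝ := ((LF (2 * (n + 1))).card : ℝ) with hX
  have hX0 : 0 ≤ X := Nat.cast_nonneg _
  have c1 : 2 * (r : ℝ) + 1 ≤ (2 * C + 3) * (n * w) := by
    have e : (2 * C + 3) * (n * w) = 2 * (C * n * w) + 3 * (n * w) := by ring
    rw [e]
    linarith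
  have c2 : 1 + Real.log r ≤ 3 * l := by
    have hrpos : (0 : ℝ) < r := lt_of_lt_of_le (by positivity) hr1
    have h4 : (r : ℝ) ≤ (n : ℝ) ^ 2 := by
      have h5 : C * n * w ≤ C * n := mul_le_of_le_one_right (by positivity) hw1
      have h6 : (C + 1) * n ≤ n * n := mul_le_mul_of_nonneg_right (by linarith) hnpos.le
      have h7 : (1 : ℝ) ≤ n := by exact_mod_cast hn1
      have e : (C + 1) * n = C * n + n := by ring
      have e2 : (n : ℝ) ^ 2 = n * n := sq _
      rw [e2]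
      linarith
    have h5 : Real.log r ≤ 2 * l := by
      have h6 := Real.log_le_log hrpos h4
      rw [Real.log_pow] at h6
      exact_mod_cast h6
    linarith
  have c3 : (H981.mu ^ n / (2 * l ^ 2)) ^ 2 ≤
      (2 * C + 3) * (n * w) * (3 * l) * ((n : ℝ) ^ 2 * X) := by
    refine (pow_le_pow_left₀ (by positivity) hNF 2).trans (hP.trans ?_)
    have h4 : 0 ≤ Real.log (r : ℝ) := Real.log_natCast_nonneg _
    refine mul_le_mul_of_nonneg_right ?_ (by positivity)
    exact mul_le_mul c1 c2 (by positivity) (by positivity)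
  have c4 : H981.mu ^ (2 * n) ≤ 12 * (2 * C + 3) * l ^ 5 * w * ((n : ℝ) ^ 3 * X) := by
    have e : (H981.mu ^ n / (2 * l ^ 2)) ^ 2 = H981.mu ^ (2 * n) / (4 * l ^ 4) := by
      rw [div_pow, ← pow_mul]
      congr 1
      · congr 1; ring
      · ring
    rw [e, div_le_iff₀ (by positivity)] at c3
    refine c3.trans (le_of_eq (by ring))
  -- the exponential
  set E : ℝ := Real.exp (c / 8 * (Real.log ((n + 1 : ℕ) : ℝ) /
    Real.log (Real.log ((n + 1 : ℕ) : ℝ)))) with hE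
  have hE0 : 0 < E := Real.exp_pos _
  have d1 : E ≤ Real.exp (c / 4 * (l / ll)) := by
    rw [hE]
    refine Real.exp_le_exp.mpr ?_
    have h4 : l ≤ Real.log ((n + 1 : ℕ) : ℝ) := by
      rw [hl]
      exact Real.log_le_log hnpos (by push_cast; linarith)
    have h5 : Real.log ((n + 1 : ℕ) : ℝ) ≤ 2 * l := by
      have h6 : ((n + 1 : ℕ) : ℝ) ≤ (n : ℝ) ^ 2 := by
        push_cast
        have : (2 : ℝ) ≤ n := by linarith
        have h7 : 2 * (n : ℝ) ≤ n * n := mul_le_mul_of_nonneg_right this hnpos.le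
        rw [sq]
        linarith
      have h7 := Real.log_le_log (by positivity) h6
      rw [Real.log_pow] at h7
      exact_mod_cast h7
    have h6 : ll ≤ Real.log (Real.log ((n + 1 : ℕ) : ℝ)) := Real.log_le_log hl0 h4
    have h7 : Real.log ((n + 1 : ℕ) : ℝ) / Real.log (Real.log ((n + 1 : ℕ) : ℝ)) ≤ 2 * l / ll :=
      div_le_div₀ (by positivity) h5 (by linarith) h6
    have h8 := mul_le_mul_of_nonneg_left h7 (show (0 : ℝ) ≤ c / 8 by positivity)
    refine h8.trans (le_of_eq (by ring))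
  have d2 : A * l ^ 5 ≤ Real.exp (c / 4 * (l / ll)) := by
    have hs0 : 0 < Real.sqrt l := Real.sqrt_pos.mpr hl0
    have h4 := h3 (Real.sqrt l) (Real.le_sqrt_of_sq_le a4) hs0
    have h5 : Real.sqrt l ^ 10 = l ^ 5 := by
      calc Real.sqrt l ^ 10 = (Real.sqrt l ^ 2) ^ 5 := by ring
        _ = l ^ 5 := by rw [Real.sq_sqrt hl0.le]
    rw [h5] at h4
    refine h4.trans (Real.exp_le_exp.mpr ?_)
    have h6 : Real.sqrt l / 2 ≤ l / ll := by
      rw [div_le_div_iff₀ (by norm_num) (by linarith)]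
      have := mul_le_mul_of_nonneg_left (TC.loglog_le hl0) (Real.sqrt_nonneg l)
      have h7 := Real.mul_self_sqrt hl0.le
      have h8 : Real.sqrt l * (2 * Real.sqrt l) = 2 * (Real.sqrt l * Real.sqrt l) := by ring
      rw [hll]
      linarith
    have h7 := mul_le_mul_of_nonneg_left h6 (show (0 : ℝ) ≤ c / 4 by positivity)
    refine le_trans (le_of_eq (by ring)) h7
  have d3 : A * l ^ 5 * (E * w) ≤ 1 := by
    have h4 : E * w ≤ Real.exp (c / 4 * (l / ll)) * w := mul_le_mul_of_nonneg_right d1 hw0.le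
    have h5 : A * l ^ 5 * (E * w) ≤
        Real.exp (c / 4 * (l / ll)) * (Real.exp (c / 4 * (l / ll)) * w) :=
      mul_le_mul d2 h4 (by positivity) (Real.exp_pos _).le
    refine h5.trans (le_of_eq ?_)
    rw [hw, ← Real.exp_add, ← Real.exp_add]
    have : c / 4 * (l / ll) + (c / 4 * (l / ll) + -(c / 2 * (l / ll))) = 0 := by ring
    rw [this, Real.exp_zero]
  have d4 : 4 * H981.mu ^ 2 * E * H981.mu ^ (2 * n) ≤ (n : ℝ) ^ 3 * X := by
    have h4 : 4 * H981.mu ^ 2 * E * H981.mu ^ (2 * n) ≤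
        4 * H981.mu ^ 2 * E * (12 * (2 * C + 3) * l ^ 5 * w * ((n : ℝ) ^ 3 * X)) :=
      mul_le_mul_of_nonneg_left c4 (by positivity)
    have h5 : 4 * H981.mu ^ 2 * E * (12 * (2 * C + 3) * l ^ 5 * w * ((n : ℝ) ^ 3 * X)) =
        A * l ^ 5 * (E * w) * ((n : ℝ) ^ 3 * X) := by rw [hA]; ring
    rw [h5] at h4
    refine h4.trans ?_
    exact mul_le_of_le_one_left (by positivity) d3
  rw [PP_eq (n + 1) (by omega), ← hX]
  push_cast
  have hn1pos : (0 : ℝ) < (n : ℝ) + 1 := by linarith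
  have e1 : E * (H981.mu ^ (2 * (n + 1)) / ((n : ℝ) + 1) ^ 4) =
      E * H981.mu ^ 2 * H981.mu ^ (2 * n) / ((n : ℝ) + 1) ^ 4 := by
    have : H981.mu ^ (2 * (n + 1)) = H981.mu ^ 2 * H981.mu ^ (2 * n) := by
      rw [← pow_add]; congr 1; ring
    rw [this]
    ring
  rw [e1, div_le_div_iff₀ (by positivity) (by positivity)]
  have h8 : (n : ℝ) ^ 3 * X ≤ ((n : ℝ) + 1) ^ 3 * X :=
    mul_le_mul_of_nonneg_right (pow_le_pow_left₀ hnpos.le (by linarith) 3) hX0
  have h9 : 4 * H981.mu ^ 2 * E * H981.mu ^ (2 * n) ≤ ((n : ℝ) + 1) ^ 3 * X := d4.trans h8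
  have h10 := mul_le_mul_of_nonneg_right h9 hn1pos.le
  calc E * H981.mu ^ 2 * H981.mu ^ (2 * n) * (4 * ((n : ℝ) + 1))
      = 4 * H981.mu ^ 2 * E * H981.mu ^ (2 * n) * ((n : ℝ) + 1) := by ring
    _ ≤ ((n : ℝ) + 1) ^ 3 * X * ((n : ℝ) + 1) := h10
    _ = X * ((n : ℝ) + 1) ^ 4 := by ring

end Pool.Agent.T9h33.PG
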