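import Pool.Agent.T9h33.PG

set_option autoImplicit false

/-!
The third derivative of the generating function of polygons is infinite at the critical point.
-/

namespace Pool.Agent.T9h33.PH

open Finset Filter Pool.Agent.T9h33.TA Pool.Agent.T9h33.TB Pool.Agent.T9h33.TD Pool.Agent.T9h33.PA
open Pool.Agent.T9h33.PE Pool.Agent.T9h33.PG
open Pool.Agent.W870.Pg (LF mem_LF)
open scoped Classical

theorem tail (M : ℕ) (hM : 0 ≤ VV M) : ∃ N : ℕ, M ≤ N ∧
    1 / 5 ≤ ∑ n ∈ Ico (M + 1) (N + 1), a n := by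
  obtain ⟨N, hN⟩ := PD.unbounded (2 * VV M + 1)
  have hN' : 2 * VV M + 1 ≤ VV N := hN
  have hMN : M ≤ N := by
    by_contra hcon
    have := VV_mono (show N ≤ M by omega)
    linarith
  refine ⟨N, hMN, ?_⟩
  by_contra hcon
  push Not at hcon
  have h1 := diff_sq hMN
  have hVN : 0 < VV N := by linarith
  have h5 : VV N / 2 ≤ VV N - VV M := by linarith
  have h6 : (VV N / 2) ^ 2 ≤ (VV N - VV M) ^ 2 := pow_le_pow_left₀ (by linarith) h5 2
  have h7 : (∑ n ∈ Ico (M + 1) (N + 1), a n) * VV N ^ 2 ≤ 1 / 5 * VV N ^ 2 :=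
    mul_le_mul_of_nonneg_right hcon.le (by positivity)
  have h8 : 0 < VV N ^ 2 := by positivity
  nlinarith

theorem not_summable_a : ¬ Summable a := by
  intro hs
  have h1 := hs.hasSum.tendsto_sum_nat
  have h2 : ∀ᶠ n : ℕ in atTop, (∑' i, a i) - 1 / 5 < ∑ i ∈ range n, a i :=
    h1.eventually (Ioi_mem_nhds (by linarith))
  obtain ⟨M, hM⟩ := eventually_atTop.mp h2
  obtain ⟨N, hN1, hN2⟩ := tail M (Finset.sum_nonneg fun i _ => v_nonneg i)
  have h3 := hM (M + 1) (by omega)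
  have h4 := hs.sum_le_tsum (range (N + 1)) (fun i _ => a_nonneg i)
  rw [Finset.sum_Ico_eq_sub _ (by omega)] at hN2
  linarith

theorem summable_log : Summable (fun n : ℕ => 1 / ((n : ℝ) * Real.log n ^ 2)) := by
  refine summable_of_sum_range_le (c := ∑ i ∈ range 3, 1 / ((i : ℝ) * Real.log i ^ 2) +
    1 / Real.log (2 : ℕ)) (fun n => by positivity) (fun n => ?_)
  have h0 : ∀ i : ℕ, 0 ≤ 1 / ((i : ℝ) * Real.log i ^ 2) := fun i => by positivity
  have h1 : ∑ i ∈ range n, 1 / ((i : ℝ) * Real.log i ^ 2) ≤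
      ∑ i ∈ range (n + 3), 1 / ((i : ℝ) * Real.log i ^ 2) :=
    Finset.sum_le_sum_of_subset_of_nonneg (fun j hj => by
      rw [Finset.mem_range] at hj ⊢; omega) (fun j _ _ => h0 j)
  refine h1.trans ?_
  have h2 := sum_log (M := 2) le_rfl (n + 2)
  have h3 : ∑ i ∈ range (n + 3), 1 / ((i : ℝ) * Real.log i ^ 2) =
      ∑ i ∈ range 3, 1 / ((i : ℝ) * Real.log i ^ 2) +
        ∑ i ∈ Ico 3 (n + 3), 1 / ((i : ℝ) * Real.log i ^ 2) := by
    rw [Finset.sum_range_add_sum_Ico _ (by omega)]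
  rw [h3]
  exact add_le_add_right h2 _

theorem near_all : ∃ c C : ℝ, 0 < c ∧ c ≤ 1 ∧ 1 ≤ C ∧ ∃ l0 : ℝ, ∀ n : ℕ, l0 ≤ Real.log n →
    ∀ r : ℕ, C * n * Real.exp (-(c / 2 * (Real.log n / Real.log (Real.log n)))) ≤ r →
    ((QF n).card : ℝ) ≤ ((NF n r).card : ℝ) + H981.mu ^ n / (2 * Real.log n ^ 2) := by
  obtain ⟨c, C, hc0, hc1, hC1, hfar⟩ := far_gen
  obtain ⟨K, hK, hup⟩ := Pool.Agent.TH508.LT.sq_upper2
  have hmu := H981.mu_pos
  obtain ⟨l1, h1⟩ := ev_pow 2 (16 * (K + 1)) (1 / 2) (by norm_num)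
  obtain ⟨l2, h2⟩ := ev_pow 2 (2 * C) 1 one_pos
  refine ⟨c, C, hc0, hc1, hC1, max (max l1 l2) 64, fun n hn r hr => ?_⟩
  set l : ℝ := Real.log n with hl
  have a1 : l1 ≤ l := (le_max_left _ _).trans ((le_max_left _ _).trans hn)
  have a2 : l2 ≤ l := (le_max_right _ _).trans ((le_max_left _ _).trans hn)
  have a3 : 64 ≤ l := (le_max_right _ _).trans hn
  have hl0 : 0 < l := by linarith
  have hn1 : 1 ≤ n := by
    rcases Nat.eq_zero_or_pos n with h0 | h0
    · rw [h0] at hl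
      simp at hl
      linarith
    · exact h0
  have hnpos : (0 : ℝ) < n := by exact_mod_cast hn1
  have hel : Real.exp l = n := Real.exp_log hnpos
  have b1 := h1 l a1 hl0
  have b2 := h2 l a2 hl0
  rw [one_mul] at b2
  have hl2 : (1 : ℝ) ≤ l ^ 2 := one_le_pow₀ (by linarith)
  set T : ℝ := (K + 1) * l ^ 2 with hT
  have hlT : l ^ 2 ≤ T := by
    rw [hT]
    have : 0 ≤ K * l ^ 2 := by positivity
    linarith
  have hT1 : 1 ≤ T := hl2.trans hlT
  have hT16 : 16 * T ≤ Real.exp (1 / 2 * l) := by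
    rw [hT]
    linarith
  have hT2 : T ≤ Real.exp (1 / 2 * l) := by linarith
  have hTn : 16 * T ≤ n := by
    refine hT16.trans ?_
    rw [← hel]
    exact Real.exp_le_exp.mpr (by linarith)
  have hn16 : 16 ≤ n := by
    have : (16 : ℝ) ≤ n := by linarith
    exact_mod_cast this
  have hrad := rad_le hc0 hC1 hel.symm a3 hT1 hT2
  have hF := hfar n hn16 T hlT 0 n (by omega) hTn r (hrad.trans hr)
  have hS : ((Sn n).card : ℝ) ≤ H981.mu ^ n * Real.exp (K * l ^ 2) := by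
    rw [card_Sn, Pool.Agent.H122R3.MS.cS_eq, ← H981.cr'_eq]
    exact hup n (by omega)
  have hF2 : (((Sn n).filter (Far 0 n r)).card : ℝ) ≤ H981.mu ^ n / (2 * l ^ 2) := by
    refine hF.trans ?_
    have h3 : C * Real.exp (-T) * (Sn n).card ≤
        C * Real.exp (-T) * (H981.mu ^ n * Real.exp (K * l ^ 2)) :=
      mul_le_mul_of_nonneg_left hS (by positivity)
    refine h3.trans ?_
    have h4 : Real.exp (-T) * Real.exp (K * l ^ 2) = Real.exp (-(l ^ 2)) := by
      rw [← Real.exp_add]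
      congr 1
      rw [hT]
      ring
    have h5 : C * Real.exp (-T) * (H981.mu ^ n * Real.exp (K * l ^ 2)) =
        H981.mu ^ n * (C * (Real.exp (-T) * Real.exp (K * l ^ 2))) := by ring
    rw [h5, h4, div_eq_mul_inv]
    refine mul_le_mul_of_nonneg_left ?_ (by positivity)
    have h6 : 2 * C * l ^ 2 ≤ Real.exp (l ^ 2) := by
      refine b2.trans (Real.exp_le_exp.mpr ?_)
      exact le_self_pow₀ (by linarith) (by norm_num)
    rw [Real.exp_neg, ← div_eq_mul_inv, ← one_div, div_le_div_iff₀ (Real.exp_pos _) (by positivity)]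
    linarith
  have hle : ((QF n).card : ℝ) ≤ (NF n r).card + ((Sn n).filter (Far 0 n r)).card := by
    exact_mod_cast card_QF_le hn1 r
  linarith

/-- **polygons**: the third derivative of the generating function at the critical point -/
theorem third : ¬ Summable (fun n : ℕ => (n : ℝ) ^ 3 * (H981.PP n / H981.mu ^ (2 * n))) := by
  intro hs
  obtain ⟨c, C, hc0, hc1, hC1, l1, hnear⟩ := near_all
  have hmu := H981.mu_pos
  obtain ⟨l3, h3⟩ := ev_pow 10 1 (c / 8) (by positivity)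
  set A : ℝ := 12 * (2 * C + 3) * H981.mu ^ 2 with hA
  have hA0 : 0 < A := by positivity
  have hs1 : Summable (fun n : ℕ => ((n + 1 : ℕ) : ℝ) ^ 3 *
      (H981.PP (n + 1) / H981.mu ^ (2 * (n + 1)))) :=
    (summable_nat_add_iff (f := fun n : ℕ => (n : ℝ) ^ 3 * (H981.PP n / H981.mu ^ (2 * n))) 1).mpr hs
  have hs2 : Summable (fun n : ℕ => (A / 2 + 1 / 2) * (1 / ((n : ℝ) * Real.log n ^ 2))) :=
    summable_log.mul_left _
  have hs3 := (hs1.mul_left (1 / 2)).add hs2
  refine not_summable_a (Summable.of_norm_bounded_eventually_nat hs3 ?_)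
  have hlogt : Tendsto (fun n : ℕ => Real.log n) atTop atTop :=
    Real.tendsto_log_atTop.comp tendsto_natCast_atTop_atTop
  filter_upwards [hlogt.eventually_ge_atTop (max l1 (max 64 (max (l3 ^ 2) (C + 1))))] with n hMl
  rw [Real.norm_of_nonneg (a_nonneg n)]
  set l : ℝ := Real.log n with hl
  have a1 : l1 ≤ l := (le_max_left _ _).trans hMl
  have a3 : 64 ≤ l := (le_max_left _ _).trans ((le_max_right _ _).trans hMl)
  have a4 : l3 ^ 2 ≤ l :=
    (le_max_left _ _).trans ((le_max_right _ _).trans ((le_max_right _ _).trans hMl))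
  have a5 : C + 1 ≤ l :=
    (le_max_right _ _).trans ((le_max_right _ _).trans ((le_max_right _ _).trans hMl))
  have hl0 : 0 < l := by linarith
  have hn1 : 1 ≤ n := by
    rcases Nat.eq_zero_or_pos n with h0 | h0
    · rw [h0] at hl
      simp at hl
      linarith
    · exact h0
  have hnpos : (0 : ℝ) < n := by exact_mod_cast hn1
  have hel : Real.exp l = n := Real.exp_log hnpos
  have hnl : l + 1 ≤ n := by rw [← hel]; exact Real.add_one_le_exp l
  set ll : ℝ := Real.log l with hll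
  have hll1 : 1 ≤ ll := by
    rw [hll, Real.le_log_iff_exp_le hl0]
    have := Real.exp_one_lt_d9
    linarith
  set w : ℝ := Real.exp (-(c / 2 * (l / ll))) with hw
  have hw0 : 0 < w := Real.exp_pos _
  have hw1 : w ≤ 1 := Real.exp_le_one_iff.mpr (by
    have : 0 ≤ c / 2 * (l / ll) := by positivity
    linarith)
  have hnw : 1 ≤ n * w := by
    rw [hw, ← hel, ← Real.exp_add]
    refine Real.one_le_exp ?_
    have h4 : l / ll ≤ l := div_le_self hl0.le hll1
    have h5 : c / 2 * (l / ll) ≤ 1 / 2 * l := mul_le_mul (by linarith) h4 (by positivity)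
      (by norm_num)
    linarith
  set r : ℕ := ⌈C * n * w⌉₊ with hr
  have hr1 : C * n * w ≤ r := Nat.le_ceil _
  have hr2 : (r : ℝ) ≤ C * n * w + 1 := (Nat.ceil_lt_add_one (by positivity)).le
  have hNF : ((QF n).card : ℝ) ≤ ((NF n r).card : ℝ) + H981.mu ^ n / (2 * l ^ 2) :=
    hnear n a1 r hr1
  have hP := poly_ge (r := r) hn1
  set X : ℝ := ((LF (2 * (n + 1))).card : ℝ) with hX
  have hX0 : 0 ≤ X := Nat.cast_nonneg _
  have c1 : 2 * (r : ℝ) + 1 ≤ (2 * C + 3) * (n * w) := by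
    have e : (2 * C + 3) * (n * w) = 2 * (C * n * w) + 3 * (n * w) := by ring
    rw [e]
    linarith
  have c2 : 1 + Real.log r ≤ 3 * l := by
    have hrpos : (0 : ℝ) < r := lt_of_lt_of_le (by positivity) hr1
    have h4 : (r : ℝ) ≤ (n : ℝ) ^ 2 := by
      have h5 : C * n * w ≤ C * n := mul_le_of_le_one_right (by positivity) hw1
      have h6 : (C + 1) * n ≤ n * n := mul_le_mul_of_nonneg_right (by linarith) hnpos.le
      have h7 : (1 : ℝ) ≤ n := by exact_mod_cast hn1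
      have e : (C + 1) * n = C * n + n := by ring
      have e2 : (n : ℝ) ^ 2 = n * n := sq _
      rw [e2]
      linarith
    have h5 : Real.log r ≤ 2 * l := by
      have h6 := Real.log_le_log hrpos h4
      rw [Real.log_pow] at h6
      exact_mod_cast h6
    linarith
  have c3 : ((NF n r).card : ℝ) ^ 2 ≤ (2 * C + 3) * (n * w) * (3 * l) * ((n : ℝ) ^ 2 * X) := by
    refine hP.trans ?_
    have h4 : 0 ≤ Real.log (r : ℝ) := Real.log_natCast_nonneg _
    refine mul_le_mul_of_nonneg_right ?_ (by positivity)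
    exact mul_le_mul c1 c2 (by positivity) (by positivity)
  have d2 : l ^ 5 ≤ Real.exp (c / 4 * (l / ll)) := by
    have hs0 : 0 < Real.sqrt l := Real.sqrt_pos.mpr hl0
    have h4 := h3 (Real.sqrt l) (Real.le_sqrt_of_sq_le a4) hs0
    have h5 : Real.sqrt l ^ 10 = l ^ 5 := by
      calc Real.sqrt l ^ 10 = (Real.sqrt l ^ 2) ^ 5 := by ring
        _ = l ^ 5 := by rw [Real.sq_sqrt hl0.le]
    rw [h5, one_mul] at h4
    refine h4.trans (Real.exp_le_exp.mpr ?_)
    have h6 : Real.sqrt l / 2 ≤ l / ll := by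
      rw [div_le_div_iff₀ (by norm_num) (by linarith)]
      have := mul_le_mul_of_nonneg_left (TC.loglog_le hl0) (Real.sqrt_nonneg l)
      have h7 := Real.mul_self_sqrt hl0.le
      have h8 : Real.sqrt l * (2 * Real.sqrt l) = 2 * (Real.sqrt l * Real.sqrt l) := by ring
      rw [hll]
      linarith
    have h7 := mul_le_mul_of_nonneg_left h6 (show (0 : ℝ) ≤ c / 4 by positivity)
    refine le_trans (le_of_eq (by ring)) h7
  have d3 : l ^ 3 * w ≤ 1 := by
    have h4 : l ^ 3 ≤ l ^ 5 := pow_le_pow_right₀ (by linarith) (by norm_num)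
    have h5 : l ^ 3 * w ≤ Real.exp (c / 4 * (l / ll)) * w :=
      mul_le_mul_of_nonneg_right (h4.trans d2) hw0.le
    refine h5.trans ?_
    rw [hw, ← Real.exp_add]
    refine Real.exp_le_one_iff.mpr ?_
    have : 0 ≤ c / 4 * (l / ll) := by positivity
    linarith
  -- the two terms
  set s : ℝ := ((n + 1 : ℕ) : ℝ) ^ 3 * (H981.PP (n + 1) / H981.mu ^ (2 * (n + 1))) with hs'
  set φ : ℝ := 1 / ((n : ℝ) * l ^ 2) with hφ
  have hφ0 : 0 < φ := by positivity
  have hXs : X = 4 * H981.mu ^ (2 * (n + 1)) * s / ((n : ℝ) + 1) ^ 2 := by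
    rw [hs', PP_eq (n + 1) (by omega), ← hX]
    push_cast
    have : (n : ℝ) + 1 ≠ 0 := by positivity
    field_simp
  have hs0 : 0 ≤ s := by
    rw [hs', PP_eq (n + 1) (by omega), ← hX]
    positivity
  set y : ℝ := ((NF n r).card : ℝ) / (n * H981.mu ^ n) with hy
  have hy0 : 0 ≤ y := by positivity
  have e1 : y ^ 2 ≤ s * (A * φ) := by
    have h4 : y ^ 2 = ((NF n r).card : ℝ) ^ 2 / ((n : ℝ) ^ 2 * H981.mu ^ (2 * n)) := by
      rw [hy, div_pow, mul_pow, ← pow_mul, mul_comm n 2]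
    rw [h4, div_le_iff₀ (by positivity)]
    refine c3.trans ?_
    rw [hXs]
    have h5 : H981.mu ^ (2 * (n + 1)) = H981.mu ^ 2 * H981.mu ^ (2 * n) := by
      rw [← pow_add]; congr 1; ring
    rw [h5, hA, hφ]
    have h6 : (2 * C + 3) * (n * w) * (3 * l) *
        ((n : ℝ) ^ 2 * (4 * (H981.mu ^ 2 * H981.mu ^ (2 * n)) * s / ((n : ℝ) + 1) ^ 2)) =
        (12 * (2 * C + 3) * H981.mu ^ 2 * s * ((n : ℝ) ^ 2 * H981.mu ^ (2 * n))) *
          ((n : ℝ) * w * l / ((n : ℝ) + 1) ^ 2) := by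
      ring
    have h7 : s * (12 * (2 * C + 3) * H981.mu ^ 2 * (1 / ((n : ℝ) * l ^ 2))) *
        ((n : ℝ) ^ 2 * H981.mu ^ (2 * n)) =
        (12 * (2 * C + 3) * H981.mu ^ 2 * s * ((n : ℝ) ^ 2 * H981.mu ^ (2 * n))) *
          (1 / ((n : ℝ) * l ^ 2)) := by
      ring
    rw [h6, h7]
    refine mul_le_mul_of_nonneg_left ?_ (by positivity)
    rw [div_le_div_iff₀ (by positivity) (by positivity)]
    have h8 : (n : ℝ) * w * l * (n * l ^ 2) = (n : ℝ) ^ 2 * (l ^ 3 * w) := by ring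
    rw [h8, one_mul]
    have h9 : (n : ℝ) ^ 2 * (l ^ 3 * w) ≤ (n : ℝ) ^ 2 * 1 :=
      mul_le_mul_of_nonneg_left d3 (by positivity)
    have h10 : (n : ℝ) ^ 2 ≤ ((n : ℝ) + 1) ^ 2 := pow_le_pow_left₀ hnpos.le (by linarith) 2
    linarith
  have e2 : y ≤ (s + A * φ) / 2 := by
    by_contra hcon
    push Not at hcon
    have h4 : 0 ≤ (s + A * φ) / 2 := by positivity
    have h5 : ((s + A * φ) / 2) ^ 2 < y ^ 2 := pow_lt_pow_left₀ hcon h4 (by norm_num)
    have h6 : 0 ≤ (s - A * φ) ^ 2 := sq_nonneg _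
    have h7 : ((s + A * φ) / 2) ^ 2 = s * (A * φ) + (s - A * φ) ^ 2 / 4 := by ring
    linarith
  have e3 : a n ≤ y + φ / 2 := by
    unfold a
    rw [div_le_iff₀ (by positivity)]
    refine hNF.trans (le_of_eq ?_)
    rw [hy, hφ]
    field_simp
  refine e3.trans ?_
  show y + φ / 2 ≤ 1 / 2 * s + (A / 2 + 1 / 2) * φ
  linarith

end Pool.Agent.T9h33.PH
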