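import Pool.Agent.T9h33.PB

set_option autoImplicit false

/-!
For a given period vector, a polygon arises from at most one pair of periodic paths in contact.
-/

namespace Pool.Agent.T9h33.PI

open Finset Pool.Agent.T9h33.PA Pool.Agent.T9h33.PB
open Pool.Agent.T9h33.AR (val_succ)
open Pool.Agent.W870.Pg (LF mem_LF)
open Pool.Agent.H924P (IsLoop)
open scoped Classical

/-- change of the base point and of the orientation -/
def act {N : ℕ} (i : ZMod N) (σ : Bool) (L : ZMod N → ℤ × ℤ) : ZMod N → ℤ × ℤ :=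
  fun t => L (if σ then i - t else t + i) - L i

theorem act_loop {N : ℕ} {L : ZMod N → ℤ × ℤ} (h : IsLoop N L) (i : ZMod N) (σ : Bool) :
    IsLoop N (act i σ L) := by
  obtain ⟨h1, h2, h3⟩ := h
  refine ⟨?_, ?_, ?_⟩
  · unfold act
    cases σ <;> simp
  · intro a b hab
    unfold act at hab
    have hab' := h2 (sub_left_injective hab)
    cases σ
    · simpa using hab'
    · simpa using hab'
  · intro t
    unfold act
    simp only [Prod.fst_sub, Prod.snd_sub, sub_sub_sub_cancel_right]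
    cases σ
    · simp only [Bool.false_eq_true, if_false]
      have := h3 (t + i)
      rw [show t + 1 + i = t + i + 1 by ring]
      exact this
    · simp only [if_true]
      have := h3 (i - (t + 1))
      rw [show i - (t + 1) + 1 = i - t by ring] at this
      rw [abs_sub_comm, abs_sub_comm (L (i - (t + 1))).2]
      exact this

theorem act_range {N : ℕ} {L : ZMod N → ℤ × ℤ} (i : ZMod N) (σ : Bool) (p : ℤ × ℤ) :
    (∃ t, act i σ L t = p) ↔ ∃ t, L t = p + L i := by
  unfold act
  constructor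
  · rintro ⟨t, ht⟩
    exact ⟨_, by rw [← ht]; abel⟩
  · rintro ⟨t, ht⟩
    cases σ
    · exact ⟨t - i, by simp [ht]⟩
    · exact ⟨i - t, by simp [ht]⟩

variable {m n : ℕ} {x : ℤ × ℤ} {f g : ℤ → ℤ × ℤ}

/-- the loop, in a fixed length -/
def Ld (N m : ℕ) (f g : ℤ → ℤ × ℤ) : ZMod N → ℤ × ℤ := fun i => Gc m (N - 2 - m) f g i.val

theorem Ld_eq (m n : ℕ) (f g : ℤ → ℤ × ℤ) : Ld (m + n + 2) m f g = Lc m n f g := by
  funext i
  unfold Ld Lc
  rw [show m + n + 2 - 2 - m = n by omega]

theorem Ld_loop {N : ℕ} (hN : N = m + n + 2) (hf : IsPer m x f) (hg : IsPer n x g) (hK : K f g) :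
    IsLoop N (Ld N m f g) := by
  subst hN
  rw [Ld_eq]
  exact Lc_loop hf hg hK

theorem Ld_val {N : ℕ} (hN : N = m + n + 2) (j : ℕ) (hj : j < N) :
    Ld N m f g (j : ZMod N) = Gc m n f g j := by
  have : NeZero N := ⟨by omega⟩
  unfold Ld
  rw [ZMod.val_natCast, Nat.mod_eq_of_lt hj, show N - 2 - m = n by omega]

theorem Ld_range {N : ℕ} (hN : N = m + n + 2) (p : ℤ × ℤ) : (∃ t, Ld N m f g t = p) ↔
    (∃ k : ℕ, k ≤ m ∧ f k = p) ∨ (∃ k : ℕ, k ≤ n ∧ g k + (0, 1) = p) := by
  have : NeZero N := ⟨by omega⟩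
  constructor
  · rintro ⟨t, ht⟩
    have h1 : (t.val : ZMod N) = t := ZMod.natCast_zmod_val t
    have h2 := ZMod.val_lt t
    rw [← h1, Ld_val hN _ h2] at ht
    unfold Gc at ht
    split_ifs at ht with h3
    · exact Or.inl ⟨_, h3, ht⟩
    · exact Or.inr ⟨m + n + 1 - t.val, by omega, ht⟩
  · rintro (⟨k, hk, h⟩ | ⟨k, hk, h⟩)
    · refine ⟨(k : ZMod N), ?_⟩
      rw [Ld_val hN _ (by omega)]
      unfold Gc
      rw [if_pos hk]
      exact h
    · refine ⟨((m + n + 1 - k : ℕ) : ZMod N), ?_⟩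
      rw [Ld_val hN _ (by omega)]
      unfold Gc
      rw [if_neg (by omega), show m + n + 1 - (m + n + 1 - k) = k by omega]
      exact h

/-- **the contact edge is unique** -/
theorem meet {N : ℕ} (hN : N = m + n + 2) (hf : IsPer m x f) (hg : IsPer n x g) (hK : K f g)
    {p : ℤ × ℤ} (h1 : ∃ t, Ld N m f g t = p) (h2 : ∃ t, Ld N m f g t = p - x) :
    p = x ∨ p = x + (0, 1) := by
  have key : ∀ s t : ℤ, f s ≠ g t + (0, 1) := by
    intro s t e
    have e1 := congrArg Prod.fst e
    have e2 := congrArg Prod.snd e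
    simp only [Prod.fst_add, Prod.snd_add, add_zero] at e1 e2
    have := hK s t e1
    omega
  rw [Ld_range hN] at h1 h2
  rcases h1 with ⟨k, hk, h1⟩ | ⟨k, hk, h1⟩ <;> rcases h2 with ⟨l, hl, h2⟩ | ⟨l, hl, h2⟩
  · left
    have h3 : f k = f (l + m) := by rw [hf.per, h2, h1]; abel
    have h4 := hf.inj h3
    have h5 : k = m := by omega
    rw [← h1, h5, hf.last]
  · exfalso
    refine key k (l + n) ?_
    rw [h1, hg.per]
    calc p = (p - x) + x := by abel
      _ = (g l + (0, 1)) + x := by rw [h2]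
      _ = g l + x + (0, 1) := by abel
  · exfalso
    refine key (l + m) k ?_
    rw [h1, hf.per, h2]
    abel
  · right
    have h3 : g k = g (l + n) := by
      rw [hg.per]
      have : g k + (0, 1) = g l + x + (0, 1) := by
        rw [h1, show g l + x + (0, 1) = (g l + (0, 1)) + x by abel, h2]
        abel
      exact add_right_cancel this
    have h4 := hg.inj h3
    have h5 : k = n := by omega
    rw [← h1, h5, hg.last]

theorem act_inj {N m' n' : ℕ} {f' g' : ℤ → ℤ × ℤ} (hN : N = m + n + 2) (hN' : N = m' + n' + 2)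
    (hm : 1 ≤ m) (hn : 1 ≤ n) (hm' : 1 ≤ m') (hn' : 1 ≤ n')
    (hf : IsPer m x f) (hg : IsPer n x g) (hK : K f g)
    (hf' : IsPer m' x f') (hg' : IsPer n' x g') (hK' : K f' g') {i j : ZMod N} {σ τ : Bool}
    (h : act i σ (Ld N m f g) = act j τ (Ld N m' f' g')) :
    m = m' ∧ f = f' ∧ g = g' ∧ i = j ∧ σ = τ := by
  have : NeZero N := ⟨by omega⟩
  have hL := Ld_loop hN hf hg hK
  have hL' := Ld_loop hN' hf' hg' hK'
  set L := Ld N m f g with hLdef
  set L' := Ld N m' f' g' with hLdef'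
  obtain ⟨l1, l2, l3⟩ := hL
  obtain ⟨l1', l2', l3'⟩ := hL'
  -- the vertex sets are translates of each other
  have hS : ∀ p : ℤ × ℤ, (∃ t, L t = p + L i) ↔ ∃ t, L' t = p + L' j := by
    intro p
    rw [← act_range i σ p, ← act_range j τ p, h]
  set v : ℤ × ℤ := L' j - L i with hv
  have hS2 : ∀ p : ℤ × ℤ, (∃ t, L' t = p) → ∃ t, L t = p - v := by
    intro p hp
    have h1 := (hS (p - L' j)).mpr (by simpa using hp)
    rw [show p - L' j + L i = p - v by rw [hv]; abel] at h1
    exact h1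
  have m0 : ∃ t, L' t = 0 := ⟨0, l1'⟩
  have mx : ∃ t, L' t = x := (Ld_range hN' x).mpr (Or.inl ⟨m', le_rfl, hf'.last⟩)
  have m1 : ∃ t, L' t = (0, 1) := (Ld_range hN' (0, 1)).mpr (Or.inr ⟨0, by omega, by
    rw [Nat.cast_zero, hg'.zero, zero_add]⟩)
  have mx1 : ∃ t, L' t = x + (0, 1) :=
    (Ld_range hN' (x + (0, 1))).mpr (Or.inr ⟨n', le_rfl, by rw [hg'.last]⟩)
  have hv0 : v = 0 := by
    have h1 := meet hN hf hg hK (hS2 x mx) (by
      have := hS2 0 m0
      rwa [show (0 : ℤ × ℤ) - v = x - v - x by abel] at this)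
    have h2 := meet hN hf hg hK (hS2 (x + (0, 1)) mx1) (by
      have := hS2 (0, 1) m1
      rwa [show ((0, 1) : ℤ × ℤ) - v = x + (0, 1) - v - x by abel] at this)
    rcases h1 with h1 | h1
    · calc v = x - (x - v) := by abel
        _ = 0 := by rw [h1]; abel
    · rcases h2 with h2 | h2
      · exfalso
        have e1 : v = -(0, 1) := by
          calc v = x - (x - v) := by abel
            _ = x - (x + (0, 1)) := by rw [h1]
            _ = -(0, 1) := by abel
        have e2 : v = (0, 1) := by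
          calc v = (x + (0, 1)) - (x + (0, 1) - v) := by abel
            _ = (x + (0, 1)) - x := by rw [h2]
            _ = (0, 1) := by abel
        rw [e1] at e2
        have := congrArg Prod.snd e2
        simp at this
      · calc v = (x + (0, 1)) - (x + (0, 1) - v) := by abel
          _ = 0 := by rw [h2]; abel
  have hij : L' j = L i := by
    rw [hv] at hv0
    exact sub_eq_zero.mp hv0
  have hval : ∀ t, L (if σ then i - t else t + i) = L' (if τ then j - t else t + j) := by
    intro t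
    have h1 := congrFun h t
    unfold act at h1
    rw [hij] at h1
    exact sub_left_injective h1
  have hend : L (-1) = (0, 1) := by
    have e : (-1 : ZMod N) = ((m + n + 1 : ℕ) : ZMod N) := by
      have : ((m + n + 1 : ℕ) : ZMod N) + 1 = 0 := by
        have e1 : ((m + n + 1 : ℕ) : ZMod N) + 1 = ((N : ℕ) : ZMod N) := by
          rw [hN]; push_cast; ring
        rw [e1, ZMod.natCast_self]
      linear_combination -this
    rw [e, hLdef, Ld_val hN _ (by omega), Gc_end hg]
  have hend' : L' (-1) = (0, 1) := by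
    have e : (-1 : ZMod N) = ((m' + n' + 1 : ℕ) : ZMod N) := by
      have : ((m' + n' + 1 : ℕ) : ZMod N) + 1 = 0 := by
        have e1 : ((m' + n' + 1 : ℕ) : ZMod N) + 1 = ((N : ℕ) : ZMod N) := by
          rw [hN']; push_cast; ring
        rw [e1, ZMod.natCast_self]
      linear_combination -this
    rw [e, hLdef', Ld_val hN' _ (by omega), Gc_end hg']
  have h11 : (1 : ZMod N) ≠ -1 := by
    intro hcon
    have h2 : ((2 : ℕ) : ZMod N) = 0 := by
      push_cast
      linear_combination hcon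
    rw [ZMod.natCast_eq_zero_iff] at h2
    have := Nat.le_of_dvd (by norm_num) h2
    omega
  have main : i = j ∧ σ = τ ∧ L = L' := by
    cases σ <;> cases τ
    · simp only [Bool.false_eq_true, if_false] at hval
      have h1 := hval (-i)
      rw [neg_add_cancel, l1, ← l1'] at h1
      have h2 := l2' h1
      have h3 : i = j := by linear_combination h2
      refine ⟨h3, rfl, ?_⟩
      funext t
      have h4 := hval (t - i)
      rw [← h3, sub_add_cancel] at h4
      exact h4
    · exfalso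
      simp only [Bool.false_eq_true, if_false, if_true] at hval
      have h1 := hval (-i)
      rw [neg_add_cancel, l1, ← l1'] at h1
      have h2 := l2' h1
      have h3 := hval (1 - i)
      have e1 : 1 - i + i = 1 := by ring
      have e2 : j - (1 - i) = -1 := by linear_combination -h2
      rw [e1, e2, hend', ← hend] at h3
      exact h11 (l2 h3)
    · exfalso
      simp only [Bool.false_eq_true, if_false, if_true] at hval
      have h1 := hval i
      rw [sub_self, l1, ← l1'] at h1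
      have h2 := l2' h1
      have h3 := hval (i - 1)
      have e1 : i - (i - 1) = 1 := by ring
      have e2 : i - 1 + j = -1 := by linear_combination -h2
      rw [e1, e2, hend', ← hend] at h3
      exact h11 (l2 h3)
    · simp only [if_true] at hval
      have h1 := hval i
      rw [sub_self, l1, ← l1'] at h1
      have h2 := l2' h1
      have h3 : i = j := by linear_combination h2
      refine ⟨h3, rfl, ?_⟩
      funext t
      have h4 := hval (i - t)
      rw [← h3, sub_sub_cancel] at h4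
      exact h4
  obtain ⟨hi, hσ, hLL⟩ := main
  have hmm : m = m' := by
    have h1 : L (m : ZMod N) = x := by
      rw [hLdef, Ld_val hN _ (by omega)]
      unfold Gc
      rw [if_pos le_rfl, hf.last]
    have h2 : L (m' : ZMod N) = x := by
      rw [hLL, hLdef', Ld_val hN' _ (by omega)]
      unfold Gc
      rw [if_pos le_rfl, hf'.last]
    have h3 := l2 (h1.trans h2.symm)
    have h4 := congrArg ZMod.val h3
    rw [ZMod.val_natCast, ZMod.val_natCast, Nat.mod_eq_of_lt (by omega),
      Nat.mod_eq_of_lt (by omega)] at h4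
    exact h4
  subst hmm
  have hnn : n = n' := by omega
  subst hnn
  subst hN
  have h5 : Lc m n f g = Lc m n f' g' := by
    rw [← Ld_eq, ← Ld_eq]
    exact hLL
  obtain ⟨e1, e2⟩ := Lc_inj hm hn hf hg hf' hg' h5
  exact ⟨rfl, e1, e2, hi, hσ⟩

/-- the loops of width at least `T` -/
noncomputable def LW (N T : ℕ) : Finset (ZMod N → ℤ × ℤ) :=
  (LF N).filter (fun L : ZMod N → ℤ × ℤ => ∃ i j, (T : ℤ) ≤ (L i).1 - (L j).1)

theorem mem_LW {N T : ℕ} {L : ZMod N → ℤ × ℤ} : L ∈ LW N T ↔ L ∈ LF N ∧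
    ∃ i j, (T : ℤ) ≤ (L i).1 - (L j).1 := by
  unfold LW
  exact Finset.mem_filter

/-- **the pairs in contact and the polygons** -/
theorem count {N : ℕ} (hN : 4 ≤ N) (hx : 1 ≤ x.1) :
    2 * N * ∑ m ∈ Icc 1 (N - 3), (KF m (N - 2 - m) x).card ≤ (LW N x.1.toNat).card := by
  have : NeZero N := ⟨by omega⟩
  have h1 : 2 * N * ∑ m ∈ Icc 1 (N - 3), (KF m (N - 2 - m) x).card =
      (((Icc 1 (N - 3)).sigma (fun m => KF m (N - 2 - m) x)) ×ˢ
        (Finset.univ : Finset (ZMod N × Bool))).card := by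
    rw [Finset.card_product, Finset.card_sigma, Finset.card_univ, Fintype.card_prod, ZMod.card,
      Fintype.card_bool]
    ring
  rw [h1]
  refine Finset.card_le_card_of_injOn (fun q => act q.2.1 q.2.2 (Ld N q.1.1 q.1.2.1 q.1.2.2)) ?_ ?_
  · rintro ⟨⟨m, f, g⟩, i, σ⟩ hq
    rw [Finset.mem_coe, Finset.mem_product, Finset.mem_sigma, Finset.mem_Icc] at hq
    obtain ⟨⟨⟨hm1, hm2⟩, hq⟩, -⟩ := hq
    simp only at hm1 hm2 hq
    rw [mem_KF hm1 (by omega) hx] at hq
    have hNm : N = m + (N - 2 - m) + 2 := by omega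
    have hL := Ld_loop hNm hq.1 hq.2.1 hq.2.2
    rw [Finset.mem_coe, mem_LW, mem_LF]
    refine ⟨act_loop hL i σ, ?_⟩
    obtain ⟨t, ht⟩ := (act_range (L := Ld N m f g) i σ (x - Ld N m f g i)).mpr (by
      rw [sub_add_cancel]
      exact (Ld_range hNm x).mpr (Or.inl ⟨m, le_rfl, hq.1.last⟩))
    obtain ⟨t', ht'⟩ := (act_range (L := Ld N m f g) i σ (0 - Ld N m f g i)).mpr (by
      rw [sub_add_cancel]
      exact ⟨0, hL.1⟩)
    refine ⟨t, t', ?_⟩
    simp only
    rw [ht, ht', Int.toNat_of_nonneg (by omega)]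
    simp
  · rintro ⟨⟨m, f, g⟩, i, σ⟩ hq ⟨⟨m', f', g'⟩, j, τ⟩ hq' h
    rw [Finset.mem_coe, Finset.mem_product, Finset.mem_sigma, Finset.mem_Icc] at hq hq'
    obtain ⟨⟨⟨hm1, hm2⟩, hq⟩, -⟩ := hq
    obtain ⟨⟨⟨hm1', hm2'⟩, hq'⟩, -⟩ := hq'
    simp only at hm1 hm2 hq hm1' hm2' hq' h
    rw [mem_KF hm1 (by omega) hx] at hq
    rw [mem_KF hm1' (by omega) hx] at hq'
    have hNm : N = m + (N - 2 - m) + 2 := by omega
    have hNm' : N = m' + (N - 2 - m') + 2 := by omega
    obtain ⟨e1, e2, e3, e4, e5⟩ := act_inj hNm hNm' hm1 (by omega) hm1' (by omega) hq.1 hq.2.1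
      hq.2.2 hq'.1 hq'.2.1 hq'.2.2 h
    subst e1
    subst e2
    subst e3
    subst e4
    subst e5
    rfl

/-- periodic paths up to the choice of the base point -/
noncomputable def rho (m : ℕ) (x : ℤ × ℤ) : ℝ := ((PF m x).card : ℝ) / m

theorem rho_nonneg (m : ℕ) (x : ℤ × ℤ) : 0 ≤ rho m x := by
  unfold rho; positivity

theorem rho_zero (x : ℤ × ℤ) : rho 0 x = 0 := by
  unfold rho; simp

theorem rho_mul (hm : 1 ≤ m) (hn : 1 ≤ n) (hx : 1 ≤ x.1) :
    (x.1 : ℝ) * (rho m x * rho n x) ≤ ((KF m n x).card : ℝ) := by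
  have h1 := contact_count hm hn hx
  have h2 : ((x.1.toNat * ((PF m x).card * (PF n x).card) : ℕ) : ℝ) ≤
      ((m * n * (KF m n x).card : ℕ) : ℝ) := by exact_mod_cast h1
  push_cast at h2
  have h7 : ((x.1.toNat : ℕ) : ℝ) = (x.1 : ℝ) := by
    have : ((x.1.toNat : ℕ) : ℤ) = x.1 := Int.toNat_of_nonneg (by omega)
    exact_mod_cast this
  rw [h7] at h2
  have hm0 : (0 : ℝ) < m := by exact_mod_cast hm
  have hn0 : (0 : ℝ) < n := by exact_mod_cast hn
  unfold rho
  have e : (x.1 : ℝ) * (((PF m x).card : ℝ) / m * (((PF n x).card : ℝ) / n)) =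
      (x.1 : ℝ) * (((PF m x).card : ℝ) * (PF n x).card) / (m * n) := by
    field_simp
  rw [e, div_le_iff₀ (by positivity)]
  linarith

/-- **the pointwise inequality** -/
theorem point (hx : 1 ≤ x.1) (s : ℕ) :
    (x.1 : ℝ) * ∑ k ∈ range (s + 1), rho k x * rho (s - k) x ≤
      ((LW (s + 2) x.1.toNat).card : ℝ) / (2 * ((s : ℝ) + 2)) := by
  rw [Finset.mul_sum]
  rcases Nat.lt_or_ge s 2 with h0 | h0
  · have h1 : ∑ k ∈ range (s + 1), (x.1 : ℝ) * (rho k x * rho (s - k) x) = 0 := by
      refine Finset.sum_eq_zero fun k hk => ?_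
      rw [Finset.mem_range] at hk
      rcases Nat.eq_zero_or_pos k with h2 | h2
      · rw [h2, rho_zero]; ring
      · have : s - k = 0 := by omega
        rw [this, rho_zero]; ring
    rw [h1]
    positivity
  have h1 : ∑ k ∈ range (s + 1), (x.1 : ℝ) * (rho k x * rho (s - k) x) =
      ∑ k ∈ Icc 1 (s - 1), (x.1 : ℝ) * (rho k x * rho (s - k) x) := by
    symm
    refine Finset.sum_subset (fun k hk => ?_) (fun k hk hk' => ?_)
    · rw [Finset.mem_Icc] at hk
      rw [Finset.mem_range]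
      omega
    · rw [Finset.mem_range] at hk
      rw [Finset.mem_Icc] at hk'
      rcases Nat.eq_zero_or_pos k with h2 | h2
      · rw [h2, rho_zero]; ring
      · have : s - k = 0 := by omega
        rw [this, rho_zero]; ring
  rw [h1]
  have h2 : ∑ k ∈ Icc 1 (s - 1), (x.1 : ℝ) * (rho k x * rho (s - k) x) ≤
      ∑ k ∈ Icc 1 (s - 1), ((KF k (s - k) x).card : ℝ) := by
    refine Finset.sum_le_sum fun k hk => ?_
    rw [Finset.mem_Icc] at hk
    exact rho_mul hk.1 (by omega) hx
  refine h2.trans ?_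
  have h3 := count (N := s + 2) (by omega) hx
  have e1 : s + 2 - 3 = s - 1 := by omega
  rw [e1, show ∑ m ∈ Icc 1 (s - 1), (KF m (s + 2 - 2 - m) x).card =
      ∑ k ∈ Icc 1 (s - 1), (KF k (s - k) x).card from
    Finset.sum_congr rfl fun k _ => by rw [show s + 2 - 2 - k = s - k by omega]] at h3
  have h4 : 2 * ((s : ℝ) + 2) * ∑ k ∈ Icc 1 (s - 1), ((KF k (s - k) x).card : ℝ) ≤
      ((LW (s + 2) x.1.toNat).card : ℝ) := by exact_mod_cast h3
  rw [le_div_iff₀ (by positivity)]
  rw [mul_comm]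
  exact h4

/-- parity -/
theorem par (hf : IsPer n x f) (k : ℕ) : ((f k).1 + (f k).2 - k) % 2 = 0 := by
  induction k with
  | zero => rw [Nat.cast_zero, hf.zero]; simp
  | succ k ih =>
    have h1 := hf.step k
    push_cast
    set a := (f (k + 1)).1 - (f k).1 with ha
    set b := (f (k + 1)).2 - (f k).2 with hb
    have h2 : (a + b) % 2 = 1 := by
      rcases abs_cases a with ⟨h3, _⟩ | ⟨h3, _⟩ <;> rcases abs_cases b with ⟨h4, _⟩ | ⟨h4, _⟩ <;>
        rw [h3, h4] at h1 <;> omega
    have e : (f (k + 1)).1 + (f (k + 1)).2 - ((k : ℤ) + 1) =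
        ((f k).1 + (f k).2 - k) + (a + b) - 1 := by rw [ha, hb]; ring
    rw [e]
    omega

theorem odd_zero (hx : 1 ≤ x.1) {s : ℕ} (hs : s % 2 = 1) (k : ℕ) (hk : k ≤ s) :
    rho k x * rho (s - k) x = 0 := by
  by_contra hcon
  have h1 : rho k x ≠ 0 := left_ne_zero_of_mul hcon
  have h2 : rho (s - k) x ≠ 0 := right_ne_zero_of_mul hcon
  have hk1 : 1 ≤ k := by
    rcases Nat.eq_zero_or_pos k with h | h
    · rw [h] at h1; exact absurd (rho_zero x) h1
    · exact h
  have hk2 : 1 ≤ s - k := by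
    rcases Nat.eq_zero_or_pos (s - k) with h | h
    · rw [h] at h2; exact absurd (rho_zero x) h2
    · exact h
  have h3 : (PF k x).Nonempty := by
    rw [← Finset.card_pos]
    rcases Nat.eq_zero_or_pos (PF k x).card with h | h
    · exact absurd (by unfold rho; rw [h]; simp) h1
    · exact h
  have h4 : (PF (s - k) x).Nonempty := by
    rw [← Finset.card_pos]
    rcases Nat.eq_zero_or_pos (PF (s - k) x).card with h | h
    · exact absurd (by unfold rho; rw [h]; simp) h2
    · exact h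
  obtain ⟨f, hf⟩ := h3
  obtain ⟨g, hg⟩ := h4
  rw [mem_PF hk1 hx] at hf
  rw [mem_PF hk2 hx] at hg
  have a1 := par hf k
  have a2 := par hg (s - k)
  rw [hf.last] at a1
  rw [hg.last] at a2
  omega

end Pool.Agent.T9h33.PI
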