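import Pool.Agent.T9h33.PI
import Pool.Agent.T9h33.PH
import Pool.Agent.TH546.PC.Tail

set_option autoImplicit false

/-!
The polygons of large width at the critical point.
-/

namespace Pool.Agent.T9h33.PJ

open Finset Filter Pool.Agent.T9h33.PA Pool.Agent.T9h33.PB Pool.Agent.T9h33.PI
open Pool.Agent.W870.Pg (LF mem_LF Fp)
open Pool.Agent.H924P (IsLoop)
open H981 (mu mu_pos)
open scoped Classical

/-- the number of polygons of perimeter `2n` and width at least `T` -/
noncomputable def pw (n T : ℕ) : ℝ := ((LW (2 * n) T).card : ℝ) / (4 * (n : ℝ))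

theorem pw_nonneg (n T : ℕ) : 0 ≤ pw n T := by
  unfold pw; positivity

theorem pw_le {n : ℕ} (hn : 1 ≤ n) (T : ℕ) : pw n T ≤ H981.PP n := by
  rw [PG.PP_eq n hn]
  unfold pw
  refine div_le_div_of_nonneg_right ?_ (by positivity)
  have : (LW (2 * n) T).card ≤ (LF (2 * n)).card :=
    Finset.card_le_card (fun L hL => (mem_LW.mp hL).1)
  exact_mod_cast this

theorem Fp_nonneg (n : ℕ) : 0 ≤ Fp n := by
  have := mu_pos
  unfold Fp
  refine div_nonneg ?_ (by positivity)
  rcases Nat.eq_zero_or_pos n with h | h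
  · rw [h]
    unfold H981.PP
    simp
  · rw [PG.PP_eq n h]
    positivity

theorem summable_Fp : Summable Fp := by
  obtain ⟨K, hK, h⟩ := Pool.Agent.TH546.PC.tail
  refine summable_of_sum_range_le (c := ∑ i ∈ range 2, Fp i + K / Real.sqrt (2 : ℕ))
    Fp_nonneg (fun n => ?_)
  have h1 : ∑ i ∈ range n, Fp i ≤ ∑ i ∈ range (n + 2), Fp i :=
    Finset.sum_le_sum_of_subset_of_nonneg (fun j hj => by
      rw [Finset.mem_range] at hj ⊢; omega) (fun j _ _ => Fp_nonneg j)
  refine h1.trans ?_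
  rw [← Finset.sum_range_add_sum_Ico _ (show 2 ≤ n + 2 by omega)]
  have h2 := h 2 (n + 1) le_rfl
  have e : Finset.Icc 2 (n + 1) = Finset.Ico 2 (n + 2) := by
    ext j
    rw [Finset.mem_Icc, Finset.mem_Ico]
    omega
  rw [e] at h2
  exact add_le_add_right h2 _

theorem term_le (n T : ℕ) : pw n T / mu ^ (2 * n) ≤ Fp n := by
  have hmu := mu_pos
  rcases Nat.eq_zero_or_pos n with h | h
  · rw [h]
    unfold pw
    simp [Fp_nonneg 0]
  · unfold Fp
    exact div_le_div_of_nonneg_right (pw_le h T) (by positivity)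

theorem summable_pw (T : ℕ) : Summable (fun n : ℕ => pw n T / mu ^ (2 * n)) :=
  Summable.of_nonneg_of_le (fun n => div_nonneg (pw_nonneg n T) (pow_nonneg mu_pos.le _))
    (fun n => term_le n T) summable_Fp

/-- the weight of the polygons of width at least `T` -/
noncomputable def GG (T : ℕ) : ℝ := ∑' n : ℕ, pw n T / mu ^ (2 * n)

theorem GG_nonneg (T : ℕ) : 0 ≤ GG T :=
  tsum_nonneg fun n => div_nonneg (pw_nonneg n T) (pow_nonneg mu_pos.le _)

theorem sum_even (g : ℕ → ℝ) (hg : ∀ s, s % 2 = 1 → g s = 0) (M : ℕ) :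
    ∑ s ∈ range (2 * M + 1), g s = ∑ k ∈ range (M + 1), g (2 * k) := by
  induction M with
  | zero => simp
  | succ M ih =>
    rw [show 2 * (M + 1) + 1 = 2 * M + 1 + 1 + 1 by ring, Finset.sum_range_succ,
      Finset.sum_range_succ, ih, Finset.sum_range_succ _ (M + 1), hg (2 * M + 1) (by omega),
      add_zero]
    congr 2

/-- the weight of the periodic paths with a given period vector -/
noncomputable def SS (M : ℕ) (x : ℤ × ℤ) : ℝ := ∑ m ∈ range (M + 1), rho m x / mu ^ m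

theorem SS_nonneg (M : ℕ) (x : ℤ × ℤ) : 0 ≤ SS M x :=
  Finset.sum_nonneg fun m _ => div_nonneg (rho_nonneg m x) (pow_nonneg mu_pos.le _)

theorem SS_sq {x : ℤ × ℤ} (hx : 1 ≤ x.1) (M : ℕ) :
    (x.1 : ℝ) * SS M x ^ 2 ≤ mu ^ 2 * GG x.1.toNat := by
  have hmu := mu_pos
  have hx0 : (0 : ℝ) ≤ x.1 := by exact_mod_cast (by omega : (0 : ℤ) ≤ x.1)
  set F : ℕ → ℕ → ℝ := fun k l => (rho k x / mu ^ k) * (rho l x / mu ^ l) with hF
  have hF0 : ∀ k l, 0 ≤ F k l := fun k l => mul_nonneg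
    (div_nonneg (rho_nonneg k x) (pow_nonneg hmu.le _))
    (div_nonneg (rho_nonneg l x) (pow_nonneg hmu.le _))
  have h1 : SS M x ^ 2 ≤ ∑ s ∈ range (2 * M + 1), ∑ k ∈ range (s + 1), F k (s - k) := by
    rw [Finset.sum_range_diag_flip (2 * M + 1) F, sq, SS, Finset.sum_mul_sum]
    refine le_trans ?_ (Finset.sum_le_sum_of_subset_of_nonneg
      (s := range (M + 1)) (fun j hj => ?_) (fun j _ _ => Finset.sum_nonneg fun l _ => hF0 j l))
    · refine Finset.sum_le_sum fun k hk => ?_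
      refine Finset.sum_le_sum_of_subset_of_nonneg (fun j hj => ?_) (fun j _ _ => hF0 k j)
      rw [Finset.mem_range] at hk hj ⊢
      omega
    · rw [Finset.mem_range] at hj ⊢
      omega
  have h2 : ∀ s : ℕ, ∑ k ∈ range (s + 1), F k (s - k) =
      (∑ k ∈ range (s + 1), rho k x * rho (s - k) x) / mu ^ s := by
    intro s
    rw [Finset.sum_div]
    refine Finset.sum_congr rfl fun k hk => ?_
    rw [Finset.mem_range] at hk
    have e : mu ^ s = mu ^ k * mu ^ (s - k) := by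
      rw [← pow_add]; congr 1; omega
    rw [hF, e]
    field_simp
  have h3 : ∑ s ∈ range (2 * M + 1), ∑ k ∈ range (s + 1), F k (s - k) =
      ∑ k ∈ range (M + 1), (∑ l ∈ range (2 * k + 1), rho l x * rho (2 * k - l) x) /
        mu ^ (2 * k) := by
    rw [Finset.sum_congr rfl (fun s _ => h2 s)]
    refine sum_even (fun s => (∑ k ∈ range (s + 1), rho k x * rho (s - k) x) / mu ^ s)
      (fun s hs => ?_) M
    rw [Finset.sum_eq_zero (fun k hk => ?_), zero_div]
    rw [Finset.mem_range] at hk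
    exact odd_zero hx hs k (by omega)
  have h4 : (x.1 : ℝ) * ∑ k ∈ range (M + 1), (∑ l ∈ range (2 * k + 1),
      rho l x * rho (2 * k - l) x) / mu ^ (2 * k) ≤
      ∑ k ∈ range (M + 1), mu ^ 2 * (pw (k + 1) x.1.toNat / mu ^ (2 * (k + 1))) := by
    rw [Finset.mul_sum]
    refine Finset.sum_le_sum fun k _ => ?_
    have h5 := PI.point hx (2 * k)
    rw [← mul_div_assoc]
    have e1 : mu ^ 2 * (pw (k + 1) x.1.toNat / mu ^ (2 * (k + 1))) =
        pw (k + 1) x.1.toNat / mu ^ (2 * k) := by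
      have : mu ^ (2 * (k + 1)) = mu ^ 2 * mu ^ (2 * k) := by
        rw [← pow_add]; congr 1; ring
      rw [this]
      field_simp
    rw [e1]
    refine div_le_div_of_nonneg_right (h5.trans (le_of_eq ?_)) (by positivity)
    unfold pw
    rw [show 2 * (k + 1) = 2 * k + 2 by ring]
    push_cast
    congr 1
    ring
  have h6 : ∑ k ∈ range (M + 1), mu ^ 2 * (pw (k + 1) x.1.toNat / mu ^ (2 * (k + 1))) ≤
      mu ^ 2 * GG x.1.toNat := by
    rw [← Finset.mul_sum]
    refine mul_le_mul_of_nonneg_left ?_ (by positivity)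
    have h7 := (summable_pw x.1.toNat).sum_le_tsum (range (M + 2))
      (fun n _ => div_nonneg (pw_nonneg n _) (pow_nonneg hmu.le _))
    refine le_trans ?_ h7
    rw [Finset.sum_range_succ' _ (M + 1)]
    have : 0 ≤ pw 0 x.1.toNat / mu ^ (2 * 0) :=
      div_nonneg (pw_nonneg 0 _) (pow_nonneg hmu.le _)
    linarith
  calc (x.1 : ℝ) * SS M x ^ 2 ≤ (x.1 : ℝ) * ∑ s ∈ range (2 * M + 1),
        ∑ k ∈ range (s + 1), F k (s - k) := mul_le_mul_of_nonneg_left h1 hx0
    _ ≤ _ := by rw [h3]; exact h4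
    _ ≤ _ := h6

theorem map_per {m : ℕ} {x : ℤ × ℤ} {f : ℤ → ℤ × ℤ} (hf : IsPer m x f) (φ : ℤ × ℤ →+ ℤ × ℤ)
    (h1 : Function.Injective φ) (h2 : ∀ v, |(φ v).1| + |(φ v).2| = |v.1| + |v.2|) :
    IsPer m (φ x) (fun t => φ (f t)) := by
  refine ⟨?_, fun a b hab => hf.inj (h1 hab), fun t => ?_, fun t => ?_⟩
  · rw [hf.zero, map_zero]
  · have h3 := h2 (f (t + 1) - f t)
    rw [map_sub] at h3
    simp only [Prod.fst_sub, Prod.snd_sub] at h3
    rw [h3]
    exact hf.step t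
  · rw [hf.per, map_add]

theorem card_map {m : ℕ} (hm : 1 ≤ m) {x : ℤ × ℤ} (φ : ℤ × ℤ →+ ℤ × ℤ)
    (h1 : Function.Injective φ) (h2 : ∀ v, |(φ v).1| + |(φ v).2| = |v.1| + |v.2|)
    (hx : 1 ≤ x.1) (hφ : 1 ≤ (φ x).1) : (PF m x).card ≤ (PF m (φ x)).card := by
  refine Finset.card_le_card_of_injOn (fun f t => φ (f t)) ?_ ?_
  · intro f hf
    rw [Finset.mem_coe, mem_PF hm hx] at hf
    rw [Finset.mem_coe, mem_PF hm hφ]
    exact map_per hf φ h1 h2
  · intro f _ g _ h
    funext t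
    exact h1 (congrFun h t)

/-- the two symmetries -/
def sw1 : ℤ × ℤ →+ ℤ × ℤ where
  toFun v := (v.2, v.1)
  map_zero' := rfl
  map_add' _ _ := rfl

def sw2 : ℤ × ℤ →+ ℤ × ℤ where
  toFun v := (-v.2, v.1)
  map_zero' := by simp
  map_add' v w := by
    refine Prod.ext ?_ ?_
    · show -(v.2 + w.2) = -v.2 + -w.2
      ring
    · rfl

theorem sw1_inj : Function.Injective sw1 := by
  intro v w h
  have h1 : v.2 = w.2 := congrArg Prod.fst h
  have h2 : v.1 = w.1 := congrArg Prod.snd h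
  exact Prod.ext h2 h1

theorem sw2_inj : Function.Injective sw2 := by
  intro v w h
  have h1 : -v.2 = -w.2 := congrArg Prod.fst h
  have h2 : v.1 = w.1 := congrArg Prod.snd h
  exact Prod.ext h2 (by linarith)

theorem sw1_norm (v : ℤ × ℤ) : |(sw1 v).1| + |(sw1 v).2| = |v.1| + |v.2| := by
  show |v.2| + |v.1| = _
  ring

theorem sw2_norm (v : ℤ × ℤ) : |(sw2 v).1| + |(sw2 v).2| = |v.1| + |v.2| := by
  show |-v.2| + |v.1| = _
  rw [abs_neg]
  ring

theorem SS_map {M : ℕ} {x : ℤ × ℤ} (φ : ℤ × ℤ →+ ℤ × ℤ)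
    (h1 : Function.Injective φ) (h2 : ∀ v, |(φ v).1| + |(φ v).2| = |v.1| + |v.2|)
    (hx : 1 ≤ x.1) (hφ : 1 ≤ (φ x).1) : SS M x ≤ SS M (φ x) := by
  have hmu := mu_pos
  unfold SS
  refine Finset.sum_le_sum fun m _ => ?_
  refine div_le_div_of_nonneg_right ?_ (by positivity)
  rcases Nat.eq_zero_or_pos m with h | h
  · rw [h, rho_zero, rho_zero]
  · unfold rho
    refine div_le_div_of_nonneg_right ?_ (by positivity)
    exact_mod_cast card_map h φ h1 h2 hx hφ

/-- the size of the period vector -/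
def tt (x : ℤ × ℤ) : ℕ := max x.1.toNat x.2.natAbs

theorem SS_le1 {x : ℤ × ℤ} (hx : 1 ≤ x.1) (M : ℕ) :
    SS M x ≤ mu * Real.sqrt (GG x.1.toNat / x.1.toNat) := by
  have hmu := mu_pos
  have h1 := SS_sq hx M
  have h7 : ((x.1.toNat : ℕ) : ℝ) = (x.1 : ℝ) := by
    have : ((x.1.toNat : ℕ) : ℤ) = x.1 := Int.toNat_of_nonneg (by omega)
    exact_mod_cast this
  have hx0 : (0 : ℝ) < x.1 := by exact_mod_cast (by omega : (0 : ℤ) < x.1)
  rw [h7]
  have h2 : SS M x ^ 2 ≤ (mu * Real.sqrt (GG x.1.toNat / x.1)) ^ 2 := by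
    rw [mul_pow, Real.sq_sqrt (div_nonneg (GG_nonneg _) hx0.le), ← mul_div_assoc,
      le_div_iff₀ hx0]
    linarith
  exact le_of_sq_le_sq h2 (by positivity)

theorem SS_le {x : ℤ × ℤ} (hx : 1 ≤ x.1) (M : ℕ) :
    SS M x ≤ mu * Real.sqrt (GG (tt x) / tt x) := by
  rcases le_or_gt x.2.natAbs x.1.toNat with h | h
  · have e : tt x = x.1.toNat := max_eq_left h
    rw [e]
    exact SS_le1 hx M
  · have e : tt x = x.2.natAbs := max_eq_right h.le
    rw [e]
    rcases le_or_gt 0 x.2 with h2 | h2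
    · have e1 : (sw1 x).1 = x.2 := rfl
      have h3 : 1 ≤ (sw1 x).1 := by rw [e1]; omega
      have h4 := (SS_map (M := M) sw1 sw1_inj sw1_norm hx h3).trans (SS_le1 h3 M)
      have e2 : (sw1 x).1.toNat = x.2.natAbs := by rw [e1]; omega
      rw [e2] at h4
      exact h4
    · have e1 : (sw2 x).1 = -x.2 := rfl
      have h3 : 1 ≤ (sw2 x).1 := by rw [e1]; omega
      have h4 := (SS_map (M := M) sw2 sw2_inj sw2_norm hx h3).trans (SS_le1 h3 M)
      have e2 : (sw2 x).1.toNat = x.2.natAbs := by rw [e1]; omega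
      rw [e2] at h4
      exact h4

theorem bnd {m : ℕ} {x : ℤ × ℤ} {f : ℤ → ℤ × ℤ} (hf : IsPer m x f) (k : ℕ) :
    |(f k).1| + |(f k).2| ≤ k := by
  induction k with
  | zero => rw [Nat.cast_zero, hf.zero]; simp
  | succ k ih =>
    have h1 := hf.step k
    push_cast
    have h2 := abs_sub_abs_le_abs_sub (f (k + 1)).1 (f k).1
    have h3 := abs_sub_abs_le_abs_sub (f (k + 1)).2 (f k).2
    linarith

theorem card_QF_le {m M : ℕ} (hm : 1 ≤ m) (hM : m ≤ M) :
    ((QF m).card : ℝ) ≤ ∑ x ∈ PG.XX M, ((PF m x).card : ℝ) := by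
  have h1 : QF m = PG.NF m M := by
    unfold PG.NF
    symm
    refine Finset.filter_true_of_mem fun f hf => ?_
    rw [mem_QF hm] at hf
    have h2 := bnd hf.1 m
    have h3 := abs_nonneg (f m).1
    have h4 := abs_nonneg (f m).2
    have h5 : (m : ℤ) ≤ M := by exact_mod_cast hM
    exact ⟨by linarith, by linarith⟩
  rw [h1]
  exact PG.card_NF_le hm

theorem sum_a_le (M : ℕ) : ∑ m ∈ range (M + 1), PE.a m ≤ ∑ x ∈ PG.XX M, SS M x := by
  have hmu := mu_pos
  unfold SS
  rw [Finset.sum_comm]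
  refine Finset.sum_le_sum fun m hm => ?_
  rw [Finset.mem_range] at hm
  rcases Nat.eq_zero_or_pos m with h | h
  · rw [h]
    unfold PE.a
    simp [rho_zero]
  · have hm0 : (0 : ℝ) < m := by exact_mod_cast h
    have h1 := card_QF_le (M := M) h (by omega)
    have h2 : ∑ x ∈ PG.XX M, rho m x / mu ^ m =
        (∑ x ∈ PG.XX M, ((PF m x).card : ℝ)) / (m * mu ^ m) := by
      rw [Finset.sum_div]
      refine Finset.sum_congr rfl fun x _ => ?_
      unfold rho
      rw [div_div]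
    rw [h2]
    unfold PE.a
    exact div_le_div_of_nonneg_right h1 (by positivity)

theorem fiber_card (M T : ℕ) (hT : 1 ≤ T) :
    ((PG.XX M).filter (fun x => tt x = T)).card ≤ 5 * T := by
  have h1 : (PG.XX M).filter (fun x => tt x = T) ⊆
      ({(T : ℤ)} ×ˢ Icc (-(T : ℤ)) T) ∪ (Icc (1 : ℤ) T ×ˢ {(T : ℤ), -(T : ℤ)}) := by
    intro x hx
    rw [Finset.mem_filter] at hx
    obtain ⟨h2, h3⟩ := hx
    have h4 := PG.XX_pos h2
    unfold tt at h3
    rw [Finset.mem_union, Finset.mem_product, Finset.mem_product, Finset.mem_singleton,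
      Finset.mem_Icc, Finset.mem_Icc, Finset.mem_insert, Finset.mem_singleton]
    rcases le_total x.1.toNat x.2.natAbs with h5 | h5
    · rw [max_eq_right h5] at h3
      right
      omega
    · rw [max_eq_left h5] at h3
      left
      omega
  refine (Finset.card_le_card h1).trans ((Finset.card_union_le _ _).trans ?_)
  rw [Finset.card_product, Finset.card_product, Finset.card_singleton, Int.card_Icc, Int.card_Icc]
  have h2 : ({(T : ℤ), -(T : ℤ)} : Finset ℤ).card ≤ 2 := Finset.card_le_two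
  have e1 : ((T : ℤ) + 1 - -(T : ℤ)).toNat = 2 * T + 1 := by omega
  have e2 : ((T : ℤ) + 1 - 1).toNat = T := by omega
  rw [e1, e2]
  have h3 : T * ({(T : ℤ), -(T : ℤ)} : Finset ℤ).card ≤ T * 2 := Nat.mul_le_mul_left _ h2
  omega

theorem sum_tt (M : ℕ) (h : ℕ → ℝ) (h0 : ∀ T, 0 ≤ h T) :
    ∑ x ∈ PG.XX M, h (tt x) ≤ ∑ T ∈ Icc 1 M, 5 * (T : ℝ) * h T := by
  have h1 : ∀ x ∈ PG.XX M, tt x ∈ Icc 1 M := by
    intro x hx
    have h2 := PG.XX_pos hx
    unfold PG.XX at hx
    rw [Finset.mem_product, Finset.mem_image, Finset.mem_Icc] at hx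
    obtain ⟨⟨i, hi, hi2⟩, h3, h4⟩ := hx
    rw [Finset.mem_range] at hi
    unfold tt
    rw [Finset.mem_Icc]
    constructor
    · exact le_trans (by omega) (le_max_left _ _)
    · exact max_le (by omega) (by omega)
  rw [← Finset.sum_fiberwise_of_maps_to h1]
  refine Finset.sum_le_sum fun T hT => ?_
  rw [Finset.mem_Icc] at hT
  have h2 : ∑ x ∈ (PG.XX M).filter (fun x => tt x = T), h (tt x) =
      (((PG.XX M).filter (fun x => tt x = T)).card : ℝ) * h T := by
    rw [Finset.sum_congr rfl (fun x hx => by rw [(Finset.mem_filter.mp hx).2]),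
      Finset.sum_const, nsmul_eq_mul]
  rw [h2]
  refine mul_le_mul_of_nonneg_right ?_ (h0 T)
  exact_mod_cast fiber_card M T hT.1

/-- **the polygons of large width** -/
theorem main : ¬ Summable (fun T : ℕ => Real.sqrt (T * GG T)) := by
  intro hs
  have hmu := mu_pos
  have hnn : ∀ T : ℕ, 0 ≤ Real.sqrt (T * GG T) := fun T => Real.sqrt_nonneg _
  refine PH.not_summable_a ?_
  refine summable_of_sum_range_le (c := 5 * mu * ∑' T : ℕ, Real.sqrt (T * GG T))
    PE.a_nonneg (fun n => ?_)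
  have h1 : ∑ i ∈ range n, PE.a i ≤ ∑ i ∈ range (n + 1), PE.a i :=
    Finset.sum_le_sum_of_subset_of_nonneg (fun j hj => by
      rw [Finset.mem_range] at hj ⊢; omega) (fun j _ _ => PE.a_nonneg j)
  refine h1.trans ((sum_a_le n).trans ?_)
  have h2 : ∑ x ∈ PG.XX n, SS n x ≤
      ∑ x ∈ PG.XX n, mu * Real.sqrt (GG (tt x) / tt x) :=
    Finset.sum_le_sum fun x hx => SS_le (PG.XX_pos hx) n
  refine h2.trans ((sum_tt n (fun T => mu * Real.sqrt (GG T / T))
    (fun T => by positivity)).trans ?_)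
  have h3 : ∑ T ∈ Icc 1 n, 5 * (T : ℝ) * (mu * Real.sqrt (GG T / T)) =
      5 * mu * ∑ T ∈ Icc 1 n, Real.sqrt (T * GG T) := by
    rw [Finset.mul_sum]
    refine Finset.sum_congr rfl fun T hT => ?_
    rw [Finset.mem_Icc] at hT
    have hT0 : (0 : ℝ) < T := by exact_mod_cast (by omega : 0 < T)
    have e : (T : ℝ) * GG T = (T : ℝ) ^ 2 * (GG T / T) := by
      field_simp
    rw [e, Real.sqrt_mul (by positivity), Real.sqrt_sq hT0.le]
    ring
  rw [h3]
  exact mul_le_mul_of_nonneg_left (hs.sum_le_tsum _ (fun T _ => hnn T)) (by positivity)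

/-- the weight of the polygons of width at least `T`, infinitely often -/
theorem often : ∃ᶠ T : ℕ in atTop, 1 / ((T : ℝ) ^ 3 * Real.log T ^ 4) ≤ GG T := by
  intro hcon
  refine main ?_
  refine Summable.of_norm_bounded_eventually_nat PH.summable_log ?_
  filter_upwards [hcon, eventually_ge_atTop 2] with T h1 hT
  rw [not_le] at h1
  have hT0 : (0 : ℝ) < T := by exact_mod_cast (by omega : 0 < T)
  have hl : 0 < Real.log T := Real.log_pos (by exact_mod_cast (by omega : 1 < T))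
  rw [Real.norm_of_nonneg (Real.sqrt_nonneg _)]
  refine Real.sqrt_le_iff.mpr ⟨by positivity, ?_⟩
  have h2 : (T : ℝ) * GG T ≤ T * (1 / ((T : ℝ) ^ 3 * Real.log T ^ 4)) :=
    mul_le_mul_of_nonneg_left h1.le hT0.le
  refine h2.trans (le_of_eq ?_)
  field_simp

/-- a moment of the width -/
theorem moment : ¬ Summable (fun T : ℕ => (T : ℝ) ^ 2 * Real.log T ^ 2 * GG T) := by
  intro hs
  refine main ?_
  refine Summable.of_norm_bounded_eventually_nat
    ((hs.mul_left (1 / 2)).add (PH.summable_log.mul_left (1 / 2))) ?_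
  filter_upwards [eventually_ge_atTop 2] with T hT
  have hT0 : (0 : ℝ) < T := by exact_mod_cast (by omega : 0 < T)
  have hl : 0 < Real.log T := Real.log_pos (by exact_mod_cast (by omega : 1 < T))
  have hG := GG_nonneg T
  rw [Real.norm_of_nonneg (Real.sqrt_nonneg _)]
  refine Real.sqrt_le_iff.mpr ⟨by positivity, ?_⟩
  have e : (T : ℝ) * GG T = ((T : ℝ) ^ 2 * Real.log T ^ 2 * GG T) *
      (1 / ((T : ℝ) * Real.log T ^ 2)) := by
    field_simp
  rw [e]
  set a := (T : ℝ) ^ 2 * Real.log T ^ 2 * GG T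
  set b := 1 / ((T : ℝ) * Real.log T ^ 2)
  have := sq_nonneg (a - b)
  have e2 : (1 / 2 * a + 1 / 2 * b) ^ 2 = a * b + (a - b) ^ 2 / 4 := by ring
  rw [e2]
  linarith

end Pool.Agent.T9h33.PJ
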