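import Pool.Agent.T9h33.PJ

set_option autoImplicit false

/-!
The third moment of the width of the polygons.
-/

namespace Pool.Agent.T9h33.PK

open Finset Filter Pool.Agent.T9h33.PI Pool.Agent.T9h33.PJ
open Pool.Agent.W870.Pg (LF mem_LF Fp)
open Pool.Agent.H924P (IsLoop)
open H981 (mu mu_pos)
open scoped Classical

/-- the width -/
noncomputable def width {N : ℕ} (L : ZMod N → ℤ × ℤ) : ℕ :=
  sSup {k : ℕ | ∃ i j, (k : ℤ) ≤ (L i).1 - (L j).1}

theorem step_diff {N : ℕ} {L : ZMod N → ℤ × ℤ} (h : IsLoop N L) (j : ZMod N) (k : ℕ) :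
    |(L (j + k)).1 - (L j).1| ≤ k := by
  induction k with
  | zero => simp
  | succ k ih =>
    have h1 := h.2.2 (j + k)
    have e : j + ((k + 1 : ℕ) : ZMod N) = j + k + 1 := by push_cast; ring
    rw [e]
    have h2 := abs_nonneg ((L (j + k + 1)).2 - (L (j + k)).2)
    have h3 : |(L (j + k + 1)).1 - (L j).1| ≤
        |(L (j + k + 1)).1 - (L (j + k)).1| + |(L (j + k)).1 - (L j).1| := by
      have := abs_add_le ((L (j + k + 1)).1 - (L (j + k)).1) ((L (j + k)).1 - (L j).1)
      rwa [sub_add_sub_cancel] at this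
    push_cast
    linarith

theorem diff_le {n : ℕ} (hn : 1 ≤ n) {L : ZMod (2 * n) → ℤ × ℤ} (h : IsLoop (2 * n) L)
    (i j : ZMod (2 * n)) : (L i).1 - (L j).1 ≤ n := by
  have : NeZero (2 * n) := ⟨by omega⟩
  have h1 := step_diff h j (i - j).val
  have h2 := step_diff h i (j - i).val
  rw [ZMod.natCast_zmod_val, add_sub_cancel] at h1 h2
  have h3 := le_abs_self ((L i).1 - (L j).1)
  have h4 := neg_abs_le ((L j).1 - (L i).1)
  rcases eq_or_ne (i - j) 0 with h0 | h0
  · have e : i = j := sub_eq_zero.mp h0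
    rw [e, sub_self]
    positivity
  · have h5 : (j - i).val = 2 * n - (i - j).val := by
      have e : j - i = -(i - j) := by ring
      rw [e, ZMod.neg_val, if_neg h0]
    have h6 := ZMod.val_lt (i - j)
    omega

theorem le_n {n T : ℕ} (hn : 1 ≤ n) {L : ZMod (2 * n) → ℤ × ℤ} (h : L ∈ LW (2 * n) T) :
    T ≤ n := by
  have : NeZero (2 * n) := ⟨by omega⟩
  rw [mem_LW, mem_LF] at h
  obtain ⟨h1, i, j, h2⟩ := h
  have := diff_le hn h1 i j
  omega

theorem le_width {n T : ℕ} (hn : 1 ≤ n) {L : ZMod (2 * n) → ℤ × ℤ} (h : L ∈ LW (2 * n) T) :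
    T ≤ width L := by
  have : NeZero (2 * n) := ⟨by omega⟩
  rw [mem_LW, mem_LF] at h
  refine le_csSup ⟨n, ?_⟩ h.2
  rintro k ⟨i, j, hk⟩
  have := diff_le hn h.1 i j
  omega

theorem pw_zero {n T : ℕ} (h : n < T) : pw n T = 0 := by
  rcases Nat.eq_zero_or_pos n with h0 | h0
  · unfold pw
    rw [h0]
    simp
  · unfold pw
    have : LW (2 * n) T = ∅ := by
      rw [Finset.eq_empty_iff_forall_notMem]
      intro L hL
      have := le_n h0 hL
      omega
    rw [this]
    simp

/-- the third moment of the width, over the polygons of perimeter `2n` -/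
noncomputable def W3 (n : ℕ) : ℝ := (∑ L ∈ LF (2 * n), (width L : ℝ) ^ 3) / (4 * (n : ℝ))

theorem W3_nonneg (n : ℕ) : 0 ≤ W3 n := by
  unfold W3
  exact div_nonneg (Finset.sum_nonneg fun L _ => by positivity) (by positivity)

theorem sum_pw_le {n : ℕ} (hn : 1 ≤ n) : ∑ T ∈ Icc 1 n, (T : ℝ) ^ 2 * pw n T ≤ W3 n := by
  have hn0 : (0 : ℝ) < n := by exact_mod_cast hn
  unfold W3 pw
  have h1 : ∑ T ∈ Icc 1 n, (T : ℝ) ^ 2 * (((LW (2 * n) T).card : ℝ) / (4 * n)) =
      (∑ T ∈ Icc 1 n, (T : ℝ) ^ 2 * ((LW (2 * n) T).card : ℝ)) / (4 * n) := by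
    rw [Finset.sum_div]
    exact Finset.sum_congr rfl fun T _ => by rw [mul_div_assoc]
  rw [h1]
  refine div_le_div_of_nonneg_right ?_ (by positivity)
  have h2 : ∀ T : ℕ, (T : ℝ) ^ 2 * ((LW (2 * n) T).card : ℝ) =
      ∑ L ∈ LF (2 * n), if L ∈ LW (2 * n) T then (T : ℝ) ^ 2 else 0 := by
    intro T
    have e : (LF (2 * n)).filter (fun L => L ∈ LW (2 * n) T) = LW (2 * n) T := by
      ext L
      rw [Finset.mem_filter]
      exact ⟨fun h => h.2, fun h => ⟨(mem_LW.mp h).1, h⟩⟩
    rw [← Finset.sum_filter, Finset.sum_const, nsmul_eq_mul, mul_comm, e]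
  rw [Finset.sum_congr rfl fun T _ => h2 T, Finset.sum_comm]
  refine Finset.sum_le_sum fun L _ => ?_
  rw [← Finset.sum_filter]
  calc ∑ T ∈ (Icc 1 n).filter (fun T => L ∈ LW (2 * n) T), (T : ℝ) ^ 2
      ≤ ∑ T ∈ Icc 1 (width L), (T : ℝ) ^ 2 := by
        refine Finset.sum_le_sum_of_subset_of_nonneg (fun T hT => ?_) (fun T _ _ => by positivity)
        rw [Finset.mem_filter, Finset.mem_Icc] at hT
        rw [Finset.mem_Icc]
        exact ⟨hT.1.1, le_width hn hT.2⟩
    _ ≤ ∑ T ∈ Icc 1 (width L), (width L : ℝ) ^ 2 := by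
        refine Finset.sum_le_sum fun T hT => ?_
        rw [Finset.mem_Icc] at hT
        exact pow_le_pow_left₀ (Nat.cast_nonneg _) (by exact_mod_cast hT.2) 2
    _ = (width L : ℝ) ^ 3 := by
        rw [Finset.sum_const, Nat.card_Icc, nsmul_eq_mul, Nat.add_sub_cancel]
        ring

theorem log_sq_mono {T n : ℕ} (h1 : 1 ≤ T) (h2 : T ≤ n) :
    Real.log T ^ 2 ≤ Real.log n ^ 2 :=
  pow_le_pow_left₀ (Real.log_natCast_nonneg _)
    (Real.log_le_log (by exact_mod_cast h1) (by exact_mod_cast h2)) 2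

theorem third_sum : ¬ Summable (fun n : ℕ => Real.log n ^ 2 * (W3 n / mu ^ (2 * n))) := by
  intro hs
  have hmu := mu_pos
  refine PJ.moment ?_
  refine summable_of_sum_range_le
    (c := ∑' n : ℕ, Real.log n ^ 2 * (W3 n / mu ^ (2 * n)))
    (fun T => mul_nonneg (by positivity) (GG_nonneg T)) (fun N => ?_)
  have h1 : ∀ T : ℕ, (T : ℝ) ^ 2 * Real.log T ^ 2 * GG T =
      ∑' n : ℕ, (T : ℝ) ^ 2 * Real.log T ^ 2 * (pw n T / mu ^ (2 * n)) := by
    intro T
    unfold GG
    rw [tsum_mul_left]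
  rw [Finset.sum_congr rfl fun T _ => h1 T]
  rw [← Summable.tsum_finsetSum fun T _ => (summable_pw T).mul_left _]
  refine Summable.tsum_le_tsum (fun n => ?_)
    (summable_sum fun T _ => (summable_pw T).mul_left _) hs
  have hp : ∀ T : ℕ, 0 ≤ (T : ℝ) ^ 2 * Real.log T ^ 2 * (pw n T / mu ^ (2 * n)) := fun T =>
    mul_nonneg (by positivity) (div_nonneg (pw_nonneg n T) (by positivity))
  rcases Nat.eq_zero_or_pos n with h0 | h0
  · have h2 : ∑ T ∈ range N, (T : ℝ) ^ 2 * Real.log T ^ 2 * (pw n T / mu ^ (2 * n)) = 0 := by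
      refine Finset.sum_eq_zero fun T _ => ?_
      have : pw n T = 0 := by
        unfold pw
        rw [h0]
        simp
      rw [this]
      simp
    rw [h2]
    exact mul_nonneg (by positivity) (div_nonneg (W3_nonneg n) (by positivity))
  · calc ∑ T ∈ range N, (T : ℝ) ^ 2 * Real.log T ^ 2 * (pw n T / mu ^ (2 * n))
        ≤ ∑ T ∈ Icc 1 n, (T : ℝ) ^ 2 * Real.log T ^ 2 * (pw n T / mu ^ (2 * n)) := by
          have h3 : ∑ T ∈ range N, (T : ℝ) ^ 2 * Real.log T ^ 2 * (pw n T / mu ^ (2 * n)) =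
              ∑ T ∈ (range N).filter (fun T => 1 ≤ T ∧ T ≤ n),
                (T : ℝ) ^ 2 * Real.log T ^ 2 * (pw n T / mu ^ (2 * n)) := by
            symm
            refine Finset.sum_subset (Finset.filter_subset _ _) (fun T hT hT' => ?_)
            rw [Finset.mem_filter, not_and] at hT'
            have h4 := hT' hT
            rcases Nat.eq_zero_or_pos T with h5 | h5
            · rw [h5]; simp
            · rw [pw_zero (by omega)]; simp
          rw [h3]
          refine Finset.sum_le_sum_of_subset_of_nonneg (fun T hT => ?_) (fun T _ _ => hp T)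
          rw [Finset.mem_filter] at hT
          rw [Finset.mem_Icc]
          exact hT.2
      _ ≤ ∑ T ∈ Icc 1 n, Real.log n ^ 2 * ((T : ℝ) ^ 2 * pw n T / mu ^ (2 * n)) := by
          refine Finset.sum_le_sum fun T hT => ?_
          rw [Finset.mem_Icc] at hT
          have h3 := log_sq_mono hT.1 hT.2
          have h4 : 0 ≤ (T : ℝ) ^ 2 * pw n T / mu ^ (2 * n) :=
            div_nonneg (mul_nonneg (by positivity) (pw_nonneg n T)) (by positivity)
          have e : (T : ℝ) ^ 2 * Real.log T ^ 2 * (pw n T / mu ^ (2 * n)) =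
              Real.log T ^ 2 * ((T : ℝ) ^ 2 * pw n T / mu ^ (2 * n)) := by ring
          rw [e]
          exact mul_le_mul_of_nonneg_right h3 h4
      _ = Real.log n ^ 2 * ((∑ T ∈ Icc 1 n, (T : ℝ) ^ 2 * pw n T) / mu ^ (2 * n)) := by
          rw [← Finset.mul_sum, Finset.sum_div]
      _ ≤ _ := by
          refine mul_le_mul_of_nonneg_left ?_ (by positivity)
          exact div_le_div_of_nonneg_right (sum_pw_le h0) (by positivity)

/-- the third moment of the width, infinitely often -/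
theorem third_often : ∃ᶠ n : ℕ in atTop,
    mu ^ (2 * n) / ((n : ℝ) * Real.log n ^ 4) ≤ W3 n := by
  have hmu := mu_pos
  intro hcon
  refine third_sum ?_
  refine Summable.of_norm_bounded_eventually_nat PH.summable_log ?_
  filter_upwards [hcon, eventually_ge_atTop 2] with n h1 hn
  rw [not_le] at h1
  have hn0 : (0 : ℝ) < n := by exact_mod_cast (by omega : 0 < n)
  have hl : 0 < Real.log n := Real.log_pos (by exact_mod_cast (by omega : 1 < n))
  have hP : 0 < mu ^ (2 * n) := by positivity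
  rw [Real.norm_of_nonneg (mul_nonneg (by positivity) (div_nonneg (W3_nonneg n) hP.le))]
  have h2 : W3 n / mu ^ (2 * n) ≤ 1 / ((n : ℝ) * Real.log n ^ 4) := by
    rw [div_le_iff₀ hP]
    refine h1.le.trans (le_of_eq ?_)
    ring
  refine (mul_le_mul_of_nonneg_left h2 (by positivity)).trans (le_of_eq ?_)
  field_simp

end Pool.Agent.T9h33.PK
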