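import Pool.Agent.T9h33.PK
import Pool.Agent.T9h33.Mod
import Pool.Agent.T9h81.SP.Poly

set_option autoImplicit false

/-!
The width of the polygons and the correlation length.
-/

namespace Pool.Agent.T9h33.PL

open Finset Filter Pool.Agent.T9h33.PI Pool.Agent.T9h33.PJ Pool.Agent.T9h33.PK
open Pool.Agent.T9h33.Mod (xi xi_pos xi_mono xi_lin len)
open Pool.Agent.W870.Pg (LF mem_LF Fp)
open Pool.Agent.W840.CT (SW cn SW_finite cn_eq)
open Pool.Agent.T9h81.SP (wk wk_saw wk_at wk_inj)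
open H981 (mu mu_pos)
open scoped Classical

/-- segments of a word and first coordinates -/
theorem seg_le {n : ℕ} {w : List H981.St} (hw : w.length = n) {a b : ℕ} (hab : a < b)
    (hb : b ≤ n) : |((H981.path w b).1 : ℝ) - (H981.path w a).1| ≤
      len ((w.drop a).take (b - a)) := by
  have h1 := TH795.EP.path_drop w a (b - a)
  have e2 : H981.path ((w.drop a).take (b - a)) (b - a) = H981.path (w.drop a) (b - a) :=
    TH795.EP.path_take le_rfl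
  have hl : ((w.drop a).take (b - a)).length = b - a := by
    rw [List.length_take, List.length_drop]; omega
  have e3 := TH795.EP.path_len ((w.drop a).take (b - a))
  rw [hl, e2] at e3
  rw [show a + (b - a) = b by omega] at h1
  have f1 : H981.dx ((w.drop a).take (b - a)) = (H981.path w b).1 - (H981.path w a).1 := by
    have := congrArg Prod.fst e3
    simp only at this
    rw [h1, ← this]
    ring
  unfold len
  rw [f1]
  push_cast
  exact Real.abs_le_sqrt (le_add_of_nonneg_right (sq_nonneg _))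

theorem walks : ∃ K : ℝ, 1 ≤ K ∧ ∀ M : ℕ, 2 ≤ M → ∀ t : ℝ, 0 ≤ t → ∀ B : ℝ,
    K * (Real.log M ^ 2 + t) * xi M < B →
    (({ω : Fin (M + 1) → ℤ × ℤ | SW M ω ∧
      ∃ i j, B ≤ ((ω i).1 : ℝ) - (ω j).1}).ncard : ℝ) ≤ Real.exp (-t) * cn M := by
  obtain ⟨K, hK, h⟩ := Mod.modulus
  refine ⟨K, hK, fun M hM t ht B hB => ?_⟩
  have hxi := xi_pos (n := M) (by omega)
  have hB0 : 0 < B := lt_of_le_of_lt (by positivity) hB
  obtain ⟨E, hE⟩ : ∃ E : (Fin (M + 1) → ℤ × ℤ) → Prop,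
      E = fun ω => ∃ i j, B ≤ ((ω i).1 : ℝ) - (ω j).1 := ⟨_, rfl⟩
  have e1 : ({ω : Fin (M + 1) → ℤ × ℤ | SW M ω ∧
      ∃ i j, B ≤ ((ω i).1 : ℝ) - (ω j).1}).ncard =
      (TH795.EP.fs (fun w => H981.Saw w ∧ E (TH795.EP2.ew M w)) M).card := by
    rw [← Nat.card_coe_set_eq, hE]
    exact TH795.EP2.ncard_eq M
      (fun w => ∃ i j, B ≤ (((TH795.EP2.ew M w) i).1 : ℝ) - ((TH795.EP2.ew M w) j).1)
      (fun ω => ∃ i j, B ≤ ((ω i).1 : ℝ) - (ω j).1) (fun _ _ => Iff.rfl)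
  have hsub : TH795.EP.fs (fun w => H981.Saw w ∧ E (TH795.EP2.ew M w)) M ⊆
      TH795.EP.fs (fun w => H981.Saw w ∧ ∃ i m, 1 ≤ m ∧ i + m ≤ M ∧
        K * (Real.log M ^ 2 + t) * xi m < len ((w.drop i).take m)) M := by
    intro w hw
    rw [TH795.EP.mem_fs] at hw ⊢
    obtain ⟨⟨hs, hE'⟩, hl⟩ := hw
    refine ⟨⟨hs, ?_⟩, hl⟩
    rw [hE] at hE'
    obtain ⟨i, j, hij⟩ := hE'
    have hi := i.2
    have hj := j.2
    have ei : TH795.EP2.ew M w i = H981.path w i := rfl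
    have ej : TH795.EP2.ew M w j = H981.path w j := rfl
    rw [ei, ej] at hij
    have key : ∀ a b : ℕ, a < b → b ≤ M →
        B ≤ |((H981.path w b).1 : ℝ) - (H981.path w a).1| →
        ∃ i m, 1 ≤ m ∧ i + m ≤ M ∧
          K * (Real.log M ^ 2 + t) * xi m < len ((w.drop i).take m) := by
      intro a b hab hb hle
      refine ⟨a, b - a, by omega, by omega, ?_⟩
      have h1 := seg_le hl hab hb
      have h2 : xi (b - a) ≤ xi M := xi_mono (by omega) (by omega)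
      have h3 : K * (Real.log M ^ 2 + t) * xi (b - a) ≤ K * (Real.log M ^ 2 + t) * xi M :=
        mul_le_mul_of_nonneg_left h2 (by positivity)
      linarith
    rcases lt_trichotomy (i : ℕ) j with h1 | h1 | h1
    · refine key i j h1 (by omega) ?_
      rw [abs_sub_comm]
      exact hij.trans (le_abs_self _)
    · rw [h1, sub_self] at hij
      linarith
    · exact key j i h1 (by omega) (hij.trans (le_abs_self _))
  have h1 := h M hM t ht
  have hc : (0 : ℝ) < TH795.EP.c M := TH795.EP2.c_pos M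
  rw [div_le_iff₀ hc] at h1
  have e2 : (cn M : ℝ) = TH795.EP.c M := by rw [cn_eq, TH795.EP.c_eq]
  rw [e1, e2]
  refine le_trans ?_ h1
  exact_mod_cast Finset.card_le_card hsub

/-- **Few polygons are wider than the correlation length.** -/
theorem LW_le : ∃ K : ℝ, 1 ≤ K ∧ ∀ n : ℕ, 2 ≤ n → ∀ T : ℕ, K * Real.log n ^ 2 * xi n < T →
    ((LW (2 * n) T).card : ℝ) ≤ mu ^ (2 * n) * Real.exp (-(10 * Real.log n ^ 2)) := by
  obtain ⟨K0, hK0, h0⟩ := walks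
  obtain ⟨K2, hK2, h2⟩ := Pool.Agent.TH508.LT.sq_upper2
  refine ⟨2 * K0 * (4 * K2 + 14), by nlinarith, fun n hn T hT => ?_⟩
  obtain ⟨q, rfl⟩ : ∃ q, n = q + 1 := ⟨n - 1, by omega⟩
  have hmu : 1 ≤ H981.mu := H981.one_le_mu
  have hmu0 := mu_pos
  obtain ⟨l, hl⟩ : ∃ l, l = Real.log ((q + 1 : ℕ) : ℝ) := ⟨_, rfl⟩
  rw [← hl] at hT ⊢
  have hq2 : (2 : ℝ) ≤ ((q + 1 : ℕ) : ℝ) := by exact_mod_cast hn
  have hl0 : 0 < l := by rw [hl]; exact Real.log_pos (by linarith)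
  have hlM : Real.log ((2 * q + 1 : ℕ) : ℝ) ≤ 2 * l := by
    have e : ((2 * q + 1 : ℕ) : ℝ) ≤ ((q + 1 : ℕ) : ℝ) ^ 2 := by
      have : 2 * q + 1 ≤ (q + 1) ^ 2 := by nlinarith
      exact_mod_cast this
    calc Real.log ((2 * q + 1 : ℕ) : ℝ) ≤ Real.log (((q + 1 : ℕ) : ℝ) ^ 2) :=
          Real.log_le_log (by positivity) e
      _ = 2 * l := by rw [Real.log_pow, hl]; norm_num
  have hlM0 : 0 ≤ Real.log ((2 * q + 1 : ℕ) : ℝ) := Real.log_natCast_nonneg _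
  have hlM2 : Real.log ((2 * q + 1 : ℕ) : ℝ) ^ 2 ≤ 4 * l ^ 2 := by
    calc _ ≤ (2 * l) ^ 2 := pow_le_pow_left₀ hlM0 hlM 2
      _ = 4 * l ^ 2 := by ring
  obtain ⟨t, ht⟩ : ∃ t, t = (4 * K2 + 10) * l ^ 2 := ⟨_, rfl⟩
  have ht0 : 0 ≤ t := by rw [ht]; positivity
  have hx : xi (2 * q + 1) ≤ 2 * xi (q + 1) := by
    have a1 := xi_mono (m := 2 * q + 1) (n := 2 * (q + 1)) (by omega) (by omega)
    have a2 := xi_lin (m := q + 1) (n := 2 * (q + 1)) (by omega) (by omega)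
    have hq0 : (0 : ℝ) < ((q + 1 : ℕ) : ℝ) := by linarith
    have a3 : ((2 * (q + 1) : ℕ) : ℝ) / ((q + 1 : ℕ) : ℝ) = 2 := by
      rw [Nat.cast_mul, Nat.cast_ofNat, mul_div_assoc, div_self hq0.ne', mul_one]
    rw [a3] at a2
    exact a1.trans a2
  have hxp := xi_pos (n := q + 1) (by omega)
  have hT' : K0 * (Real.log ((2 * q + 1 : ℕ) : ℝ) ^ 2 + t) * xi (2 * q + 1) < T := by
    refine lt_of_le_of_lt ?_ hT
    have hxM := xi_pos (n := 2 * q + 1) (by omega)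
    calc K0 * (Real.log ((2 * q + 1 : ℕ) : ℝ) ^ 2 + t) * xi (2 * q + 1)
        ≤ K0 * (4 * l ^ 2 + t) * (2 * xi (q + 1)) := by gcongr
      _ = 2 * K0 * (4 * K2 + 14) * l ^ 2 * xi (q + 1) := by rw [ht]; ring
  have h3 := h0 (2 * q + 1) (by omega) t ht0 T hT'
  -- the injection
  have hinj : (LW (2 * (q + 1)) T).card ≤
      ({ω : Fin (2 * q + 1 + 1) → ℤ × ℤ | SW (2 * q + 1) ω ∧
        ∃ i j, (T : ℝ) ≤ ((ω i).1 : ℝ) - (ω j).1}).ncard := by
    rw [← Set.ncard_coe_finset]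
    refine Set.ncard_le_ncard_of_injOn (wk q 0) ?_ ?_
      ((SW_finite (2 * q + 1)).subset fun ω hω => hω.1)
    · intro f hf
      rw [Finset.mem_coe, mem_LW, mem_LF] at hf
      obtain ⟨hf1, i, j, hij⟩ := hf
      have h00 : f 0 = 0 := hf1.1
      refine ⟨wk_saw 0 hf1, ⟨i.val, by have := ZMod.val_lt i; omega⟩,
        ⟨j.val, by have := ZMod.val_lt j; omega⟩, ?_⟩
      rw [wk_at, wk_at, h00]
      simp only [zero_add, sub_zero]
      exact_mod_cast hij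
    · intro f hf g hg h
      rw [Finset.mem_coe, mem_LW, mem_LF] at hf hg
      exact wk_inj 0 hf.1.1 hg.1.1 h
  have hcn : (cn (2 * q + 1) : ℝ) ≤ mu ^ (2 * (q + 1)) * Real.exp (4 * K2 * l ^ 2) := by
    rw [cn_eq]
    refine (h2 (2 * q + 1) (by omega)).trans ?_
    have e1 : mu ^ (2 * q + 1) ≤ mu ^ (2 * (q + 1)) := pow_le_pow_right₀ hmu (by omega)
    have e2 : Real.exp (K2 * Real.log ((2 * q + 1 : ℕ) : ℝ) ^ 2) ≤ Real.exp (4 * K2 * l ^ 2) := by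
      apply Real.exp_le_exp.2
      calc _ ≤ K2 * (4 * l ^ 2) := by gcongr
        _ = _ := by ring
    exact mul_le_mul e1 e2 (Real.exp_pos _).le (by positivity)
  calc ((LW (2 * (q + 1)) T).card : ℝ) ≤ _ := by exact_mod_cast hinj
    _ ≤ Real.exp (-t) * cn (2 * q + 1) := h3
    _ ≤ Real.exp (-t) * (mu ^ (2 * (q + 1)) * Real.exp (4 * K2 * l ^ 2)) := by gcongr
    _ = mu ^ (2 * (q + 1)) * (Real.exp (-t) * Real.exp (4 * K2 * l ^ 2)) := by ring
    _ = mu ^ (2 * (q + 1)) * Real.exp (-(10 * l ^ 2)) := by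
        rw [← Real.exp_add, ht]
        congr 2
        ring

theorem width_mem {n : ℕ} (hn : 1 ≤ n) {L : ZMod (2 * n) → ℤ × ℤ} (h : L ∈ LF (2 * n)) :
    width L ≤ n ∧ L ∈ LW (2 * n) (width L) := by
  have : NeZero (2 * n) := ⟨by omega⟩
  have h' := h
  rw [mem_LF] at h'
  have hne : ({k : ℕ | ∃ i j, (k : ℤ) ≤ (L i).1 - (L j).1}).Nonempty := ⟨0, 0, 0, by simp⟩
  have hb : BddAbove {k : ℕ | ∃ i j, (k : ℤ) ≤ (L i).1 - (L j).1} := by
    refine ⟨n, ?_⟩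
    rintro k ⟨i, j, hk⟩
    have := diff_le hn h' i j
    omega
  have hm := Nat.sSup_mem hne hb
  obtain ⟨i, j, hij⟩ := hm
  have h1 := diff_le hn h' i j
  refine ⟨?_, ?_⟩
  · have : ((width L : ℕ) : ℤ) ≤ n := le_trans hij h1
    exact_mod_cast this
  · rw [mem_LW]
    exact ⟨h, i, j, hij⟩

theorem W3_le : ∃ K : ℝ, 1 ≤ K ∧ ∀ n : ℕ, 2 ≤ n →
    W3 n ≤ (K * Real.log n ^ 2 * xi n) ^ 3 * H981.PP n + mu ^ (2 * n) / (n : ℝ) ^ 4 := by
  obtain ⟨K, hK, h⟩ := LW_le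
  refine ⟨K, hK, fun n hn => ?_⟩
  have hmu := mu_pos
  have hn0 : (0 : ℝ) < n := by exact_mod_cast (by omega : 0 < n)
  have hxi := xi_pos (n := n) (by omega)
  obtain ⟨R, hR⟩ : ∃ R, R = K * Real.log n ^ 2 * xi n := ⟨_, rfl⟩
  have hR0 : 0 ≤ R := by rw [hR]; positivity
  rw [← hR]
  have hT : K * Real.log n ^ 2 * xi n < ((⌊R⌋₊ + 1 : ℕ) : ℝ) := by
    rw [← hR]
    push_cast
    exact Nat.lt_floor_add_one R
  have h1 := h n hn (⌊R⌋₊ + 1) hT
  have h2 : ∑ L ∈ LF (2 * n), (width L : ℝ) ^ 3 ≤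
      ((LF (2 * n)).card : ℝ) * R ^ 3 + (n : ℝ) ^ 3 * (LW (2 * n) (⌊R⌋₊ + 1)).card := by
    have h3 : ∀ L ∈ LF (2 * n), (width L : ℝ) ^ 3 ≤
        R ^ 3 + (if L ∈ LW (2 * n) (⌊R⌋₊ + 1) then (n : ℝ) ^ 3 else 0) := by
      intro L hL
      obtain ⟨h4, h5⟩ := width_mem (by omega) hL
      rcases le_or_gt (width L : ℝ) R with h6 | h6
      · have h7 : (0 : ℝ) ≤ if L ∈ LW (2 * n) (⌊R⌋₊ + 1) then (n : ℝ) ^ 3 else 0 := by
          split_ifs
          · positivity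
          · exact le_rfl
        have h8 : (width L : ℝ) ^ 3 ≤ R ^ 3 := pow_le_pow_left₀ (Nat.cast_nonneg _) h6 3
        linarith
      · have h7 : ⌊R⌋₊ < width L := (Nat.floor_lt hR0).2 h6
        have h8 : L ∈ LW (2 * n) (⌊R⌋₊ + 1) := by
          rw [mem_LW] at h5 ⊢
          obtain ⟨a, i, j, hij⟩ := h5
          exact ⟨a, i, j, by omega⟩
        rw [if_pos h8]
        have h9 : (width L : ℝ) ^ 3 ≤ (n : ℝ) ^ 3 :=
          pow_le_pow_left₀ (Nat.cast_nonneg _) (by exact_mod_cast h4) 3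
        have h10 : 0 ≤ R ^ 3 := by positivity
        linarith
    refine (Finset.sum_le_sum h3).trans (le_of_eq ?_)
    have e : (LF (2 * n)).filter (fun L => L ∈ LW (2 * n) (⌊R⌋₊ + 1)) =
        LW (2 * n) (⌊R⌋₊ + 1) := by
      ext L
      rw [Finset.mem_filter]
      exact ⟨fun h => h.2, fun h => ⟨(mem_LW.mp h).1, h⟩⟩
    rw [Finset.sum_add_distrib, Finset.sum_const, nsmul_eq_mul, ← Finset.sum_filter, e,
      Finset.sum_const, nsmul_eq_mul]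
    ring
  have hlog : Real.exp (-(10 * Real.log n ^ 2)) ≤ 1 / (n : ℝ) ^ 6 := by
    have hl2 : Real.log 2 ≤ Real.log n := Real.log_le_log (by norm_num) (by exact_mod_cast hn)
    have h6 := Real.log_two_gt_d9
    have e6 : (n : ℝ) ^ 6 = Real.exp (6 * Real.log n) := by
      rw [show (6 : ℝ) * Real.log n = ((6 : ℕ) : ℝ) * Real.log n by norm_num, Real.exp_nat_mul,
        Real.exp_log hn0]
    rw [e6, one_div, ← Real.exp_neg]
    apply Real.exp_le_exp.2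
    nlinarith
  have h4 : (n : ℝ) ^ 3 * (LW (2 * n) (⌊R⌋₊ + 1)).card / (4 * (n : ℝ)) ≤
      mu ^ (2 * n) / (n : ℝ) ^ 4 := by
    rw [div_le_div_iff₀ (by positivity) (by positivity)]
    calc (n : ℝ) ^ 3 * (LW (2 * n) (⌊R⌋₊ + 1)).card * (n : ℝ) ^ 4
        ≤ (n : ℝ) ^ 3 * (mu ^ (2 * n) * (1 / (n : ℝ) ^ 6)) * (n : ℝ) ^ 4 := by
          gcongr
          exact h1.trans (mul_le_mul_of_nonneg_left hlog (by positivity))
      _ = mu ^ (2 * n) * (n : ℝ) := by field_simp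
      _ ≤ mu ^ (2 * n) * (4 * (n : ℝ)) := by
          apply mul_le_mul_of_nonneg_left _ (by positivity)
          linarith
  have h5 : H981.PP n = ((LF (2 * n)).card : ℝ) / (4 * (n : ℝ)) := PG.PP_eq n (by omega)
  unfold W3
  calc (∑ L ∈ LF (2 * n), (width L : ℝ) ^ 3) / (4 * (n : ℝ))
      ≤ (((LF (2 * n)).card : ℝ) * R ^ 3 + (n : ℝ) ^ 3 * (LW (2 * n) (⌊R⌋₊ + 1)).card) /
        (4 * (n : ℝ)) := by gcongr
    _ = R ^ 3 * (((LF (2 * n)).card : ℝ) / (4 * (n : ℝ))) +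
        (n : ℝ) ^ 3 * (LW (2 * n) (⌊R⌋₊ + 1)).card / (4 * (n : ℝ)) := by ring
    _ ≤ _ := by rw [← h5]; linarith

/-- **Hyperscaling inequality.** -/
theorem hyper : ∃ᶠ n : ℕ in atTop,
    mu ^ (2 * n) / ((n : ℝ) * xi n ^ 3 * Real.log n ^ 10) ≤ H981.PP n := by
  obtain ⟨K, hK, h⟩ := W3_le
  have hmu := mu_pos
  intro hcon
  refine third_sum ?_
  have hs : Summable (fun n : ℕ => K ^ 3 * (1 / ((n : ℝ) * Real.log n ^ 2)) +
      1 / (n : ℝ) ^ 2) :=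
    (PH.summable_log.mul_left _).add (Real.summable_one_div_nat_pow.2 (by norm_num))
  refine Summable.of_norm_bounded_eventually_nat hs ?_
  filter_upwards [hcon, eventually_ge_atTop 2] with n h1 hn
  rw [not_le] at h1
  have hn0 : (0 : ℝ) < n := by exact_mod_cast (by omega : 0 < n)
  have hl : 0 < Real.log n := Real.log_pos (by exact_mod_cast (by omega : 1 < n))
  have hP : 0 < mu ^ (2 * n) := by positivity
  have hxi := xi_pos (n := n) (by omega)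
  rw [Real.norm_of_nonneg (mul_nonneg (by positivity) (div_nonneg (W3_nonneg n) hP.le))]
  have h2 := h n hn
  have h3 : W3 n / mu ^ (2 * n) ≤ (K * Real.log n ^ 2 * xi n) ^ 3 *
      (1 / ((n : ℝ) * xi n ^ 3 * Real.log n ^ 10)) + 1 / (n : ℝ) ^ 4 := by
    rw [div_le_iff₀ hP]
    calc W3 n ≤ (K * Real.log n ^ 2 * xi n) ^ 3 * H981.PP n + mu ^ (2 * n) / (n : ℝ) ^ 4 := h2
      _ ≤ (K * Real.log n ^ 2 * xi n) ^ 3 *
          (mu ^ (2 * n) / ((n : ℝ) * xi n ^ 3 * Real.log n ^ 10)) +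
          mu ^ (2 * n) / (n : ℝ) ^ 4 := by
        have : 0 ≤ (K * Real.log n ^ 2 * xi n) ^ 3 := by positivity
        have h4 := mul_le_mul_of_nonneg_left h1.le this
        linarith
      _ = _ := by ring
  have hln : Real.log n ≤ n := (Real.log_le_sub_one_of_pos hn0).trans (by linarith)
  have hln2 : Real.log n ^ 2 ≤ (n : ℝ) ^ 2 := pow_le_pow_left₀ hl.le hln 2
  calc Real.log n ^ 2 * (W3 n / mu ^ (2 * n))
      ≤ Real.log n ^ 2 * ((K * Real.log n ^ 2 * xi n) ^ 3 *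
        (1 / ((n : ℝ) * xi n ^ 3 * Real.log n ^ 10)) + 1 / (n : ℝ) ^ 4) := by gcongr
    _ = K ^ 3 * (1 / ((n : ℝ) * Real.log n ^ 2)) + Real.log n ^ 2 * (1 / (n : ℝ) ^ 4) := by
        field_simp
    _ ≤ K ^ 3 * (1 / ((n : ℝ) * Real.log n ^ 2)) + (n : ℝ) ^ 2 * (1 / (n : ℝ) ^ 4) := by
        gcongr
    _ = _ := by field_simp

end Pool.Agent.T9h33.PL
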