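import Pool.Agent.T9h33.Dw
import Pool.Agent.W840.CT.Basic

/-!
Families of self-avoiding paths from a point to a point in a region.
-/

set_option autoImplicit false

namespace Pool.Agent.T9h33.Str

open Pool.Agent.W840.CT (Pt adj adj_comm)

/-- `l` is a self-avoiding path from `q` to `q'` with the other points in `U` -/
structure Pth (q q' : Pt) (U : Pt → Prop) (l : List Pt) : Prop where
  ch : l.IsChain adj
  nd : l.Nodup
  hd : l.head? = some q
  tl : l.getLast? = some q'
  mem : ∀ v ∈ l, v = q ∨ v = q' ∨ U v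

/-- there are at least `w μ^N` such paths with `N` steps for some `N` -/
def St (μ : ℝ) (q q' : Pt) (U : Pt → Prop) (w : ℝ) : Prop :=
  ∃ N, ∃ F : Finset (List Pt), (∀ l ∈ F, l.length = N + 1 ∧ Pth q q' U l) ∧ w * μ ^ N ≤ F.card

variable {μ : ℝ} {q q' q'' : Pt} {U U' V : Pt → Prop} {w w' : ℝ} {l l' : List Pt}

theorem Pth.mono (h : Pth q q' U l) (hU : ∀ v, U v → U' v) : Pth q q' U' l :=
  ⟨h.ch, h.nd, h.hd, h.tl, fun v hv => by
    rcases h.mem v hv with h1 | h1 | h1
    · exact Or.inl h1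
    · exact Or.inr (Or.inl h1)
    · exact Or.inr (Or.inr (hU v h1))⟩

theorem St.mono (h : St μ q q' U w) (hμ : 0 ≤ μ) (hU : ∀ v, U v → U' v) (hw : w' ≤ w) :
    St μ q q' U' w' := by
  obtain ⟨N, F, h1, h2⟩ := h
  exact ⟨N, F, fun l hl => ⟨(h1 l hl).1, (h1 l hl).2.mono hU⟩,
    (mul_le_mul_of_nonneg_right hw (pow_nonneg hμ N)).trans h2⟩

theorem St.refl (q : Pt) (U : Pt → Prop) : St μ q q U 1 := by
  refine ⟨0, {[q]}, ?_, by simp⟩
  intro l hl
  rw [Finset.mem_singleton] at hl
  subst hl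
  exact ⟨rfl, ⟨List.IsChain.singleton _, List.nodup_singleton _, rfl, rfl, fun v hv =>
    Or.inl (List.mem_singleton.1 hv)⟩⟩

theorem St.step (h : adj q q') (U : Pt → Prop) (hw : w * μ ≤ 1) : St μ q q' U w := by
  refine ⟨1, {[q, q']}, ?_, by simpa using hw⟩
  intro l hl
  rw [Finset.mem_singleton] at hl
  subst hl
  have hne : q ≠ q' := by
    rintro rfl
    unfold Pool.Agent.W840.CT.adj at h
    simp at h
  refine ⟨rfl, ⟨?_, ?_, rfl, rfl, fun v hv => ?_⟩⟩
  · simpa using h
  · simpa using hne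
  · simp only [List.mem_cons, List.not_mem_nil, or_false] at hv
    rcases hv with h | h
    · exact Or.inl h
    · exact Or.inr (Or.inl h)

theorem Pth.ne_nil (h : Pth q q' U l) : l ≠ [] := by
  rintro rfl
  simpa using h.hd

theorem Pth.cons (h : Pth q q' U l) : l = q :: l.tail := by
  have h1 := h.hd
  cases l with
  | nil => simp at h1
  | cons a t =>
    simp only [List.head?_cons, Option.some.injEq] at h1
    rw [h1, List.tail_cons]

theorem Pth.rev (h : Pth q q' U l) : Pth q' q U l.reverse := by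
  refine ⟨?_, List.nodup_reverse.2 h.nd, ?_, ?_, fun v hv => ?_⟩
  · rw [List.isChain_reverse]
    exact h.ch.imp (fun a b hab => adj_comm hab)
  · rw [List.head?_reverse]; exact h.tl
  · rw [List.getLast?_reverse]; exact h.hd
  · rw [List.mem_reverse] at hv
    rcases h.mem v hv with h1 | h1 | h1
    · exact Or.inr (Or.inl h1)
    · exact Or.inl h1
    · exact Or.inr (Or.inr h1)

theorem St.rev (h : St μ q q' U w) : St μ q' q U w := by
  classical
  obtain ⟨N, F, h1, h2⟩ := h
  refine ⟨N, F.image List.reverse, ?_, ?_⟩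
  · intro l hl
    rw [Finset.mem_image] at hl
    obtain ⟨l', hl', rfl⟩ := hl
    exact ⟨by rw [List.length_reverse]; exact (h1 l' hl').1, (h1 l' hl').2.rev⟩
  · rw [Finset.card_image_of_injective _ List.reverse_injective]
    exact h2

/-- transport by an injective map which preserves neighbours -/
theorem Pth.map {h : Pt → Pt} (hi : Function.Injective h) (ha : ∀ u v, adj u v → adj (h u) (h v))
    (hp : Pth q q' U l) (hU : ∀ v, U v → U' (h v)) : Pth (h q) (h q') U' (l.map h) := by
  refine ⟨?_, hp.nd.map hi, ?_, ?_, fun v hv => ?_⟩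
  · rw [List.isChain_map]
    exact hp.ch.imp (fun a b hab => ha a b hab)
  · rw [List.head?_map, hp.hd]; rfl
  · rw [List.getLast?_map, hp.tl]; rfl
  · rw [List.mem_map] at hv
    obtain ⟨u, hu, rfl⟩ := hv
    rcases hp.mem u hu with h1 | h1 | h1
    · exact Or.inl (by rw [h1])
    · exact Or.inr (Or.inl (by rw [h1]))
    · exact Or.inr (Or.inr (hU u h1))

theorem St.map {h : Pt → Pt} (hi : Function.Injective h) (ha : ∀ u v, adj u v → adj (h u) (h v))
    (hp : St μ q q' U w) (hU : ∀ v, U v → U' (h v)) : St μ (h q) (h q') U' w := by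
  classical
  obtain ⟨N, F, h1, h2⟩ := hp
  refine ⟨N, F.image (List.map h), ?_, ?_⟩
  · intro l hl
    rw [Finset.mem_image] at hl
    obtain ⟨l', hl', rfl⟩ := hl
    exact ⟨by rw [List.length_map]; exact (h1 l' hl').1, (h1 l' hl').2.map hi ha hU⟩
  · rw [Finset.card_image_of_injective _ (List.map_injective_iff.2 hi)]
    exact h2

/-- concatenation -/
theorem Pth.glue (h : Pth q q' U l) (h' : Pth q' q'' U' l') (h1 : q ≠ q' → q ≠ q'' ∧ ¬ U' q)
    (h2 : q'' ≠ q' → ¬ U q'') (h3 : ∀ v, U v → U' v → False) (h4 : ∀ v, U v → V v)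
    (h5 : ∀ v, U' v → V v) (h6 : V q') : Pth q q'' V (l ++ l'.tail) := by
  have e' := h'.cons
  have nd' : q' ∉ l'.tail ∧ l'.tail.Nodup := by
    have := h'.nd
    rw [e', List.nodup_cons] at this
    exact this
  refine ⟨?_, ?_, ?_, ?_, ?_⟩
  · rw [List.isChain_append]
    refine ⟨h.ch, ?_, ?_⟩
    · have := h'.ch
      rw [e'] at this
      exact this.tail
    · intro x hx y hy
      rw [h.tl] at hx
      simp only [Option.mem_def, Option.some.injEq] at hx
      subst hx
      have := h'.ch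
      rw [e', List.isChain_cons] at this
      exact this.1 y hy
  · rw [List.nodup_append]
    refine ⟨h.nd, nd'.2, ?_⟩
    intro a ha b hb hab
    subst hab
    have hne : a ≠ q' := by
      rintro rfl
      exact nd'.1 hb
    have hb' : a ∈ l' := by rw [e']; exact List.mem_cons_of_mem _ hb
    rcases h.mem a ha with h7 | h7 | h7
    · subst h7
      obtain ⟨h8, h9⟩ := h1 hne
      rcases h'.mem a hb' with h10 | h10 | h10
      · exact hne h10
      · exact h8 h10
      · exact h9 h10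
    · exact hne h7
    · rcases h'.mem a hb' with h10 | h10 | h10
      · exact hne h10
      · subst h10
        exact h2 hne h7
      · exact h3 a h7 h10
  · rw [List.head?_append, h.hd]
    rfl
  · rw [List.getLast?_append]
    have h7 := h'.tl
    rw [e'] at h7
    cases h8 : l'.tail with
    | nil =>
      rw [h8] at h7
      simp only [List.getLast?_singleton, Option.some.injEq] at h7
      rw [List.getLast?_nil, Option.none_or, h.tl, h7]
    | cons a t =>
      rw [h8, List.getLast?_cons_cons] at h7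
      rw [h7]
      rfl
  · intro v hv
    rw [List.mem_append] at hv
    rcases hv with hv | hv
    · rcases h.mem v hv with h7 | h7 | h7
      · exact Or.inl h7
      · exact Or.inr (Or.inr (by rw [h7]; exact h6))
      · exact Or.inr (Or.inr (h4 v h7))
    · have hb' : v ∈ l' := by rw [e']; exact List.mem_cons_of_mem _ hv
      rcases h'.mem v hb' with h7 | h7 | h7
      · exact Or.inr (Or.inr (by rw [h7]; exact h6))
      · exact Or.inr (Or.inl h7)
      · exact Or.inr (Or.inr (h5 v h7))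

theorem St.glue' (hμ : 0 ≤ μ) (hw : 0 ≤ w') (h : St μ q q' U w) (h' : St μ q' q'' U' w')
    (h1 : q ≠ q' → q ≠ q'' ∧ ¬ U' q)
    (h2 : q'' ≠ q' → ¬ U q'') (h3 : ∀ v, U v → U' v → False) (h4 : ∀ v, U v → V v)
    (h5 : ∀ v, U' v → V v) (h6 : V q') : ∃ N, ∃ F : Finset (List Pt),
      (∀ l ∈ F, l.length = N + 1 ∧ Pth q q'' V l ∧ q' ∈ l) ∧ w * w' * μ ^ N ≤ F.card := by
  classical
  obtain ⟨N, F, a1, a2⟩ := h
  obtain ⟨N', F', b1, b2⟩ := h'
  refine ⟨N + N', (F ×ˢ F').image (fun x => x.1 ++ x.2.tail), ?_, ?_⟩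
  · intro l hl
    rw [Finset.mem_image] at hl
    obtain ⟨⟨x, y⟩, hxy, rfl⟩ := hl
    rw [Finset.mem_product] at hxy
    obtain ⟨hx, hy⟩ := hxy
    simp only at hx hy ⊢
    refine ⟨?_, (a1 x hx).2.glue (b1 y hy).2 h1 h2 h3 h4 h5 h6,
      List.mem_append_left _ (List.mem_of_getLast? (a1 x hx).2.tl)⟩
    rw [List.length_append, List.length_tail, (a1 x hx).1, (b1 y hy).1]
    omega
  · rw [Finset.card_image_of_injOn, Finset.card_product]
    · push_cast
      calc w * w' * μ ^ (N + N') = (w * μ ^ N) * (w' * μ ^ N') := by rw [pow_add]; ring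
        _ ≤ _ := by
          apply mul_le_mul a2 b2 (mul_nonneg hw (pow_nonneg hμ _)) (Nat.cast_nonneg _)
    · rintro ⟨x, y⟩ hxy ⟨x', y'⟩ hxy' h7
      rw [Finset.mem_coe, Finset.mem_product] at hxy hxy'
      simp only at hxy hxy' h7
      obtain ⟨h8, h9⟩ := List.append_inj h7 (by rw [(a1 x hxy.1).1, (a1 x' hxy'.1).1])
      have e1 := (b1 y hxy.2).2.cons
      have e2 := (b1 y' hxy'.2).2.cons
      rw [h8, e1, e2, h9]

theorem St.glue (hμ : 0 ≤ μ) (hw : 0 ≤ w') (h : St μ q q' U w) (h' : St μ q' q'' U' w')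
    (h1 : q ≠ q' → q ≠ q'' ∧ ¬ U' q)
    (h2 : q'' ≠ q' → ¬ U q'') (h3 : ∀ v, U v → U' v → False) (h4 : ∀ v, U v → V v)
    (h5 : ∀ v, U' v → V v) (h6 : V q') : St μ q q'' V (w * w') := by
  obtain ⟨N, F, h7, h8⟩ := h.glue' hμ hw h' h1 h2 h3 h4 h5 h6
  exact ⟨N, F, fun l hl => ⟨(h7 l hl).1, (h7 l hl).2.1⟩, h8⟩

/-! ### diamonds -/

open Pool.Agent.H122R3.SX (fw fs mem_fs fw_inj fw_adj fw_injective)
open Pool.Agent.N941.SP (Dm dm)

/-- the path of a word -/
def pl (n : ℕ) (w : Pool.Agent.H122R3.SX.W) : List Pt :=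
  List.ofFn (fun k : Fin (n + 1) => (fw n w k).swap)

theorem pl_pth {Y : ℤ} {n : ℕ} {w : Pool.Agent.H122R3.SX.W} (hw : Dm Y w) (hl : w.length = n) :
    Pth (0, 0) (Y, 0) (fun v => 0 < v.1 - v.2 ∧ v.1 - v.2 < Y ∧ 0 < v.1 + v.2 ∧ v.1 + v.2 < Y)
      (pl n w) := by
  refine ⟨?_, ?_, ?_, ?_, ?_⟩
  · unfold pl
    rw [List.isChain_iff_getElem]
    intro i hi
    rw [List.length_ofFn] at hi
    rw [List.getElem_ofFn, List.getElem_ofFn]
    have h1 := fw_adj hl ⟨i, by omega⟩
    unfold Pool.Agent.H122R3.SX.Adj at h1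
    unfold adj
    simp only [Prod.fst_swap, Prod.snd_swap]
    rw [abs_sub_comm, abs_sub_comm (fw n w ⟨i + 1, _⟩).1]
    have h2 : (⟨i, by omega⟩ : Fin n).castSucc = ⟨i, by omega⟩ := rfl
    have h3 : (⟨i, by omega⟩ : Fin n).succ = ⟨i + 1, by omega⟩ := rfl
    rw [h2, h3] at h1
    omega
  · unfold pl
    rw [List.nodup_ofFn]
    intro i j hij
    exact fw_injective hw.saw hl (Prod.swap_injective hij)
  · unfold pl
    rw [List.ofFn_succ, List.head?_cons]
    unfold fw Pool.Agent.H122R3.SX.V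
    simp [Pool.Agent.H122R3.SX.X]
  · unfold pl
    rw [List.getLast?_eq_getElem?, List.length_ofFn, List.getElem?_ofFn]
    simp only [Nat.add_sub_cancel, Nat.lt_succ_self, dif_pos]
    unfold fw Pool.Agent.H122R3.SX.V
    simp only [Prod.swap_prod_mk]
    rw [List.take_of_length_le (by omega), hw.top, hw.hor]
  · intro v hv
    unfold pl at hv
    rw [List.mem_ofFn] at hv
    obtain ⟨k, rfl⟩ := hv
    have hk := k.2
    rcases Nat.eq_zero_or_pos (k : ℕ) with h0 | h0
    · left
      unfold fw Pool.Agent.H122R3.SX.V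
      rw [h0]
      simp [Pool.Agent.H122R3.SX.X]
    · rcases Nat.lt_or_ge (k : ℕ) n with h1 | h1
      · right; right
        have h2 := hw.mid (w.take k) (List.take_prefix _ _) (by
          intro h
          have := congrArg List.length h
          rw [List.length_take, List.length_nil] at this
          omega) (by
          intro h
          have := congrArg List.length h
          rw [List.length_take] at this
          omega)
        unfold fw Pool.Agent.H122R3.SX.V
        simp only [Prod.swap_prod_mk]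
        obtain ⟨a, ha⟩ : ∃ a, a = Pool.Agent.H122R3.SX.pos (w.take k) 0 := ⟨_, rfl⟩
        obtain ⟨b, hb⟩ : ∃ b, b = Pool.Agent.H122R3.SX.X (w.take k) := ⟨_, rfl⟩
        rw [← ha, ← hb] at h2
        rw [← ha, ← hb]
        rcases abs_cases b with h3 | h3 <;> rcases abs_cases (2 * a - Y) with h4 | h4 <;>
          refine ⟨?_, ?_, ?_, ?_⟩ <;> omega
      · right; left
        unfold fw Pool.Agent.H122R3.SX.V
        simp only [Prod.swap_prod_mk]
        rw [List.take_of_length_le (by omega), hw.top, hw.hor]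

theorem pl_inj {n : ℕ} {w w' : Pool.Agent.H122R3.SX.W} (hl : w.length = n) (hl' : w'.length = n)
    (h : pl n w = pl n w') : w = w' := by
  apply fw_inj hl hl'
  funext k
  exact Prod.swap_injective (congrFun (List.ofFn_injective h) k)

theorem st_dia {Y N : ℕ} (h : w * μ ^ N ≤ dm Y N) : St μ (0, 0) (Y, 0)
    (fun v => 0 < v.1 - v.2 ∧ v.1 - v.2 < Y ∧ 0 < v.1 + v.2 ∧ v.1 + v.2 < Y) w := by
  classical
  refine ⟨N, (fs (Dm Y) N).image (pl N), ?_, ?_⟩
  · intro l hl
    rw [Finset.mem_image] at hl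
    obtain ⟨w, hw, rfl⟩ := hl
    rw [mem_fs] at hw
    exact ⟨by unfold pl; rw [List.length_ofFn], pl_pth hw.1 hw.2⟩
  · rw [Finset.card_image_of_injOn]
    · exact h
    · intro a ha b hb hab
      rw [Finset.mem_coe, mem_fs] at ha hb
      exact pl_inj ha.2 hb.2 hab

end Pool.Agent.T9h33.Str
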