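import Pool.Agent.T9h33.TA

set_option autoImplicit false

/-!
Two independent walks aligned at their midpoints: the probability that the past arm of one avoids
the other.
-/

namespace Pool.Agent.T9h33.TB

open Finset Pool.Agent.T9h33.TA
open Pool.Agent.Results.MP_46f0ca_pr.WindowMerging (IsSAW avg piece increments)
open scoped Classical

/-- the walks -/
noncomputable def Sn (n : ℕ) : Finset (Fin (n + 1) → ℤ × ℤ) :=
  (Pool.Agent.H976R2.finite_saw n).toFinset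

theorem mem_Sn {n : ℕ} {ω : Fin (n + 1) → ℤ × ℤ} : ω ∈ Sn n ↔ IsSAW n ω := by
  unfold Sn
  rw [Set.Finite.mem_toFinset]
  exact Iff.rfl

theorem avg_Sn (n : ℕ) (F : (Fin (n + 1) → ℤ × ℤ) → ℝ) :
    avg n F = (∑ ω ∈ Sn n, F ω) / ((Sn n).card : ℝ) := by
  unfold avg Sn
  have h1 : {ω | IsSAW n ω} = {ω | Pool.Agent.H976R2.IsSAW n ω} := rfl
  rw [h1, finsum_mem_eq_finite_toFinset_sum _ (Pool.Agent.H976R2.finite_saw n),
    Set.ncard_eq_toFinset_card _ (Pool.Agent.H976R2.finite_saw n)]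

theorem card_Sn (n : ℕ) : (Sn n).card = Pool.Agent.H122R3.MS.cS n := by
  rw [Pool.Agent.H122R3.MS.cS_eq]
  unfold H981.C Sn
  rw [← Set.ncard_eq_toFinset_card _ (Pool.Agent.H976R2.finite_saw n)]
  exact (Nat.card_coe_set_eq _).symm

theorem card_pos (n : ℕ) : (0 : ℝ) < (Sn n).card := by
  rw [card_Sn]
  exact Pool.Agent.H122R3.MS.cS_pos n

/-- two fold merging -/
theorem merge2 {Ω X : Type*} (S : Finset Ω) (W : ℕ → Ω → X) (K : ℕ) (e : ℝ)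
    (hm : ∀ k : ℕ, 1 ≤ k → k ≤ K → ∀ F : X → ℝ, (∀ x, |F x| ≤ 1) →
      |∑ ω ∈ S, F (W k ω) - ∑ ω ∈ S, F (W 0 ω)| ≤ e * S.card)
    (R : X → X → Prop) {k l : ℕ} (hk : 1 ≤ k) (hkK : k ≤ K) (hl : 1 ≤ l) (hlK : l ≤ K) :
    ∑ ω ∈ S, ∑ ω' ∈ S, (if R (W 0 ω) (W 0 ω') then (1 : ℝ) else 0) ≤
      ∑ ω ∈ S, ∑ ω' ∈ S, (if R (W k ω) (W l ω') then (1 : ℝ) else 0) +
        2 * e * (S.card : ℝ) ^ 2 := by
  have hb : ∀ (p : Prop) [Decidable p], |(if p then (1 : ℝ) else 0)| ≤ 1 := by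
    intro p _
    split_ifs <;> norm_num
  have h1 : ∀ y : X, ∑ ω ∈ S, (if R (W 0 ω) y then (1 : ℝ) else 0) ≤
      ∑ ω ∈ S, (if R (W k ω) y then (1 : ℝ) else 0) + e * S.card := by
    intro y
    have := (abs_le.mp (hm k hk hkK (fun x => if R x y then (1 : ℝ) else 0)
      (fun x => hb _))).1
    linarith
  have h2 : ∀ x : X, ∑ ω ∈ S, (if R x (W 0 ω) then (1 : ℝ) else 0) ≤
      ∑ ω ∈ S, (if R x (W l ω) then (1 : ℝ) else 0) + e * S.card := by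
    intro x
    have := (abs_le.mp (hm l hl hlK (fun y => if R x y then (1 : ℝ) else 0)
      (fun x => hb _))).1
    linarith
  have h3 : ∑ ω ∈ S, ∑ ω' ∈ S, (if R (W 0 ω) (W 0 ω') then (1 : ℝ) else 0) ≤
      ∑ ω ∈ S, ∑ ω' ∈ S, (if R (W k ω) (W 0 ω') then (1 : ℝ) else 0) +
        e * (S.card : ℝ) ^ 2 := by
    rw [Finset.sum_comm]
    refine (Finset.sum_le_sum (fun ω' _ => h1 (W 0 ω'))).trans (le_of_eq ?_)
    rw [Finset.sum_add_distrib, Finset.sum_const, nsmul_eq_mul, Finset.sum_comm]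
    ring
  have h4 : ∑ ω ∈ S, ∑ ω' ∈ S, (if R (W k ω) (W 0 ω') then (1 : ℝ) else 0) ≤
      ∑ ω ∈ S, ∑ ω' ∈ S, (if R (W k ω) (W l ω') then (1 : ℝ) else 0) +
        e * (S.card : ℝ) ^ 2 := by
    refine (Finset.sum_le_sum (fun ω _ => h2 (W k ω))).trans (le_of_eq ?_)
    rw [Finset.sum_add_distrib, Finset.sum_const, nsmul_eq_mul]
    ring
  linarith

/-- sum over the windows -/
theorem window_sum {Ω X : Type*} (S : Finset Ω) (W : ℕ → Ω → X) (K : ℕ) (hK : 1 ≤ K) (e : ℝ)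
    (hm : ∀ k : ℕ, 1 ≤ k → k ≤ K → ∀ F : X → ℝ, (∀ x, |F x| ≤ 1) →
      |∑ ω ∈ S, F (W k ω) - ∑ ω ∈ S, F (W 0 ω)| ≤ e * S.card)
    (R : X → X → Prop) (Bad : Ω → Prop) (r : ℕ)
    (hcount : ∀ ω ∈ S, ∀ ω' ∈ S, ¬ Bad ω → ¬ Bad ω' →
      ((Icc 1 K ×ˢ Icc 1 K).filter (fun p : ℕ × ℕ => R (W p.1 ω) (W p.2 ω'))).card ≤ r) :
    ∑ ω ∈ S, ∑ ω' ∈ S, (if R (W 0 ω) (W 0 ω') then (1 : ℝ) else 0) ≤
      (r / (K : ℝ) ^ 2 + 2 * e) * (S.card : ℝ) ^ 2 +
        2 * ((S.filter Bad).card : ℝ) * S.card := by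
  set T := ∑ ω ∈ S, ∑ ω' ∈ S, (if R (W 0 ω) (W 0 ω') then (1 : ℝ) else 0) with hT
  have hK0 : (0 : ℝ) < K := by exact_mod_cast hK
  have h1 : ∑ p ∈ Icc 1 K ×ˢ Icc 1 K, T ≤ ∑ p ∈ Icc 1 K ×ˢ Icc 1 K,
      (∑ ω ∈ S, ∑ ω' ∈ S, (if R (W p.1 ω) (W p.2 ω') then (1 : ℝ) else 0) +
        2 * e * (S.card : ℝ) ^ 2) := by
    refine Finset.sum_le_sum fun p hp => ?_
    rw [Finset.mem_product, Finset.mem_Icc, Finset.mem_Icc] at hp
    exact merge2 S W K e hm R hp.1.1 hp.1.2 hp.2.1 hp.2.2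
  have hcard : ((Icc 1 K ×ˢ Icc 1 K).card : ℝ) = (K : ℝ) ^ 2 := by
    rw [Finset.card_product, Nat.card_Icc]
    push_cast
    ring
  rw [Finset.sum_const, nsmul_eq_mul, hcard, Finset.sum_add_distrib, Finset.sum_const,
    nsmul_eq_mul, hcard] at h1
  have h2 : ∑ p ∈ Icc 1 K ×ˢ Icc 1 K,
      ∑ ω ∈ S, ∑ ω' ∈ S, (if R (W p.1 ω) (W p.2 ω') then (1 : ℝ) else 0) =
      ∑ ω ∈ S, ∑ ω' ∈ S, (((Icc 1 K ×ˢ Icc 1 K).filter
        (fun p : ℕ × ℕ => R (W p.1 ω) (W p.2 ω'))).card : ℝ) := by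
    rw [Finset.sum_comm]
    refine Finset.sum_congr rfl fun ω _ => ?_
    rw [Finset.sum_comm]
    refine Finset.sum_congr rfl fun ω' _ => ?_
    rw [Finset.card_filter]
    push_cast
    rfl
  have h3 : ∀ ω ∈ S, ∀ ω' ∈ S, (((Icc 1 K ×ˢ Icc 1 K).filter
        (fun p : ℕ × ℕ => R (W p.1 ω) (W p.2 ω'))).card : ℝ) ≤
      r + (K : ℝ) ^ 2 * ((if Bad ω then (1 : ℝ) else 0) + (if Bad ω' then (1 : ℝ) else 0)) := by
    intro ω hω ω' hω'
    have htriv : (((Icc 1 K ×ˢ Icc 1 K).filter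
        (fun p : ℕ × ℕ => R (W p.1 ω) (W p.2 ω'))).card : ℝ) ≤ (K : ℝ) ^ 2 := by
      rw [← hcard]
      exact_mod_cast Finset.card_filter_le _ _
    have hr0 : (0 : ℝ) ≤ r := Nat.cast_nonneg r
    have hK2 : (0 : ℝ) ≤ (K : ℝ) ^ 2 := by positivity
    by_cases b1 : Bad ω
    · rw [if_pos b1]
      split_ifs <;> nlinarith
    · by_cases b2 : Bad ω'
      · rw [if_neg b1, if_pos b2]
        nlinarith
      · rw [if_neg b1, if_neg b2]
        have := hcount ω hω ω' hω' b1 b2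
        have h : (((Icc 1 K ×ˢ Icc 1 K).filter
          (fun p : ℕ × ℕ => R (W p.1 ω) (W p.2 ω'))).card : ℝ) ≤ r := by exact_mod_cast this
        linarith
  have h4 : ∑ ω ∈ S, ∑ ω' ∈ S, (((Icc 1 K ×ˢ Icc 1 K).filter
        (fun p : ℕ × ℕ => R (W p.1 ω) (W p.2 ω'))).card : ℝ) ≤
      r * (S.card : ℝ) ^ 2 + (K : ℝ) ^ 2 * (2 * ((S.filter Bad).card : ℝ) * S.card) := by
    refine (Finset.sum_le_sum fun ω hω => Finset.sum_le_sum fun ω' hω' =>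
      h3 ω hω ω' hω').trans (le_of_eq ?_)
    have e1 : ((S.filter Bad).card : ℝ) = ∑ ω ∈ S, (if Bad ω then (1 : ℝ) else 0) := by
      rw [Finset.card_filter]
      push_cast
      rfl
    rw [e1]
    simp only [Finset.sum_add_distrib, Finset.sum_const, nsmul_eq_mul, ← Finset.mul_sum]
    ring
  rw [h2] at h1
  have h5 : (K : ℝ) ^ 2 * T ≤ (K : ℝ) ^ 2 * ((r / (K : ℝ) ^ 2 + 2 * e) * (S.card : ℝ) ^ 2 +
        2 * ((S.filter Bad).card : ℝ) * S.card) := by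
    have e3 : (K : ℝ) ^ 2 * ((r / (K : ℝ) ^ 2 + 2 * e) * (S.card : ℝ) ^ 2 +
        2 * ((S.filter Bad).card : ℝ) * S.card) =
        r * (S.card : ℝ) ^ 2 + (K : ℝ) ^ 2 * (2 * ((S.filter Bad).card : ℝ) * S.card) +
          (K : ℝ) ^ 2 * (2 * e * (S.card : ℝ) ^ 2) := by
      field_simp
      ring
    rw [e3]
    linarith
  exact le_of_mul_le_mul_left h5 (by positivity)

/-- the walk moves more than `r` in a coordinate direction during `[i, i + m]` -/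
def Far {n : ℕ} (i m r : ℕ) (ω : Fin (n + 1) → ℤ × ℤ) : Prop :=
  ¬ ∀ j ≤ m, |(P ω (i + j) - P ω i).1| ≤ r ∧ |(P ω (i + j) - P ω i).2| ≤ r

open Pool.Agent.H122R3.MS (Pt seg prob hfin) in
open Pool.Agent.W387.MS2 (rad AllSeg) in
open Pool.Agent.H979R2.P2 (dist2 diam le_diam) in
theorem far_le : ∃ c C : ℝ, 0 < c ∧ c ≤ 1 ∧ 1 ≤ C ∧ ∀ n : ℕ, 16 ≤ n → ∀ i m : ℕ, i + m ≤ n →
    16 * Real.log n ^ 2 ≤ m → ∀ r : ℕ, rad c C (Real.log n ^ 2) m ≤ r →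
    (((Sn n).filter (Far i m r)).card : ℝ) ≤
      C * Real.exp (-(Real.log n ^ 2)) * (Sn n).card := by
  obtain ⟨c, C, hc0, hc1, hC1, h⟩ := Pool.Agent.Y981.All.all_seg
  refine ⟨c, C, hc0, hc1, hC1, fun n hn i m him hm r hr => ?_⟩
  have h1 := h n hn (Real.log n ^ 2) le_rfl
  set T : ℝ := Real.log n ^ 2 with hT
  set e := Equiv.arrowCongr (Equiv.refl (Fin (n + 1))) (finTwoArrowEquiv ℤ) with he
  have hfar : ∀ ω : Fin (n + 1) → ℤ × ℤ, Far i m r ω → ¬ AllSeg c C T n (e.symm ω) := by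
    intro ω hF hA
    apply hF
    intro j hj
    have h2 := hA i m him hm
    have h3 := (le_diam (seg (e.symm ω) i m) (Fin.ofNat _ j) 0).trans (h2.le.trans hr)
    have hval : ((Fin.ofNat (m + 1) j : Fin (m + 1)) : ℕ) = j := val_ofNat hj
    have hx : ∀ k : Fin (n + 1), (e.symm ω) k 0 = (ω k).1 := fun k => rfl
    have hy : ∀ k : Fin (n + 1), (e.symm ω) k 1 = (ω k).2 := fun k => rfl
    have h4 : dist2 (seg (e.symm ω) i m (Fin.ofNat _ j)) (seg (e.symm ω) i m 0) =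
        Real.sqrt (((((P ω (i + j) - P ω i).1 : ℤ) : ℝ)) ^ 2 +
          ((((P ω (i + j) - P ω i).2 : ℤ) : ℝ)) ^ 2) := by
      unfold dist2 seg
      congr 1
      rw [Fin.sum_univ_two, hval]
      simp only [Pi.sub_apply, hx, hy, P, Fin.val_zero, add_zero, sub_self, Int.cast_zero,
        sub_zero, Prod.fst_sub, Prod.snd_sub]
    rw [h4] at h3
    have h5 : (((((P ω (i + j) - P ω i).1 : ℤ) : ℝ)) ^ 2 +
          ((((P ω (i + j) - P ω i).2 : ℤ) : ℝ)) ^ 2) ≤ (r : ℝ) ^ 2 := by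
      have := Real.sqrt_le_left (Nat.cast_nonneg r) |>.mp h3
      exact this
    constructor
    · have h6 : ((((P ω (i + j) - P ω i).1 : ℤ) : ℝ)) ^ 2 ≤ (r : ℝ) ^ 2 := by
        nlinarith [sq_nonneg ((((P ω (i + j) - P ω i).2 : ℤ) : ℝ))]
      have h7 := abs_le_of_sq_le_sq h6 (Nat.cast_nonneg r)
      exact_mod_cast h7
    · have h6 : ((((P ω (i + j) - P ω i).2 : ℤ) : ℝ)) ^ 2 ≤ (r : ℝ) ^ 2 := by
        nlinarith [sq_nonneg ((((P ω (i + j) - P ω i).1 : ℤ) : ℝ))]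
      have h7 := abs_le_of_sq_le_sq h6 (Nat.cast_nonneg r)
      exact_mod_cast h7
  have hle : ((Sn n).filter (Far i m r)).card ≤
      Nat.card {w : Fin (n + 1) → Pt // Pool.Agent.H122R3.MS.IsSAW n w ∧
        ¬ AllSeg c C T n w} := by
    have := hfin n
    have : Finite {w : Fin (n + 1) → Pt // Pool.Agent.H122R3.MS.IsSAW n w ∧
        ¬ AllSeg c C T n w} :=
      Finite.of_injective (β := {w : Fin (n + 1) → Pt // Pool.Agent.H122R3.MS.IsSAW n w})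
        (fun w => ⟨w.1, w.2.1⟩) (fun a b hab => Subtype.ext (by simpa using hab))
    have e1 : ((Sn n).filter (Far i m r)).card =
        Nat.card {ω // ω ∈ (Sn n).filter (Far i m r)} := by
      rw [Nat.card_eq_fintype_card, Fintype.card_coe]
    rw [e1]
    refine Nat.card_le_card_of_injective (fun ω => ⟨e.symm ω.1, ?_, ?_⟩) ?_
    · have := (Finset.mem_filter.mp ω.2).1
      rw [mem_Sn] at this
      rw [Pool.Agent.H122R3.MS.saw_iff, ← he, Equiv.apply_symm_apply]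
      exact this
    · exact hfar _ (Finset.mem_filter.mp ω.2).2
    · intro a b hab
      exact Subtype.ext (e.symm.injective (congrArg Subtype.val hab))
  have h2 := Pool.Agent.H122R3.MS.prob_eq n (fun w => ¬ AllSeg c C T n w)
  calc (((Sn n).filter (Far i m r)).card : ℝ)
      ≤ (Nat.card {w : Fin (n + 1) → Pt // Pool.Agent.H122R3.MS.IsSAW n w ∧
        ¬ AllSeg c C T n w} : ℝ) := by exact_mod_cast hle
    _ = prob n (fun w => ¬ AllSeg c C T n w) * Pool.Agent.H122R3.MS.cS n := h2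
    _ ≤ C * Real.exp (-T) * (Sn n).card := by
        rw [card_Sn]
        exact mul_le_mul_of_nonneg_right h1 (Nat.cast_nonneg _)

end Pool.Agent.T9h33.TB
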