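import Pool.Agent.T9h33.TB

set_option autoImplicit false

/-!
Two independent walks aligned at their midpoints: the probability that the past arm of one avoids
the other decays.
-/

namespace Pool.Agent.T9h33.TC

open Finset Pool.Agent.T9h33.TA Pool.Agent.T9h33.TB
open Pool.Agent.Results.MP_46f0ca_pr.WindowMerging (IsSAW avg piece increments)
open Pool.Agent.W387.MS2 (rad)
open scoped Classical

/-- the past arm of `ω` from its midpoint avoids `ω'` aligned at its midpoint -/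
def Av (n : ℕ) (ω ω' : Fin (2 * n + 1) → ℤ × ℤ) : Prop :=
  ∀ u v : ℕ, u < n → v ≤ 2 * n → P ω u - P ω n ≠ P ω' v - P ω' n

theorem raw : ∃ c C D : ℝ, 0 < c ∧ c ≤ 1 ∧ 1 ≤ C ∧ 0 < D ∧ ∀ n K r : ℕ, 16 ≤ n → 1 ≤ K →
    8 * K ≤ n → D * Real.log (2 * n : ℕ) ^ 2 ≤ (n : ℝ) / 2 →
    16 * Real.log (2 * n : ℕ) ^ 2 ≤ (2 * K : ℕ) →
    rad c C (Real.log (2 * n : ℕ) ^ 2) (2 * K : ℕ) ≤ r →
    ∑ ω ∈ Sn (2 * n), ∑ ω' ∈ Sn (2 * n), (if Av n ω ω' then (1 : ℝ) else 0) ≤
      (((4 * r + 1) ^ 2 : ℕ) / (K : ℝ) ^ 2 + 2 * (D * (Real.sqrt (K * (Real.log (2 * n : ℕ) /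
        Real.sqrt (2 * n : ℕ))) + 2 * (K / Real.sqrt ((n : ℝ) / 2)))) +
        2 * (C * Real.exp (-(Real.log (2 * n : ℕ) ^ 2)))) * ((Sn (2 * n)).card : ℝ) ^ 2 := by
  obtain ⟨c, C, hc0, hc1, hC1, hfar⟩ := far_le
  obtain ⟨D, hD, hwin⟩ := Pool.Agent.Results.MP_46f0ca_pr.WindowMerging.result
  refine ⟨c, C, D, hc0, hc1, hC1, hD, fun n K r hn hK h8 hDn hK2 hrad => ?_⟩
  set e : ℝ := D * (Real.sqrt (K * (Real.log (2 * n : ℕ) /
        Real.sqrt (2 * n : ℕ))) + 2 * (K / Real.sqrt ((n : ℝ) / 2))) with he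
  set W : ℕ → (Fin (2 * n + 1) → ℤ × ℤ) → (Fin (4 * K + 1) → ℤ × ℤ) :=
    fun k ω => increments (n - 2 * K + 2 * k) (4 * K) ω with hW
  have hcp := card_pos (2 * n)
  have hnR : (16 : ℝ) ≤ n := by exact_mod_cast hn
  have h8R : 8 * (K : ℝ) ≤ n := by exact_mod_cast h8
  have hK0 : (1 : ℝ) ≤ K := by exact_mod_cast hK
  have hm : ∀ k : ℕ, 1 ≤ k → k ≤ K → ∀ F : (Fin (4 * K + 1) → ℤ × ℤ) → ℝ, (∀ x, |F x| ≤ 1) →
      |∑ ω ∈ Sn (2 * n), F (W k ω) - ∑ ω ∈ Sn (2 * n), F (W 0 ω)| ≤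
        e * (Sn (2 * n)).card := by
    intro k hk hkK F hF
    have hkR : (k : ℝ) ≤ K := by exact_mod_cast hkK
    have hsub : ((n - 2 * K : ℕ) : ℝ) = n - 2 * K := by
      rw [Nat.cast_sub (by omega)]
      push_cast
      ring
    have h1 := (hwin (2 * n) k (by omega) hk).2 (n - 2 * K) (4 * K) (by
      rw [hsub]; linarith) (by
      rw [hsub]; push_cast at hDn ⊢; linarith) F hF
    rw [avg_Sn, avg_Sn, ← sub_div, abs_div, abs_of_pos hcp, div_le_iff₀ hcp] at h1
    have e0 : W 0 = fun ω => increments (n - 2 * K) (4 * K) ω := by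
      rw [hW]
      simp
    rw [e0]
    refine h1.trans (mul_le_mul_of_nonneg_right ?_ hcp.le)
    rw [he]
    refine mul_le_mul_of_nonneg_left ?_ hD.le
    have hl0 : 0 ≤ Real.log ((2 * n : ℕ) : ℝ) := Real.log_natCast_nonneg _
    have hs1 : 0 < Real.sqrt ((n : ℝ) / 2) := Real.sqrt_pos.mpr (by linarith)
    have a1 : Real.sqrt (k * (Real.log (2 * n : ℕ) / Real.sqrt (2 * n : ℕ))) ≤
        Real.sqrt (K * (Real.log (2 * n : ℕ) / Real.sqrt (2 * n : ℕ))) := by
      refine Real.sqrt_le_sqrt (mul_le_mul_of_nonneg_right hkR (by positivity))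
    have a2 : (k : ℝ) / Real.sqrt ((n - 2 * K : ℕ) : ℝ) ≤ K / Real.sqrt ((n : ℝ) / 2) := by
      refine div_le_div₀ (by linarith) hkR hs1 (Real.sqrt_le_sqrt ?_)
      rw [hsub]; linarith
    have a3 : (k : ℝ) / Real.sqrt (((2 * n : ℕ) : ℝ) - 2 * k - (n - 2 * K : ℕ) - (4 * K : ℕ)) ≤
        K / Real.sqrt ((n : ℝ) / 2) := by
      refine div_le_div₀ (by linarith) hkR hs1 (Real.sqrt_le_sqrt ?_)
      rw [hsub]; push_cast; linarith
    linarith
  have hmain := window_sum (Sn (2 * n)) W K hK e hm (Aw K) (Far n (2 * K) r) ((4 * r + 1) ^ 2) (by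
    intro ω _ ω' hω' hb hb'
    unfold Far at hb hb'
    push Not at hb hb'
    exact count_le (mem_Sn.mp hω') (by omega) r hb hb')
  have hbad := hfar (2 * n) (by omega) n (2 * K) (by omega) hK2 r hrad
  have hle : ∑ ω ∈ Sn (2 * n), ∑ ω' ∈ Sn (2 * n), (if Av n ω ω' then (1 : ℝ) else 0) ≤
      ∑ ω ∈ Sn (2 * n), ∑ ω' ∈ Sn (2 * n), (if Aw K (W 0 ω) (W 0 ω') then (1 : ℝ) else 0) := by
    refine Finset.sum_le_sum fun ω _ => Finset.sum_le_sum fun ω' _ => ?_
    by_cases h : Av n ω ω'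
    · have h2 : Aw K (W 0 ω) (W 0 ω') := by
        rw [hW]
        simp only [Nat.mul_zero, Nat.add_zero]
        rw [Aw_iff]
        intro s t hs ht
        have e1 : n - 2 * K + 2 * K = n := by omega
        rw [e1]
        exact h _ _ (by omega) (by omega)
      rw [if_pos h, if_pos h2]
    · rw [if_neg h]
      split_ifs <;> norm_num
  refine hle.trans (hmain.trans ?_)
  nlinarith

theorem ev_sq (a b : ℝ) (hb : 0 < b) : ∃ l0 : ℝ, ∀ l : ℝ, l0 ≤ l → 0 < l →
    a * l ^ 2 ≤ Real.exp (b * l) := by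
  refine ⟨6 * a / b ^ 3, fun l hl hl0 => ?_⟩
  have h1 := Real.pow_div_factorial_le_exp (b * l) (by positivity) 3
  have h2 : (b * l) ^ 3 / ((Nat.factorial 3 : ℕ) : ℝ) = b ^ 3 * l ^ 3 / 6 := by
    norm_num [Nat.factorial]
    ring
  rw [h2] at h1
  refine le_trans ?_ h1
  rw [div_le_iff₀ (by positivity)] at hl
  have h3 : 6 * a * l ^ 2 ≤ l * b ^ 3 * l ^ 2 := mul_le_mul_of_nonneg_right hl (by positivity)
  nlinarith

theorem loglog_le {l : ℝ} (hl : 0 < l) : Real.log l ≤ 2 * Real.sqrt l := by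
  have h1 : 0 < Real.sqrt l := Real.sqrt_pos.mpr hl
  have h2 := Real.log_le_sub_one_of_pos h1
  have h3 : Real.log l = 2 * Real.log (Real.sqrt l) := by
    conv_lhs => rw [← Real.sq_sqrt hl.le]
    rw [Real.log_pow]
    norm_num
  linarith

theorem theta : ∃ κ : ℝ, 0 < κ ∧ ∃ N0 : ℕ, ∀ n : ℕ, N0 ≤ n →
    ∑ ω ∈ Sn (2 * n), ∑ ω' ∈ Sn (2 * n), (if Av n ω ω' then (1 : ℝ) else 0) ≤
      Real.exp (-(κ * (Real.log n / Real.log (Real.log n)))) *
        ((Sn (2 * n)).card : ℝ) ^ 2 := by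
  obtain ⟨c, C, D, hc0, hc1, hC1, hD, hraw⟩ := raw
  set C3 : ℝ := (8 * C + 10) ^ 2 + 10 * D + 2 * C with hC3
  have hC3pos : 1 ≤ C3 := by rw [hC3]; linarith [sq_nonneg (8 * C + 10)]
  obtain ⟨l1, h1⟩ := ev_sq (8 * D) 1 one_pos
  obtain ⟨l2, h2⟩ := ev_sq 64 (1 / 16) (by norm_num)
  refine ⟨c / 32, by positivity,
    ⌈Real.exp (max (max l1 l2) (max 64 ((64 * Real.log C3 / c) ^ 2)))⌉₊, fun n hn => ?_⟩
  have hnexp : Real.exp (max (max l1 l2) (max 64 ((64 * Real.log C3 / c) ^ 2))) ≤ n :=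
    (Nat.le_ceil _).trans (by exact_mod_cast hn)
  have hnpos : (0 : ℝ) < n := (Real.exp_pos _).trans_le hnexp
  set l : ℝ := Real.log n with hl
  have hel : Real.exp l = n := Real.exp_log hnpos
  have hlmax : max (max l1 l2) (max 64 ((64 * Real.log C3 / c) ^ 2)) ≤ l := by
    rw [hl, Real.le_log_iff_exp_le hnpos]
    exact hnexp
  have a1 : l1 ≤ l := (le_max_left _ _).trans ((le_max_left _ _).trans hlmax)
  have a2 : l2 ≤ l := (le_max_right _ _).trans ((le_max_left _ _).trans hlmax)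
  have a3 : 64 ≤ l := (le_max_left _ _).trans ((le_max_right _ _).trans hlmax)
  have a4 : (64 * Real.log C3 / c) ^ 2 ≤ l :=
    (le_max_right _ _).trans ((le_max_right _ _).trans hlmax)
  have hl0 : 0 < l := by linarith
  have b1 := h1 l a1 hl0
  have b2 := h2 l a2 hl0
  rw [one_mul, hel] at b1
  -- powers of `n`
  set q : ℝ := Real.exp (l / 16) with hq
  have hq1 : 1 ≤ q := Real.one_le_exp (by positivity)
  have hq0 : 0 < q := Real.exp_pos _
  have hqn : q ^ 16 = n := by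
    rw [hq, ← Real.exp_nat_mul, ← hel]
    congr 1
    push_cast
    ring
  have b2' : 64 * l ^ 2 ≤ q := by
    rw [hq]
    convert b2 using 2
    ring
  have hl64 : (64 : ℝ) ^ 2 ≤ l ^ 2 := pow_le_pow_left₀ (by norm_num) a3 2
  have hq64 : 64 * 64 ^ 2 ≤ q := by linarith
  have hqq : q ≤ q ^ 2 := le_self_pow₀ hq1 (by norm_num)
  -- the window
  set K : ℕ := ⌊q ^ 2⌋₊ with hK
  have hKle : (K : ℝ) ≤ q ^ 2 := Nat.floor_le (by positivity)
  have hKge : q ^ 2 / 2 ≤ K := by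
    have := Nat.lt_floor_add_one (q ^ 2)
    rw [← hK] at this
    linarith
  have hKpos : (0 : ℝ) < K := lt_of_lt_of_le (by positivity) hKge
  have hK1 : 1 ≤ K := by exact_mod_cast hKpos
  have hnq : 8 * q ^ 2 ≤ n := by
    rw [← hqn]
    calc 8 * q ^ 2 ≤ q * q ^ 2 := mul_le_mul_of_nonneg_right (by linarith) (by positivity)
      _ = q ^ 3 := by ring
      _ ≤ q ^ 16 := pow_le_pow_right₀ hq1 (by norm_num)
  have h8K : 8 * K ≤ n := by
    have : 8 * (K : ℝ) ≤ n := by linarith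
    exact_mod_cast this
  -- the logarithm of `2 n`
  set L : ℝ := Real.log ((2 * n : ℕ) : ℝ) with hL
  have hL1 : l ≤ L := by
    rw [hL, hl]
    exact Real.log_le_log hnpos (by push_cast; linarith)
  have hL2 : L ≤ 2 * l := by
    rw [hL, hl]
    push_cast
    rw [Real.log_mul (by norm_num) hnpos.ne']
    have : Real.log 2 ≤ 1 := by
      have := Real.log_two_lt_d9
      linarith
    linarith
  have hLsq : L ^ 2 ≤ 4 * l ^ 2 := by
    calc L ^ 2 ≤ (2 * l) ^ 2 := pow_le_pow_left₀ (by linarith) hL2 2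
      _ = 4 * l ^ 2 := by ring
  have hL0 : 0 < L := by linarith
  have hLsq0 : 0 < L ^ 2 := by positivity
  -- the diameter
  set ll : ℝ := Real.log l with hll
  have hll1 : 1 ≤ ll := by
    rw [hll, Real.le_log_iff_exp_le hl0]
    have := Real.exp_one_lt_d9
    linarith
  set v : ℝ := Real.exp (-(c / 16 * (l / ll))) with hv
  have hv0 : 0 < v := Real.exp_pos _
  have hv1 : v ≤ 1 := Real.exp_le_one_iff.mpr (by
    have : 0 ≤ c / 16 * (l / ll) := by positivity
    linarith)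
  have hqv : 1 / q ^ 2 ≤ v := by
    rw [hq, ← Real.exp_nat_mul, one_div, ← Real.exp_neg, hv]
    refine Real.exp_le_exp.mpr (neg_le_neg ?_)
    have h3 : l / ll ≤ l := div_le_self hl0.le hll1
    have h4 : c / 16 * (l / ll) ≤ 1 / 16 * l :=
      mul_le_mul (by linarith) h3 (by positivity) (by norm_num)
    push_cast
    linarith
  set x : ℝ := ((2 * K : ℕ) : ℝ) / L ^ 2 with hx
  have hxge : q ≤ x := by
    rw [hx, le_div_iff₀ hLsq0]
    push_cast
    have : L ^ 2 ≤ q / 16 := by linarith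
    have h3 : q * L ^ 2 ≤ q * (q / 16) := mul_le_mul_of_nonneg_left this hq0.le
    have h4 : q * (q / 16) = q ^ 2 / 16 := by ring
    have h5 : 0 < q ^ 2 := by positivity
    linarith
  have hxle : x ≤ n := by
    rw [hx, div_le_iff₀ hLsq0]
    push_cast
    have : 1 ≤ L ^ 2 := one_le_pow₀ (by linarith)
    have h3 : (n : ℝ) * 1 ≤ n * L ^ 2 := mul_le_mul_of_nonneg_left this hnpos.le
    linarith
  have hx0 : 0 < x := by linarith
  have hlx : l / 16 ≤ Real.log x := by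
    rw [Real.le_log_iff_exp_le hx0]
    exact hxge
  have hlx2 : Real.log x ≤ l := Real.log_le_log hx0 hxle
  have hllx0 : 1 ≤ Real.log (Real.log x) := by
    rw [Real.le_log_iff_exp_le (by linarith)]
    have := Real.exp_one_lt_d9
    linarith
  have hllx : Real.log (Real.log x) ≤ ll := Real.log_le_log (by linarith) hlx2
  have hrad : rad c C (L ^ 2) ((2 * K : ℕ) : ℝ) ≤ C * (2 * K) * v := by
    unfold rad
    push_cast
    refine mul_le_mul_of_nonneg_left ?_ (by positivity)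
    have e1 : ((2 : ℝ) * K) / L ^ 2 = x := by rw [hx]; push_cast; rfl
    rw [e1, Real.rpow_def_of_pos hx0, hv]
    refine Real.exp_le_exp.mpr ?_
    have h3 : l / 16 / ll ≤ Real.log x / Real.log (Real.log x) :=
      div_le_div₀ (by linarith) hlx (by linarith) hllx
    have h4 := mul_le_mul_of_nonneg_left h3 hc0.le
    have e2 : Real.log x * -(c / Real.log (Real.log x)) =
        -(c * (Real.log x / Real.log (Real.log x))) := by ring
    have e3 : c / 16 * (l / ll) = c * (l / 16 / ll) := by ring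
    rw [e2, e3]
    linarith
  set r : ℕ := ⌈C * (2 * K) * v⌉₊ with hr
  have hr1 : rad c C (L ^ 2) ((2 * K : ℕ) : ℝ) ≤ r := hrad.trans (Nat.le_ceil _)
  have hr2 : (r : ℝ) ≤ C * (2 * K) * v + 1 := (Nat.ceil_lt_add_one (by positivity)).le
  have key := hraw n K r (by
    have : (16 : ℝ) ≤ n := by linarith
    exact_mod_cast this) hK1 h8K (by
    rw [← hL]
    have : D * L ^ 2 ≤ D * (4 * l ^ 2) := mul_le_mul_of_nonneg_left hLsq hD.le
    linarith) (by
    rw [← hL]
    push_cast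
    linarith) (by rw [← hL]; exact hr1)
  rw [← hL] at key
  refine key.trans (mul_le_mul_of_nonneg_right ?_ (by positivity))
  -- the three terms
  have t1 : (((4 * r + 1) ^ 2 : ℕ) : ℝ) / (K : ℝ) ^ 2 ≤ (8 * C + 10) ^ 2 * v := by
    have h3 : (4 * (r : ℝ) + 1) / K ≤ (8 * C + 10) * v := by
      rw [div_le_iff₀ hKpos]
      have h5 : 1 ≤ v * q ^ 2 := by
        rw [div_le_iff₀ (by positivity)] at hqv
        exact hqv
      have h6 : v * (q ^ 2 / 2) ≤ v * K := mul_le_mul_of_nonneg_left hKge hv0.le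
      have h7 : 4 * (r : ℝ) ≤ 4 * (C * (2 * K) * v + 1) :=
        mul_le_mul_of_nonneg_left hr2 (by norm_num)
      have h8 : (8 * C + 10) * v * K = 4 * (C * (2 * K) * v) + 10 * (v * K) := by ring
      have h9 : v * (q ^ 2 / 2) = v * q ^ 2 / 2 := by ring
      linarith
    have h4 : 0 ≤ (4 * (r : ℝ) + 1) / K := by positivity
    have h5 := pow_le_pow_left₀ h4 h3 2
    push_cast
    rw [← div_pow]
    refine h5.trans ?_
    rw [mul_pow]
    refine mul_le_mul_of_nonneg_left ?_ (by positivity)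
    exact pow_le_of_le_one hv0.le hv1 (by norm_num)
  have t2 : Real.sqrt (K * (L / Real.sqrt ((2 * n : ℕ) : ℝ))) ≤ v := by
    have hs : q ^ 8 ≤ Real.sqrt ((2 * n : ℕ) : ℝ) := by
      refine Real.le_sqrt_of_sq_le ?_
      push_cast
      have e8 : (q ^ 8) ^ 2 = q ^ 16 := by ring
      rw [e8, hqn]
      linarith
    have h3 : (K : ℝ) * (L / Real.sqrt ((2 * n : ℕ) : ℝ)) ≤ (1 / q ^ 2) ^ 2 := by
      have hLq : L ≤ q := by
        have : l ≤ l ^ 2 := le_self_pow₀ (by linarith) (by norm_num)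
        linarith
      have h4 : L / Real.sqrt ((2 * n : ℕ) : ℝ) ≤ q / q ^ 8 :=
        div_le_div₀ hq0.le hLq (by positivity) hs
      calc (K : ℝ) * (L / Real.sqrt ((2 * n : ℕ) : ℝ)) ≤ q ^ 2 * (q / q ^ 8) :=
            mul_le_mul hKle h4 (by positivity) (by positivity)
        _ = q * (1 / q ^ 2) ^ 2 / q ^ 2 := by field_simp
        _ ≤ (1 / q ^ 2) ^ 2 := by
            rw [div_le_iff₀ (by positivity), mul_comm]
            exact mul_le_mul_of_nonneg_left hqq (by positivity)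
    exact (Real.sqrt_le_sqrt h3).trans ((Real.sqrt_sq (by positivity)).le.trans hqv)
  have t3 : (K : ℝ) / Real.sqrt ((n : ℝ) / 2) ≤ 2 * v := by
    have hs : q ^ 8 / 2 ≤ Real.sqrt ((n : ℝ) / 2) := by
      refine Real.le_sqrt_of_sq_le ?_
      have e8 : (q ^ 8 / 2) ^ 2 = q ^ 16 / 4 := by ring
      rw [e8, hqn]
      linarith
    have h3 : (K : ℝ) / Real.sqrt ((n : ℝ) / 2) ≤ q ^ 2 / (q ^ 8 / 2) :=
      div_le_div₀ (by positivity) hKle (by positivity) hs
    refine h3.trans ?_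
    have h4 : q ^ 2 / (q ^ 8 / 2) = 2 * (1 / q ^ 2) * (1 / q ^ 4) := by field_simp
    rw [h4]
    have h5 : 1 / q ^ 4 ≤ 1 := by
      rw [div_le_one (by positivity)]
      exact one_le_pow₀ hq1
    have h6 : 0 < 1 / q ^ 2 := by positivity
    calc 2 * (1 / q ^ 2) * (1 / q ^ 4) ≤ 2 * (1 / q ^ 2) * 1 :=
          mul_le_mul_of_nonneg_left h5 (by positivity)
      _ ≤ 2 * v := by linarith
  have t4 : Real.exp (-(L ^ 2)) ≤ v := by
    rw [hv]
    refine Real.exp_le_exp.mpr (neg_le_neg ?_)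
    have h3 : l / ll ≤ l := div_le_self hl0.le hll1
    have h4 : c / 16 * (l / ll) ≤ 1 / 16 * l :=
      mul_le_mul (by linarith) h3 (by positivity) (by norm_num)
    have h5 : L ≤ L ^ 2 := le_self_pow₀ (by linarith) (by norm_num)
    linarith
  have t5 : C3 * v ≤ Real.exp (-(c / 32 * (l / ll))) := by
    have h3 : Real.log C3 ≤ c / 32 * (l / ll) := by
      have h4 : Real.sqrt l / 2 ≤ l / ll := by
        rw [div_le_div_iff₀ (by norm_num) (by linarith)]
        have := mul_le_mul_of_nonneg_left (loglog_le hl0) (Real.sqrt_nonneg l)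
        have h5 := Real.mul_self_sqrt hl0.le
        have h7 : Real.sqrt l * (2 * Real.sqrt l) = 2 * (Real.sqrt l * Real.sqrt l) := by ring
        rw [hll]
        linarith
      have h6 : 64 * Real.log C3 / c ≤ Real.sqrt l := by
        refine Real.le_sqrt_of_sq_le a4
      rw [div_le_iff₀ hc0] at h6
      have h8 := mul_le_mul_of_nonneg_left h4 hc0.le
      linarith
    have h4 : C3 = Real.exp (Real.log C3) := (Real.exp_log (by linarith)).symm
    rw [h4, hv, ← Real.exp_add]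
    refine Real.exp_le_exp.mpr ?_
    linarith
  refine le_trans ?_ t5
  have t2' := mul_le_mul_of_nonneg_left t2 hD.le
  have t3' := mul_le_mul_of_nonneg_left t3 hD.le
  have t4' := mul_le_mul_of_nonneg_left t4 (show (0 : ℝ) ≤ C by linarith)
  rw [hC3]
  linarith

end Pool.Agent.T9h33.TC
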